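import Pool.Graph.R_seed8.Helper534.LS.P_hmap_comp
import Pool.Graph.R_seed8.Helper534.LS.P_hmap_id
import Pool.Graph.R_seed8.Helper534.LS.P_hmap_homotopic

/-! # Maps which induce isomorphisms of integral homology -/

set_option autoImplicit false

namespace Pool.Agent.H753.Cob

open Set Topology
open Pool.Agent.Helper534.LS

variable {X Y Z : Type} [TopologicalSpace X] [TopologicalSpace Y] [TopologicalSpace Z]

/-- `f` induces isomorphisms of integral homology -/
def HIso (f : C(X, Y)) : Prop := ∀ n, Function.Bijective (hmap f n)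

theorem hiso_id : HIso (ContinuousMap.id X) := by
  intro n
  have h : ⇑(hmap (ContinuousMap.id X) n) = id := funext fun x => hmap_id n x
  rw [h]
  exact Function.bijective_id

theorem hmap_comp_fun (f : C(X, Y)) (g : C(Y, Z)) (n : ℕ) :
    ⇑(hmap (g.comp f) n) = ⇑(hmap g n) ∘ ⇑(hmap f n) := funext fun x => hmap_comp f g n x

theorem HIso.comp {f : C(X, Y)} {g : C(Y, Z)} (hg : HIso g) (hf : HIso f) : HIso (g.comp f) := by
  intro n
  rw [hmap_comp_fun]
  exact (hg n).comp (hf n)

theorem HIso.of_comp_left {f : C(X, Y)} {g : C(Y, Z)} (h : HIso (g.comp f)) (hg : HIso g) :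
    HIso f := by
  intro n
  have h1 := h n
  rw [hmap_comp_fun] at h1
  exact (Function.Bijective.of_comp_iff' (hg n) _).1 h1

theorem HIso.of_comp_right {f : C(X, Y)} {g : C(Y, Z)} (h : HIso (g.comp f)) (hf : HIso f) :
    HIso g := by
  intro n
  have h1 := h n
  rw [hmap_comp_fun] at h1
  exact (Function.Bijective.of_comp_iff _ (hf n)).1 h1

theorem HIso.congr {f g : C(X, Y)} (h : HIso f) (hfg : f.Homotopic g) : HIso g := by
  intro n
  rw [← hmap_homotopic f g hfg n]
  exact h n

theorem hiso_of_inverse (f : C(X, Y)) (g : C(Y, X))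
    (h1 : (g.comp f).Homotopic (ContinuousMap.id X)) (h2 : (f.comp g).Homotopic (ContinuousMap.id Y)) :
    HIso f := by
  intro n
  have e1 : ∀ x, hmap g n (hmap f n x) = x := fun x => by
    rw [← hmap_comp, hmap_homotopic _ _ h1, hmap_id]
  have e2 : ∀ y, hmap f n (hmap g n y) = y := fun y => by
    rw [← hmap_comp, hmap_homotopic _ _ h2, hmap_id]
  exact ⟨fun a b hab => by rw [← e1 a, ← e1 b, hab], fun y => ⟨_, e2 y⟩⟩

/-- a map with a strict left inverse which is a right inverse up to homotopy -/
theorem hiso_of_section (f : C(X, Y)) (g : C(Y, X)) (h1 : ∀ x, g (f x) = x)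
    (h2 : (f.comp g).Homotopic (ContinuousMap.id Y)) : HIso f ∧ HIso g := by
  have e : g.comp f = ContinuousMap.id X := ContinuousMap.ext h1
  have h1' : (g.comp f).Homotopic (ContinuousMap.id X) := by rw [e]
  exact ⟨hiso_of_inverse f g h1' h2, hiso_of_inverse g f h2 h1'⟩

/-- a continuous bijection with continuous inverse -/
theorem hiso_of_bij (f : C(X, Y)) (g : C(Y, X)) (h1 : ∀ x, g (f x) = x) (h2 : ∀ y, f (g y) = y) :
    HIso f := by
  have e : f.comp g = ContinuousMap.id Y := ContinuousMap.ext h2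
  exact (hiso_of_section f g h1 (by rw [e])).1

theorem hiso_homeo (f : X ≃ₜ Y) : HIso (⟨f, f.continuous⟩ : C(X, Y)) :=
  hiso_of_bij _ ⟨f.symm, f.symm.continuous⟩ (fun x => f.symm_apply_apply x)
    (fun y => f.apply_symm_apply y)

/-- homotopies from functions of a real parameter -/
theorem homotopic_of (f g : C(X, Y)) (H : X × unitInterval → Y) (hH : Continuous H)
    (h0 : ∀ x, H (x, 0) = f x) (h1 : ∀ x, H (x, 1) = g x) : f.Homotopic g :=
  ⟨{ toFun := fun p => H (p.2, p.1)
     continuous_toFun := hH.comp continuous_swap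
     map_zero_left := h0
     map_one_left := h1 }⟩

end Pool.Agent.H753.Cob
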