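import Pool.Graph.R_seed8.Helper534.LS.P_hh_union
import Pool.Graph.R_seed8.Helper534.LS.P_mv_nat
import Pool.Graph.R_seed8.Helper534.LS.P_mv_exact1
import Pool.Graph.R_seed8.Helper534.LS.P_mv_exact2
import Pool.Graph.R_seed8.Helper534.LS.P_mv_delta_sub
import Pool.Graph.R_seed8.Helper534.LS.P_mv_delta_inl
import Pool.Graph.R_seed8.Helper534.LS.P_raw
import Pool.Agent.H753.Cob.HIso
set_option autoImplicit false
namespace Pool.Agent.H753.Cob
open Set Topology
open Pool.Agent.Helper534.LS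

variable {X X' : Type} [TopologicalSpace X] [TopologicalSpace X']



theorem tkm_comp {X Y Z : Type} [TopologicalSpace X] [TopologicalSpace Y] [TopologicalSpace Z]
    (g : C(Y, Z)) (f : C(X, Y)) (n : ℕ) (x : HH X n) :
    hmap g n (hmap f n x) = hmap (g.comp f) n x := by
  obtain ⟨⟨z, hz⟩, rfl⟩ := Submodule.Quotient.mk_surjective _ x
  refine (Submodule.Quotient.eq _).2 ?_
  change push g n (push f n z) - push (g.comp f) n z ∈ Bdy Z n
  rw [aux_push_comp, sub_self]
  exact Submodule.zero_mem _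

/-- exactness at `H_n(U) ⊕ H_n(V)` -/
theorem tkm_mid (U V : Set X) (hU : IsOpen U) (hV : IsOpen V) (hUV : ∀ x, x ∈ U ∨ x ∈ V) (n : ℕ)
    (a : HH U n) (b : HH V n) (h : hmap (sub U) n a + hmap (sub V) n b = 0) :
    ∃ d : HH ↥(U ∩ V) n, a = hmap (inl U V) n d ∧ b = - hmap (inr U V) n d := by
  obtain ⟨⟨u, hu⟩, rfl⟩ := Submodule.Quotient.mk_surjective _ a
  obtain ⟨⟨v, hv⟩, rfl⟩ := Submodule.Quotient.mk_surjective _ b
  have h1 : push (sub U) n u + push (sub V) n v ∈ Bdy X n := by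
    have hc : push (sub U) n u + push (sub V) n v ∈ Cyc X n :=
      Submodule.add_mem _ (push_mem_Cyc _ _ _ hu) (push_mem_Cyc _ _ _ hv)
    have h' : cls _ hc = (0 : HH X n) := h
    have h2 : (⟨_, hc⟩ : Cyc X n) ∈ (Bdy X n).submoduleOf (Cyc X n) :=
      (Submodule.Quotient.mk_eq_zero _).1 h'
    exact h2
  obtain ⟨d, hd, h3, h4⟩ := raw_inj U V hU hV hUV n u v hu hv h1
  refine ⟨cls d hd, ?_, ?_⟩
  · refine (Submodule.Quotient.eq _).2 ?_
    exact h3
  · refine (Submodule.Quotient.eq _).2 ?_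
    change v - (-(push (inr U V) n d)) ∈ Bdy V n
    rw [sub_neg_eq_add]
    exact h4

/-- surjectivity in degree 0 -/
theorem tkm_zero (U V : Set X) (hUV : ∀ x, x ∈ U ∨ x ∈ V) (x : HH X 0) :
    ∃ (a : HH U 0) (b : HH V 0), x = hmap (sub U) 0 a + hmap (sub V) 0 b := by
  obtain ⟨⟨z, hz⟩, rfl⟩ := Submodule.Quotient.mk_surjective _ x
  have key : ∀ z : Sing X 0 →₀ ℤ, ∃ (u : Sing U 0 →₀ ℤ) (v : Sing V 0 →₀ ℤ),
      z = push (sub U) 0 u + push (sub V) 0 v := by
    intro z
    induction z using Finsupp.induction_linear with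
    | zero => exact ⟨0, 0, by rw [map_zero, map_zero, add_zero]⟩
    | add f g hf hg =>
      obtain ⟨u, v, h⟩ := hf
      obtain ⟨u', v', h'⟩ := hg
      refine ⟨u + u', v + v', ?_⟩
      rw [h, h', map_add, map_add]
      abel
    | single σ m =>
      have hsub : Subsingleton (stdSimplex ℝ (Fin (0 + 1))) := by
        refine ⟨fun p q => ?_⟩
        apply Subtype.ext
        funext i
        have hp := p.2.2
        have hq := q.2.2
        rw [Fin.sum_univ_one] at hp hq
        rw [Fin.fin_one_eq_zero i]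
        exact hp.trans hq.symm
      have hall : ∀ t t', σ t = σ t' := fun t t' => by
        have : t = t' := @Subsingleton.elim _ hsub t t'
        rw [this]
      rcases isEmpty_or_nonempty (stdSimplex ℝ (Fin (0 + 1))) with he | ⟨⟨t0⟩⟩
      · let τ : Sing U 0 := ⟨fun t => (he.false t).elim, by
          refine continuous_iff_continuousAt.2 fun t => (he.false t).elim⟩
        refine ⟨Finsupp.single τ m, 0, ?_⟩
        rw [map_zero, add_zero]
        unfold push
        rw [Finsupp.lmapDomain_apply, Finsupp.mapDomain_single]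
        congr 1
        ext t
        exact (he.false t).elim
      · rcases hUV (σ t0) with h | h
        · let τ : Sing U 0 := ⟨fun t => ⟨σ t, by rw [hall t t0]; exact h⟩, by fun_prop⟩
          refine ⟨Finsupp.single τ m, 0, ?_⟩
          rw [map_zero, add_zero]
          unfold push
          rw [Finsupp.lmapDomain_apply, Finsupp.mapDomain_single]
          rfl
        · let τ : Sing V 0 := ⟨fun t => ⟨σ t, by rw [hall t t0]; exact h⟩, by fun_prop⟩
          refine ⟨0, Finsupp.single τ m, ?_⟩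
          rw [map_zero, zero_add]
          unfold push
          rw [Finsupp.lmapDomain_apply, Finsupp.mapDomain_single]
          rfl
  obtain ⟨u, v, h⟩ := key z
  refine ⟨cls u Submodule.mem_top, cls v Submodule.mem_top, ?_⟩
  refine (Submodule.Quotient.eq _).2 ?_
  change z - (push (sub U) 0 u + push (sub V) 0 v) ∈ Bdy X 0
  rw [h, sub_self]
  exact Submodule.zero_mem _

theorem tkm_sq {X Y Z W : Type} [TopologicalSpace X] [TopologicalSpace Y] [TopologicalSpace Z]
    [TopologicalSpace W] (g : C(Y, Z)) (f : C(X, Y)) (g' : C(W, Z)) (f' : C(X, W))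
    (h : ∀ x, g (f x) = g' (f' x)) (n : ℕ) (x : HH X n) :
    hmap g n (hmap f n x) = hmap g' n (hmap f' n x) := by
  rw [tkm_comp, tkm_comp]
  have : g.comp f = g'.comp f' := by
    ext x
    exact h x
  rw [this]

theorem tkm_inj {X Y : Type} [TopologicalSpace X] [TopologicalSpace Y] {f : C(X, Y)} (h : HIso f)
    (n : ℕ) (x : HH X n) (hx : hmap f n x = 0) : x = 0 :=
  (h n).1 (by rw [hx, map_zero])

/-- TASK 6 (five lemma for Mayer-Vietoris). The Mayer-Vietoris sequence
`H_{n+1}(U) ⊕ H_{n+1}(V) → H_{n+1}(X) → H_n(U ∩ V) → H_n(U) ⊕ H_n(V) → H_n(X)` of an open cover is in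
`Pool/Graph/R_seed8/Helper534/LS/`: `mv_exact1` (exact at `H_{n+1}(X)`), `mv_exact2` (at `H_n(U ∩ V)`),
`raw_inj` in `P_raw.lean` (chain version of exactness at `H_n(U) ⊕ H_n(V)`, all `n`), `mv_delta_sub`,
`mv_delta_inl` (compositions are 0), `mv_nat` (naturality of `delta`). In degree 0 the map
`H_0(U) ⊕ H_0(V) → H_0(X)` is onto: a 0-simplex is a point, which is in `U` or in `V` (a 0-chain is a
`Finsupp` on `Sing X 0`, `Cyc X 0 = ⊤`). `hmap_comp` etc. are in the same directory.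
(a) if `fU`, `fV`, `fI` are isomorphisms in homology, so is `f`. -/
theorem five_whole (U V : Set X) (hU : IsOpen U) (hV : IsOpen V) (hUV : ∀ x, x ∈ U ∨ x ∈ V)
    (U' V' : Set X') (hU' : IsOpen U') (hV' : IsOpen V') (hUV' : ∀ x, x ∈ U' ∨ x ∈ V')
    (f : C(X, X')) (fU : C(U, U')) (fV : C(V, V')) (fI : C(↥(U ∩ V), ↥(U' ∩ V')))
    (hfU : ∀ x, (fU x : X') = f x) (hfV : ∀ x, (fV x : X') = f x) (hfI : ∀ x, (fI x : X') = f x)
    (h1 : HIso fU) (h2 : HIso fV) (h3 : HIso fI) : HIso f := by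
  have sqU : ∀ n (a : HH U n), hmap f n (hmap (sub U) n a) = hmap (sub U') n (hmap fU n a) :=
    fun n a => tkm_sq _ _ _ _ (fun x => (hfU x).symm) n a
  have sqV : ∀ n (a : HH V n), hmap f n (hmap (sub V) n a) = hmap (sub V') n (hmap fV n a) :=
    fun n a => tkm_sq _ _ _ _ (fun x => (hfV x).symm) n a
  have sqL : ∀ n (d : HH ↥(U ∩ V) n), hmap fU n (hmap (inl U V) n d) =
      hmap (inl U' V') n (hmap fI n d) :=
    fun n d => tkm_sq _ _ _ _ (fun x => Subtype.ext ((hfU _).trans (hfI x).symm)) n d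
  have sqR : ∀ n (d : HH ↥(U ∩ V) n), hmap fV n (hmap (inr U V) n d) =
      hmap (inr U' V') n (hmap fI n d) :=
    fun n d => tkm_sq _ _ _ _ (fun x => Subtype.ext ((hfV _).trans (hfI x).symm)) n d
  have sqS : ∀ n (d : HH ↥(U ∩ V) n), hmap (sub U) n (hmap (inl U V) n d) =
      hmap (sub V) n (hmap (inr U V) n d) :=
    fun n d => tkm_sq (sub U) (inl U V) (sub V) (inr U V) (fun _ => rfl) n d
  have hfU' : ∀ x ∈ U, f x ∈ U' := fun x hx => by
    have := (fU ⟨x, hx⟩).2
    rwa [hfU] at this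
  have hfV' : ∀ x ∈ V, f x ∈ V' := fun x hx => by
    have := (fV ⟨x, hx⟩).2
    rwa [hfV] at this
  have nat := fun n (x : HH X (n + 1)) =>
    mv_nat U V hU hV hUV U' V' hU' hV' hUV' f hfU' hfV' fI hfI n x
  -- injectivity on sums
  have inj : ∀ n (a : HH U n) (b : HH V n),
      hmap f n (hmap (sub U) n a + hmap (sub V) n b) = 0 →
        hmap (sub U) n a + hmap (sub V) n b = 0 := by
    intro n a b h
    rw [map_add, sqU, sqV] at h
    obtain ⟨d', e1, e2⟩ := tkm_mid U' V' hU' hV' hUV' n _ _ h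
    obtain ⟨d, rfl⟩ := (h3 n).2 d'
    have g1 : a = hmap (inl U V) n d := (h1 n).1 (by rw [e1, sqL])
    have g2 : b = - hmap (inr U V) n d := (h2 n).1 (by rw [e2, map_neg, sqR])
    rw [g1, g2, map_neg, sqS]
    exact add_neg_cancel _
  -- surjectivity on sums
  have sur : ∀ n (a : HH U' n) (b : HH V' n), ∃ x,
      hmap f n x = hmap (sub U') n a + hmap (sub V') n b := by
    intro n a b
    obtain ⟨a, rfl⟩ := (h1 n).2 a
    obtain ⟨b, rfl⟩ := (h2 n).2 b
    exact ⟨hmap (sub U) n a + hmap (sub V) n b, by rw [map_add, sqU, sqV]⟩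
  intro n
  cases n with
  | zero =>
    constructor
    · rw [injective_iff_map_eq_zero]
      intro x hx
      obtain ⟨a, b, rfl⟩ := tkm_zero U V hUV x
      exact inj 0 a b hx
    · intro y
      obtain ⟨a, b, rfl⟩ := tkm_zero U' V' hUV' y
      exact sur 0 a b
  | succ n =>
    constructor
    · rw [injective_iff_map_eq_zero]
      intro x hx
      have hd : delta U V n x = 0 := by
        apply tkm_inj h3
        rw [← nat, hx, map_zero]
      obtain ⟨a, b, rfl⟩ := mv_exact1 U V hU hV hUV n x hd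
      exact inj (n + 1) a b hx
    · intro y
      obtain ⟨d, hd⟩ := (h3 n).2 (delta U' V' n y)
      obtain ⟨k1, k2⟩ := mv_delta_inl U' V' hU' hV' hUV' n y
      obtain ⟨x, rfl⟩ := mv_exact2 U V hU hV hUV n d
        (tkm_inj h1 n _ (by rw [sqL, hd, k1])) (tkm_inj h2 n _ (by rw [sqR, hd, k2]))
      have e : delta U' V' n (y - hmap f (n + 1) x) = 0 := by
        rw [map_sub, nat, hd, sub_self]
      obtain ⟨a, b, hab⟩ := mv_exact1 U' V' hU' hV' hUV' n _ e
      obtain ⟨x', hx'⟩ := sur (n + 1) a b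
      exact ⟨x + x', by rw [map_add, hx', ← hab]; abel⟩

/-- (b) if `f`, `fV`, `fI` are isomorphisms in homology, so is `fU`. -/
theorem five_part (U V : Set X) (hU : IsOpen U) (hV : IsOpen V) (hUV : ∀ x, x ∈ U ∨ x ∈ V)
    (U' V' : Set X') (hU' : IsOpen U') (hV' : IsOpen V') (hUV' : ∀ x, x ∈ U' ∨ x ∈ V')
    (f : C(X, X')) (fU : C(U, U')) (fV : C(V, V')) (fI : C(↥(U ∩ V), ↥(U' ∩ V')))
    (hfU : ∀ x, (fU x : X') = f x) (hfV : ∀ x, (fV x : X') = f x) (hfI : ∀ x, (fI x : X') = f x)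
    (h1 : HIso f) (h2 : HIso fV) (h3 : HIso fI) : HIso fU := by
  have sqU : ∀ n (a : HH U n), hmap f n (hmap (sub U) n a) = hmap (sub U') n (hmap fU n a) :=
    fun n a => tkm_sq _ _ _ _ (fun x => (hfU x).symm) n a
  have sqV : ∀ n (a : HH V n), hmap f n (hmap (sub V) n a) = hmap (sub V') n (hmap fV n a) :=
    fun n a => tkm_sq _ _ _ _ (fun x => (hfV x).symm) n a
  have sqL : ∀ n (d : HH ↥(U ∩ V) n), hmap fU n (hmap (inl U V) n d) =
      hmap (inl U' V') n (hmap fI n d) :=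
    fun n d => tkm_sq _ _ _ _ (fun x => Subtype.ext ((hfU _).trans (hfI x).symm)) n d
  have sqR : ∀ n (d : HH ↥(U ∩ V) n), hmap fV n (hmap (inr U V) n d) =
      hmap (inr U' V') n (hmap fI n d) :=
    fun n d => tkm_sq _ _ _ _ (fun x => Subtype.ext ((hfV _).trans (hfI x).symm)) n d
  have hfU' : ∀ x ∈ U, f x ∈ U' := fun x hx => by
    have := (fU ⟨x, hx⟩).2
    rwa [hfU] at this
  have hfV' : ∀ x ∈ V, f x ∈ V' := fun x hx => by
    have := (fV ⟨x, hx⟩).2
    rwa [hfV] at this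
  have nat := fun n (x : HH X (n + 1)) =>
    mv_nat U V hU hV hUV U' V' hU' hV' hUV' f hfU' hfV' fI hfI n x
  intro n
  constructor
  · rw [injective_iff_map_eq_zero]
    intro a ha
    have e1 : hmap (sub U) n a = 0 := tkm_inj h1 n _ (by rw [sqU, ha, map_zero])
    obtain ⟨d, rfl, e3⟩ := tkm_mid U V hU hV hUV n a 0 (by rw [e1, map_zero, add_zero])
    have e3' : hmap (inr U V) n d = 0 := neg_eq_zero.1 e3.symm
    obtain ⟨y, hy⟩ := mv_exact2 U' V' hU' hV' hUV' n (hmap fI n d) (by rw [← sqL, ha])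
      (by rw [← sqR, e3', map_zero])
    obtain ⟨x, rfl⟩ := (h1 (n + 1)).2 y
    rw [nat] at hy
    rw [← (h3 n).1 hy]
    exact (mv_delta_inl U V hU hV hUV n x).1
  · intro a'
    obtain ⟨x, hx⟩ := (h1 n).2 (hmap (sub U') n a')
    have hab : ∃ (a : HH U n) (b : HH V n), x = hmap (sub U) n a + hmap (sub V) n b := by
      cases n with
      | zero => exact tkm_zero U V hUV x
      | succ n =>
        apply mv_exact1 U V hU hV hUV n x
        apply tkm_inj h3
        rw [← nat, hx]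
        have := mv_delta_sub U' V' hU' hV' hUV' n a' 0
        rwa [map_zero, add_zero] at this
    obtain ⟨a, b, rfl⟩ := hab
    rw [map_add, sqU, sqV] at hx
    obtain ⟨d', g1, g2⟩ := tkm_mid U' V' hU' hV' hUV' n (hmap fU n a - a') (hmap fV n b) (by
      rw [map_sub, sub_add_eq_add_sub, hx, sub_self])
    obtain ⟨d, rfl⟩ := (h3 n).2 d'
    refine ⟨a - hmap (inl U V) n d, ?_⟩
    rw [map_sub, sqL, ← g1]
    abel

/-- (c) if `H_3(X) = H_2(X) = 0` and `H_2(V) = 0` then `H_2(U ∩ V) → H_2(U)` is bijective -/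
theorem mv_two (U V : Set X) (hU : IsOpen U) (hV : IsOpen V) (hUV : ∀ x, x ∈ U ∨ x ∈ V)
    (h3 : ∀ x : HH X 3, x = 0) (h2 : ∀ x : HH X 2, x = 0) (hV2 : ∀ x : HH V 2, x = 0) :
    Function.Bijective (hmap (inl U V) 2) := by
  constructor
  · rw [injective_iff_map_eq_zero]
    intro d hd
    obtain ⟨x, rfl⟩ := mv_exact2 U V hU hV hUV 2 d hd (hV2 _)
    rw [h3 x, map_zero]
  · intro a
    obtain ⟨d, h, -⟩ := tkm_mid U V hU hV hUV 2 a 0 (h2 _)
    exact ⟨d, h.symm⟩

end Pool.Agent.H753.Cob
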