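import Mathlib

/-! # Gluing two spaces along open embeddings of a common space -/

set_option autoImplicit false
set_option linter.unusedSectionVars false

namespace Pool.Agent.H753.Cob

open Set Topology

variable {N A B : Type} [TopologicalSpace N] [TopologicalSpace A] [TopologicalSpace B]

/-- the relation on the disjoint union of `A` and `B` which identifies `α n` with `β n` -/
def GRel (α : N → A) (β : N → B) : A ⊕ B → A ⊕ B → Prop
  | Sum.inl a, Sum.inl a' => a = a'
  | Sum.inr b, Sum.inr b' => b = b'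
  | Sum.inl a, Sum.inr b => ∃ n, α n = a ∧ β n = b
  | Sum.inr b, Sum.inl a => ∃ n, α n = a ∧ β n = b

/-- `GRel` as a setoid, for injective `α`, `β` -/
def gSetoid (α : N → A) (β : N → B) (hα : Function.Injective α) (hβ : Function.Injective β) :
    Setoid (A ⊕ B) where
  r := GRel α β
  iseqv := by
    refine ⟨?_, ?_, ?_⟩
    · rintro (a | b)
      · exact rfl
      · exact rfl
    · rintro (a | b) (a' | b') h
      · exact Eq.symm h
      · exact h
      · exact h
      · exact Eq.symm h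
    · rintro (a | b) (a' | b') (a'' | b'') h h'
      · exact Eq.trans h h'
      · have h : a = a' := h
        subst h; exact h'
      · obtain ⟨n, rfl, rfl⟩ := h
        obtain ⟨n', rfl, h2⟩ := h'
        exact congrArg α (hβ h2).symm
      · have h' : b' = b'' := h'
        subst h'; exact h
      · have h' : a' = a'' := h'
        subst h'; exact h
      · obtain ⟨n, rfl, rfl⟩ := h
        obtain ⟨n', h2, rfl⟩ := h'
        exact congrArg β (hα h2).symm
      · have h : b = b' := h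
        subst h; exact h'
      · exact Eq.trans h h'

/-- the glued space `A ∪ B` -/
def Gl (α : N → A) (β : N → B) (hα : Function.Injective α) (hβ : Function.Injective β) : Type :=
  Quotient (gSetoid α β hα hβ)

variable (α : N → A) (β : N → B) (hα : Function.Injective α) (hβ : Function.Injective β)

instance : TopologicalSpace (Gl α β hα hβ) :=
  inferInstanceAs (TopologicalSpace (Quotient (gSetoid α β hα hβ)))

/-- the two pieces -/
def gl1 (a : A) : Gl α β hα hβ := Quotient.mk (gSetoid α β hα hβ) (Sum.inl a)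
/-- the two pieces -/
def gl2 (b : B) : Gl α β hα hβ := Quotient.mk (gSetoid α β hα hβ) (Sum.inr b)

theorem gl1_inj : Function.Injective (gl1 α β hα hβ) := fun _ _ h => Quotient.exact h
theorem gl2_inj : Function.Injective (gl2 α β hα hβ) := fun _ _ h => Quotient.exact h
theorem gl1_eq_gl2 (a : A) (b : B) :
    gl1 α β hα hβ a = gl2 α β hα hβ b ↔ ∃ n, α n = a ∧ β n = b :=
  ⟨fun h => Quotient.exact h, fun h => Quotient.sound h⟩
theorem gl_glue (n : N) : gl1 α β hα hβ (α n) = gl2 α β hα hβ (β n) :=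
  (gl1_eq_gl2 α β hα hβ _ _).2 ⟨n, rfl, rfl⟩
theorem gl_cover (x : Gl α β hα hβ) : (∃ a, gl1 α β hα hβ a = x) ∨ ∃ b, gl2 α β hα hβ b = x := by
  obtain ⟨a | b, rfl⟩ := Quotient.exists_rep x
  · exact Or.inl ⟨a, rfl⟩
  · exact Or.inr ⟨b, rfl⟩

theorem gl1_cont : Continuous (gl1 α β hα hβ) := continuous_quotient_mk'.comp continuous_inl
theorem gl2_cont : Continuous (gl2 α β hα hβ) := continuous_quotient_mk'.comp continuous_inr

theorem gl_isOpen (S : Set (Gl α β hα hβ)) : IsOpen S ↔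
    IsOpen (gl1 α β hα hβ ⁻¹' S) ∧ IsOpen (gl2 α β hα hβ ⁻¹' S) := by
  have h := (isQuotientMap_quotient_mk' (s := gSetoid α β hα hβ)).isOpen_preimage (s := S)
  rw [isOpen_sum_iff] at h
  exact h.symm

theorem gl1_openEmbedding (h1 : IsOpenEmbedding α) (h2 : IsOpenEmbedding β) :
    IsOpenEmbedding (gl1 α β hα hβ) := by
  refine IsOpenEmbedding.of_continuous_injective_isOpenMap (gl1_cont α β hα hβ)
    (gl1_inj α β hα hβ) ?_
  intro U hU
  rw [gl_isOpen]
  constructor
  · have : gl1 α β hα hβ ⁻¹' (gl1 α β hα hβ '' U) = U := by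
      ext a
      simp only [mem_preimage, mem_image]
      constructor
      · rintro ⟨a', ha', h⟩
        have := gl1_inj α β hα hβ h
        rwa [← this]
      · intro h; exact ⟨a, h, rfl⟩
    rw [this]; exact hU
  · have : gl2 α β hα hβ ⁻¹' (gl1 α β hα hβ '' U) =
        β '' (α ⁻¹' U) := by
      ext b
      simp only [mem_preimage, mem_image]
      constructor
      · rintro ⟨a, ha, h⟩
        obtain ⟨n, rfl, rfl⟩ := (gl1_eq_gl2 α β hα hβ _ _).1 h
        exact ⟨n, ha, rfl⟩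
      · rintro ⟨n, hn, rfl⟩
        exact ⟨α n, hn, gl_glue α β hα hβ n⟩
    rw [this]
    exact h2.isOpenMap _ (hU.preimage h1.continuous)

theorem gl2_openEmbedding (h1 : IsOpenEmbedding α) (h2 : IsOpenEmbedding β) :
    IsOpenEmbedding (gl2 α β hα hβ) := by
  refine IsOpenEmbedding.of_continuous_injective_isOpenMap (gl2_cont α β hα hβ)
    (gl2_inj α β hα hβ) ?_
  intro U hU
  rw [gl_isOpen]
  constructor
  · have : gl1 α β hα hβ ⁻¹' (gl2 α β hα hβ '' U) =
        α '' (β ⁻¹' U) := by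
      ext a
      simp only [mem_preimage, mem_image]
      constructor
      · rintro ⟨b, hb, h⟩
        obtain ⟨n, rfl, rfl⟩ := (gl1_eq_gl2 α β hα hβ _ _).1 h.symm
        exact ⟨n, hb, rfl⟩
      · rintro ⟨n, hn, rfl⟩
        exact ⟨β n, hn, (gl_glue α β hα hβ n).symm⟩
    rw [this]
    exact h1.isOpenMap _ (hU.preimage h2.continuous)
  · have : gl2 α β hα hβ ⁻¹' (gl2 α β hα hβ '' U) = U := by
      ext a
      simp only [mem_preimage, mem_image]
      constructor
      · rintro ⟨a', ha', h⟩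
        have := gl2_inj α β hα hβ h
        rwa [← this]
      · intro h; exact ⟨a, h, rfl⟩
    rw [this]; exact hU

theorem gl_t2 [T2Space A] [T2Space B] (h1 : IsOpenEmbedding α) (h2 : IsOpenEmbedding β)
    (hc : IsClosed (range fun n => (α n, β n))) : T2Space (Gl α β hα hβ) := by
  have o1 := gl1_openEmbedding α β hα hβ h1 h2
  have o2 := gl2_openEmbedding α β hα hβ h1 h2
  have key : ∀ (a : A) (b : B), gl1 α β hα hβ a ≠ gl2 α β hα hβ b →
      ∃ u v : Set (Gl α β hα hβ), IsOpen u ∧ IsOpen v ∧ gl1 α β hα hβ a ∈ u ∧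
        gl2 α β hα hβ b ∈ v ∧ Disjoint u v := by
    intro a b hab
    have hn : (a, b) ∈ (range fun n => (α n, β n))ᶜ := by
      rintro ⟨n, hn⟩
      apply hab
      rw [gl1_eq_gl2]
      exact ⟨n, congrArg Prod.fst hn, congrArg Prod.snd hn⟩
    obtain ⟨U, V, hU, hV, haU, hbV, hUV⟩ := isOpen_prod_iff.1 hc.isOpen_compl a b hn
    refine ⟨gl1 α β hα hβ '' U, gl2 α β hα hβ '' V, o1.isOpenMap _ hU, o2.isOpenMap _ hV,
      ⟨a, haU, rfl⟩, ⟨b, hbV, rfl⟩, ?_⟩
    rw [Set.disjoint_left]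
    rintro _ ⟨a', ha', rfl⟩ ⟨b', hb', h⟩
    obtain ⟨n, rfl, rfl⟩ := (gl1_eq_gl2 α β hα hβ _ _).1 h.symm
    exact hUV ⟨ha', hb'⟩ ⟨n, rfl⟩
  refine ⟨fun x y hxy => ?_⟩
  rcases gl_cover α β hα hβ x with ⟨a, rfl⟩ | ⟨b, rfl⟩ <;>
  rcases gl_cover α β hα hβ y with ⟨a', rfl⟩ | ⟨b', rfl⟩
  · have hne : a ≠ a' := fun h => hxy (by rw [h])
    obtain ⟨U, V, hU, hV, h3, h4, h5⟩ := t2_separation hne
    refine ⟨gl1 α β hα hβ '' U, gl1 α β hα hβ '' V, o1.isOpenMap _ hU, o1.isOpenMap _ hV,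
      ⟨a, h3, rfl⟩, ⟨a', h4, rfl⟩, ?_⟩
    exact disjoint_image_of_injective (gl1_inj α β hα hβ) h5
  · exact key a b' hxy
  · obtain ⟨u, v, hu, hv, h3, h4, h5⟩ := key a' b (Ne.symm hxy)
    exact ⟨v, u, hv, hu, h4, h3, h5.symm⟩
  · have hne : b ≠ b' := fun h => hxy (by rw [h])
    obtain ⟨U, V, hU, hV, h3, h4, h5⟩ := t2_separation hne
    refine ⟨gl2 α β hα hβ '' U, gl2 α β hα hβ '' V, o2.isOpenMap _ hU, o2.isOpenMap _ hV,
      ⟨b, h3, rfl⟩, ⟨b', h4, rfl⟩, ?_⟩
    exact disjoint_image_of_injective (gl2_inj α β hα hβ) h5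

theorem gl_compact (CA : Set A) (CB : Set B) (hA : IsCompact CA) (hB : IsCompact CB)
    (h1 : ∀ a, a ∈ CA ∨ ∃ n, α n = a ∧ β n ∈ CB) (h2 : ∀ b, b ∈ CB ∨ ∃ n, β n = b ∧ α n ∈ CA) :
    CompactSpace (Gl α β hα hβ) := by
  refine ⟨?_⟩
  have : (univ : Set (Gl α β hα hβ)) = gl1 α β hα hβ '' CA ∪ gl2 α β hα hβ '' CB := by
    symm
    rw [eq_univ_iff_forall]
    intro x
    rcases gl_cover α β hα hβ x with ⟨a, rfl⟩ | ⟨b, rfl⟩
    · rcases h1 a with h | ⟨n, rfl, hn⟩
      · exact Or.inl ⟨a, h, rfl⟩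
      · exact Or.inr ⟨β n, hn, (gl_glue α β hα hβ n).symm⟩
    · rcases h2 b with h | ⟨n, rfl, hn⟩
      · exact Or.inr ⟨b, h, rfl⟩
      · exact Or.inl ⟨α n, hn, gl_glue α β hα hβ n⟩
  rw [this]
  exact (hA.image (gl1_cont α β hα hβ)).union (hB.image (gl2_cont α β hα hβ))

end Pool.Agent.H753.Cob
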