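import Pool.Graph.R_pool_sql_team_seeded_620a6dc7.Helper60.Fin.Stmt
import Pool.Agent.H753.Cob.Glue

/-! # Basic maps: the unit map, Clifford coordinates, the surgery map `S³ ∖ C → S² × S¹` -/

set_option autoImplicit false
set_option linter.unusedSectionVars false

namespace Pool.Agent.H753.Cob

open Set Topology
open Pool.Agent.Helper60.Fin (S3 Disc d0 ZeroFramed)

/-! ### the unit map -/

open Classical in
/-- `z / |z|` (and `1` for `z = 0`) -/
noncomputable def uval (z : ℂ) : ℂ := if z = 0 then 1 else z / ‖z‖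

theorem norm_uval (z : ℂ) : ‖uval z‖ = 1 := by
  unfold uval
  split_ifs with h <;> simp [h]

/-- `z / |z|` as a point of the circle -/
noncomputable def unitC (z : ℂ) : Circle := ⟨uval z, mem_sphere_zero_iff_norm.mpr (norm_uval z)⟩

theorem unitC_coe {z : ℂ} (h : z ≠ 0) : ((unitC z : Circle) : ℂ) = z / ‖z‖ := by
  show uval z = _
  rw [uval, if_neg h]

theorem norm_mul_unitC (z : ℂ) : (‖z‖ : ℂ) * (unitC z : Circle) = z := by
  by_cases h : z = 0
  · simp [h]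
  · rw [unitC_coe h]
    have : (‖z‖ : ℂ) ≠ 0 := by simpa using h
    field_simp

theorem unitC_mul_pos (u : Circle) {r : ℝ} (hr : 0 < r) : unitC ((u : ℂ) * r) = u := by
  have h : (u : ℂ) * r ≠ 0 := by
    simp [hr.ne']
  apply Subtype.ext
  rw [unitC_coe h]
  have hr' : (r : ℂ) ≠ 0 := by simpa using hr.ne'
  rw [norm_mul, Circle.norm_coe, Complex.norm_real, Real.norm_eq_abs, abs_of_pos hr, one_mul]
  field_simp

theorem unitC_circle (u : Circle) : unitC (u : ℂ) = u := by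
  simpa using unitC_mul_pos u one_pos

theorem continuousAt_unitC {z : ℂ} (h : z ≠ 0) : ContinuousAt unitC z := by
  have h1 : ContinuousOn (fun z : ℂ => (unitC z : ℂ)) {z | z ≠ 0} := by
    have : ContinuousOn (fun z : ℂ => z / (‖z‖ : ℂ)) {z | z ≠ 0} := by
      apply ContinuousOn.div continuousOn_id
      · exact (Complex.continuous_ofReal.comp continuous_norm).continuousOn
      · intro x hx; simpa using hx
    exact this.congr fun x hx => unitC_coe hx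
  have h2 : ContinuousAt (fun z : ℂ => (unitC z : ℂ)) z :=
    h1.continuousAt (isOpen_ne.mem_nhds h)
  rw [continuousAt_iff_punctured_nhds] at *
  exact tendsto_subtype_rng.2 h2

/-! ### Clifford coordinates -/

/-- the point `(u cos s, v sin s)` of the 3-sphere -/
noncomputable def cl (u v : Circle) (s : ℝ) : S3 :=
  ⟨((u : ℂ) * Real.cos s, (v : ℂ) * Real.sin s), by
    simp only [norm_mul, Circle.norm_coe, Complex.norm_real, Real.norm_eq_abs, one_mul, sq_abs]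
    exact Real.cos_sq_add_sin_sq s⟩

theorem continuous_cl : Continuous fun p : Circle × Circle × ℝ => cl p.1 p.2.1 p.2.2 := by
  unfold cl
  fun_prop

theorem cl_1 (u v : Circle) (s : ℝ) : (cl u v s).1.1 = (u : ℂ) * Real.cos s := rfl
theorem cl_2 (u v : Circle) (s : ℝ) : (cl u v s).1.2 = (v : ℂ) * Real.sin s := rfl

theorem norm_cl_2 (u v : Circle) {s : ℝ} (h0 : 0 ≤ s) (h1 : s ≤ Real.pi / 2) :
    ‖(cl u v s).1.2‖ = Real.sin s := by
  rw [cl_2, norm_mul, Circle.norm_coe, Complex.norm_real, Real.norm_eq_abs, one_mul,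
    abs_of_nonneg (Real.sin_nonneg_of_nonneg_of_le_pi h0 (by linarith [Real.pi_pos]))]

theorem norm_cl_1 (u v : Circle) {s : ℝ} (h0 : 0 ≤ s) (h1 : s ≤ Real.pi / 2) :
    ‖(cl u v s).1.1‖ = Real.cos s := by
  rw [cl_1, norm_mul, Circle.norm_coe, Complex.norm_real, Real.norm_eq_abs, one_mul,
    abs_of_nonneg (Real.cos_nonneg_of_neg_pi_div_two_le_of_le (by linarith) h1)]

theorem cl_inj {u v u' v' : Circle} {s s' : ℝ} (h0 : 0 < s) (h1 : s < Real.pi / 2) (h0' : 0 < s')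
    (h1' : s' < Real.pi / 2) (h : cl u v s = cl u' v' s') : u = u' ∧ v = v' ∧ s = s' := by
  have e2 : ‖(cl u v s).1.2‖ = ‖(cl u' v' s').1.2‖ := by rw [h]
  rw [norm_cl_2 _ _ h0.le h1.le, norm_cl_2 _ _ h0'.le h1'.le] at e2
  have hs : s = s' := Real.injOn_sin ⟨by linarith, h1.le⟩ ⟨by linarith, h1'.le⟩ e2
  subst hs
  have hc : (0:ℝ) < Real.cos s := Real.cos_pos_of_mem_Ioo ⟨by linarith, h1⟩
  have hsn : (0:ℝ) < Real.sin s := Real.sin_pos_of_pos_of_lt_pi h0 (by linarith [Real.pi_pos])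
  refine ⟨?_, ?_, rfl⟩
  · rw [← unitC_mul_pos u hc, ← unitC_mul_pos u' hc, ← cl_1 u v s, ← cl_1 u' v' s, h]
  · rw [← unitC_mul_pos v hsn, ← unitC_mul_pos v' hsn, ← cl_2 u v s, ← cl_2 u' v' s, h]

/-- the angle of a point of the 3-sphere -/
noncomputable def lat (z : S3) : ℝ := Real.arcsin ‖z.1.2‖

theorem norm_le_one (z : S3) : ‖z.1.2‖ ≤ 1 := by
  have := z.2
  have h1 := norm_nonneg z.1.2
  have h2 := sq_nonneg ‖z.1.1‖
  nlinarith

theorem norm_le_one' (z : S3) : ‖z.1.1‖ ≤ 1 := by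
  have := z.2
  have h1 := norm_nonneg z.1.1
  have h2 := sq_nonneg ‖z.1.2‖
  nlinarith

theorem sin_lat (z : S3) : Real.sin (lat z) = ‖z.1.2‖ :=
  Real.sin_arcsin (by linarith [norm_nonneg z.1.2]) (norm_le_one z)

theorem cos_lat (z : S3) : Real.cos (lat z) = ‖z.1.1‖ := by
  rw [lat, Real.cos_arcsin]
  have h : 1 - ‖z.1.2‖ ^ 2 = ‖z.1.1‖ ^ 2 := by linarith [z.2]
  rw [h, Real.sqrt_sq (norm_nonneg _)]

theorem lat_nonneg (z : S3) : 0 ≤ lat z := Real.arcsin_nonneg.2 (norm_nonneg _)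
theorem lat_le (z : S3) : lat z ≤ Real.pi / 2 := Real.arcsin_le_pi_div_two _
theorem continuous_lat : Continuous lat := by
  unfold lat
  exact Real.continuous_arcsin.comp (by fun_prop)

theorem cl_lat (z : S3) : cl (unitC z.1.1) (unitC z.1.2) (lat z) = z := by
  apply Subtype.ext
  apply Prod.ext
  · rw [cl_1, cos_lat, mul_comm]
    exact norm_mul_unitC _
  · rw [cl_2, sin_lat, mul_comm]
    exact norm_mul_unitC _

theorem lat_cl (u v : Circle) {s : ℝ} (h0 : 0 ≤ s) (h1 : s ≤ Real.pi / 2) : lat (cl u v s) = s := by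
  rw [lat, norm_cl_2 _ _ h0 h1]
  exact Real.arcsin_sin (by linarith) h1

/-! ### the sphere, the ball and the surgery map -/

/-- the 2-sphere -/
abbrev S2 : Type := {y : ℂ × ℝ // ‖y.1‖ ^ 2 + y.2 ^ 2 = 1}
/-- the closed 3-ball -/
abbrev B3 : Type := {x : ℂ × ℝ // ‖x.1‖ ^ 2 + x.2 ^ 2 ≤ 1}

/-- the surgery map `z ↦ ((2 |z₂| z₁, |z₁|² - |z₂|²), z₂ / |z₂|)` -/
noncomputable def iO (z : S3) : S2 × Circle :=
  (⟨(2 * ‖z.1.2‖ * z.1.1, ‖z.1.1‖ ^ 2 - ‖z.1.2‖ ^ 2), by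
    have h := z.2
    have : (‖z.1.1‖ ^ 2 + ‖z.1.2‖ ^ 2) ^ 2 = 1 := by rw [h]; norm_num
    simp only [norm_mul, Complex.norm_real, norm_norm, Complex.norm_ofNat]
    nlinarith⟩, unitC z.1.2)

/-- the inverse of `iO` (where `y.2 < 1`) -/
noncomputable def iOi (p : S2 × Circle) : ℂ × ℂ :=
  (p.1.1.1 / (2 * Real.sqrt ((1 - p.1.1.2) / 2)), (p.2 : ℂ) * Real.sqrt ((1 - p.1.1.2) / 2))

theorem iO_lt_one {z : S3} (hz : z.1.2 ≠ 0) : (iO z).1.1.2 < 1 := by
  have h := z.2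
  have h1 : 0 < ‖z.1.2‖ := norm_pos_iff.2 hz
  show ‖z.1.1‖ ^ 2 - ‖z.1.2‖ ^ 2 < 1
  nlinarith

theorem iOi_iO {z : S3} (hz : z.1.2 ≠ 0) : iOi (iO z) = z.1 := by
  have h := z.2
  have h1 : 0 < ‖z.1.2‖ := norm_pos_iff.2 hz
  have e : (1 - (iO z).1.1.2) / 2 = ‖z.1.2‖ ^ 2 := by
    show (1 - (‖z.1.1‖ ^ 2 - ‖z.1.2‖ ^ 2)) / 2 = _
    linarith
  have e2 : Real.sqrt ((1 - (iO z).1.1.2) / 2) = ‖z.1.2‖ := by
    rw [e, Real.sqrt_sq h1.le]
  have h1' : (‖z.1.2‖ : ℂ) ≠ 0 := by simpa using hz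
  apply Prod.ext
  · simp only [iOi, e2]
    show 2 * ‖z.1.2‖ * z.1.1 / (2 * ‖z.1.2‖) = z.1.1
    field_simp
  · simp only [iOi, e2]
    show (unitC z.1.2 : ℂ) * ‖z.1.2‖ = z.1.2
    rw [mul_comm]; exact norm_mul_unitC _

theorem iOi_mem {p : S2 × Circle} (hp : p.1.1.2 < 1) : ‖(iOi p).1‖ ^ 2 + ‖(iOi p).2‖ ^ 2 = 1 := by
  have h0 : 0 < (1 - p.1.1.2) / 2 := by linarith
  have h2 : Real.sqrt ((1 - p.1.1.2) / 2) ^ 2 = (1 - p.1.1.2) / 2 := Real.sq_sqrt h0.le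
  have h3 := Real.sqrt_pos.2 h0
  have hy := p.1.2
  simp only [iOi, norm_div, norm_mul, Circle.norm_coe, Complex.norm_real, Real.norm_eq_abs,
    Complex.norm_ofNat, one_mul, abs_of_pos h3, div_pow, mul_pow, h2]
  have h4 : ‖p.1.1.1‖ ^ 2 = (1 - p.1.1.2) * (1 + p.1.1.2) := by nlinarith
  rw [h4]
  have : 1 - p.1.1.2 ≠ 0 := by linarith
  field_simp
  ring

theorem iO_iOi {p : S2 × Circle} (hp : p.1.1.2 < 1) : iO ⟨iOi p, iOi_mem hp⟩ = p := by
  have h0 : 0 < (1 - p.1.1.2) / 2 := by linarith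
  have h2 : Real.sqrt ((1 - p.1.1.2) / 2) ^ 2 = (1 - p.1.1.2) / 2 := Real.sq_sqrt h0.le
  have h3 := Real.sqrt_pos.2 h0
  have h3' : (Real.sqrt ((1 - p.1.1.2) / 2) : ℂ) ≠ 0 := by simpa using h3.ne'
  have hn : ‖(iOi p).2‖ = Real.sqrt ((1 - p.1.1.2) / 2) := by
    simp only [iOi, norm_mul, Circle.norm_coe, Complex.norm_real, Real.norm_eq_abs, one_mul,
      abs_of_pos h3]
  apply Prod.ext
  · apply Subtype.ext
    apply Prod.ext
    · show 2 * (‖(iOi p).2‖ : ℂ) * (iOi p).1 = p.1.1.1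
      rw [hn]
      simp only [iOi]
      field_simp
    · show ‖(iOi p).1‖ ^ 2 - ‖(iOi p).2‖ ^ 2 = p.1.1.2
      have := iOi_mem hp
      have h5 : ‖(iOi p).2‖ ^ 2 = (1 - p.1.1.2) / 2 := by rw [hn, h2]
      linarith
  · show unitC (iOi p).2 = p.2
    exact unitC_mul_pos _ h3

theorem iO_injOn {z z' : S3} (hz : z.1.2 ≠ 0) (hz' : z'.1.2 ≠ 0) (h : iO z = iO z') : z = z' := by
  apply Subtype.ext
  rw [← iOi_iO hz, ← iOi_iO hz', h]

theorem continuousAt_iO {z : S3} (hz : z.1.2 ≠ 0) : ContinuousAt iO z := by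
  unfold iO
  apply ContinuousAt.prodMk
  · apply Continuous.continuousAt
    apply Continuous.subtype_mk
    fun_prop
  · have h : Continuous fun z : S3 => z.1.2 := by fun_prop
    exact ContinuousAt.comp (f := fun z : S3 => z.1.2) (continuousAt_unitC hz) h.continuousAt

/-- the collar: multiply the point of the sphere by `1 - τ` -/
noncomputable def colZ (τ : ℝ) (p : S2 × Circle) : B3 × Circle :=
  (⟨(max 0 (min 1 (1 - τ))) • p.1.1, by
    have h := p.1.2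
    have h0 : 0 ≤ max 0 (min 1 (1 - τ)) := le_max_left _ _
    have h1 : max 0 (min 1 (1 - τ)) ≤ 1 := max_le zero_le_one (min_le_left _ _)
    simp only [Prod.smul_fst, Prod.smul_snd, norm_smul, Real.norm_eq_abs, abs_of_nonneg h0,
      smul_eq_mul]
    generalize max 0 (min 1 (1 - τ)) = a at h0 h1
    have : a ^ 2 ≤ 1 := by nlinarith
    have h3 : (a * ‖p.1.1.1‖) ^ 2 + (a * p.1.1.2) ^ 2 = a ^ 2 := by
      have : (a * ‖p.1.1.1‖) ^ 2 + (a * p.1.1.2) ^ 2 = a ^ 2 * (‖p.1.1.1‖ ^ 2 + p.1.1.2 ^ 2) := by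
        ring
      rw [this, h, mul_one]
    linarith⟩, p.2)

theorem colZ_val {τ : ℝ} (h0 : 0 ≤ τ) (h1 : τ ≤ 1) (p : S2 × Circle) :
    (colZ τ p).1.1 = (1 - τ) • p.1.1 := by
  unfold colZ
  have : max 0 (min 1 (1 - τ)) = 1 - τ := by
    rw [min_eq_right (by linarith), max_eq_right (by linarith)]
  simp only [this]

theorem continuous_colZ : Continuous fun p : ℝ × (S2 × Circle) => colZ p.1 p.2 := by
  unfold colZ
  fun_prop

/-- the norm on `ℂ × ℝ` used for the ball -/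
noncomputable def nrm (x : ℂ × ℝ) : ℝ := Real.sqrt (‖x.1‖ ^ 2 + x.2 ^ 2)

theorem nrm_smul {a : ℝ} (ha : 0 ≤ a) (x : ℂ × ℝ) : nrm (a • x) = a * nrm x := by
  unfold nrm
  rw [Prod.smul_fst, Prod.smul_snd, norm_smul, Real.norm_eq_abs, abs_of_nonneg ha, smul_eq_mul]
  have : (a * ‖x.1‖) ^ 2 + (a * x.2) ^ 2 = a ^ 2 * (‖x.1‖ ^ 2 + x.2 ^ 2) := by ring
  rw [this, Real.sqrt_mul (sq_nonneg _), Real.sqrt_sq ha]

theorem nrm_S2 (y : S2) : nrm y.1 = 1 := by
  unfold nrm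
  rw [y.2, Real.sqrt_one]

theorem nrm_colZ {τ : ℝ} (h0 : 0 ≤ τ) (h1 : τ ≤ 1) (p : S2 × Circle) :
    nrm (colZ τ p).1.1 = 1 - τ := by
  rw [colZ_val h0 h1, nrm_smul (by linarith), nrm_S2, mul_one]

theorem continuous_nrm : Continuous nrm := by
  unfold nrm
  fun_prop

theorem colZ_inj {τ τ' : ℝ} (h0 : 0 ≤ τ) (h1 : τ < 1) (h0' : 0 ≤ τ') (h1' : τ' < 1)
    {p p' : S2 × Circle} (h : colZ τ p = colZ τ' p') : τ = τ' ∧ p = p' := by
  have e1 : nrm (colZ τ p).1.1 = nrm (colZ τ' p').1.1 := by rw [h]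
  rw [nrm_colZ h0 h1.le, nrm_colZ h0' h1'.le] at e1
  have ht : τ = τ' := by linarith
  subst ht
  refine ⟨rfl, Prod.ext ?_ ?_⟩
  · apply Subtype.ext
    have e2 : (colZ τ p).1.1 = (colZ τ p').1.1 := by rw [h]
    rw [colZ_val h0 h1.le, colZ_val h0 h1.le] at e2
    exact smul_right_injective _ (by linarith : (1 - τ : ℝ) ≠ 0) e2
  · have e3 : (colZ τ p).2 = (colZ τ p').2 := by rw [h]
    exact e3

end Pool.Agent.H753.Cob
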