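import Pool.Agent.H753.Cob.Base

/-! # The data of the construction and the cobordism `W`

`D : Dat` consists of an (unknotted, winding number one) curve `c` in the standard open solid torus
`{|z₂| < 1/√2}` of `S³`, a homeomorphism `φ` of `S³` which takes it to the great circle `z₂ = 0`, and an
embedding `e` of the solid torus `S¹ × D` in `S³`. -/

set_option autoImplicit false
set_option linter.unusedSectionVars false

namespace Pool.Agent.H753.Cob

open Set Topology
open Pool.Agent.Helper60.Fin (S3 Disc d0 ZeroFramed)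

/-- a point of the closed disc (the radial retraction of `ℂ`) -/
noncomputable def dsc (w : ℂ) : Disc := ⟨w / (max 1 ‖w‖ : ℝ), by
  have h : (0:ℝ) < max 1 ‖w‖ := lt_of_lt_of_le one_pos (le_max_left _ _)
  rw [norm_div, Complex.norm_real, Real.norm_eq_abs, abs_of_pos h, div_le_one h]
  exact le_max_right _ _⟩

theorem dsc_val {w : ℂ} (h : ‖w‖ ≤ 1) : (dsc w).1 = w := by
  show w / (max 1 ‖w‖ : ℝ) = w
  rw [max_eq_left h]; simp

theorem dsc_val' (w : Disc) : dsc w.1 = w := Subtype.ext (dsc_val w.2)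

theorem continuous_dsc : Continuous dsc := by
  unfold dsc
  apply Continuous.subtype_mk
  apply Continuous.div continuous_id (by fun_prop)
  intro w
  have h : (0:ℝ) < max 1 ‖w‖ := lt_of_lt_of_le one_pos (le_max_left _ _)
  exact_mod_cast h.ne'

/-- the tubular neighbourhood `(u, w) ↦ (u √(1 - |ε w|²), ε w)` of the great circle `z₂ = 0` -/
noncomputable def gam (ε : ℝ) (p : Circle × Disc) : S3 :=
  ⟨((p.1 : ℂ) * Real.sqrt (1 - ‖(dsc (ε * p.2.1)).1‖ ^ 2), (dsc (ε * p.2.1)).1), by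
    have h := (dsc (ε * p.2.1)).2
    have h0 := norm_nonneg (dsc (ε * p.2.1)).1
    rw [norm_mul, Circle.norm_coe, one_mul, Complex.norm_real, Real.norm_eq_abs, sq_abs,
      Real.sq_sqrt (by nlinarith)]
    ring⟩

/-- the data of the construction -/
structure Dat where
  /-- the pattern, a simple closed curve in the 3-sphere -/
  c : Circle → S3
  c_cont : Continuous c
  c_inj : Function.Injective c
  /-- the width of the collar -/
  r₀ : ℝ
  r₀_pos : 0 < r₀
  r₀_lt : r₀ < Real.pi / 4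
  /-- the pattern is in the smaller solid torus -/
  c_in : ∀ u, lat (c u) < Real.pi / 4 - r₀
  /-- winding number one -/
  c_wind : ∃ h : C(Circle, Circle), (∀ u, h u = unitC (c u).1.1) ∧
    h.Homotopic (ContinuousMap.id Circle)
  /-- the homeomorphism which unknots the pattern -/
  φ : S3 ≃ₜ S3
  φ_c : ∀ z : S3, (φ z).1.2 = 0 ↔ z ∈ range c
  /-- the width of the tubular neighbourhood of the pattern -/
  ε : ℝ
  ε_pos : 0 < ε
  ε_lt : ε < 1
  ε_in : ∀ p : Circle × Disc, lat (φ.symm (gam ε p)) < Real.pi / 4 - r₀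
  /-- the embedding of the solid torus -/
  e : Circle × Disc → S3
  e_cont : Continuous e
  e_inj : Function.Injective e

variable (D : Dat)

namespace Dat

/-- the pattern as a set -/
def P : Set S3 := range D.c

/-- the embedding `e`, as a map on the standard solid torus `{lat ≤ π/4}` -/
noncomputable def eH (z : S3) : S3 := D.e (unitC z.1.1, dsc ((Real.sqrt 2 : ℝ) * z.1.2))

/-- the surgery map of the pattern, defined on the complement of `P` -/
noncomputable def G (z : S3) : S2 × Circle := iO (D.φ z)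

theorem cl_notMem_P {u v : Circle} {s : ℝ} (h0 : Real.pi / 4 - D.r₀ ≤ s) (h1 : s ≤ Real.pi / 2) :
    cl u v s ∉ D.P := by
  rintro ⟨w, hw⟩
  have := D.c_in w
  have h2 := D.r₀_lt
  rw [hw, lat_cl _ _ (by linarith) h1] at this
  linarith

theorem φ_ne {z : S3} (hz : z ∉ D.P) : (D.φ z).1.2 ≠ 0 := fun h => hz ((D.φ_c z).1 h)

theorem G_inj {z z' : S3} (hz : z ∉ D.P) (hz' : z' ∉ D.P) (h : D.G z = D.G z') : z = z' :=
  D.φ.injective (iO_injOn (D.φ_ne hz) (D.φ_ne hz') h)

theorem continuousAt_G {z : S3} (hz : z ∉ D.P) : ContinuousAt D.G z :=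
  ContinuousAt.comp (continuousAt_iO (D.φ_ne hz)) D.φ.continuous.continuousAt

/-- the torus in `S² × S¹ = ∂(B³ × S¹)` along which the exterior is attached -/
def T₀ : Set (B3 × Circle) := {p | ∃ u v : Circle, colZ 0 (D.G (cl u v (Real.pi / 4))) = p}

theorem isCompact_T₀ : IsCompact D.T₀ := by
  have h : D.T₀ = range fun p : Circle × Circle => colZ 0 (D.G (cl p.1 p.2 (Real.pi / 4))) := by
    ext p
    simp only [T₀, mem_ofPred_eq, mem_range, Prod.exists]
  rw [h]
  apply isCompact_range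
  rw [continuous_iff_continuousAt]
  intro p
  have h1 : ContinuousAt D.G (cl p.1 p.2 (Real.pi / 4)) := D.continuousAt_G
    (D.cl_notMem_P (by linarith [D.r₀_pos]) (by linarith [Real.pi_pos]))
  have h2 : Continuous fun p : Circle × Circle => cl p.1 p.2 (Real.pi / 4) :=
    continuous_cl.comp (by fun_prop : Continuous fun p : Circle × Circle =>
      (p.1, p.2, (Real.pi / 4 : ℝ)))
  have h3 : ContinuousAt (fun p : Circle × Circle => D.G (cl p.1 p.2 (Real.pi / 4))) p :=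
    ContinuousAt.comp (f := fun p : Circle × Circle => cl p.1 p.2 (Real.pi / 4)) h1
      h2.continuousAt
  exact ContinuousAt.comp (f := fun p : Circle × Circle => ((0 : ℝ), D.G (cl p.1 p.2 (Real.pi / 4))))
    continuous_colZ.continuousAt (continuousAt_const.prodMk h3)

/-- the first piece of `W`: `(B³ × S¹) ∖ T₀` -/
abbrev A : Type := {p : B3 × Circle // p ∉ D.T₀}

/-- the core of the solid torus, removed from the 3-sphere -/
def core : Set S3 := {x | ∃ z : S3, lat z ≤ Real.pi / 4 - D.r₀ ∧ D.eH z = x}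

/-- the second piece of `W`: `(S³ ∖ core) × [0,1]` -/
abbrev B : Type := {x : S3 // x ∉ D.core} × unitInterval

/-- the collar, `S¹ × S¹ × (0, r₀) × [0,1]` -/
abbrev N : Type := Circle × Circle × (Ioo 0 D.r₀) × unitInterval

/-- the collar in `B³ × S¹` in polar coordinates around `T₀` -/
noncomputable def α₀ (n : D.N) : B3 × Circle :=
  colZ (n.2.2.1 * Real.sin (Real.pi * n.2.2.2))
    (D.G (cl n.1 n.2.1 (Real.pi / 4 + n.2.2.1 * Real.cos (Real.pi * n.2.2.2))))

/-- the collar in the 3-sphere -/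
noncomputable def β₀ (n : Circle × Circle × (Ioo 0 D.r₀)) : S3 :=
  D.eH (cl n.1 n.2.1 (Real.pi / 4 - n.2.2))

section coll
variable {D}

theorem tau_nonneg (n : D.N) : 0 ≤ (n.2.2.1 : ℝ) * Real.sin (Real.pi * n.2.2.2) :=
  mul_nonneg n.2.2.1.2.1.le (Real.sin_nonneg_of_nonneg_of_le_pi
    (mul_nonneg Real.pi_pos.le n.2.2.2.2.1) (by nlinarith [Real.pi_pos, n.2.2.2.2.2]))

theorem tau_lt (n : D.N) : (n.2.2.1 : ℝ) * Real.sin (Real.pi * n.2.2.2) < 1 := by
  have h1 := n.2.2.1.2.1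
  have h2 := n.2.2.1.2.2
  have h3 := D.r₀_lt
  have h4 := Real.pi_le_four
  have h5 := Real.sin_le_one (Real.pi * n.2.2.2)
  nlinarith

theorem ang_mem (n : D.N) :
    Real.pi / 4 - D.r₀ < Real.pi / 4 + n.2.2.1 * Real.cos (Real.pi * n.2.2.2) ∧
    Real.pi / 4 + n.2.2.1 * Real.cos (Real.pi * n.2.2.2) < Real.pi / 4 + D.r₀ := by
  have h1 := n.2.2.1.2.1
  have h2 := n.2.2.1.2.2
  have h5 := Real.cos_le_one (Real.pi * n.2.2.2)
  have h6 := Real.neg_one_le_cos (Real.pi * n.2.2.2)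
  constructor <;> nlinarith

end coll

theorem α₀_notMem (n : D.N) : D.α₀ n ∉ D.T₀ := by
  rintro ⟨u, v, h⟩
  have h1 := ang_mem n
  have h2 := D.r₀_lt
  have h3 := D.r₀_pos
  have hp : Real.pi / 4 < Real.pi / 2 := by linarith [Real.pi_pos]
  obtain ⟨e1, e2⟩ := colZ_inj le_rfl one_pos (tau_nonneg n) (tau_lt n) h
  have e3 := D.G_inj (D.cl_notMem_P (by linarith) hp.le)
    (D.cl_notMem_P h1.1.le (by linarith)) e2
  obtain ⟨-, -, e4⟩ := cl_inj (by linarith [Real.pi_pos]) hp (by linarith) (by linarith) e3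
  have hr := n.2.2.1.2.1
  have h5 : Real.cos (Real.pi * n.2.2.2) = 0 := by
    have : (n.2.2.1 : ℝ) * Real.cos (Real.pi * n.2.2.2) = 0 := by linarith
    rcases mul_eq_zero.1 this with h | h
    · exact absurd h hr.ne'
    · exact h
  have h6 : Real.sin (Real.pi * n.2.2.2) = 0 := by
    rcases mul_eq_zero.1 e1.symm with h | h
    · exact absurd h hr.ne'
    · exact h
  have := Real.cos_sq_add_sin_sq (Real.pi * n.2.2.2)
  rw [h5, h6] at this
  norm_num at this

theorem α₀_inj : Function.Injective D.α₀ := by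
  intro n n' h
  have h1 := ang_mem n
  have h1' := ang_mem n'
  have h2 := D.r₀_lt
  obtain ⟨e1, e2⟩ := colZ_inj (tau_nonneg n) (tau_lt n) (tau_nonneg n') (tau_lt n') h
  have e3 := D.G_inj (D.cl_notMem_P h1.1.le (by linarith))
    (D.cl_notMem_P h1'.1.le (by linarith)) e2
  obtain ⟨e4, e5, e6⟩ := cl_inj (by linarith) (by linarith) (by linarith) (by linarith) e3
  have e7 : (n.2.2.1 : ℝ) * Real.cos (Real.pi * n.2.2.2) =
      n'.2.2.1 * Real.cos (Real.pi * n'.2.2.2) := by linarith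
  have hr := n.2.2.1.2.1
  have hr' := n'.2.2.1.2.1
  have e8 : (n.2.2.1 : ℝ) = n'.2.2.1 := by
    have hA := Real.cos_sq_add_sin_sq (Real.pi * n.2.2.2)
    have hB := Real.cos_sq_add_sin_sq (Real.pi * n'.2.2.2)
    have : (n.2.2.1 : ℝ) ^ 2 = (n'.2.2.1 : ℝ) ^ 2 := by
      calc (n.2.2.1 : ℝ) ^ 2 = ((n.2.2.1 : ℝ) * Real.cos (Real.pi * n.2.2.2)) ^ 2 +
            ((n.2.2.1 : ℝ) * Real.sin (Real.pi * n.2.2.2)) ^ 2 := by
              rw [mul_pow, mul_pow, ← mul_add, hA, mul_one]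
        _ = ((n'.2.2.1 : ℝ) * Real.cos (Real.pi * n'.2.2.2)) ^ 2 +
            ((n'.2.2.1 : ℝ) * Real.sin (Real.pi * n'.2.2.2)) ^ 2 := by rw [e7, e1]
        _ = (n'.2.2.1 : ℝ) ^ 2 := by rw [mul_pow, mul_pow, ← mul_add, hB, mul_one]
    nlinarith
  have e9 : Real.cos (Real.pi * n.2.2.2) = Real.cos (Real.pi * n'.2.2.2) := by
    rw [e8] at e7
    exact mul_left_cancel₀ hr'.ne' e7
  have e10 := Real.injOn_cos ⟨mul_nonneg Real.pi_pos.le n.2.2.2.2.1,
    by nlinarith [Real.pi_pos, n.2.2.2.2.2]⟩ ⟨mul_nonneg Real.pi_pos.le n'.2.2.2.2.1,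
    by nlinarith [Real.pi_pos, n'.2.2.2.2.2]⟩ e9
  have e11 : (n.2.2.2 : ℝ) = n'.2.2.2 := mul_left_cancel₀ Real.pi_pos.ne' e10
  exact Prod.ext e4 (Prod.ext e5 (Prod.ext (Subtype.ext e8) (Subtype.ext e11)))

/-- the collar in the first piece -/
noncomputable def α (n : D.N) : D.A := ⟨D.α₀ n, D.α₀_notMem n⟩

theorem α_inj : Function.Injective D.α := fun _ _ h => D.α₀_inj (congrArg Subtype.val h)

theorem sin_pi_div_four : Real.sin (Real.pi / 4) = 1 / Real.sqrt 2 := by
  rw [Real.sin_pi_div_four]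
  have : Real.sqrt 2 * Real.sqrt 2 = 2 := Real.mul_self_sqrt (by norm_num)
  have h0 : Real.sqrt 2 ≠ 0 := by positivity
  field_simp
  linarith

/-- the standard closed solid torus -/
def V : Set S3 := {z | lat z ≤ Real.pi / 4}

theorem norm_le_of_V {z : S3} (hz : z ∈ V) : Real.sqrt 2 * ‖z.1.2‖ ≤ 1 := by
  have h0 := lat_nonneg z
  have h : Real.sin (lat z) ≤ Real.sin (Real.pi / 4) :=
    Real.sin_le_sin_of_le_of_le_pi_div_two (by linarith [Real.pi_pos]) (by linarith [Real.pi_pos]) hz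
  rw [sin_lat, sin_pi_div_four] at h
  have h2 : 0 < Real.sqrt 2 := by positivity
  rw [le_div_iff₀ h2] at h
  linarith

theorem ne_of_V {z : S3} (hz : z ∈ V) : z.1.1 ≠ 0 := by
  have h := norm_le_of_V hz
  intro h0
  have h1 := z.2
  rw [h0, norm_zero] at h1
  have h3 : Real.sqrt 2 * Real.sqrt 2 = 2 := Real.mul_self_sqrt (by norm_num)
  have h2 : 0 < Real.sqrt 2 := by positivity
  have h4 : (Real.sqrt 2 * ‖z.1.2‖) ^ 2 = 2 := by
    rw [mul_pow, Real.sq_sqrt (by norm_num)]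
    nlinarith
  have h5 : 0 ≤ Real.sqrt 2 * ‖z.1.2‖ := by positivity
  nlinarith

theorem dsc_of_V {z : S3} (hz : z ∈ V) :
    (dsc ((Real.sqrt 2 : ℝ) * z.1.2)).1 = (Real.sqrt 2 : ℝ) * z.1.2 := by
  apply dsc_val
  rw [norm_mul, Complex.norm_real, Real.norm_eq_abs, abs_of_pos (by positivity : 0 < Real.sqrt 2)]
  exact norm_le_of_V hz

theorem eH_injOn {z z' : S3} (hz : z ∈ V) (hz' : z' ∈ V) (h : D.eH z = D.eH z') : z = z' := by
  have h1 := D.e_inj h
  have h2 : unitC z.1.1 = unitC z'.1.1 := congrArg Prod.fst h1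
  have h3 : (dsc ((Real.sqrt 2 : ℝ) * z.1.2)).1 = (dsc ((Real.sqrt 2 : ℝ) * z'.1.2)).1 :=
    congrArg (fun p : Circle × Disc => p.2.1) h1
  rw [dsc_of_V hz, dsc_of_V hz'] at h3
  have h4 : z.1.2 = z'.1.2 := by
    have : ((Real.sqrt 2 : ℝ) : ℂ) ≠ 0 := by
      exact_mod_cast (by positivity : Real.sqrt 2 ≠ 0)
    exact mul_left_cancel₀ this h3
  have h5 : ‖z.1.1‖ = ‖z'.1.1‖ := by
    have a := z.2
    have b := z'.2
    rw [h4] at a
    have : ‖z.1.1‖ ^ 2 = ‖z'.1.1‖ ^ 2 := by linarith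
    nlinarith [norm_nonneg z.1.1, norm_nonneg z'.1.1]
  apply Subtype.ext
  apply Prod.ext
  · rw [← norm_mul_unitC z.1.1, ← norm_mul_unitC z'.1.1, h2, h5]
  · exact h4

theorem β₀_notMem (n : Circle × Circle × (Ioo 0 D.r₀)) : D.β₀ n ∉ D.core := by
  rintro ⟨z, hz, h⟩
  have h1 := n.2.2.2.1
  have h2 := n.2.2.2.2
  have h3 := D.r₀_lt
  have hl : lat (cl n.1 n.2.1 (Real.pi / 4 - n.2.2)) = Real.pi / 4 - n.2.2 :=
    lat_cl _ _ (by linarith) (by linarith [Real.pi_pos])
  have h4 := D.eH_injOn (z := z) (show lat z ≤ _ by linarith [D.r₀_pos])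
    (show lat (cl n.1 n.2.1 (Real.pi / 4 - n.2.2)) ≤ Real.pi / 4 by rw [hl]; linarith) h
  rw [h4, hl] at hz
  linarith

theorem β₀_inj : Function.Injective D.β₀ := by
  intro n n' h
  have h1 := n.2.2.2.1
  have h2 := n.2.2.2.2
  have h1' := n'.2.2.2.1
  have h2' := n'.2.2.2.2
  have h3 := D.r₀_lt
  have hl : lat (cl n.1 n.2.1 (Real.pi / 4 - n.2.2)) = Real.pi / 4 - n.2.2 :=
    lat_cl _ _ (by linarith) (by linarith [Real.pi_pos])
  have hl' : lat (cl n'.1 n'.2.1 (Real.pi / 4 - n'.2.2)) = Real.pi / 4 - n'.2.2 :=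
    lat_cl _ _ (by linarith) (by linarith [Real.pi_pos])
  have h4 := D.eH_injOn
    (show lat (cl n.1 n.2.1 (Real.pi / 4 - n.2.2)) ≤ Real.pi / 4 by rw [hl]; linarith)
    (show lat (cl n'.1 n'.2.1 (Real.pi / 4 - n'.2.2)) ≤ Real.pi / 4 by rw [hl']; linarith) h
  obtain ⟨e1, e2, e3⟩ := cl_inj (by linarith) (by linarith) (by linarith) (by linarith) h4
  exact Prod.ext e1 (Prod.ext e2 (Subtype.ext (by linarith)))

/-- the collar in the second piece -/
noncomputable def β (n : D.N) : D.B :=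
  (⟨D.β₀ (n.1, n.2.1, n.2.2.1), D.β₀_notMem _⟩, n.2.2.2)

theorem β_inj : Function.Injective D.β := by
  intro n n' h
  have h1 : (n.1, n.2.1, n.2.2.1) = (n'.1, n'.2.1, n'.2.2.1) :=
    D.β₀_inj (congrArg (fun b : D.B => b.1.1) h)
  have h2 : n.2.2.2 = n'.2.2.2 := congrArg (fun b : D.B => b.2) h
  simp only [Prod.mk.injEq] at h1
  obtain ⟨e1, e2, e3⟩ := h1
  exact Prod.ext e1 (Prod.ext e2 (Prod.ext e3 h2))

/-- the cobordism -/
abbrev W : Type := Gl D.α D.β D.α_inj D.β_inj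

/-- the first piece -/
noncomputable abbrev gA (a : D.A) : D.W := gl1 D.α D.β D.α_inj D.β_inj a
/-- the second piece -/
noncomputable abbrev gB (b : D.B) : D.W := gl2 D.α D.β D.α_inj D.β_inj b

/-- the tubular neighbourhood of the satellite -/
noncomputable def eJ (p : Circle × Disc) : S3 := D.eH (D.φ.symm (gam D.ε p))

/-- the radius of the solid torus `eK` -/
noncomputable def ρ₁ : ℝ := Real.sqrt 2 * Real.sin (Real.pi / 4 - D.r₀ / 2)

/-- the (thinner) tubular neighbourhood of the companion -/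
noncomputable def eK (p : Circle × Disc) : S3 := D.e (p.1, dsc (D.ρ₁ * p.2.1))

/-- the part of the first piece in `Y₀` -/
def A₀ : Set D.A := {a | ∃ z : S3, Real.pi / 4 < lat z ∧ a.1 = colZ 0 (D.G z)}
/-- the part of the first piece in `Y₁` -/
def A₁ : Set D.A := {a | ∃ p : S2 × Circle, (∀ z, Real.pi / 4 ≤ lat z → D.G z ≠ p) ∧ a.1 = colZ 0 p}
/-- the part of the second piece in `Y₀` -/
def B₀ : Set D.B := {b | b.2 = 0}
/-- the part of the second piece in `Y₁` -/
def B₁ : Set D.B := {b | b.2 = 1}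
/-- the first end of `W` -/
def Y₀ : Set D.W := D.gA '' D.A₀ ∪ D.gB '' D.B₀
/-- the second end of `W` -/
def Y₁ : Set D.W := D.gA '' D.A₁ ∪ D.gB '' D.B₁

end Dat

end Pool.Agent.H753.Cob
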