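import Pool.Graph.R_pool_sql_team_seeded_620a6dc7.Helper60.Fin.Stmt
import Pool.Graph.R_seed8.Helper534.LS.Defs

/-! # Homology cobordisms of zero-surgeries: the definitions of the statement

`S3`, `Disc`, `I01`, `d0`, `Concordant`, `ZeroFramed` are those of
`Pool/Graph/R_pool_sql_team_seeded_620a6dc7/Helper60/Fin/Stmt.lean`: the unit sphere of `ℂ²`, the closed unit
disc of `ℂ`, the unit interval, the centre of the disc, topological concordance of (unoriented) knots,
0-framed tubular neighbourhoods. `HH X n` is the integral singular homology `H_n(X; ℤ)` (singular chains on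
the standard simplices, `Pool/Graph/R_seed8/Helper534/LS/Core.lean`), `hmap` the induced maps and `sub Y` the
inclusion of a subspace `Y`. -/

set_option autoImplicit false

namespace Pool.Agent.H753.Cob

open Set Topology
open Pool.Agent.Helper60.Fin (S3 Disc d0)
open Pool.Agent.Helper534.LS (hmap sub)

/-- the exterior of a knot with tubular neighbourhood `e : S¹ × D → S³`: the complement of the open solid
torus `e(S¹ × interior of D)` -/
abbrev Exterior (e : Circle × Disc → S3) : Type :=
  {x : S3 // ∀ p : Circle × Disc, ‖p.2.1‖ < 1 → e p ≠ x}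

/-- a point of the circle as a point of the disc -/
def toDisc (v : Circle) : Disc := ⟨v, (Circle.norm_coe v).le⟩

/-- `Y ⊆ W` is (a copy of) the Dehn surgery on the knot with tubular neighbourhood `e` along the longitudes
`u ↦ e(u, v)`: `Y` is the union of an embedded copy `i` of the exterior and an embedded copy `j` of the solid
torus `D × S¹`, which meet exactly along the boundary torus, where `i(e(u, v)) = j(u, v)`: the longitude
`u ↦ e(u, v)` is the boundary of the meridian disc `j(·, v)` of the new solid torus. If `e` is 0-framed
this is the 0-surgery. (All spaces are compact and `W` is a Hausdorff space, so that `Y` is homeomorphic to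
the space obtained by gluing the exterior and the solid torus.) -/
structure IsZeroSurgery (e : Circle × Disc → S3) {W : Type} [TopologicalSpace W] (Y : Set W)
    (i : Exterior e → W) (j : Disc × Circle → W) : Prop where
  i_cont : Continuous i
  i_inj : Function.Injective i
  j_cont : Continuous j
  j_inj : Function.Injective j
  union : range i ∪ range j = Y
  meet : ∀ (x : Exterior e) (q : Disc × Circle),
    i x = j q ↔ ∃ u : Circle, q.1 = toDisc u ∧ x.1 = e (u, toDisc q.2)

/-- the inclusion of the subspace `Y` of `W` induces isomorphisms of integral homology -/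
def HomologyIso {W : Type} [TopologicalSpace W] (Y : Set W) : Prop :=
  ∀ n, Function.Bijective (hmap (sub Y) n)

/-- every point of `W` has a chart in the half space of dimension 4, in which `B` corresponds to the boundary:
`W` is a topological 4-manifold (if it is a Hausdorff space with a countable basis) with boundary `B` -/
def HasBoundary {W : Type} [TopologicalSpace W] (B : Set W) : Prop :=
  ∀ x : W, ∃ ψ : OpenPartialHomeomorph W (EuclideanHalfSpace 4), x ∈ ψ.source ∧
    ∀ y ∈ ψ.source, y ∈ B ↔ (ψ y).1 0 = 0

/-- `W` is a compact topological 4-manifold whose boundary is the disjoint union of `Y₀` and `Y₁`, and both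
inclusions induce isomorphisms of integral homology. (Such a `W` is orientable if `Y₀` is, as
`H¹(W; ℤ/2) → H¹(Y₀; ℤ/2)` is injective and maps `w₁(W)` to `w₁(Y₀)`.) -/
structure IsHomologyCobordism (W : Type) [TopologicalSpace W] (Y₀ Y₁ : Set W) : Prop where
  compact : CompactSpace W
  hausdorff : T2Space W
  countable : SecondCountableTopology W
  disjoint : Disjoint Y₀ Y₁
  boundary : HasBoundary (Y₀ ∪ Y₁)
  hom₀ : HomologyIso Y₀
  hom₁ : HomologyIso Y₁

/-- The orientations match: `∂W = Y₀ ⊔ -Y₁` where `Y₀` and `Y₁` carry the orientations which restrict to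
the orientation of `S³` on the exteriors. There are a nonempty open set `U` of `S³` contained in both
exteriors and an open embedding `Θ` of `U × [0,1]` in `W` which is the inclusion of `U` in the two
exteriors at the two ends. -/
def OrientationsMatch {e e' : Circle × Disc → S3} {W : Type} [TopologicalSpace W]
    (i : Exterior e → W) (i' : Exterior e' → W) : Prop :=
  ∃ (U : Set S3) (Θ : U × unitInterval → W), IsOpen U ∧ U.Nonempty ∧ IsOpenEmbedding Θ ∧
    (∀ x : U, ∃ h, Θ (x, 0) = i ⟨x, h⟩) ∧ (∀ x : U, ∃ h, Θ (x, 1) = i' ⟨x, h⟩)

/-- the meridian `v ↦ e(1, v)` lies in the exterior -/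
theorem mer_mem {e : Circle × Disc → S3} (he : Function.Injective e) (v : Circle) :
    ∀ p : Circle × Disc, ‖p.2.1‖ < 1 → e p ≠ e (1, toDisc v) := by
  intro p hp h
  rw [he h] at hp
  simp only [toDisc, Circle.norm_coe, lt_self_iff_false] at hp

/-- the meridians of the two knots, oriented by `v ↦ e(1, v)`, are freely homotopic in `W` -/
def MeridiansHomotopic {e e' : Circle × Disc → S3} (he : Function.Injective e)
    (he' : Function.Injective e') {W : Type} [TopologicalSpace W]
    (i : Exterior e → W) (i' : Exterior e' → W) : Prop :=
  ∃ H : Circle × unitInterval → W, Continuous H ∧ (∀ v, H (v, 0) = i ⟨e (1, toDisc v), mer_mem he v⟩) ∧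
    ∀ v, H (v, 1) = i' ⟨e' (1, toDisc v), mer_mem he' v⟩

/-- There is an integral homology cobordism `W` between the surgeries `Y₀`, `Y₁` on the knots with tubular
neighbourhoods `e`, `e'`, with matching orientations, in which the meridians are freely homotopic. -/
def Cobordant {e e' : Circle × Disc → S3} (he : Function.Injective e)
    (he' : Function.Injective e') : Prop :=
  ∃ (W : Type) (_ : TopologicalSpace W) (Y₀ Y₁ : Set W) (i₀ : Exterior e → W)
    (j₀ : Disc × Circle → W) (i₁ : Exterior e' → W) (j₁ : Disc × Circle → W),
    IsHomologyCobordism W Y₀ Y₁ ∧ IsZeroSurgery e Y₀ i₀ j₀ ∧ IsZeroSurgery e' Y₁ i₁ j₁ ∧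
    OrientationsMatch i₀ i₁ ∧ MeridiansHomotopic he he' i₀ i₁

end Pool.Agent.H753.Cob
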