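import Pool.Agent.H753.Cob.Data
import Pool.Agent.H753.Cob.Stmt

/-! # The two ends of `W`: the maps of the exteriors and of the new solid tori -/

set_option autoImplicit false
set_option linter.unusedSectionVars false

namespace Pool.Agent.H753.Cob

open Set Topology
open Pool.Agent.Helper60.Fin (S3 Disc d0 ZeroFramed)

namespace Dat

variable (D : Dat)

theorem ρ₁_pos : 0 < D.ρ₁ := by
  have h1 := D.r₀_lt
  have h2 := D.r₀_pos
  unfold ρ₁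
  have : 0 < Real.sin (Real.pi / 4 - D.r₀ / 2) :=
    Real.sin_pos_of_pos_of_lt_pi (by linarith) (by linarith [Real.pi_pos])
  positivity

theorem ρ₁_lt : D.ρ₁ < 1 := by
  have h1 := D.r₀_lt
  have h2 := D.r₀_pos
  have h3 : Real.sin (Real.pi / 4 - D.r₀ / 2) < Real.sin (Real.pi / 4) :=
    Real.sin_lt_sin_of_lt_of_le_pi_div_two (by linarith [Real.pi_pos]) (by linarith [Real.pi_pos])
      (by linarith)
  rw [sin_pi_div_four, lt_div_iff₀ (by positivity)] at h3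
  unfold ρ₁
  linarith

theorem core_eK {x : S3} (hx : x ∈ D.core) : ∃ p : Circle × Disc, ‖p.2.1‖ < 1 ∧ D.eK p = x := by
  obtain ⟨z, hz, rfl⟩ := hx
  have h1 := D.r₀_lt
  have h2 := D.r₀_pos
  have h3 := D.ρ₁_pos
  have h4 : Real.sin (lat z) < Real.sin (Real.pi / 4 - D.r₀ / 2) :=
    Real.sin_lt_sin_of_lt_of_le_pi_div_two (by linarith [Real.pi_pos, lat_nonneg z])
      (by linarith [Real.pi_pos]) (by linarith)
  rw [sin_lat] at h4
  have h5 : ‖(Real.sqrt 2 : ℝ) * z.1.2 / (D.ρ₁ : ℂ)‖ < 1 := by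
    rw [norm_div, norm_mul, Complex.norm_real, Complex.norm_real, Real.norm_eq_abs,
      Real.norm_eq_abs, abs_of_pos h3, abs_of_pos (by positivity : 0 < Real.sqrt 2),
      div_lt_one h3]
    unfold ρ₁
    have : 0 < Real.sqrt 2 := by positivity
    nlinarith
  refine ⟨(unitC z.1.1, ⟨(Real.sqrt 2 : ℝ) * z.1.2 / (D.ρ₁ : ℂ), h5.le⟩), h5, ?_⟩
  unfold eK eH
  have h6 : (D.ρ₁ : ℂ) * ((Real.sqrt 2 : ℝ) * z.1.2 / (D.ρ₁ : ℂ)) = (Real.sqrt 2 : ℝ) * z.1.2 := by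
    have : (D.ρ₁ : ℂ) ≠ 0 := by exact_mod_cast h3.ne'
    field_simp
  simp only [h6]

/-- the exterior of `K` in the first end: `x ↦ (x, 0)` -/
noncomputable def i₀ (x : Exterior D.eK) : D.W :=
  D.gB (⟨x.1, fun h => by
    obtain ⟨p, hp, e⟩ := D.core_eK h
    exact x.2 p hp e⟩, 0)

/-- the point `(β d, v √(1 - |β d|²))` of the 3-sphere, `β = cos (π/4 + r₀/2)` -/
noncomputable def zed (q : Disc × Circle) : S3 :=
  ⟨(Real.cos (Real.pi / 4 + D.r₀ / 2) * q.1.1,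
    (q.2 : ℂ) * Real.sqrt (1 - ‖Real.cos (Real.pi / 4 + D.r₀ / 2) * q.1.1‖ ^ 2)), by
    have h1 : ‖(Real.cos (Real.pi / 4 + D.r₀ / 2) : ℂ) * q.1.1‖ ≤ 1 := by
      rw [norm_mul, Complex.norm_real, Real.norm_eq_abs]
      have := Real.abs_cos_le_one (Real.pi / 4 + D.r₀ / 2)
      have := q.1.2
      have := norm_nonneg q.1.1
      nlinarith
    have h0 := norm_nonneg ((Real.cos (Real.pi / 4 + D.r₀ / 2) : ℂ) * q.1.1)
    simp only [norm_mul (q.2 : ℂ), Circle.norm_coe, one_mul, Complex.norm_real, Real.norm_eq_abs,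
      sq_abs]
    rw [Real.sq_sqrt (by nlinarith)]
    ring⟩

theorem lat_zed (q : Disc × Circle) : Real.pi / 4 + D.r₀ / 2 ≤ lat (D.zed q) := by
  have h1 := D.r₀_lt
  have h2 := D.r₀_pos
  have h3 : 0 ≤ Real.cos (Real.pi / 4 + D.r₀ / 2) :=
    Real.cos_nonneg_of_neg_pi_div_two_le_of_le (by linarith [Real.pi_pos]) (by linarith)
  have h4 : Real.cos (lat (D.zed q)) ≤ Real.cos (Real.pi / 4 + D.r₀ / 2) := by
    rw [cos_lat]
    show ‖(Real.cos (Real.pi / 4 + D.r₀ / 2) : ℂ) * q.1.1‖ ≤ _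
    rw [norm_mul, Complex.norm_real, Real.norm_eq_abs, abs_of_nonneg h3]
    have := q.1.2
    nlinarith
  by_contra h
  push Not at h
  have := Real.cos_lt_cos_of_nonneg_of_le_pi (lat_nonneg (D.zed q)) (by linarith [Real.pi_pos]) h
  linarith

theorem notMem_P_of_lat {z : S3} (hz : Real.pi / 4 - D.r₀ ≤ lat z) : z ∉ D.P := by
  rintro ⟨u, rfl⟩
  have := D.c_in u
  linarith

theorem notMem_T₀_of {z : S3} (h : lat z ≠ Real.pi / 4) (hP : z ∉ D.P) : colZ 0 (D.G z) ∉ D.T₀ := by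
  rintro ⟨u, v, e⟩
  obtain ⟨-, e2⟩ := colZ_inj le_rfl one_pos le_rfl one_pos e
  have e3 := D.G_inj (D.cl_notMem_P (by linarith [D.r₀_pos]) (by linarith [Real.pi_pos])) hP e2
  apply h
  rw [← e3, lat_cl _ _ (by linarith [Real.pi_pos]) (by linarith [Real.pi_pos])]

/-- the new solid torus of the first end -/
noncomputable def j₀ (q : Disc × Circle) : D.W :=
  D.gA ⟨colZ 0 (D.G (D.zed q)), D.notMem_T₀_of
    (by linarith [D.lat_zed q, D.r₀_pos])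
    (D.notMem_P_of_lat (by linarith [D.lat_zed q, D.r₀_pos]))⟩

/-- the cap of the sphere: `((2 ε √(1 - ε²|d|²) d, 1 - 2 ε² |d|²), v)` -/
noncomputable def cap (q : Disc × Circle) : S2 × Circle :=
  (⟨(2 * D.ε * Real.sqrt (1 - D.ε ^ 2 * ‖q.1.1‖ ^ 2) * q.1.1, 1 - 2 * D.ε ^ 2 * ‖q.1.1‖ ^ 2), by
    have h1 := D.ε_pos
    have h2 := D.ε_lt
    have h3 := q.1.2
    have h4 := norm_nonneg q.1.1
    have h5 : D.ε ^ 2 * ‖q.1.1‖ ^ 2 ≤ 1 := by
      have : D.ε ^ 2 ≤ 1 := by nlinarith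
      have : ‖q.1.1‖ ^ 2 ≤ 1 := by nlinarith
      nlinarith [sq_nonneg D.ε, sq_nonneg ‖q.1.1‖]
    simp only [norm_mul, Complex.norm_real, Real.norm_eq_abs, Complex.norm_ofNat, abs_of_pos h1,
      mul_pow, sq_abs, Real.sq_sqrt (by linarith : 0 ≤ 1 - D.ε ^ 2 * ‖q.1.1‖ ^ 2)]
    ring⟩, q.2)

theorem G_lat (z : S3) : (D.G z).1.1.2 = 1 - 2 * ‖(D.φ z).1.2‖ ^ 2 := by
  show ‖(D.φ z).1.1‖ ^ 2 - ‖(D.φ z).1.2‖ ^ 2 = _
  have := (D.φ z).2
  linarith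

/-- the closed tube around the pattern is in the small solid torus -/
theorem lat_of_small {z : S3} (h : ‖(D.φ z).1.2‖ ≤ D.ε) : lat z < Real.pi / 4 - D.r₀ := by
  have h1 := D.ε_pos
  have h2 := D.ε_lt
  have h3 : ‖(D.φ z).1.2 / (D.ε : ℂ)‖ ≤ 1 := by
    rw [norm_div, Complex.norm_real, Real.norm_eq_abs, abs_of_pos h1, div_le_one h1]
    exact h
  have h4 := D.ε_in (unitC (D.φ z).1.1, ⟨(D.φ z).1.2 / (D.ε : ℂ), h3⟩)
  have h5 : gam D.ε (unitC (D.φ z).1.1, ⟨(D.φ z).1.2 / (D.ε : ℂ), h3⟩) = D.φ z := by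
    have h6 : (D.ε : ℂ) * ((D.φ z).1.2 / (D.ε : ℂ)) = (D.φ z).1.2 := by
      have : (D.ε : ℂ) ≠ 0 := by exact_mod_cast h1.ne'
      field_simp
    have h7 : (dsc ((D.φ z).1.2)).1 = (D.φ z).1.2 := dsc_val (by linarith)
    apply Subtype.ext
    apply Prod.ext
    · show (unitC (D.φ z).1.1 : ℂ) * Real.sqrt (1 - ‖(dsc (D.ε * ((D.φ z).1.2 / (D.ε : ℂ)))).1‖ ^ 2) = _
      rw [h6, h7]
      have h8 := (D.φ z).2
      have h9 : 1 - ‖(D.φ z).1.2‖ ^ 2 = ‖(D.φ z).1.1‖ ^ 2 := by linarith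
      rw [h9, Real.sqrt_sq (norm_nonneg _), mul_comm]
      exact norm_mul_unitC _
    · show (dsc (D.ε * ((D.φ z).1.2 / (D.ε : ℂ)))).1 = _
      rw [h6, h7]
  rw [h5] at h4
  simpa using h4

theorem cap_ne_G (q : Disc × Circle) {z : S3} (hz : Real.pi / 4 ≤ lat z) : D.G z ≠ D.cap q := by
  intro h
  have h1 : (D.G z).1.1.2 = (D.cap q).1.1.2 := by rw [h]
  rw [D.G_lat z] at h1
  have h2 : (D.cap q).1.1.2 = 1 - 2 * D.ε ^ 2 * ‖q.1.1‖ ^ 2 := rfl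
  rw [h2] at h1
  have h3 := q.1.2
  have h4 := norm_nonneg q.1.1
  have h5 : ‖(D.φ z).1.2‖ ≤ D.ε := by
    have h6 : ‖(D.φ z).1.2‖ ^ 2 = (D.ε * ‖q.1.1‖) ^ 2 := by ring_nf; linarith
    have h7 : ‖(D.φ z).1.2‖ = D.ε * ‖q.1.1‖ := by
      have := D.ε_pos
      exact (sq_eq_sq₀ (norm_nonneg _) (by positivity)).1 h6
    rw [h7]
    nlinarith [D.ε_pos]
  have := D.lat_of_small h5
  linarith [D.r₀_pos]

theorem cap_notMem_T₀ (q : Disc × Circle) : colZ 0 (D.cap q) ∉ D.T₀ := by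
  rintro ⟨u, v, e⟩
  obtain ⟨-, e2⟩ := colZ_inj le_rfl one_pos le_rfl one_pos e
  refine D.cap_ne_G q (z := cl u v (Real.pi / 4)) ?_ e2
  rw [lat_cl _ _ (by linarith [Real.pi_pos]) (by linarith [Real.pi_pos])]

/-- the new solid torus of the second end -/
noncomputable def j₁ (q : Disc × Circle) : D.W := D.gA ⟨colZ 0 (D.cap q), D.cap_notMem_T₀ q⟩

theorem P_eJ {z : S3} (hz : z ∈ D.P) : ∃ u : Circle, D.eJ (u, d0) = D.eH z := by
  have h : (D.φ z).1.2 = 0 := (D.φ_c z).2 hz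
  refine ⟨unitC (D.φ z).1.1, ?_⟩
  unfold eJ
  congr 1
  rw [Homeomorph.symm_apply_eq]
  have h7 : (dsc ((D.ε : ℂ) * (d0 : Disc).1)).1 = 0 := by
    have : (d0 : Disc).1 = 0 := rfl
    rw [this, mul_zero]
    exact dsc_val (by simp)
  have h8 := (D.φ z).2
  rw [h, norm_zero] at h8
  have h9 : ‖(D.φ z).1.1‖ = 1 := by nlinarith [norm_nonneg (D.φ z).1.1]
  apply Subtype.ext
  apply Prod.ext
  · show (unitC (D.φ z).1.1 : ℂ) * Real.sqrt (1 - ‖(dsc ((D.ε : ℂ) * (d0 : Disc).1)).1‖ ^ 2) = _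
    rw [h7]
    have := norm_mul_unitC (D.φ z).1.1
    rw [h9] at this
    simpa using this
  · show (dsc ((D.ε : ℂ) * (d0 : Disc).1)).1 = _
    rw [h7, h]

open Classical in
/-- the exterior of `J` in the second end: `x ↦ (x, 1)` outside the core and `eH z ↦ G z` inside -/
noncomputable def i₁ (x : Exterior D.eJ) : D.W :=
  if h : x.1 ∈ D.core then
    D.gA ⟨colZ 0 (D.G h.choose), D.notMem_T₀_of
      (by linarith [h.choose_spec.1, D.r₀_pos])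
      (fun hP => by
        obtain ⟨u, hu⟩ := D.P_eJ hP
        exact x.2 (u, d0) (by simp [d0]) (hu.trans h.choose_spec.2))⟩
  else D.gB (⟨x.1, h⟩, 1)

theorem eK_inj : Function.Injective D.eK := by
  intro p p' h
  have h1 := D.e_inj h
  have h3 := D.ρ₁_pos
  have h4 := D.ρ₁_lt
  have hb : ∀ w : Disc, (dsc ((D.ρ₁ : ℂ) * w.1)).1 = D.ρ₁ * w.1 := fun w => dsc_val (by
    rw [norm_mul, Complex.norm_real, Real.norm_eq_abs, abs_of_pos h3]
    have := w.2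
    have := norm_nonneg w.1
    nlinarith)
  rw [Prod.mk.injEq] at h1
  have e1 : p.1 = p'.1 := h1.1
  have e2 : (dsc ((D.ρ₁ : ℂ) * p.2.1)).1 = (dsc ((D.ρ₁ : ℂ) * p'.2.1)).1 :=
    congrArg Subtype.val h1.2
  rw [hb, hb] at e2
  have e3 : (D.ρ₁ : ℂ) ≠ 0 := by exact_mod_cast h3.ne'
  exact Prod.ext e1 (Subtype.ext (mul_left_cancel₀ e3 e2))

theorem gam_inj {ε : ℝ} (h0 : 0 < ε) (h1 : ε < 1) : Function.Injective (gam ε) := by
  intro p p' h
  have hb : ∀ w : Disc, (dsc ((ε : ℂ) * w.1)).1 = ε * w.1 := fun w => dsc_val (by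
    rw [norm_mul, Complex.norm_real, Real.norm_eq_abs, abs_of_pos h0]
    have := w.2
    have := norm_nonneg w.1
    nlinarith)
  have e2 : (gam ε p).1.2 = (gam ε p').1.2 := by rw [h]
  have e1 : (gam ε p).1.1 = (gam ε p').1.1 := by rw [h]
  simp only [gam, hb] at e1 e2
  have e3 : (ε : ℂ) ≠ 0 := by exact_mod_cast h0.ne'
  have e4 : p.2.1 = p'.2.1 := mul_left_cancel₀ e3 e2
  have hs : 0 < Real.sqrt (1 - ‖(ε : ℂ) * p.2.1‖ ^ 2) := by
    apply Real.sqrt_pos.2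
    have h5 : ‖(ε : ℂ) * p.2.1‖ ≤ ε := by
      rw [norm_mul, Complex.norm_real, Real.norm_eq_abs, abs_of_pos h0]
      have := p.2.2
      have := norm_nonneg p.2.1
      nlinarith
    have := norm_nonneg ((ε : ℂ) * p.2.1)
    nlinarith
  rw [← e4] at e1
  have hs' : ((Real.sqrt (1 - ‖(ε : ℂ) * p.2.1‖ ^ 2) : ℝ) : ℂ) ≠ 0 := by exact_mod_cast hs.ne'
  exact Prod.ext (Subtype.ext (mul_right_cancel₀ hs' e1)) (Subtype.ext e4)

theorem eJ_inj : Function.Injective D.eJ := by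
  intro p p' h
  have h1 := D.eH_injOn (z := D.φ.symm (gam D.ε p)) (z' := D.φ.symm (gam D.ε p'))
    (show lat _ ≤ _ by linarith [D.ε_in p, D.r₀_pos])
    (show lat _ ≤ _ by linarith [D.ε_in p', D.r₀_pos]) h
  exact gam_inj D.ε_pos D.ε_lt (D.φ.symm.injective h1)

end Dat

end Pool.Agent.H753.Cob
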