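import Pool.Agent.H753.Cob.VP
set_option autoImplicit false
namespace Pool.Agent.H753.Cob
open Set Topology
open Pool.Agent.Helper60.Fin (S3 Disc d0 ZeroFramed)
open Pool.Agent.Helper534.LS (HH hmap sub)
namespace Dat
variable (D : Dat)

/-- points of `T₀` are boundary points of the ball -/
theorem tkx_T₀ {p : B3 × Circle} (h : p ∈ D.T₀) : ‖p.1.1.1‖ ^ 2 + p.1.1.2 ^ 2 = 1 := by
  obtain ⟨u, v, rfl⟩ := h
  exact colZ_zero _

/-- multiplication of a point of the ball with a number of the unit interval -/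
noncomputable def tkx_sm (s : unitInterval) (x : B3) : B3 :=
  ⟨(s : ℝ) • x.1, by
    have h := x.2
    have h0 := s.2.1
    have h1 := s.2.2
    rw [Prod.smul_fst, Prod.smul_snd, norm_smul, Real.norm_eq_abs, abs_of_nonneg h0, smul_eq_mul]
    have h2 : ((s : ℝ) * ‖x.1.1‖) ^ 2 + ((s : ℝ) * x.1.2) ^ 2 =
      (s : ℝ) ^ 2 * (‖x.1.1‖ ^ 2 + x.1.2 ^ 2) := by ring
    rw [h2]
    have h3 : (s : ℝ) ^ 2 ≤ 1 := by nlinarith
    have h4 : 0 ≤ ‖x.1.1‖ ^ 2 + x.1.2 ^ 2 := by positivity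
    nlinarith⟩

theorem tkx_sm_notMem (s : unitInterval) (a : D.A) : (tkx_sm s a.1.1, a.1.2) ∉ D.T₀ := by
  intro h
  have h1 := D.tkx_T₀ h
  simp only [tkx_sm, Prod.smul_fst, Prod.smul_snd, norm_smul, Real.norm_eq_abs,
    abs_of_nonneg s.2.1, smul_eq_mul] at h1
  have h2 : ((s : ℝ) * ‖a.1.1.1.1‖) ^ 2 + ((s : ℝ) * a.1.1.1.2) ^ 2 =
      (s : ℝ) ^ 2 * (‖a.1.1.1.1‖ ^ 2 + a.1.1.1.2 ^ 2) := by ring
  rw [h2] at h1
  have h3 := a.1.1.2
  have h4 : 0 ≤ ‖a.1.1.1.1‖ ^ 2 + a.1.1.1.2 ^ 2 := by positivity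
  have h0 := s.2.1
  have h5 := s.2.2
  have h6 : (s : ℝ) = 1 := by nlinarith
  have h7 : s = 1 := Subtype.ext h6
  apply a.2
  rw [h7] at h
  have h8 : (tkx_sm 1 a.1.1, a.1.2) = a.1 := by
    apply Prod.ext
    · apply Subtype.ext
      simp [tkx_sm]
    · rfl
  rwa [h8] at h

/-- the section -/
noncomputable def tkx_sec (u : Circle) : D.A :=
  ⟨(⟨(0, 0), by norm_num⟩, u), by
    intro h
    have h1 := D.tkx_T₀ h
    norm_num at h1⟩

/-- TASK 17a. `A → S¹`, `a ↦ a.1.2` is an `HIso`: the section `u ↦ ((0,0), u)` (not in `T₀`) is a homotopy inverse, with the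
homotopy `((x, u), s) ↦ ((1 - s) x, u)` (not in `T₀` for `s > 0`, as the points of `T₀` have norm one). -/
theorem hiso_pr : HIso (⟨fun a => a.1.2, by fun_prop⟩ : C(D.A, Circle)) := by
  have hc : Continuous D.tkx_sec := by
    unfold tkx_sec
    fun_prop
  refine (hiso_of_section (⟨D.tkx_sec, hc⟩ : C(Circle, D.A)) _ (fun u => rfl) ?_).2
  refine homotopic_of _ _ (fun p => ⟨(tkx_sm p.2 p.1.1.1, p.1.1.2), D.tkx_sm_notMem p.2 p.1⟩)
    ?_ ?_ ?_
  · unfold tkx_sm
    fun_prop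
  · intro a
    apply Subtype.ext
    apply Prod.ext
    · apply Subtype.ext
      show ((0 : unitInterval) : ℝ) • a.1.1.1 = (0, 0)
      simp only [Icc.coe_zero, zero_smul]
      rfl
    · rfl
  · intro a
    apply Subtype.ext
    apply Prod.ext
    · apply Subtype.ext
      show ((1 : unitInterval) : ℝ) • a.1.1.1 = a.1.1.1
      simp
    · rfl

theorem tkx_iOi_ne {p : S2 × Circle} (hp : p.1.1.2 < 1) : (iOi p).2 ≠ 0 := by
  have h0 : 0 < (1 - p.1.1.2) / 2 := by linarith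
  have h3 := Real.sqrt_pos.2 h0
  have h3' : (Real.sqrt ((1 - p.1.1.2) / 2) : ℂ) ≠ 0 := by simpa using h3.ne'
  simp only [iOi]
  exact mul_ne_zero (by simp) h3'

/-- TASK 17b. `G` is a homeomorphism of the complement of `P` onto `{y₂ < 1} ⊆ S² × S¹` (inverse `φ⁻¹ ∘ iOi`, see `iOi_iO`,
`iO_iOi`, `iO_lt_one`, `D.φ_ne`, `D.φ_c`). -/
theorem exists_G_homeo : ∃ Γ : {z : S3 // z ∉ D.P} ≃ₜ {p : S2 × Circle // p.1.1.2 < 1},
    ∀ z, (Γ z).1 = D.G z.1 := by
  refine ⟨{ toFun := fun z => ⟨D.G z.1, iO_lt_one (D.φ_ne z.2)⟩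
            invFun := fun p => ⟨D.φ.symm ⟨iOi p.1, iOi_mem p.2⟩, fun h => ?_⟩
            left_inv := ?_
            right_inv := ?_
            continuous_toFun := ?_
            continuous_invFun := ?_ }, fun z => rfl⟩
  · have h1 := (D.φ_c _).2 h
    rw [Homeomorph.apply_symm_apply] at h1
    exact tkx_iOi_ne p.2 h1
  · intro z
    apply Subtype.ext
    show D.φ.symm ⟨iOi (D.G z.1), _⟩ = z.1
    rw [Homeomorph.symm_apply_eq]
    apply Subtype.ext
    exact iOi_iO (D.φ_ne z.2)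
  · intro p
    apply Subtype.ext
    show iO (D.φ (D.φ.symm ⟨iOi p.1, _⟩)) = p.1
    rw [Homeomorph.apply_symm_apply]
    exact iO_iOi p.2
  · apply Continuous.subtype_mk
    rw [continuous_iff_continuousAt]
    intro z
    exact ContinuousAt.comp (f := fun z : {z : S3 // z ∉ D.P} => z.1) (D.continuousAt_G z.2)
      continuous_subtype_val.continuousAt
  · apply Continuous.subtype_mk
    apply D.φ.symm.continuous.comp
    apply Continuous.subtype_mk
    unfold iOi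
    apply Continuous.prodMk
    · apply Continuous.div (by fun_prop)
      · apply Continuous.mul continuous_const
        apply Complex.continuous_ofReal.comp
        fun_prop
      · intro p
        have h0 : 0 < (1 - p.1.1.1.2) / 2 := by linarith [p.2]
        have h3 := Real.sqrt_pos.2 h0
        have h3' : (Real.sqrt ((1 - p.1.1.1.2) / 2) : ℂ) ≠ 0 := by simpa using h3.ne'
        exact mul_ne_zero two_ne_zero h3'
    · apply Continuous.mul (by fun_prop)
      apply Complex.continuous_ofReal.comp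
      fun_prop

/-- the open complementary solid torus -/
abbrev tkx_U : Type := {z : S3 // Real.pi / 4 < lat z}

theorem tkx_lat_iff (z : S3) : Real.pi / 4 < lat z ↔ ‖z.1.1‖ < Real.cos (Real.pi / 4) := by
  rw [← cos_lat]
  have h1 := lat_nonneg z
  have h2 := lat_le z
  have hp := Real.pi_pos
  constructor
  · intro h
    exact Real.cos_lt_cos_of_nonneg_of_le_pi (by linarith) (by linarith) h
  · intro h
    by_contra hc
    push Not at hc
    have := Real.cos_le_cos_of_nonneg_of_le_pi h1 (by linarith) hc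
    linarith

theorem tkx_ne (z : tkx_U) : z.1.1.2 ≠ 0 := by
  intro h
  have h1 := (tkx_lat_iff z.1).1 z.2
  have h2 := z.1.2
  rw [h, norm_zero] at h2
  have h3 : ‖z.1.1.1‖ ^ 2 = 1 := by linarith
  have h4 : ‖z.1.1.1‖ = 1 := by
    have := norm_nonneg z.1.1.1
    nlinarith
  rw [h4] at h1
  linarith [Real.cos_le_one (Real.pi / 4)]

/-- the core of the complementary solid torus -/
noncomputable def tkx_k (v : Circle) : tkx_U :=
  ⟨cl 1 v (Real.pi / 2), by
    rw [lat_cl _ _ (by positivity) le_rfl]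
    linarith [Real.pi_pos]⟩

theorem tkx_k_cont : Continuous tkx_k := by
  unfold tkx_k
  apply Continuous.subtype_mk
  exact continuous_cl.comp (by fun_prop : Continuous fun v : Circle =>
    ((1 : Circle), v, (Real.pi / 2 : ℝ)))

/-- the retraction -/
noncomputable def tkx_q (z : tkx_U) : Circle := unitC z.1.1.2

theorem tkx_q_cont : Continuous tkx_q := by
  rw [continuous_iff_continuousAt]
  intro z
  have h : Continuous fun z : tkx_U => z.1.1.2 := by fun_prop
  exact ContinuousAt.comp (f := fun z : tkx_U => z.1.1.2) (continuousAt_unitC (tkx_ne z))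
    h.continuousAt

/-- the homotopy -/
noncomputable def tkx_H (p : tkx_U × unitInterval) : tkx_U :=
  ⟨⟨((p.2 : ℝ) * p.1.1.1.1, (tkx_q p.1 : ℂ) * Real.sqrt (1 - ‖((p.2 : ℝ) : ℂ) * p.1.1.1.1‖ ^ 2)), by
    have h1 : ‖((p.2 : ℝ) : ℂ) * p.1.1.1.1‖ ≤ 1 := by
      rw [norm_mul, Complex.norm_real, Real.norm_eq_abs, abs_of_nonneg p.2.2.1]
      have := norm_le_one' p.1.1
      have := p.2.2.2
      have := p.2.2.1
      have := norm_nonneg p.1.1.1.1
      nlinarith
    have h0 := norm_nonneg (((p.2 : ℝ) : ℂ) * p.1.1.1.1)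
    simp only [norm_mul (tkx_q p.1 : ℂ), Circle.norm_coe, one_mul, Complex.norm_real,
      Real.norm_eq_abs, sq_abs]
    rw [Real.sq_sqrt (by nlinarith)]
    ring⟩, by
    rw [tkx_lat_iff]
    have h1 := (tkx_lat_iff p.1.1).1 p.1.2
    refine lt_of_le_of_lt ?_ h1
    show ‖((p.2 : ℝ) : ℂ) * p.1.1.1.1‖ ≤ _
    rw [norm_mul, Complex.norm_real, Real.norm_eq_abs, abs_of_nonneg p.2.2.1]
    have := p.2.2.2
    have := norm_nonneg p.1.1.1.1
    nlinarith⟩

theorem tkx_H_cont : Continuous tkx_H := by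
  unfold tkx_H
  apply Continuous.subtype_mk
  apply Continuous.subtype_mk
  have hq : Continuous fun p : tkx_U × unitInterval => (tkx_q p.1 : ℂ) :=
    (by fun_prop : Continuous fun u : Circle => (u : ℂ)).comp (tkx_q_cont.comp continuous_fst)
  refine Continuous.prodMk (by fun_prop) (hq.mul ?_)
  fun_prop

theorem tkx_hiso_k : HIso (⟨tkx_k, tkx_k_cont⟩ : C(Circle, tkx_U)) := by
  refine (hiso_of_section _ (⟨tkx_q, tkx_q_cont⟩ : C(tkx_U, Circle)) ?_ ?_).1
  · intro v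
    show unitC (cl 1 v (Real.pi / 2)).1.2 = v
    rw [cl_2]
    exact unitC_mul_pos v (by rw [Real.sin_pi_div_two]; norm_num)
  · refine homotopic_of _ _ tkx_H tkx_H_cont ?_ ?_
    · intro z
      apply Subtype.ext
      apply Subtype.ext
      apply Prod.ext
      · show (((0 : unitInterval) : ℝ) : ℂ) * z.1.1.1 = (cl 1 (tkx_q z) (Real.pi / 2)).1.1
        rw [cl_1]
        simp
      · show (tkx_q z : ℂ) * Real.sqrt (1 - ‖(((0 : unitInterval) : ℝ) : ℂ) * z.1.1.1‖ ^ 2) =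
          (cl 1 (tkx_q z) (Real.pi / 2)).1.2
        rw [cl_2]
        simp
    · intro z
      apply Subtype.ext
      apply Subtype.ext
      apply Prod.ext
      · show (((1 : unitInterval) : ℝ) : ℂ) * z.1.1.1 = z.1.1.1
        simp
      · show (tkx_q z : ℂ) * Real.sqrt (1 - ‖(((1 : unitInterval) : ℝ) : ℂ) * z.1.1.1‖ ^ 2) =
          z.1.1.2
        have h : 1 - ‖(((1 : unitInterval) : ℝ) : ℂ) * z.1.1.1‖ ^ 2 = ‖z.1.1.2‖ ^ 2 := by
          have := z.1.2
          simp only [Icc.coe_one, Complex.ofReal_one, one_mul]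
          linarith
        rw [h, Real.sqrt_sq (norm_nonneg _), mul_comm]
        exact norm_mul_unitC _

/-- the complementary solid torus is `A₀` -/
noncomputable def tkx_psi (z : tkx_U) : D.A₀ :=
  ⟨⟨colZ 0 (D.G z.1), D.notMem_T₀_of z.2.ne' (D.notMem_P_of_lat (by linarith [z.2, D.r₀_pos]))⟩,
    ⟨z.1, z.2, rfl⟩⟩

theorem tkx_psi_cont : Continuous D.tkx_psi := by
  unfold tkx_psi
  apply Continuous.subtype_mk
  apply Continuous.subtype_mk
  rw [continuous_iff_continuousAt]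
  intro z
  have hz : z.1 ∉ D.P := D.notMem_P_of_lat (by linarith [z.2, D.r₀_pos])
  have h3 : ContinuousAt (fun z : tkx_U => D.G z.1) z :=
    ContinuousAt.comp (f := fun z : tkx_U => z.1) (D.continuousAt_G hz)
      continuous_subtype_val.continuousAt
  exact ContinuousAt.comp (f := fun z : tkx_U => ((0 : ℝ), D.G z.1))
    continuous_colZ.continuousAt (continuousAt_const.prodMk h3)

theorem tkx_A₀_norm (a : D.A₀) : ‖a.1.1.1.1.1‖ ^ 2 + a.1.1.1.1.2 ^ 2 = 1 := by
  obtain ⟨z, -, h⟩ := a.2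
  rw [h]
  exact colZ_zero _

theorem tkx_hiso_psi : HIso (⟨D.tkx_psi, D.tkx_psi_cont⟩ : C(tkx_U, D.A₀)) := by
  obtain ⟨Γ, hΓ⟩ := D.exists_G_homeo
  -- the point of the sphere
  let pt : D.A₀ → S2 × Circle := fun a => (⟨a.1.1.1.1, D.tkx_A₀_norm a⟩, a.1.1.2)
  have hpt : Continuous pt := by
    show Continuous fun a : D.A₀ => ((⟨a.1.1.1.1, D.tkx_A₀_norm a⟩ : S2), a.1.1.2)
    fun_prop
  have hptc : ∀ a z, a.1.1 = colZ 0 (D.G z) → pt a = D.G z := by
    intro a z h
    apply Prod.ext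
    · apply Subtype.ext
      show a.1.1.1.1 = _
      rw [h, colZ_val le_rfl zero_le_one]
      simp
    · show a.1.1.2 = _
      rw [h]
      rfl
  have hlt : ∀ a, (pt a).1.1.2 < 1 := by
    intro a
    obtain ⟨z, hz, h⟩ := a.2
    rw [hptc a z h]
    exact iO_lt_one (D.φ_ne (D.notMem_P_of_lat (by linarith [D.r₀_pos])))
  let q : D.A₀ → {z : S3 // z ∉ D.P} := fun a => Γ.symm ⟨pt a, hlt a⟩
  have hq : Continuous q := Γ.symm.continuous.comp (hpt.subtype_mk _)
  have hqz : ∀ a z, z ∉ D.P → a.1.1 = colZ 0 (D.G z) → (q a).1 = z := by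
    intro a z hz h
    have h1 : (⟨pt a, hlt a⟩ : {p : S2 × Circle // p.1.1.2 < 1}) = Γ ⟨z, hz⟩ := by
      apply Subtype.ext
      rw [hΓ]
      exact hptc a z h
    show (Γ.symm ⟨pt a, hlt a⟩).1 = z
    rw [h1, Homeomorph.symm_apply_apply]
  have hql : ∀ a, Real.pi / 4 < lat (q a).1 := by
    intro a
    obtain ⟨z, hz, h⟩ := a.2
    rw [hqz a z (D.notMem_P_of_lat (by linarith [D.r₀_pos])) h]
    exact hz
  refine hiso_of_bij _ (⟨fun a => ⟨(q a).1, hql a⟩, by fun_prop⟩ : C(D.A₀, tkx_U)) ?_ ?_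
  · intro z
    apply Subtype.ext
    exact hqz (D.tkx_psi z) z.1 (D.notMem_P_of_lat (by linarith [z.2, D.r₀_pos])) rfl
  · intro a
    obtain ⟨z, hz, h⟩ := a.2
    have h1 := hqz a z (D.notMem_P_of_lat (by linarith [D.r₀_pos])) h
    apply Subtype.ext
    apply Subtype.ext
    show colZ 0 (D.G (q a).1) = a.1.1
    rw [h1, h]

/-- TASK 17c. `A₀ → A` is an `HIso`. By 17b `z ↦ colZ 0 (G z)` is a homeomorphism of `{lat z > π/4}` onto `A₀`; and
`v ↦ cl 1 v (π/2)` from `S¹` to `{lat > π/4}` is an `HIso` (homotopy inverse `z ↦ unitC z₂`, homotopy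
`(z, s) ↦ (s z₁, unitC z₂ √(1 - |s z₁|²))`). The composition `S¹ → A₀ → A → S¹` is
`v ↦ (G (cl 1 v (π/2))).2 = g v`. -/
theorem hiso_A₀ (g : C(Circle, Circle)) (hg : ∀ v, g v = unitC (D.φ (cl 1 v (Real.pi / 2))).1.2)
    (h : HIso g) : HIso (sub D.A₀) := by
  have h1 : HIso ((⟨D.tkx_psi, D.tkx_psi_cont⟩ : C(tkx_U, D.A₀)).comp
    (⟨tkx_k, tkx_k_cont⟩ : C(Circle, tkx_U))) := D.tkx_hiso_psi.comp tkx_hiso_k
  refine HIso.of_comp_right ?_ h1
  refine HIso.of_comp_left (g := (⟨fun a => a.1.2, by fun_prop⟩ : C(D.A, Circle))) ?_ D.hiso_pr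
  have e : (⟨fun a => a.1.2, by fun_prop⟩ : C(D.A, Circle)).comp ((sub D.A₀).comp
    ((⟨D.tkx_psi, D.tkx_psi_cont⟩ : C(tkx_U, D.A₀)).comp
    (⟨tkx_k, tkx_k_cont⟩ : C(Circle, tkx_U)))) = g := by
    apply ContinuousMap.ext
    intro v
    rw [hg]
    rfl
  rw [e]
  exact h

end Dat
end Pool.Agent.H753.Cob
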