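import Pool.Agent.H753.Cob.VP
import Pool.Agent.H753.Cob.T_mv
set_option autoImplicit false
namespace Pool.Agent.H753.Cob
open Set Topology
open Pool.Agent.Helper60.Fin (S3 Disc d0 ZeroFramed)
open Pool.Agent.Helper534.LS (HH hmap sub)
namespace Dat
variable (D : Dat)

/-- the part of `S² × S¹` in `A₁` -/
def tkQ : Set (S2 × Circle) := {p | ∀ z, Real.pi / 4 ≤ lat z → D.G z ≠ p}
/-- the cap -/
def tkC : Set (S2 × Circle) := {p | 1 - 2 * D.ε ^ 2 < p.1.1.2}

theorem tkC_sub : D.tkC ⊆ D.tkQ := by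
  intro p hp z hz h
  have hp' : 1 - 2 * D.ε ^ 2 < p.1.1.2 := hp
  rw [← h, D.G_lat] at hp'
  have h1 : ‖(D.φ z).1.2‖ ≤ D.ε := by
    have := D.ε_pos
    by_contra hc
    push Not at hc
    nlinarith [norm_nonneg (D.φ z).1.2]
  have := D.lat_of_small h1
  linarith [D.r₀_pos]

theorem tky_colZ_val (p : S2 × Circle) : (colZ 0 p).1.1 = p.1.1 := by
  rw [colZ_val le_rfl zero_le_one]
  simp

theorem tky_colZ_inj {p p' : S2 × Circle} (h : colZ 0 p = colZ 0 p') : p = p' :=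
  (colZ_inj le_rfl one_pos le_rfl one_pos h).2

theorem tkQ_notMem {p : S2 × Circle} (hp : p ∈ D.tkQ) : colZ 0 p ∉ D.T₀ := by
  rintro ⟨u, v, e⟩
  refine hp (cl u v (Real.pi / 4)) ?_ (tky_colZ_inj e)
  rw [lat_cl _ _ (by linarith [Real.pi_pos]) (by linarith [Real.pi_pos])]

/-- `tkQ → A₁` -/
noncomputable def tkq : C(D.tkQ, D.A₁) where
  toFun p := ⟨⟨colZ 0 p.1, D.tkQ_notMem p.2⟩, p.1, p.2, rfl⟩
  continuous_toFun := by
    apply Continuous.subtype_mk
    apply Continuous.subtype_mk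
    exact continuous_colZ.comp (continuous_const.prodMk continuous_subtype_val)

theorem tkA₁_norm (a : D.A₁) : ‖a.1.1.1.1.1‖ ^ 2 + a.1.1.1.1.2 ^ 2 = 1 := by
  obtain ⟨a, p, hp, h⟩ := a
  show ‖a.1.1.1.1‖ ^ 2 + a.1.1.1.2 ^ 2 = 1
  rw [h]
  exact colZ_zero p

theorem tkA₁_mem (a : D.A₁) : ((⟨a.1.1.1.1, D.tkA₁_norm a⟩, a.1.1.2) : S2 × Circle) ∈ D.tkQ := by
  obtain ⟨a, p, hp, h⟩ := a
  intro z hz h2
  refine hp z hz ?_
  rw [h2]
  apply Prod.ext
  · apply Subtype.ext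
    show a.1.1.1 = p.1.1
    rw [h, tky_colZ_val]
  · show a.1.2 = p.2
    rw [h]
    rfl

/-- the inverse of `tkq` -/
noncomputable def tkq' : C(D.A₁, D.tkQ) where
  toFun a := ⟨(⟨a.1.1.1.1, D.tkA₁_norm a⟩, a.1.1.2), D.tkA₁_mem a⟩
  continuous_toFun := by
    apply Continuous.subtype_mk
    apply Continuous.prodMk
    · apply Continuous.subtype_mk
      fun_prop
    · fun_prop

theorem tkq_hiso : HIso D.tkq := by
  refine hiso_of_bij D.tkq D.tkq' ?_ ?_
  · intro x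
    apply Subtype.ext
    apply Prod.ext
    · apply Subtype.ext
      exact tky_colZ_val x.1
    · rfl
  · intro a
    apply Subtype.ext
    apply Subtype.ext
    apply Prod.ext
    · apply Subtype.ext
      exact tky_colZ_val _
    · rfl

/-- the inclusion of the cap -/
def tkInc : C(D.tkC, D.tkQ) := ⟨Set.inclusion D.tkC_sub, continuous_inclusion D.tkC_sub⟩

theorem tkInc_hiso (hG : ∃ Γ : {z : S3 // z ∉ D.P} ≃ₜ {p : S2 × Circle // p.1.1.2 < 1}, ∀ z, (Γ z).1 = D.G z.1)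
    (hNP : HIso D.incNP) : HIso D.tkInc := by
  obtain ⟨Γ, hΓ⟩ := hG
  have hΓs : ∀ p, D.G (Γ.symm p).1 = p.1 := fun p => by
    rw [← hΓ, Γ.apply_symm_apply]
  have ε0 := D.ε_pos
  -- the two pieces
  let U : Set D.tkC := {x | x.1.1.1.2 < 1}
  let U' : Set D.tkQ := {x | x.1.1.1.2 < 1}
  let V' : Set D.tkQ := {x | 1 - 2 * D.ε ^ 2 < x.1.1.1.2}
  have hU : IsOpen U := isOpen_lt (by fun_prop) continuous_const
  have hU' : IsOpen U' := isOpen_lt (by fun_prop) continuous_const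
  have hV' : IsOpen V' := isOpen_lt continuous_const (by fun_prop)
  -- the maps of the pieces
  let fU : C(U, U') := ⟨fun x => ⟨D.tkInc x.1, x.2⟩, by
    apply Continuous.subtype_mk
    exact D.tkInc.continuous.comp continuous_subtype_val⟩
  let fV : C(↥(univ : Set D.tkC), V') := ⟨fun x => ⟨D.tkInc x.1, x.1.2⟩, by
    apply Continuous.subtype_mk
    exact D.tkInc.continuous.comp continuous_subtype_val⟩
  let fI : C(↥(U ∩ univ), ↥(U' ∩ V')) := ⟨fun x => ⟨D.tkInc x.1, x.2.1, x.1.2⟩, by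
    apply Continuous.subtype_mk
    exact D.tkInc.continuous.comp continuous_subtype_val⟩
  refine five_whole U univ hU isOpen_univ (fun x => Or.inr trivial) U' V' hU' hV' ?_ D.tkInc fU fV fI
    (fun _ => rfl) (fun _ => rfl) (fun _ => rfl) ?_ ?_ ?_
  · intro x
    by_cases h : x.1.1.1.2 < 1
    · exact Or.inl h
    · right
      show 1 - 2 * D.ε ^ 2 < x.1.1.1.2
      push Not at h
      nlinarith
  · -- the big piece
    have hNP1 : ∀ z : D.NP, 1 - 2 * D.ε ^ 2 < (Γ ⟨z.1, z.2.1⟩).1.1.1.2 := by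
      intro z
      rw [hΓ, D.G_lat]
      have h2 : ‖(D.φ z.1).1.2‖ < D.ε := z.2.2
      have := norm_nonneg (D.φ z.1).1.2
      nlinarith
    let a : C(D.NP, U) := ⟨fun z => ⟨⟨(Γ ⟨z.1, z.2.1⟩).1, hNP1 z⟩, (Γ ⟨z.1, z.2.1⟩).2⟩, by
      apply Continuous.subtype_mk
      apply Continuous.subtype_mk
      exact continuous_subtype_val.comp (Γ.continuous.comp
        (continuous_subtype_val.subtype_mk _))⟩
    have ha' : ∀ x : U, (Γ.symm ⟨x.1.1, x.2⟩).1 ∈ D.NP := by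
      intro x
      refine ⟨(Γ.symm ⟨x.1.1, x.2⟩).2, ?_⟩
      have h3 : 1 - 2 * D.ε ^ 2 < x.1.1.1.1.2 := x.1.2
      have h4 : x.1.1.1.1.2 = 1 - 2 * ‖(D.φ (Γ.symm ⟨x.1.1, x.2⟩).1).1.2‖ ^ 2 := by
        rw [← D.G_lat, hΓs]
      rw [h4] at h3
      by_contra hc
      push Not at hc
      nlinarith
    let a' : C(U, D.NP) := ⟨fun x => ⟨(Γ.symm ⟨x.1.1, x.2⟩).1, ha' x⟩, by
      apply Continuous.subtype_mk
      exact continuous_subtype_val.comp (Γ.symm.continuous.comp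
        ((continuous_subtype_val.comp continuous_subtype_val).subtype_mk _))⟩
    have ha : HIso a := by
      refine hiso_of_bij a a' ?_ ?_
      · intro z
        apply Subtype.ext
        show (Γ.symm (Γ ⟨z.1, z.2.1⟩)).1 = z.1
        rw [Γ.symm_apply_apply]
      · intro x
        apply Subtype.ext
        apply Subtype.ext
        show (Γ (Γ.symm ⟨x.1.1, x.2⟩)).1 = x.1.1
        rw [Γ.apply_symm_apply]
    have hVP1 : ∀ z : D.VP, (Γ ⟨z.1, z.2.2⟩).1 ∈ D.tkQ := by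
      intro z y hy h
      rw [hΓ] at h
      have := D.G_inj (D.notMem_P_of_lat (by linarith [D.r₀_pos])) z.2.2 h
      have h5 : lat z.1 < Real.pi / 4 := z.2.1
      rw [← this] at h5
      linarith
    let b : C(D.VP, U') := ⟨fun z => ⟨⟨(Γ ⟨z.1, z.2.2⟩).1, hVP1 z⟩, (Γ ⟨z.1, z.2.2⟩).2⟩, by
      apply Continuous.subtype_mk
      apply Continuous.subtype_mk
      exact continuous_subtype_val.comp (Γ.continuous.comp
        (continuous_subtype_val.subtype_mk _))⟩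
    have hb' : ∀ x : U', (Γ.symm ⟨x.1.1, x.2⟩).1 ∈ D.VP := by
      intro x
      refine ⟨?_, (Γ.symm ⟨x.1.1, x.2⟩).2⟩
      by_contra hc
      push Not at hc
      exact x.1.2 _ hc (hΓs ⟨x.1.1, x.2⟩)
    let b' : C(U', D.VP) := ⟨fun x => ⟨(Γ.symm ⟨x.1.1, x.2⟩).1, hb' x⟩, by
      apply Continuous.subtype_mk
      exact continuous_subtype_val.comp (Γ.symm.continuous.comp
        ((continuous_subtype_val.comp continuous_subtype_val).subtype_mk _))⟩
    have hb : HIso b := by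
      refine hiso_of_bij b b' ?_ ?_
      · intro z
        apply Subtype.ext
        show (Γ.symm (Γ ⟨z.1, z.2.2⟩)).1 = z.1
        rw [Γ.symm_apply_apply]
      · intro x
        apply Subtype.ext
        apply Subtype.ext
        show (Γ (Γ.symm ⟨x.1.1, x.2⟩)).1 = x.1.1
        rw [Γ.apply_symm_apply]
    have hc : fU.comp a = b.comp D.incNP := ContinuousMap.ext fun z => rfl
    have h1 : HIso (fU.comp a) := by
      rw [hc]
      exact hb.comp hNP
    exact h1.of_comp_right ha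
  · -- the cap
    refine hiso_of_bij fV ⟨fun y => ⟨⟨y.1.1, y.2⟩, trivial⟩, ?_⟩ ?_ ?_
    · apply Continuous.subtype_mk
      apply Continuous.subtype_mk
      exact continuous_subtype_val.comp continuous_subtype_val
    · intro x; rfl
    · intro y; rfl
  · refine hiso_of_bij fI ⟨fun y => ⟨⟨y.1.1, y.2.2⟩, y.2.1, trivial⟩, ?_⟩ ?_ ?_
    · apply Continuous.subtype_mk
      apply Continuous.subtype_mk
      exact continuous_subtype_val.comp continuous_subtype_val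
    · intro x; rfl
    · intro y; rfl

/-- the projection of the cap -/
def tkPr : C(D.tkC, Circle) := ⟨fun p => p.1.2, by fun_prop⟩

theorem tky_b_bound (y : S2) (s : ℝ) (hs0 : 0 ≤ s) (hs1 : s ≤ 1) : 0 ≤ s ^ 2 * ((1 - y.1.2) / 2) ∧
    s ^ 2 * ((1 - y.1.2) / 2) ≤ 1 := by
  have hy := y.2
  have h1 : y.1.2 ≤ 1 := by nlinarith [sq_nonneg ‖y.1.1‖]
  have h2 : -1 ≤ y.1.2 := by nlinarith [sq_nonneg ‖y.1.1‖]
  have h3 : 0 ≤ (1 - y.1.2) / 2 := by linarith
  have h4 : (1 - y.1.2) / 2 ≤ 1 := by linarith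
  have h5 : 0 ≤ s ^ 2 := sq_nonneg s
  have h6 : s ^ 2 ≤ 1 := by nlinarith
  constructor
  · positivity
  · nlinarith

/-- the contraction of the cap -/
noncomputable def tkCon (y : ℂ × ℝ) (s : ℝ) : ℂ × ℝ :=
  ((s * Real.sqrt (1 - s ^ 2 * ((1 - y.2) / 2)) / Real.sqrt ((1 + y.2) / 2) : ℝ) * y.1,
    1 - 2 * (s ^ 2 * ((1 - y.2) / 2)))

theorem tkCon_norm (y : S2) (hy : -1 < y.1.2) (s : ℝ) (hs0 : 0 ≤ s) (hs1 : s ≤ 1) :
    ‖(tkCon y.1 s).1‖ ^ 2 + (tkCon y.1 s).2 ^ 2 = 1 := by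
  obtain ⟨h0, h1⟩ := tky_b_bound y s hs0 hs1
  have ha : 0 < (1 + y.1.2) / 2 := by linarith
  have h2 := y.2
  unfold tkCon
  simp only [norm_mul, Complex.norm_real, Real.norm_eq_abs, mul_pow, sq_abs, div_pow,
    Real.sq_sqrt ha.le, Real.sq_sqrt (by linarith : 0 ≤ 1 - s ^ 2 * ((1 - y.1.2) / 2))]
  have h3 : ‖y.1.1‖ ^ 2 = (1 - y.1.2) * (1 + y.1.2) := by linarith
  rw [h3]
  have : 1 + y.1.2 ≠ 0 := by linarith
  field_simp
  ring

theorem tkPr_hiso : HIso D.tkPr := by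
  have ε0 := D.ε_pos
  have ε1 := D.ε_lt
  have hC : ∀ p : D.tkC, 1 - 2 * D.ε ^ 2 < p.1.1.1.2 := fun p => p.2
  have hm : ∀ p : D.tkC, -1 < p.1.1.1.2 := fun p => by
    have := hC p
    nlinarith
  let f : C(Circle, D.tkC) := ⟨fun v => ⟨(⟨(0, 1), by simp⟩, v), by
    show 1 - 2 * D.ε ^ 2 < 1
    nlinarith⟩, by
      apply Continuous.subtype_mk
      fun_prop⟩
  refine (hiso_of_section f D.tkPr (fun _ => rfl) ?_).2
  refine homotopic_of _ _ (fun q => ⟨(⟨tkCon q.1.1.1.1 q.2, tkCon_norm q.1.1.1 (hm q.1) q.2 q.2.2.1 q.2.2.2⟩,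
    q.1.1.2), ?_⟩) ?_ ?_ ?_
  · show 1 - 2 * D.ε ^ 2 < 1 - 2 * ((q.2 : ℝ) ^ 2 * ((1 - q.1.1.1.1.2) / 2))
    have h1 := hC q.1
    have h2 : q.1.1.1.1.2 ≤ 1 := by
      have := q.1.1.1.2
      nlinarith [sq_nonneg ‖q.1.1.1.1.1‖]
    have h3 := q.2.2.1
    have h4 := q.2.2.2
    have h5 : (q.2 : ℝ) ^ 2 ≤ 1 := by nlinarith
    have h6 : 0 ≤ (q.2 : ℝ) ^ 2 := sq_nonneg _
    nlinarith
  · apply Continuous.subtype_mk
    apply Continuous.prodMk
    · apply Continuous.subtype_mk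
      unfold tkCon
      have hne : ∀ q : D.tkC × unitInterval, Real.sqrt ((1 + q.1.1.1.1.2) / 2) ≠ 0 := by
        intro q
        have := hm q.1
        exact (Real.sqrt_pos.2 (by linarith)).ne'
      apply Continuous.prodMk
      · apply Continuous.mul
        · apply Complex.continuous_ofReal.comp
          apply Continuous.div _ _ hne
          · fun_prop
          · fun_prop
        · fun_prop
      · fun_prop
    · fun_prop
  · intro p
    apply Subtype.ext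
    apply Prod.ext
    · apply Subtype.ext
      show tkCon p.1.1.1 ((0 : unitInterval) : ℝ) = (0, 1)
      unfold tkCon
      simp
    · rfl
  · intro p
    apply Subtype.ext
    apply Prod.ext
    · apply Subtype.ext
      show tkCon p.1.1.1 ((1 : unitInterval) : ℝ) = p.1.1.1
      unfold tkCon
      have h1 : (1 : ℝ) - 1 ^ 2 * ((1 - p.1.1.1.2) / 2) = (1 + p.1.1.1.2) / 2 := by ring
      have h2 : Real.sqrt ((1 + p.1.1.1.2) / 2) ≠ 0 := by
        have := hm p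
        exact (Real.sqrt_pos.2 (by linarith)).ne'
      apply Prod.ext
      · show ((((1 : unitInterval) : ℝ) * Real.sqrt (1 - ((1 : unitInterval) : ℝ) ^ 2 * ((1 - p.1.1.1.2) / 2)) /
          Real.sqrt ((1 + p.1.1.1.2) / 2) : ℝ) : ℂ) * p.1.1.1.1 = p.1.1.1.1
        rw [Icc.coe_one, h1, one_mul, div_self h2]
        simp
      · show 1 - 2 * (((1 : unitInterval) : ℝ) ^ 2 * ((1 - p.1.1.1.2) / 2)) = p.1.1.1.2
        rw [Icc.coe_one]
        ring
    · rfl

/-- TASK 18. -/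
theorem hiso_A₁ (hpr : HIso (⟨fun a => a.1.2, by fun_prop⟩ : C(D.A, Circle)))
    (hG : ∃ Γ : {z : S3 // z ∉ D.P} ≃ₜ {p : S2 × Circle // p.1.1.2 < 1}, ∀ z, (Γ z).1 = D.G z.1)
    (hNP : HIso D.incNP) : HIso (sub D.A₁) := by
  have h1 : HIso ((⟨fun a => a.1.2, by fun_prop⟩ : C(D.A, Circle)).comp
      (((sub D.A₁).comp D.tkq).comp D.tkInc)) := by
    have e : (⟨fun a => a.1.2, by fun_prop⟩ : C(D.A, Circle)).comp
        (((sub D.A₁).comp D.tkq).comp D.tkInc) = D.tkPr := by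
      ext p
      rfl
    rw [e]
    exact D.tkPr_hiso
  have h2 := h1.of_comp_left hpr
  exact (h2.of_comp_right (D.tkInc_hiso hG hNP)).of_comp_right D.tkq_hiso

end Dat
end Pool.Agent.H753.Cob
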