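import Pool.Agent.H753.Cob.VP
import Pool.Agent.H753.Cob.T_mv
set_option autoImplicit false
namespace Pool.Agent.H753.Cob
open Set Topology
open Pool.Agent.Helper60.Fin (S3 Disc d0 ZeroFramed)
open Pool.Agent.Helper534.LS (HH hmap sub)

/-- an embedding which is onto is a homology isomorphism -/
theorem tkz_emb {X Y : Type} [TopologicalSpace X] [TopologicalSpace Y] (f : C(X, Y))
    (h : IsEmbedding f) (hs : Function.Surjective f) : HIso f := by
  have h1 := hiso_homeo (IsEmbedding.toHomeomorphOfSurjective h hs)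
  exact h1

/-- a piece of a space and a subset of it, seen through an embedding -/
theorem tkz_piece {A X : Type} [TopologicalSpace A] [TopologicalSpace X] (φ : A → X)
    (hφ : IsEmbedding φ) (A₀ : Set A) (Y : Set X) (hA : ∀ a, φ a ∈ Y ↔ a ∈ A₀) (S' : Set X)
    (hS' : ∀ x, x ∈ S' ↔ ∃ a, φ a = x) (S : Set Y) (hS : ∀ y : Y, y ∈ S ↔ ∃ a, φ a = y.1)
    (g : C(S, S')) (hg : ∀ y, (g y : X) = y.1.1) (h : HIso (sub A₀)) : HIso g := by
  let p : C(A, S') := ⟨fun a => ⟨φ a, (hS' _).2 ⟨a, rfl⟩⟩, by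
    have := hφ.continuous
    fun_prop⟩
  have hp : IsEmbedding p := by
    refine IsEmbedding.of_comp p.continuous continuous_subtype_val ?_
    exact hφ
  have hps : Function.Surjective p := by
    intro x
    obtain ⟨a, ha⟩ := (hS' _).1 x.2
    exact ⟨a, Subtype.ext ha⟩
  let q : C(A₀, S) := ⟨fun a => ⟨⟨φ a.1, (hA _).2 a.2⟩, (hS _).2 ⟨a.1, rfl⟩⟩, by
    have := hφ.continuous
    fun_prop⟩
  have hq : IsEmbedding q := by
    refine IsEmbedding.of_comp q.continuous (continuous_subtype_val.comp continuous_subtype_val) ?_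
    exact hφ.comp IsEmbedding.subtypeVal
  have hqs : Function.Surjective q := by
    intro x
    obtain ⟨a, ha⟩ := (hS _).1 x.2
    refine ⟨⟨a, (hA _).1 (by rw [ha]; exact x.1.2)⟩, ?_⟩
    exact Subtype.ext (Subtype.ext ha)
  have h1 : HIso (p.comp (sub A₀)) := (tkz_emb p hp hps).comp h
  have h2 : p.comp (sub A₀) = g.comp q := by
    ext a
    show φ a.1 = (g (q a) : X)
    rw [hg]
    rfl
  rw [h2] at h1
  exact h1.of_comp_right (tkz_emb q hq hqs)

/-- the inclusion of a subset of a glued space -/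
theorem tkz_glue {N A B : Type} [TopologicalSpace N] [TopologicalSpace A] [TopologicalSpace B]
    (α : N → A) (β : N → B) (hα : Function.Injective α) (hβ : Function.Injective β)
    (oα : IsOpenEmbedding α) (oβ : IsOpenEmbedding β) (Y : Set (Gl α β hα hβ))
    (A₀ : Set A) (B₀ : Set B) (N₀ : Set N) (hA : ∀ a, gl1 α β hα hβ a ∈ Y ↔ a ∈ A₀)
    (hB : ∀ b, gl2 α β hα hβ b ∈ Y ↔ b ∈ B₀) (hN : ∀ n, α n ∈ A₀ ↔ n ∈ N₀)
    (h1 : HIso (sub A₀)) (h2 : HIso (sub B₀)) (h3 : HIso (sub N₀)) : HIso (sub Y) := by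
  have o1 := gl1_openEmbedding α β hα hβ oα oβ
  have o2 := gl2_openEmbedding α β hα hβ oα oβ
  set U' : Set (Gl α β hα hβ) := range (gl1 α β hα hβ) with hU'
  set V' : Set (Gl α β hα hβ) := range (gl2 α β hα hβ) with hV'
  let U : Set Y := {y | y.1 ∈ U'}
  let V : Set Y := {y | y.1 ∈ V'}
  have hUo : IsOpen U := o1.isOpen_range.preimage continuous_subtype_val
  have hVo : IsOpen V := o2.isOpen_range.preimage continuous_subtype_val
  have hcov' : ∀ x, x ∈ U' ∨ x ∈ V' := fun x => gl_cover α β hα hβ x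
  have hcov : ∀ x, x ∈ U ∨ x ∈ V := fun x => hcov' x.1
  let fU : C(U, U') := ⟨fun y => ⟨y.1.1, y.2⟩, by fun_prop⟩
  let fV : C(V, V') := ⟨fun y => ⟨y.1.1, y.2⟩, by fun_prop⟩
  let fI : C(↥(U ∩ V), ↥(U' ∩ V')) := ⟨fun y => ⟨y.1.1, y.2⟩, by fun_prop⟩
  have hI : ∀ x, x ∈ U' ∩ V' ↔ ∃ n, gl1 α β hα hβ (α n) = x := by
    intro x
    constructor
    · rintro ⟨⟨a, rfl⟩, ⟨b, hb⟩⟩
      obtain ⟨n, rfl, rfl⟩ := (gl1_eq_gl2 α β hα hβ _ _).1 hb.symm
      exact ⟨n, rfl⟩
    · rintro ⟨n, rfl⟩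
      exact ⟨⟨_, rfl⟩, ⟨β n, (gl_glue α β hα hβ n).symm⟩⟩
  refine five_whole U V hUo hVo hcov U' V' o1.isOpen_range o2.isOpen_range hcov' (sub Y) fU fV fI
    (fun _ => rfl) (fun _ => rfl) (fun _ => rfl) ?_ ?_ ?_
  · exact tkz_piece _ o1.toIsEmbedding A₀ Y hA U' (fun x => Iff.rfl) U (fun y => Iff.rfl) fU
      (fun _ => rfl) h1
  · exact tkz_piece _ o2.toIsEmbedding B₀ Y hB V' (fun x => Iff.rfl) V (fun y => Iff.rfl) fV
      (fun _ => rfl) h2
  · exact tkz_piece (fun n => gl1 α β hα hβ (α n)) (o1.comp oα).toIsEmbedding N₀ Y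
      (fun n => (hA _).trans (hN n)) (U' ∩ V') hI (U ∩ V) (fun y => hI y.1) fI (fun _ => rfl) h3

/-- convex combinations in the unit interval -/
noncomputable def tkz_cmb (t₀ t s : unitInterval) : unitInterval :=
  ⟨(1 - s) * t₀ + s * t, by
    have h1 := s.2.1
    have h2 := s.2.2
    have h3 := t.2.1
    have h4 := t.2.2
    have h5 := t₀.2.1
    have h6 := t₀.2.2
    constructor
    · have := mul_nonneg (sub_nonneg.2 h2) h5
      have := mul_nonneg h1 h3
      linarith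
    · nlinarith⟩

/-- the inclusion of a slice -/
theorem tkz_slice {X : Type} [TopologicalSpace X] (t : X → unitInterval) (ht : Continuous t)
    (w : X × unitInterval → X) (hw : Continuous w) (h1 : ∀ x, w (x, t x) = x)
    (h2 : ∀ x s, t (w (x, s)) = s) (t₀ : unitInterval) : HIso (sub {x | t x = t₀}) := by
  have hc : Continuous fun q : X × unitInterval => tkz_cmb t₀ (t q.1) q.2 := by
    unfold tkz_cmb
    apply Continuous.subtype_mk
    fun_prop
  let r : C(X, {x | t x = t₀}) := ⟨fun x => ⟨w (x, t₀), h2 _ _⟩, by fun_prop⟩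
  refine (hiso_of_section (sub {x | t x = t₀}) r ?_ ?_).1
  · intro x
    apply Subtype.ext
    show w (x.1, t₀) = x.1
    have hx : t x.1 = t₀ := x.2
    have := h1 x.1
    rwa [hx] at this
  · refine homotopic_of _ _ (fun q => w (q.1, tkz_cmb t₀ (t q.1) q.2)) ?_ ?_ ?_
    · exact hw.comp (continuous_fst.prodMk hc)
    · intro x
      show w (x, tkz_cmb t₀ (t x) 0) = w (x, t₀)
      congr 2
      apply Subtype.ext
      simp [tkz_cmb]
    · intro x
      show w (x, tkz_cmb t₀ (t x) 1) = x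
      have : tkz_cmb t₀ (t x) 1 = t x := by
        apply Subtype.ext
        simp [tkz_cmb]
      rw [this, h1]

namespace Dat
variable (D : Dat)

theorem tkz_sliceB (t₀ : unitInterval) : HIso (sub {b : D.B | b.2 = t₀}) :=
  tkz_slice (X := D.B) (fun b => b.2) continuous_snd (fun q => (q.1.1, q.2)) (by fun_prop)
    (fun _ => rfl) (fun _ _ => rfl) t₀

theorem tkz_sliceN (t₀ : unitInterval) : HIso (sub {n : D.N | n.2.2.2 = t₀}) :=
  tkz_slice (X := D.N) (fun n => n.2.2.2) (by fun_prop)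
    (fun q => (q.1.1, q.1.2.1, q.1.2.2.1, q.2)) (by fun_prop) (fun _ => rfl) (fun _ _ => rfl) t₀

/-- TASK 19. The inclusion `Y₀ → W` is an `HIso` if `A₀ → A` is. `five_whole` for `f = sub Y₀ : Y₀ → W`, `U' = range gA`,
`V' = range gB`, `U`, `V` their preimages in `Y₀` (as sets of the subtype `Y₀`). Up to homeomorphisms (`gA`, `gB` are open
embeddings, `gl1_openEmbedding`, `gl2_openEmbedding`; `gA_Y₀`, `gB_Y₀`; `range gA ∩ range gB` is homeomorphic to `N` via
`gA ∘ α = gB ∘ β`, `gl1_eq_gl2`, `gl_glue`) `fU` is `sub A₀ : A₀ → A`, `fV` is `{b : B | b.2 = 0} → B` and `fI` is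
`{n : N | n.2.2.2 = 0} → N` (`D.α_A₀`), the last two being homotopy equivalences (products with `{0} → [0,1]`). It is best to
prove a general lemma for `Gl α β` and a subset `Y` of it (`Y` replaced by `Y₀` and `Y₁`). -/
theorem hom_Y₀ (hα : IsOpenEmbedding D.α) (hβ : IsOpenEmbedding D.β) (h : HIso (sub D.A₀)) :
    HIso (sub D.Y₀) :=
  tkz_glue D.α D.β D.α_inj D.β_inj hα hβ D.Y₀ D.A₀ {b | b.2 = 0} {n | n.2.2.2 = 0} D.gA_Y₀ D.gB_Y₀
    D.α_A₀ h (D.tkz_sliceB 0) (D.tkz_sliceN 0)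

/-- the same for the other end -/
theorem hom_Y₁ (hα : IsOpenEmbedding D.α) (hβ : IsOpenEmbedding D.β) (h : HIso (sub D.A₁)) :
    HIso (sub D.Y₁) :=
  tkz_glue D.α D.β D.α_inj D.β_inj hα hβ D.Y₁ D.A₁ {b | b.2 = 1} {n | n.2.2.2 = 1} D.gA_Y₁ D.gB_Y₁
    D.α_A₁ h (D.tkz_sliceB 1) (D.tkz_sliceN 1)

end Dat
end Pool.Agent.H753.Cob
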