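import Pool.Agent.H753.Cob.Data
set_option autoImplicit false
namespace Pool.Agent.H753.Cob
open Set Topology
open Pool.Agent.Helper60.Fin (S3 Disc d0 ZeroFramed)
namespace Dat
variable (D : Dat)

/-! ### the inverse of the collar -/

/-- the points of `B³ × S¹` whose radial projection is not the north pole -/
def tka_O1 : Set (B3 × Circle) := {x | x.1.1.2 < nrm x.1.1}

theorem tka_O1_open : IsOpen tka_O1 :=
  isOpen_lt (by fun_prop) (continuous_nrm.comp (by fun_prop))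

theorem tka_nrm_sq (x : ℂ × ℝ) : nrm x ^ 2 = ‖x.1‖ ^ 2 + x.2 ^ 2 :=
  Real.sq_sqrt (by positivity)

theorem tka_nrm_nonneg (x : ℂ × ℝ) : 0 ≤ nrm x := Real.sqrt_nonneg _

theorem tka_nrm_pos (x : tka_O1) : 0 < nrm x.1.1.1 := by
  have h : x.1.1.1.2 < nrm x.1.1.1 := x.2
  rcases (tka_nrm_nonneg x.1.1.1).lt_or_eq with h1 | h1
  · exact h1
  · have h2 := tka_nrm_sq x.1.1.1
    rw [← h1] at h h2
    nlinarith [sq_nonneg ‖x.1.1.1.1‖]

theorem tka_nrm_le (x : B3) : nrm x.1 ≤ 1 := by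
  have h2 := tka_nrm_sq x.1
  have h3 := x.2
  have h4 := tka_nrm_nonneg x.1
  nlinarith

/-- the radial projection -/
noncomputable def tka_p (x : tka_O1) : S2 × Circle :=
  (⟨(nrm x.1.1.1)⁻¹ • x.1.1.1, by
    have h := tka_nrm_pos x
    have h2 := tka_nrm_sq x.1.1.1
    rw [Prod.smul_fst, Prod.smul_snd, norm_smul, Real.norm_eq_abs, abs_of_pos (inv_pos.2 h),
      smul_eq_mul, mul_pow, mul_pow, ← mul_add, ← h2, ← mul_pow, inv_mul_cancel₀ h.ne', one_pow]⟩,
    x.1.2)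

theorem tka_p_lt (x : tka_O1) : (tka_p x).1.1.2 < 1 := by
  have h := tka_nrm_pos x
  have h2 : x.1.1.1.2 < nrm x.1.1.1 := x.2
  show (nrm x.1.1.1)⁻¹ * x.1.1.1.2 < 1
  rw [inv_mul_lt_iff₀ h]
  linarith

theorem tka_p_cont : Continuous tka_p := by
  unfold tka_p
  apply Continuous.prodMk
  · apply Continuous.subtype_mk
    have h1 : Continuous fun x : tka_O1 => nrm x.1.1.1 := continuous_nrm.comp (by fun_prop)
    have h2 : Continuous fun x : tka_O1 => (nrm x.1.1.1)⁻¹ :=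
      h1.inv₀ fun x => (tka_nrm_pos x).ne'
    have h3 : Continuous fun x : tka_O1 => x.1.1.1 := by fun_prop
    exact h2.smul h3
  · fun_prop

theorem tka_iOi_cont : Continuous fun x : tka_O1 => iOi (tka_p x) := by
  unfold iOi
  have h := tka_p_cont
  have h2 : ∀ x : tka_O1, (2 * (Real.sqrt ((1 - (tka_p x).1.1.2) / 2) : ℂ)) ≠ 0 := by
    intro x
    have h3 := tka_p_lt x
    have h4 : 0 < Real.sqrt ((1 - (tka_p x).1.1.2) / 2) := Real.sqrt_pos.2 (by linarith)
    have h5 : (Real.sqrt ((1 - (tka_p x).1.1.2) / 2) : ℂ) ≠ 0 := by exact_mod_cast h4.ne'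
    exact mul_ne_zero two_ne_zero h5
  have h3 : Continuous fun x : tka_O1 => (tka_p x).1.1.1 :=
    continuous_fst.comp (continuous_subtype_val.comp (continuous_fst.comp h))
  have h4 : Continuous fun x : tka_O1 => (tka_p x).1.1.2 :=
    continuous_snd.comp (continuous_subtype_val.comp (continuous_fst.comp h))
  have h5 : Continuous fun x : tka_O1 => ((tka_p x).2 : ℂ) :=
    continuous_subtype_val.comp (continuous_snd.comp h)
  have h6 : Continuous fun x : tka_O1 => (Real.sqrt ((1 - (tka_p x).1.1.2) / 2) : ℂ) := by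
    apply Complex.continuous_ofReal.comp
    apply Real.continuous_sqrt.comp
    exact (continuous_const.sub h4).div_const 2
  exact (h3.div (continuous_const.mul h6) h2).prodMk (h5.mul h6)

/-- the inverse of `z ↦ colZ τ (G z)` -/
noncomputable def tka_Z (x : tka_O1) : S3 := D.φ.symm ⟨iOi (tka_p x), iOi_mem (tka_p_lt x)⟩

theorem tka_Z_cont : Continuous D.tka_Z :=
  D.φ.symm.continuous.comp (tka_iOi_cont.subtype_mk _)

theorem tka_G_Z (x : tka_O1) : D.G (D.tka_Z x) = tka_p x := by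
  unfold G tka_Z
  rw [Homeomorph.apply_symm_apply]
  exact iO_iOi (tka_p_lt x)

theorem tka_colZ (x : tka_O1) : colZ (1 - nrm x.1.1.1) (tka_p x) = x.1 := by
  have h := tka_nrm_pos x
  have h1 := tka_nrm_le x.1.1
  apply Prod.ext
  · apply Subtype.ext
    rw [colZ_val (by linarith) (by linarith), sub_sub_cancel]
    show nrm x.1.1.1 • ((nrm x.1.1.1)⁻¹ • x.1.1.1) = x.1.1.1
    rw [smul_smul, mul_inv_cancel₀ h.ne', one_smul]
  · rfl

/-- the square of the distance to `T₀` -/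
noncomputable def tka_R (x : tka_O1) : ℝ :=
  (lat (D.tka_Z x) - Real.pi / 4) ^ 2 + (1 - nrm x.1.1.1) ^ 2

theorem tka_R_cont : Continuous D.tka_R := by
  unfold tka_R
  have h1 := continuous_lat.comp D.tka_Z_cont
  have h2 : Continuous fun x : tka_O1 => nrm x.1.1.1 := continuous_nrm.comp (by fun_prop)
  have h3 : Continuous fun x : tka_O1 => lat (D.tka_Z x) := h1
  fun_prop

/-- the image of the collar -/
def tka_O2 : Set tka_O1 := {x | 0 < D.tka_R x ∧ D.tka_R x < D.r₀ ^ 2}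

theorem tka_O2_open : IsOpen D.tka_O2 :=
  (isOpen_lt continuous_const D.tka_R_cont).inter (isOpen_lt D.tka_R_cont continuous_const)

variable {D}

theorem tka_sqrt_mem (x : D.tka_O2) : Real.sqrt (D.tka_R x.1) ∈ Ioo 0 D.r₀ := by
  have h := x.2
  refine ⟨Real.sqrt_pos.2 h.1, ?_⟩
  rw [Real.sqrt_lt' D.r₀_pos]
  exact h.2

theorem tka_abs_le (x : D.tka_O2) : |lat (D.tka_Z x.1) - Real.pi / 4| ≤ Real.sqrt (D.tka_R x.1) := by
  apply Real.abs_le_sqrt
  unfold tka_R
  nlinarith [sq_nonneg (1 - nrm x.1.1.1.1)]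

theorem tka_lat_mem (x : D.tka_O2) : 0 < lat (D.tka_Z x.1) ∧ lat (D.tka_Z x.1) < Real.pi / 2 := by
  have h1 := tka_abs_le x
  have h2 := (tka_sqrt_mem x).2
  have h3 := D.r₀_lt
  rw [abs_le] at h1
  constructor <;> linarith [h1.1, h1.2]

theorem tka_ne1 (x : D.tka_O2) : (D.tka_Z x.1).1.1 ≠ 0 := by
  intro h
  have h1 := cos_lat (D.tka_Z x.1)
  rw [h, norm_zero] at h1
  have h2 := tka_lat_mem x
  have h3 : 0 < Real.cos (lat (D.tka_Z x.1)) :=
    Real.cos_pos_of_mem_Ioo ⟨by linarith [Real.pi_pos, h2.1], h2.2⟩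
  linarith

theorem tka_ne2 (x : D.tka_O2) : (D.tka_Z x.1).1.2 ≠ 0 := by
  intro h
  have h1 := sin_lat (D.tka_Z x.1)
  rw [h, norm_zero] at h1
  have h2 := tka_lat_mem x
  have h3 : 0 < Real.sin (lat (D.tka_Z x.1)) :=
    Real.sin_pos_of_pos_of_lt_pi h2.1 (by linarith [Real.pi_pos, h2.2])
  linarith

/-- the cosine of the angle -/
noncomputable def tka_c (x : D.tka_O2) : ℝ :=
  (lat (D.tka_Z x.1) - Real.pi / 4) / Real.sqrt (D.tka_R x.1)

theorem tka_c_mem (x : D.tka_O2) : -1 ≤ tka_c x ∧ tka_c x ≤ 1 := by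
  have h := tka_abs_le x
  have h2 := (tka_sqrt_mem x).1
  rw [← abs_le, tka_c, abs_div, abs_of_pos h2, div_le_one h2]
  exact h

theorem tka_c_cont : Continuous (tka_c (D := D)) := by
  unfold tka_c
  have h1 : Continuous fun x : D.tka_O2 => lat (D.tka_Z x.1) :=
    (continuous_lat.comp D.tka_Z_cont).comp continuous_subtype_val
  have h2 : Continuous fun x : D.tka_O2 => D.tka_R x.1 := D.tka_R_cont.comp continuous_subtype_val
  apply Continuous.div
  · fun_prop
  · fun_prop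
  · intro x; exact (tka_sqrt_mem x).1.ne'

/-- the angle, divided by `π` -/
noncomputable def tka_t (x : D.tka_O2) : unitInterval :=
  ⟨Real.arccos (tka_c x) / Real.pi, div_nonneg (Real.arccos_nonneg _) Real.pi_pos.le,
    (div_le_one Real.pi_pos).2 (Real.arccos_le_pi _)⟩

/-- the inverse of the collar -/
noncomputable def tka_g (x : D.tka_O2) : D.N :=
  (unitC (D.tka_Z x.1).1.1, unitC (D.tka_Z x.1).1.2, ⟨Real.sqrt (D.tka_R x.1), tka_sqrt_mem x⟩, tka_t x)

theorem tka_g_cont : Continuous (tka_g (D := D)) := by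
  have h0 : Continuous fun x : D.tka_O2 => D.tka_Z x.1 := D.tka_Z_cont.comp continuous_subtype_val
  have h2 : Continuous fun x : D.tka_O2 => D.tka_R x.1 := D.tka_R_cont.comp continuous_subtype_val
  unfold tka_g
  apply Continuous.prodMk
  · rw [continuous_iff_continuousAt]
    intro x
    exact ContinuousAt.comp (f := fun x : D.tka_O2 => (D.tka_Z x.1).1.1) (continuousAt_unitC (tka_ne1 x))
      (continuous_fst.comp (continuous_subtype_val.comp h0)).continuousAt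
  · apply Continuous.prodMk
    · rw [continuous_iff_continuousAt]
      intro x
      exact ContinuousAt.comp (f := fun x : D.tka_O2 => (D.tka_Z x.1).1.2)
        (continuousAt_unitC (tka_ne2 x))
        (continuous_snd.comp (continuous_subtype_val.comp h0)).continuousAt
    · apply Continuous.prodMk
      · apply Continuous.subtype_mk
        fun_prop
      · unfold tka_t
        apply Continuous.subtype_mk
        have h3 := tka_c_cont (D := D)
        have h4 : Continuous fun x : D.tka_O2 => Real.arccos (tka_c x) :=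
          Real.continuous_arccos.comp h3
        fun_prop

theorem tka_α_g (x : D.tka_O2) : D.α₀ (tka_g x) = x.1.1 := by
  have hR := (tka_sqrt_mem x).1
  have hc := tka_c_mem x
  have h1 : Real.pi * (Real.arccos (tka_c x) / Real.pi) = Real.arccos (tka_c x) := by
    field_simp
  have h2 : Real.sqrt (D.tka_R x.1) * tka_c x = lat (D.tka_Z x.1) - Real.pi / 4 := by
    unfold tka_c
    field_simp
  have h3 : Real.sqrt (D.tka_R x.1) * Real.sqrt (1 - tka_c x ^ 2) = 1 - nrm x.1.1.1.1 := by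
    rw [← Real.sqrt_mul x.2.1.le]
    have h4 : D.tka_R x.1 * (1 - tka_c x ^ 2) = (1 - nrm x.1.1.1.1) ^ 2 := by
      have h5 : D.tka_R x.1 * tka_c x ^ 2 = (lat (D.tka_Z x.1) - Real.pi / 4) ^ 2 := by
        rw [← h2, mul_pow, Real.sq_sqrt x.2.1.le]
      rw [mul_sub, h5, mul_one]
      unfold tka_R
      ring
    rw [h4, Real.sqrt_sq (by linarith [tka_nrm_le x.1.1.1])]
  show colZ (Real.sqrt (D.tka_R x.1) * Real.sin (Real.pi * (Real.arccos (tka_c x) / Real.pi)))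
    (D.G (cl (unitC (D.tka_Z x.1).1.1) (unitC (D.tka_Z x.1).1.2)
      (Real.pi / 4 + Real.sqrt (D.tka_R x.1) *
        Real.cos (Real.pi * (Real.arccos (tka_c x) / Real.pi))))) = x.1.1
  rw [h1, Real.cos_arccos hc.1 hc.2, Real.sin_arccos, h2, h3, add_sub_cancel, cl_lat, tka_G_Z,
    tka_colZ]

theorem tka_α_mem (n : D.N) : ∃ h : D.α₀ n ∈ tka_O1, (⟨D.α₀ n, h⟩ : tka_O1) ∈ D.tka_O2 := by
  have h1 := ang_mem n
  have h2 := D.r₀_lt
  have h3 := D.r₀_pos
  have t0 := tau_nonneg n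
  have t1 := tau_lt n
  set τ := (n.2.2.1 : ℝ) * Real.sin (Real.pi * n.2.2.2) with hτ
  set s := Real.pi / 4 + n.2.2.1 * Real.cos (Real.pi * n.2.2.2) with hs
  have hP : cl n.1 n.2.1 s ∉ D.P := D.cl_notMem_P h1.1.le (by linarith)
  have hφ := D.φ_ne hP
  have hlt := iO_lt_one hφ
  have hα : D.α₀ n = colZ τ (D.G (cl n.1 n.2.1 s)) := rfl
  have hn : nrm (D.α₀ n).1.1 = 1 - τ := by rw [hα, nrm_colZ t0 t1.le]
  have hv : (D.α₀ n).1.1 = (1 - τ) • (D.G (cl n.1 n.2.1 s)).1.1 := by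
    rw [hα, colZ_val t0 t1.le]
  have h : D.α₀ n ∈ tka_O1 := by
    show (D.α₀ n).1.1.2 < nrm (D.α₀ n).1.1
    rw [hn, hv, Prod.smul_snd, smul_eq_mul]
    have : (D.G (cl n.1 n.2.1 s)).1.1.2 < 1 := hlt
    nlinarith
  have hp : tka_p ⟨D.α₀ n, h⟩ = D.G (cl n.1 n.2.1 s) := by
    apply Prod.ext
    · apply Subtype.ext
      show (nrm (D.α₀ n).1.1)⁻¹ • (D.α₀ n).1.1 = _
      rw [hn, hv, smul_smul, inv_mul_cancel₀ (by linarith : 1 - τ ≠ 0), one_smul]
    · rfl
  have hz : D.tka_Z ⟨D.α₀ n, h⟩ = cl n.1 n.2.1 s := by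
    unfold tka_Z
    have e : (⟨iOi (tka_p ⟨D.α₀ n, h⟩), iOi_mem (tka_p_lt ⟨D.α₀ n, h⟩)⟩ : S3) =
        D.φ (cl n.1 n.2.1 s) := by
      apply Subtype.ext
      show iOi (tka_p ⟨D.α₀ n, h⟩) = _
      rw [hp]
      exact iOi_iO hφ
    rw [e, Homeomorph.symm_apply_apply]
  refine ⟨h, ?_⟩
  have hlat : lat (cl n.1 n.2.1 s) = s := lat_cl _ _ (by linarith) (by linarith)
  have hR : D.tka_R ⟨D.α₀ n, h⟩ = (n.2.2.1 : ℝ) ^ 2 := by
    unfold tka_R
    rw [hz, hlat, hn, hs, hτ]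
    have := Real.cos_sq_add_sin_sq (Real.pi * n.2.2.2)
    have e1 : (n.2.2.1 : ℝ) ^ 2 = (n.2.2.1 : ℝ) ^ 2 *
      (Real.cos (Real.pi * n.2.2.2) ^ 2 + Real.sin (Real.pi * n.2.2.2) ^ 2) := by
      rw [this, mul_one]
    rw [e1]
    ring
  show 0 < D.tka_R ⟨D.α₀ n, h⟩ ∧ D.tka_R ⟨D.α₀ n, h⟩ < D.r₀ ^ 2
  rw [hR]
  have hr := n.2.2.1.2.1
  have hr2 := n.2.2.1.2.2
  exact ⟨by positivity, by nlinarith⟩

theorem tka_α_cont : Continuous D.α := by
  apply Continuous.subtype_mk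
  rw [continuous_iff_continuousAt]
  intro n
  have h1 := ang_mem n
  have h2 := D.r₀_lt
  have hc : Continuous fun n : D.N =>
      cl n.1 n.2.1 (Real.pi / 4 + n.2.2.1 * Real.cos (Real.pi * n.2.2.2)) :=
    continuous_cl.comp (by fun_prop : Continuous fun n : D.N =>
      (n.1, n.2.1, Real.pi / 4 + n.2.2.1 * Real.cos (Real.pi * n.2.2.2)))
  have hG : ContinuousAt D.G (cl n.1 n.2.1 (Real.pi / 4 + n.2.2.1 * Real.cos (Real.pi * n.2.2.2))) :=
    D.continuousAt_G (D.cl_notMem_P h1.1.le (by linarith))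
  have h3 : ContinuousAt (fun n : D.N =>
      D.G (cl n.1 n.2.1 (Real.pi / 4 + n.2.2.1 * Real.cos (Real.pi * n.2.2.2)))) n :=
    ContinuousAt.comp (f := fun n : D.N =>
      cl n.1 n.2.1 (Real.pi / 4 + n.2.2.1 * Real.cos (Real.pi * n.2.2.2))) hG hc.continuousAt
  have h4 : ContinuousAt (fun n : D.N => (n.2.2.1 : ℝ) * Real.sin (Real.pi * n.2.2.2)) n := by
    fun_prop
  exact ContinuousAt.comp (f := fun n : D.N => ((n.2.2.1 : ℝ) * Real.sin (Real.pi * n.2.2.2),
    D.G (cl n.1 n.2.1 (Real.pi / 4 + n.2.2.1 * Real.cos (Real.pi * n.2.2.2)))))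
    continuous_colZ.continuousAt (h4.prodMk h3)

variable (D)

/-- TASK 1. The collar map `α : N → A = (B³ × S¹) ∖ T₀` is an open embedding. -/
theorem α_open : IsOpenEmbedding D.α := by
  refine IsOpenEmbedding.of_continuous_injective_isOpenMap tka_α_cont D.α_inj ?_
  intro U hU
  have h1 : IsOpen ((tka_g (D := D)) ⁻¹' U) := hU.preimage tka_g_cont
  have h2 : IsOpen ((Subtype.val : D.tka_O2 → tka_O1) '' ((tka_g (D := D)) ⁻¹' U)) :=
    D.tka_O2_open.isOpenMap_subtype_val _ h1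
  have h3 : IsOpen ((Subtype.val : tka_O1 → B3 × Circle) ''
      ((Subtype.val : D.tka_O2 → tka_O1) '' ((tka_g (D := D)) ⁻¹' U))) :=
    tka_O1_open.isOpenMap_subtype_val _ h2
  have h4 : D.α '' U = (Subtype.val : D.A → B3 × Circle) ⁻¹' ((Subtype.val : tka_O1 → B3 × Circle) ''
      ((Subtype.val : D.tka_O2 → tka_O1) '' ((tka_g (D := D)) ⁻¹' U))) := by
    ext a
    simp only [mem_image, mem_preimage]
    constructor
    · rintro ⟨n, hn, rfl⟩
      obtain ⟨ha, hb⟩ := tka_α_mem n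
      refine ⟨⟨D.α₀ n, ha⟩, ⟨⟨⟨D.α₀ n, ha⟩, hb⟩, ?_, rfl⟩, rfl⟩
      have : tka_g ⟨⟨D.α₀ n, ha⟩, hb⟩ = n := D.α₀_inj (tka_α_g _)
      rw [this]
      exact hn
    · rintro ⟨x, ⟨y, hy, rfl⟩, hx⟩
      refine ⟨tka_g y, hy, Subtype.ext ?_⟩
      rw [← hx]
      exact tka_α_g y
  rw [h4]
  exact h3.preimage continuous_subtype_val

end Dat
end Pool.Agent.H753.Cob
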