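import Pool.Agent.H753.Cob.Data
import Pool.Graph.R_seed8.H815.HF.InvDom
set_option autoImplicit false
namespace Pool.Agent.H753.Cob
open Set Topology
open Pool.Agent.Helper60.Fin (S3 Disc d0 ZeroFramed)
namespace Dat
variable (D : Dat)

/-- invariance of domain for spaces with Euclidean charts -/
theorem tkb_invDom {X E : Type*} [TopologicalSpace X] [NormedAddCommGroup E] [InnerProductSpace ℝ E]
    [FiniteDimensional ℝ E] (hX : ∀ x : X, ∃ φ : OpenPartialHomeomorph X E, x ∈ φ.source)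
    (f : X → X) (O : Set X) (hO : IsOpen O) (hf : ContinuousOn f O) (hi : InjOn f O) :
    IsOpen (f '' O) := by
  rw [isOpen_iff_mem_nhds]
  rintro y ⟨x, hx, rfl⟩
  obtain ⟨φ, hφ⟩ := hX x
  obtain ⟨ψ, hψ⟩ := hX (f x)
  have hU : O ∩ f ⁻¹' ψ.source ∈ 𝓝 x :=
    Filter.inter_mem (hO.mem_nhds hx) ((hf.continuousAt (hO.mem_nhds hx)) (ψ.open_source.mem_nhds hψ))
  have hV : φ.target ∩ φ.symm ⁻¹' (O ∩ f ⁻¹' ψ.source) ∈ 𝓝 (φ x) := by
    refine Filter.inter_mem (φ.open_target.mem_nhds (φ.map_source hφ)) ?_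
    have h1 := φ.continuousAt_symm (φ.map_source hφ)
    rw [ContinuousAt, φ.left_inv hφ] at h1
    exact h1 hU
  obtain ⟨r, hr, hball⟩ := Metric.nhds_basis_closedBall.mem_iff.1 hV
  have hc : ContinuousOn (ψ ∘ f ∘ φ.symm) (Metric.closedBall (φ x) r) := by
    refine ψ.continuousOn.comp (hf.comp (φ.continuousOn_symm.mono fun z hz => (hball hz).1)
      fun z hz => (hball hz).2.1) fun z hz => (hball hz).2.2
  have hinj : InjOn (ψ ∘ f ∘ φ.symm) (Metric.closedBall (φ x) r) := by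
    intro a ha b hb hab
    have h1 := ψ.injOn (hball ha).2.2 (hball hb).2.2 hab
    have h2 := hi (hball ha).2.1 (hball hb).2.1 h1
    exact φ.symm.injOn (hball ha).1 (hball hb).1 h2
  have hmem := Pool.Agent.H815.HF.InvDom.image_mem_nhds (ψ ∘ f ∘ φ.symm) (φ x) r hr hc hinj
  have h3 : (ψ ∘ f ∘ φ.symm) (φ x) = ψ (f x) := by simp [φ.left_inv hφ]
  rw [h3] at hmem
  have h4 := ψ.continuousAt hψ
  have h5 : ψ.source ∩ ψ ⁻¹' ((ψ ∘ f ∘ φ.symm) '' Metric.closedBall (φ x) r) ∈ 𝓝 (f x) :=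
    Filter.inter_mem (ψ.open_source.mem_nhds hψ) (h4 hmem)
  refine Filter.mem_of_superset h5 ?_
  rintro z ⟨hz, w, hw, hwz⟩
  refine ⟨φ.symm w, (hball hw).2.1, ?_⟩
  exact ψ.injOn (hball hw).2.2 hz hwz

/-- the 3-sphere as a sphere in a Euclidean space -/
noncomputable def tkb_homeo : S3 ≃ₜ Metric.sphere (0 : WithLp 2 (ℂ × ℂ)) 1 :=
  (WithLp.homeomorphProd 2 ℂ ℂ).symm.subtype fun z => by
    rw [mem_sphere_zero_iff_norm, WithLp.prod_norm_eq_of_L2, Real.sqrt_eq_one]
    rfl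

theorem tkb_charts (x : S3) : ∃ φ : OpenPartialHomeomorph S3 (EuclideanSpace ℝ (Fin 3)),
    x ∈ φ.source := by
  have : Fact (Module.finrank ℝ (WithLp 2 (ℂ × ℂ)) = 3 + 1) := ⟨by
    rw [(WithLp.linearEquiv 2 ℝ (ℂ × ℂ)).finrank_eq, Module.finrank_prod,
      Complex.finrank_real_complex]⟩
  refine ⟨tkb_homeo.toOpenPartialHomeomorph.trans
    (chartAt (EuclideanSpace ℝ (Fin 3)) (tkb_homeo x)), ?_⟩
  simp

theorem invDom_S3 (f : S3 → S3) (O : Set S3) (hO : IsOpen O) (hf : ContinuousOn f O)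
    (hi : InjOn f O) : IsOpen (f '' O) :=
  tkb_invDom tkb_charts f O hO hf hi

theorem tkb_eH_cont {z : S3} (hz : z.1.1 ≠ 0) : ContinuousAt D.eH z := by
  refine D.e_cont.continuousAt.comp (ContinuousAt.prodMk ?_ ?_)
  · have h : Continuous fun z : S3 => z.1.1 := by fun_prop
    exact ContinuousAt.comp (f := fun z : S3 => z.1.1) (continuousAt_unitC hz) h.continuousAt
  · exact (continuous_dsc.comp (by fun_prop)).continuousAt

theorem eH_isOpen_image (O : Set S3) (hO : IsOpen O) (hV : ∀ z ∈ O, lat z < Real.pi / 4) :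
    IsOpen (D.eH '' O) := by
  refine invDom_S3 D.eH O hO (fun z hz => (D.tkb_eH_cont (ne_of_V (hV z hz).le)).continuousWithinAt)
    fun z hz z' hz' h => D.eH_injOn (hV z hz).le (hV z' hz').le h

/-- the Clifford collar -/
noncomputable def tkb_c (n : Circle × Circle × (Ioo 0 D.r₀)) : S3 :=
  cl n.1 n.2.1 (Real.pi / 4 - n.2.2)

theorem tkb_c_cont : Continuous D.tkb_c :=
  continuous_cl.comp (by fun_prop : Continuous fun n : Circle × Circle × (Ioo 0 D.r₀) =>
    (n.1, n.2.1, (Real.pi / 4 - n.2.2 : ℝ)))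

theorem tkb_c_open : IsOpenMap D.tkb_c := by
  intro O hO
  have h1 : IsOpen ((fun n : Circle × Circle × (Ioo 0 D.r₀) => (n.1, n.2.1, (n.2.2 : ℝ))) '' O) := by
    have h2 : IsOpenMap (Prod.map (id : Circle → Circle)
        (Prod.map (id : Circle → Circle) (Subtype.val : Ioo 0 D.r₀ → ℝ))) :=
      IsOpenMap.id.prodMap (IsOpenMap.id.prodMap isOpen_Ioo.isOpenMap_subtype_val)
    exact h2 O hO
  have h3 : ContinuousOn (fun z : S3 => (unitC z.1.1, unitC z.1.2, Real.pi / 4 - lat z))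
      {z : S3 | z.1.1 ≠ 0 ∧ z.1.2 ≠ 0} := by
    intro z hz
    refine ContinuousAt.continuousWithinAt (ContinuousAt.prodMk ?_ (ContinuousAt.prodMk ?_ ?_))
    · have h : Continuous fun z : S3 => z.1.1 := by fun_prop
      exact ContinuousAt.comp (f := fun z : S3 => z.1.1) (continuousAt_unitC hz.1) h.continuousAt
    · have h : Continuous fun z : S3 => z.1.2 := by fun_prop
      exact ContinuousAt.comp (f := fun z : S3 => z.1.2) (continuousAt_unitC hz.2) h.continuousAt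
    · exact (continuous_const.sub continuous_lat).continuousAt
  have h4 : IsOpen {z : S3 | z.1.1 ≠ 0 ∧ z.1.2 ≠ 0} := by
    refine IsOpen.inter (isOpen_ne.preimage (by fun_prop : Continuous fun z : S3 => z.1.1))
      (isOpen_ne.preimage (by fun_prop : Continuous fun z : S3 => z.1.2))
  have h5 := h3.isOpen_inter_preimage h4 h1
  convert h5 using 1
  ext z
  simp only [mem_image, mem_inter_iff, mem_ofPred_eq, mem_preimage, Prod.mk.injEq]
  have hr := D.r₀_lt
  constructor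
  · rintro ⟨n, hn, rfl⟩
    have h6 := n.2.2.2.1
    have h7 := n.2.2.2.2
    have h8 : (0:ℝ) < Real.cos (Real.pi / 4 - n.2.2) :=
      Real.cos_pos_of_mem_Ioo ⟨by linarith, by linarith [Real.pi_pos]⟩
    have h9 : (0:ℝ) < Real.sin (Real.pi / 4 - n.2.2) :=
      Real.sin_pos_of_pos_of_lt_pi (by linarith) (by linarith [Real.pi_pos])
    have e1 : unitC (D.tkb_c n).1.1 = n.1 := by rw [tkb_c, cl_1, unitC_mul_pos _ h8]
    have e2 : unitC (D.tkb_c n).1.2 = n.2.1 := by rw [tkb_c, cl_2, unitC_mul_pos _ h9]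
    have e3 : lat (D.tkb_c n) = Real.pi / 4 - n.2.2 :=
      lat_cl _ _ (by linarith) (by linarith [Real.pi_pos])
    refine ⟨⟨?_, ?_⟩, n, hn, e1.symm, e2.symm, by rw [e3]; ring⟩
    · rw [tkb_c, cl_1]
      refine mul_ne_zero (Circle.coe_ne_zero _) ?_
      exact_mod_cast h8.ne'
    · rw [tkb_c, cl_2]
      refine mul_ne_zero (Circle.coe_ne_zero _) ?_
      exact_mod_cast h9.ne'
  · rintro ⟨-, n, hn, e1, e2, e3⟩
    refine ⟨n, hn, ?_⟩
    have e4 : Real.pi / 4 - n.2.2 = lat z := by rw [e3]; ring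
    rw [tkb_c, e1, e2, e4, cl_lat]

theorem tkb_c_lat (n : Circle × Circle × (Ioo 0 D.r₀)) : lat (D.tkb_c n) < Real.pi / 4 := by
  have h1 := n.2.2.2.1
  have h2 := n.2.2.2.2
  have hr := D.r₀_lt
  rw [tkb_c, lat_cl _ _ (by linarith) (by linarith [Real.pi_pos])]
  linarith

theorem tkb_β₀_cont : Continuous D.β₀ := by
  rw [continuous_iff_continuousAt]
  intro n
  exact ContinuousAt.comp (f := D.tkb_c) (D.tkb_eH_cont (ne_of_V (D.tkb_c_lat n).le))
    D.tkb_c_cont.continuousAt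

theorem tkb_β₀_open : IsOpenMap D.β₀ := by
  intro O hO
  have h1 : D.β₀ '' O = D.eH '' (D.tkb_c '' O) := by
    rw [image_image]
    rfl
  rw [h1]
  refine D.eH_isOpen_image _ (D.tkb_c_open O hO) ?_
  rintro z ⟨n, -, rfl⟩
  exact D.tkb_c_lat n

theorem β_open : IsOpenEmbedding D.β := by
  refine IsOpenEmbedding.of_continuous_injective_isOpenMap ?_ D.β_inj ?_
  · refine Continuous.prodMk (Continuous.subtype_mk ?_ _) (by fun_prop)
    exact D.tkb_β₀_cont.comp (by fun_prop : Continuous fun n : D.N => (n.1, n.2.1, n.2.2.1))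
  · have h1 : IsOpenMap fun n : Circle × Circle × (Ioo 0 D.r₀) =>
        (⟨D.β₀ n, D.β₀_notMem n⟩ : {x : S3 // x ∉ D.core}) := by
      intro O hO
      have h2 : (fun n : Circle × Circle × (Ioo 0 D.r₀) =>
        (⟨D.β₀ n, D.β₀_notMem n⟩ : {x : S3 // x ∉ D.core})) '' O = Subtype.val ⁻¹' (D.β₀ '' O) := by
        ext x
        simp only [mem_image, mem_preimage]
        constructor
        · rintro ⟨n, hn, rfl⟩
          exact ⟨n, hn, rfl⟩
        · rintro ⟨n, hn, h⟩
          exact ⟨n, hn, Subtype.ext h⟩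
      rw [h2]
      exact (D.tkb_β₀_open O hO).preimage continuous_subtype_val
    have h3 := h1.prodMap (IsOpenMap.id (X := unitInterval))
    have h4 : D.β = (Prod.map (fun n : Circle × Circle × (Ioo 0 D.r₀) =>
        (⟨D.β₀ n, D.β₀_notMem n⟩ : {x : S3 // x ∉ D.core})) id) ∘
        (fun n : D.N => ((n.1, n.2.1, n.2.2.1), n.2.2.2)) := rfl
    rw [h4]
    refine h3.comp ?_
    let e : D.N ≃ₜ (Circle × Circle × (Ioo 0 D.r₀)) × unitInterval :=
      { toFun := fun n => ((n.1, n.2.1, n.2.2.1), n.2.2.2)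
        invFun := fun n => (n.1.1, n.1.2.1, n.1.2.2, n.2)
        left_inv := fun _ => rfl
        right_inv := fun _ => rfl
        continuous_toFun := by fun_prop
        continuous_invFun := by fun_prop }
    exact e.isOpenMap

end Dat
end Pool.Agent.H753.Cob
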