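import Pool.Agent.H753.Cob.Data
set_option autoImplicit false
namespace Pool.Agent.H753.Cob
open Set Topology
open Pool.Agent.Helper60.Fin (S3 Disc d0 ZeroFramed)
namespace Dat

/-- the closed half line -/
abbrev tkd_H : Type := {t : ℝ // 0 ≤ t}

noncomputable def tkd_D (x : B3) : ℝ := ‖x.1.1‖ ^ 2 + (1 - x.1.2) ^ 2

noncomputable def tkd_M (q : ℂ × tkd_H) : ℝ := ‖q.1‖ ^ 2 + (q.2.1 + 1 / 2) ^ 2

theorem tkd_M_pos (q : ℂ × tkd_H) : 0 < tkd_M q := by
  unfold tkd_M
  have := q.2.2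
  positivity

theorem tkd_cont_D : Continuous tkd_D := by
  unfold tkd_D
  fun_prop

theorem tkd_cont_M : Continuous tkd_M := by
  unfold tkd_M
  fun_prop

noncomputable def tkd_f (x : B3) : ℂ × tkd_H :=
  (x.1.1 / (tkd_D x : ℂ), ⟨max 0 ((1 - x.1.2) / tkd_D x - 1 / 2), le_max_left _ _⟩)

noncomputable def tkd_g (q : ℂ × tkd_H) : B3 :=
  ⟨(q.1 / (tkd_M q : ℂ), 1 - (q.2.1 + 1 / 2) / tkd_M q), by
    have hM := tkd_M_pos q
    have ht := q.2.2
    have e : ‖q.1 / (tkd_M q : ℂ)‖ ^ 2 + (1 - (q.2.1 + 1 / 2) / tkd_M q) ^ 2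
        = 1 - 2 * q.2.1 / tkd_M q := by
      rw [norm_div, Complex.norm_real, Real.norm_eq_abs, abs_of_pos hM]
      have hd : ‖q.1‖ ^ 2 = tkd_M q - (q.2.1 + 1 / 2) ^ 2 := by unfold tkd_M; ring
      rw [div_pow, hd]
      field_simp
      ring
    show ‖q.1 / (tkd_M q : ℂ)‖ ^ 2 + (1 - (q.2.1 + 1 / 2) / tkd_M q) ^ 2 ≤ 1
    rw [e]
    have : 0 ≤ 2 * q.2.1 / tkd_M q := by positivity
    linarith⟩

theorem tkd_nonneg {x : B3} (h : 0 < tkd_D x) : 0 ≤ (1 - x.1.2) / tkd_D x - 1 / 2 := by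
  have h1 := x.2
  rw [sub_nonneg, le_div_iff₀ h]
  unfold tkd_D
  nlinarith

theorem tkd_M_f {x : B3} (h : 0 < tkd_D x) : tkd_M (tkd_f x) = 1 / tkd_D x := by
  unfold tkd_M tkd_f
  simp only
  rw [max_eq_right (tkd_nonneg h), norm_div, Complex.norm_real, Real.norm_eq_abs, abs_of_pos h]
  have hd : ‖x.1.1‖ ^ 2 = tkd_D x - (1 - x.1.2) ^ 2 := by unfold tkd_D; ring
  rw [div_pow, hd]
  field_simp
  ring

theorem tkd_D_g (q : ℂ × tkd_H) : tkd_D (tkd_g q) = 1 / tkd_M q := by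
  have hM := tkd_M_pos q
  unfold tkd_D tkd_g
  simp only
  rw [norm_div, Complex.norm_real, Real.norm_eq_abs, abs_of_pos hM]
  have hd : ‖q.1‖ ^ 2 = tkd_M q - (q.2.1 + 1 / 2) ^ 2 := by unfold tkd_M; ring
  rw [div_pow, hd]
  field_simp
  ring

/-- the chart of the ball -/
noncomputable def tkd_cB : OpenPartialHomeomorph B3 (ℂ × tkd_H) where
  toFun := tkd_f
  invFun := tkd_g
  source := {x | 0 < tkd_D x}
  target := univ
  map_source' _ _ := mem_univ _
  map_target' q _ := by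
    show 0 < tkd_D (tkd_g q)
    rw [tkd_D_g]
    have := tkd_M_pos q
    positivity
  left_inv' x hx := by
    have h : 0 < tkd_D x := hx
    apply Subtype.ext
    show ((tkd_f x).1 / (tkd_M (tkd_f x) : ℂ), 1 - ((tkd_f x).2.1 + 1 / 2) / tkd_M (tkd_f x)) = x.1
    rw [tkd_M_f h]
    have hD : (tkd_D x : ℂ) ≠ 0 := by exact_mod_cast h.ne'
    apply Prod.ext
    · show x.1.1 / (tkd_D x : ℂ) / ((1 / tkd_D x : ℝ) : ℂ) = x.1.1
      push_cast
      field_simp
    · show 1 - (max 0 ((1 - x.1.2) / tkd_D x - 1 / 2) + 1 / 2) / (1 / tkd_D x) = x.1.2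
      rw [max_eq_right (tkd_nonneg h)]
      field_simp
      ring
  right_inv' q _ := by
    have hM := tkd_M_pos q
    have hM' : (tkd_M q : ℂ) ≠ 0 := by exact_mod_cast hM.ne'
    have hD : 0 < tkd_D (tkd_g q) := by
      rw [tkd_D_g]
      positivity
    apply Prod.ext
    · show q.1 / (tkd_M q : ℂ) / (tkd_D (tkd_g q) : ℂ) = q.1
      rw [tkd_D_g]
      push_cast
      field_simp
    · apply Subtype.ext
      show max 0 ((1 - (tkd_g q).1.2) / tkd_D (tkd_g q) - 1 / 2) = q.2.1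
      rw [max_eq_right (tkd_nonneg hD), tkd_D_g]
      show (1 - (1 - (q.2.1 + 1 / 2) / tkd_M q)) / (1 / tkd_M q) - 1 / 2 = q.2.1
      field_simp
      ring
  open_source := isOpen_lt continuous_const tkd_cont_D
  open_target := isOpen_univ
  continuousOn_toFun := by
    have hD : ∀ x ∈ {x : B3 | 0 < tkd_D x}, tkd_D x ≠ 0 := fun x hx => ne_of_gt hx
    have hD' : ∀ x ∈ {x : B3 | 0 < tkd_D x}, (tkd_D x : ℂ) ≠ 0 := fun x hx => by
      exact_mod_cast hD x hx
    have hc := tkd_cont_D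
    apply ContinuousOn.prodMk
    · exact ContinuousOn.div (by fun_prop) (by fun_prop) hD'
    · rw [Topology.IsInducing.subtypeVal.continuousOn_iff]
      show ContinuousOn (fun x : B3 => max 0 ((1 - x.1.2) / tkd_D x - 1 / 2)) _
      exact ContinuousOn.sup continuousOn_const
        ((ContinuousOn.div (by fun_prop) (by fun_prop) hD).sub continuousOn_const)
  continuousOn_invFun := by
    have hM : ∀ q, tkd_M q ≠ 0 := fun q => (tkd_M_pos q).ne'
    have hM' : ∀ q, (tkd_M q : ℂ) ≠ 0 := fun q => by exact_mod_cast hM q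
    have hc := tkd_cont_M
    apply Continuous.continuousOn
    unfold tkd_g
    apply Continuous.subtype_mk
    apply Continuous.prodMk
    · exact Continuous.div (by fun_prop) (by fun_prop) hM'
    · exact continuous_const.sub (Continuous.div (by fun_prop) (by fun_prop) hM)

/-- the chart of the circle -/
noncomputable def tkd_cC : OpenPartialHomeomorph Circle ℝ where
  toFun u := (u : ℂ).im / (1 + (u : ℂ).re)
  invFun t := ⟨⟨(1 - t ^ 2) / (1 + t ^ 2), 2 * t / (1 + t ^ 2)⟩, by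
    rw [Submonoid.unitSphere]
    show _ ∈ Metric.sphere (0 : ℂ) 1
    rw [mem_sphere_zero_iff_norm, ← sq_eq_sq₀ (norm_nonneg _) zero_le_one, Complex.sq_norm,
      Complex.normSq_mk]
    have : 0 < 1 + t ^ 2 := by positivity
    field_simp
    ring⟩
  source := {u | 0 < 1 + (u : ℂ).re}
  target := univ
  map_source' _ _ := mem_univ _
  map_target' t _ := by
    show 0 < 1 + (1 - t ^ 2) / (1 + t ^ 2)
    have : 0 < 1 + t ^ 2 := by positivity
    have e : 1 + (1 - t ^ 2) / (1 + t ^ 2) = 2 / (1 + t ^ 2) := by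
      field_simp
      ring
    rw [e]
    positivity
  left_inv' u hu := by
    have h : 0 < 1 + (u : ℂ).re := hu
    have hn : (u : ℂ).re ^ 2 + (u : ℂ).im ^ 2 = 1 := by
      have := Circle.normSq_coe u
      rw [Complex.normSq_apply] at this
      nlinarith
    have e1 : 1 + ((u : ℂ).im / (1 + (u : ℂ).re)) ^ 2 = 2 / (1 + (u : ℂ).re) := by
      field_simp
      nlinarith
    have e2 : 1 - ((u : ℂ).im / (1 + (u : ℂ).re)) ^ 2 = 2 * (u : ℂ).re / (1 + (u : ℂ).re) := by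
      have : 1 - ((u : ℂ).im / (1 + (u : ℂ).re)) ^ 2
          = 2 - (1 + ((u : ℂ).im / (1 + (u : ℂ).re)) ^ 2) := by ring
      rw [this, e1]
      field_simp
      ring
    apply Circle.ext
    apply Complex.ext
    · show (1 - ((u : ℂ).im / (1 + (u : ℂ).re)) ^ 2) / (1 + ((u : ℂ).im / (1 + (u : ℂ).re)) ^ 2)
        = (u : ℂ).re
      rw [e1, e2]
      field_simp
    · show 2 * ((u : ℂ).im / (1 + (u : ℂ).re)) / (1 + ((u : ℂ).im / (1 + (u : ℂ).re)) ^ 2)
        = (u : ℂ).im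
      rw [e1]
      field_simp
  right_inv' t _ := by
    show (2 * t / (1 + t ^ 2)) / (1 + (1 - t ^ 2) / (1 + t ^ 2)) = t
    have : 0 < 1 + t ^ 2 := by positivity
    have e : 1 + (1 - t ^ 2) / (1 + t ^ 2) = 2 / (1 + t ^ 2) := by
      field_simp
      ring
    rw [e]
    field_simp
  open_source := isOpen_lt continuous_const (by fun_prop)
  open_target := isOpen_univ
  continuousOn_toFun := by
    apply ContinuousOn.div (by fun_prop) (by fun_prop)
    intro u hu
    exact ne_of_gt hu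
  continuousOn_invFun := by
    apply Continuous.continuousOn
    apply Continuous.subtype_mk
    have hd : ∀ t : ℝ, 1 + t ^ 2 ≠ 0 := fun t => by positivity
    have h1 : Continuous fun t : ℝ => (1 - t ^ 2) / (1 + t ^ 2) :=
      Continuous.div (by fun_prop) (by fun_prop) hd
    have h2 : Continuous fun t : ℝ => 2 * t / (1 + t ^ 2) :=
      Continuous.div (by fun_prop) (by fun_prop) hd
    exact Complex.equivRealProdCLM.symm.continuous.comp (h1.prodMk h2)

/-- the model space -/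
noncomputable def tkd_J : ((ℂ × tkd_H) × ℝ) ≃ₜ EuclideanHalfSpace 4 where
  toFun q := ⟨!₂[q.1.2.1, q.1.1.re, q.1.1.im, q.2], q.1.2.2⟩
  invFun y := ((⟨y.1 1, y.1 2⟩, ⟨y.1 0, y.2⟩), y.1 3)
  left_inv q := rfl
  right_inv y := by
    apply Subtype.ext
    ext i
    fin_cases i <;> rfl
  continuous_toFun := by
    apply Continuous.subtype_mk
    apply (PiLp.continuous_toLp 2 _).comp
    apply continuous_pi
    intro i
    fin_cases i
    · show Continuous fun q : (ℂ × tkd_H) × ℝ => q.1.2.1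
      fun_prop
    · show Continuous fun q : (ℂ × tkd_H) × ℝ => q.1.1.re
      fun_prop
    · show Continuous fun q : (ℂ × tkd_H) × ℝ => q.1.1.im
      fun_prop
    · show Continuous fun q : (ℂ × tkd_H) × ℝ => q.2
      fun_prop
  continuous_invFun := by
    have hv : Continuous fun y : EuclideanHalfSpace 4 => y.1 := continuous_subtype_val
    have hi : ∀ i : Fin 4, Continuous fun y : EuclideanHalfSpace 4 => y.1 i := fun i =>
      (PiLp.continuous_apply 2 _ i).comp hv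
    apply Continuous.prodMk
    · apply Continuous.prodMk
      · exact Complex.equivRealProdCLM.symm.continuous.comp ((hi 1).prodMk (hi 2))
      · exact (hi 0).subtype_mk _
    · exact hi 3

/-- reflection of the ball -/
noncomputable def tkd_rho : B3 ≃ₜ B3 where
  toFun x := ⟨(x.1.1, -x.1.2), by
    have := x.2
    show ‖x.1.1‖ ^ 2 + (-x.1.2) ^ 2 ≤ 1
    rw [neg_sq]
    exact this⟩
  invFun x := ⟨(x.1.1, -x.1.2), by
    have := x.2
    show ‖x.1.1‖ ^ 2 + (-x.1.2) ^ 2 ≤ 1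
    rw [neg_sq]
    exact this⟩
  left_inv x := Subtype.ext (Prod.ext rfl (neg_neg _))
  right_inv x := Subtype.ext (Prod.ext rfl (neg_neg _))
  continuous_toFun := by fun_prop
  continuous_invFun := by fun_prop

theorem tkd_bd {x : B3} (h : 0 < tkd_D x) :
    (tkd_f x).2.1 = 0 ↔ ‖x.1.1‖ ^ 2 + x.1.2 ^ 2 = 1 := by
  show max 0 ((1 - x.1.2) / tkd_D x - 1 / 2) = 0 ↔ _
  rw [max_eq_right (tkd_nonneg h), sub_eq_zero, div_eq_div_iff h.ne' two_ne_zero]
  unfold tkd_D
  constructor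
  · intro h1
    linarith
  · intro h1
    nlinarith

variable (D : Dat)

/-- TASK 4. `B³ × S¹` is a 4-manifold with boundary `S² × S¹` (hence so is its open subset `A`).
Sketch. For `p = (0, ±1)` the inversion `y = (x - p) / |x - p|²` takes `B³ ∖ {p}` to the half space
`⟨p, y⟩ ≤ -1/2`, the boundary to the boundary: with `p = (0, 1)` and `D = |w|² + (1 - s)²` the map is
`(w, s) ↦ (w / D, (1 - s)/D - 1/2) ∈ ℂ × [0, ∞)`, with inverse
`(ζ, t) ↦ (ζ / M, 1 - (t + 1/2) / M)`, `M = |ζ|² + (t + 1/2)²`; and `s ↦ -s` for `p = (0,-1)`.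
Charts of the circle: `u ↦ Im u / (1 + Re u)` on `u ≠ -1` (inverse `t ↦ ((1 - t²) + 2ti) / (1 + t²)`) and
its composition with `u ↦ -u`. Then `ℂ × [0,∞) × ℝ ≃ EuclideanHalfSpace 4` (coordinate 0 is the one
which is `≥ 0`). -/
theorem chart_B3C (a : B3 × Circle) : ∃ ψ : OpenPartialHomeomorph (B3 × Circle) (EuclideanHalfSpace 4),
    a ∈ ψ.source ∧ ∀ y ∈ ψ.source, (‖y.1.1.1‖ ^ 2 + y.1.1.2 ^ 2 = 1 ↔ (ψ y).1 0 = 0) := by
  obtain ⟨f, hf, hf2⟩ : ∃ f : B3 ≃ₜ B3, 0 < tkd_D (f a.1) ∧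
      ∀ x, ‖(f x).1.1‖ ^ 2 + (f x).1.2 ^ 2 = ‖x.1.1‖ ^ 2 + x.1.2 ^ 2 := by
    rcases le_total a.1.1.2 0 with h | h
    · refine ⟨Homeomorph.refl _, ?_, fun _ => rfl⟩
      show 0 < ‖a.1.1.1‖ ^ 2 + (1 - a.1.1.2) ^ 2
      nlinarith [sq_nonneg ‖a.1.1.1‖]
    · refine ⟨tkd_rho, ?_, fun x => ?_⟩
      · show 0 < ‖a.1.1.1‖ ^ 2 + (1 - -a.1.1.2) ^ 2
        nlinarith [sq_nonneg ‖a.1.1.1‖]
      · show ‖x.1.1‖ ^ 2 + (-x.1.2) ^ 2 = _
        rw [neg_sq]
  obtain ⟨g, hg⟩ : ∃ g : Circle ≃ₜ Circle, 0 < 1 + (g a.2 : ℂ).re := by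
    rcases le_total (a.2 : ℂ).re 0 with h | h
    · refine ⟨Homeomorph.neg Circle, ?_⟩
      show 0 < 1 + (-(a.2 : ℂ)).re
      rw [Complex.neg_re]
      linarith
    · exact ⟨Homeomorph.refl _, by show 0 < 1 + (a.2 : ℂ).re; linarith⟩
  refine ⟨((f.prodCongr g).toOpenPartialHomeomorph.trans (tkd_cB.prod tkd_cC)).trans
    tkd_J.toOpenPartialHomeomorph, ?_, ?_⟩
  · simp only [OpenPartialHomeomorph.trans_source, Homeomorph.toOpenPartialHomeomorph_source,
      OpenPartialHomeomorph.prod_source, univ_inter, preimage_univ, inter_univ, mem_preimage,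
      mem_prod]
    exact ⟨hf, hg⟩
  · intro y hy
    simp only [OpenPartialHomeomorph.trans_source, Homeomorph.toOpenPartialHomeomorph_source,
      OpenPartialHomeomorph.prod_source, univ_inter, preimage_univ, inter_univ, mem_preimage,
      mem_prod] at hy
    have h1 : 0 < tkd_D (f y.1) := hy.1
    rw [← hf2 y.1, ← tkd_bd h1]
    exact Iff.rfl

end Dat
end Pool.Agent.H753.Cob
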