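import Pool.Agent.H753.Cob.Data
set_option autoImplicit false
namespace Pool.Agent.H753.Cob
open Set Topology
open Pool.Agent.Helper60.Fin (S3 Disc d0 ZeroFramed)
namespace Dat
variable (D : Dat)

/-! ### stereographic projections of `S³` -/

theorem tke_den_pos {ε : ℝ} (hε : ε = 1 ∨ ε = -1) (z : S3) (h : ε * z.1.2.im ≠ 1) :
    0 < 1 - ε * z.1.2.im := by
  have h1 : ‖z.1.2‖ ^ 2 ≤ 1 := by
    have := z.2
    nlinarith [sq_nonneg ‖z.1.1‖]
  have h2 : z.1.2.im ^ 2 ≤ 1 := by
    have h3 : ‖z.1.2‖ ^ 2 = z.1.2.re ^ 2 + z.1.2.im ^ 2 := by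
      rw [← Complex.normSq_eq_norm_sq, Complex.normSq_apply]; ring
    nlinarith [sq_nonneg z.1.2.re]
  have h4 : (ε * z.1.2.im) ^ 2 ≤ 1 := by
    rcases hε with rfl | rfl <;> nlinarith
  have h5 : ε * z.1.2.im ≤ 1 := by nlinarith [abs_le_one_iff_mul_self_le_one.2 (by nlinarith : ε * z.1.2.im * (ε * z.1.2.im) ≤ 1), le_abs_self (ε * z.1.2.im)]
  rcases lt_or_eq_of_le h5 with h6 | h6
  · linarith
  · exact absurd h6 h

theorem tke_normsq (a b : ℝ) : ‖(⟨a, b⟩ : ℂ)‖ ^ 2 = a ^ 2 + b ^ 2 := by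
  rw [← Complex.normSq_eq_norm_sq, Complex.normSq_apply]; ring

/-- the inverse of the stereographic projection -/
noncomputable def tke_sinv (ε : ℝ) (hε : ε = 1 ∨ ε = -1) (p : ℂ × ℝ) : S3 :=
  ⟨(2 * p.1 / ((‖p.1‖ ^ 2 + p.2 ^ 2 + 1 : ℝ) : ℂ),
    ⟨2 * p.2 / (‖p.1‖ ^ 2 + p.2 ^ 2 + 1), ε * (‖p.1‖ ^ 2 + p.2 ^ 2 - 1) / (‖p.1‖ ^ 2 + p.2 ^ 2 + 1)⟩), by
    have hN : 0 < ‖p.1‖ ^ 2 + p.2 ^ 2 + 1 := by positivity
    have hε2 : ε ^ 2 = 1 := by rcases hε with rfl | rfl <;> norm_num
    simp only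
    rw [norm_div, norm_mul, Complex.norm_real, Real.norm_eq_abs, abs_of_pos hN]
    generalize ‖p.1‖ = n at hN ⊢
    rw [tke_normsq]
    simp only [RCLike.norm_ofNat]
    rw [div_pow, div_pow, div_pow, mul_pow, mul_pow, mul_pow, hε2]
    field_simp
    ring⟩

/-- stereographic projection -/
noncomputable def tke_st (ε : ℝ) (hε : ε = 1 ∨ ε = -1) : OpenPartialHomeomorph S3 (ℂ × ℝ) where
  toFun z := (z.1.1 / ((1 - ε * z.1.2.im : ℝ) : ℂ), z.1.2.re / (1 - ε * z.1.2.im))
  invFun := tke_sinv ε hε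
  source := {z | ε * z.1.2.im ≠ 1}
  target := univ
  map_source' _ _ := mem_univ _
  map_target' p _ := by
    have hN : 0 < ‖p.1‖ ^ 2 + p.2 ^ 2 + 1 := by positivity
    have hε2 : ε ^ 2 = 1 := by rcases hε with rfl | rfl <;> norm_num
    simp only [mem_ofPred_eq, tke_sinv]
    have : ε * (ε * (‖p.1‖ ^ 2 + p.2 ^ 2 - 1) / (‖p.1‖ ^ 2 + p.2 ^ 2 + 1)) =
        ε ^ 2 * (‖p.1‖ ^ 2 + p.2 ^ 2 - 1) / (‖p.1‖ ^ 2 + p.2 ^ 2 + 1) := by ring
    rw [this, hε2, one_mul]
    intro h
    rw [div_eq_one_iff_eq hN.ne'] at h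
    linarith
  left_inv' z hz := by
    have hd := tke_den_pos hε z hz
    have hε2 : ε ^ 2 = 1 := by rcases hε with rfl | rfl <;> norm_num
    have hz2 : ‖z.1.1‖ ^ 2 + (z.1.2.re ^ 2 + z.1.2.im ^ 2) = 1 := by
      have := z.2
      rw [← Complex.normSq_eq_norm_sq z.1.2, Complex.normSq_apply] at this
      nlinarith
    set m := z.1.2.im with hm
    have hden : ((1 - ε * m : ℝ) : ℂ) ≠ 0 := by exact_mod_cast hd.ne'
    have hN : ‖z.1.1 / ((1 - ε * m : ℝ) : ℂ)‖ ^ 2 + (z.1.2.re / (1 - ε * m)) ^ 2 + 1 =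
        2 / (1 - ε * m) := by
      rw [norm_div, Complex.norm_real, Real.norm_eq_abs, abs_of_pos hd]
      field_simp
      nlinarith
    have hN' : ‖z.1.1 / ((1 - ε * m : ℝ) : ℂ)‖ ^ 2 + (z.1.2.re / (1 - ε * m)) ^ 2 - 1 =
        2 * ε * m / (1 - ε * m) := by
      have : ‖z.1.1 / ((1 - ε * m : ℝ) : ℂ)‖ ^ 2 + (z.1.2.re / (1 - ε * m)) ^ 2 - 1 =
        2 / (1 - ε * m) - 2 := by rw [← hN]; ring
      rw [this]; field_simp; ring
    apply Subtype.ext
    unfold tke_sinv
    simp only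
    rw [hN, hN']
    refine Prod.ext ?_ (Complex.ext ?_ ?_)
    · simp only
      push_cast
      push_cast at hden
      field_simp
    · simp only
      field_simp
    · simp only
      rw [← hm]
      have : ε * (2 * ε * m / (1 - ε * m)) / (2 / (1 - ε * m)) = ε ^ 2 * m := by
        field_simp
      rw [this, hε2, one_mul]
  right_inv' p _ := by
    have hN : 0 < ‖p.1‖ ^ 2 + p.2 ^ 2 + 1 := by positivity
    have hε2 : ε ^ 2 = 1 := by rcases hε with rfl | rfl <;> norm_num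
    have h1 : 1 - ε * (tke_sinv ε hε p).1.2.im = 2 / (‖p.1‖ ^ 2 + p.2 ^ 2 + 1) := by
      simp only [tke_sinv]
      have : ε * (ε * (‖p.1‖ ^ 2 + p.2 ^ 2 - 1) / (‖p.1‖ ^ 2 + p.2 ^ 2 + 1)) =
        ε ^ 2 * (‖p.1‖ ^ 2 + p.2 ^ 2 - 1) / (‖p.1‖ ^ 2 + p.2 ^ 2 + 1) := by ring
      rw [this, hε2]
      field_simp
      ring
    rw [h1]
    refine Prod.ext ?_ ?_
    · simp only [tke_sinv]
      have hNc : ((‖p.1‖ ^ 2 + p.2 ^ 2 + 1 : ℝ) : ℂ) ≠ 0 := by exact_mod_cast hN.ne'
      push_cast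
      push_cast at hNc
      field_simp
    · simp only [tke_sinv]
      field_simp
  open_source := by
    have : Continuous fun z : S3 => ε * z.1.2.im := by fun_prop
    exact isOpen_ne_fun this continuous_const
  open_target := isOpen_univ
  continuousOn_toFun := by
    have h1 : ∀ z ∈ {z : S3 | ε * z.1.2.im ≠ 1}, (1 - ε * z.1.2.im) ≠ 0 := fun z hz =>
      (tke_den_pos hε z hz).ne'
    refine ContinuousOn.prodMk (ContinuousOn.div ?_ ?_ ?_) (ContinuousOn.div ?_ ?_ ?_)
    · exact (by fun_prop : Continuous fun z : S3 => z.1.1).continuousOn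
    · exact (by fun_prop : Continuous fun z : S3 => ((1 - ε * z.1.2.im : ℝ) : ℂ)).continuousOn
    · intro z hz; exact_mod_cast h1 z hz
    · exact (by fun_prop : Continuous fun z : S3 => z.1.2.re).continuousOn
    · exact (by fun_prop : Continuous fun z : S3 => (1 - ε * z.1.2.im : ℝ)).continuousOn
    · intro z hz; exact h1 z hz
  continuousOn_invFun := by
    have hN : ∀ p : ℂ × ℝ, ‖p.1‖ ^ 2 + p.2 ^ 2 + 1 ≠ 0 := fun p => by positivity
    have hc : Continuous (tke_sinv ε hε) := by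
      refine Continuous.subtype_mk (Continuous.prodMk (Continuous.div ?_ ?_ ?_) ?_) _
      · fun_prop
      · fun_prop
      · intro p; exact_mod_cast hN p
      · have h2 : Continuous fun p : ℂ × ℝ => 2 * p.2 / (‖p.1‖ ^ 2 + p.2 ^ 2 + 1) :=
          Continuous.div (by fun_prop) (by fun_prop) hN
        have h3 : Continuous fun p : ℂ × ℝ =>
            ε * (‖p.1‖ ^ 2 + p.2 ^ 2 - 1) / (‖p.1‖ ^ 2 + p.2 ^ 2 + 1) :=
          Continuous.div (by fun_prop) (by fun_prop) hN
        have h4 : Continuous fun p : ℂ × ℝ =>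
            Complex.equivRealProdCLM.symm (2 * p.2 / (‖p.1‖ ^ 2 + p.2 ^ 2 + 1),
              ε * (‖p.1‖ ^ 2 + p.2 ^ 2 - 1) / (‖p.1‖ ^ 2 + p.2 ^ 2 + 1)) :=
          Complex.equivRealProdCLM.symm.continuous.comp (h2.prodMk h3)
        exact h4
    exact hc.continuousOn

/-! ### the interval -/

/-- `t ↦ t` on `[0, 1)` and `t ↦ 1 - t` on `(0, 1]` -/
noncomputable def tke_c (s : Bool) (t : ℝ) : ℝ := if s then t else 1 - t

theorem tke_c_cont (s : Bool) : Continuous (tke_c s) := by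
  unfold tke_c; cases s <;> simp <;> fun_prop

theorem tke_c_c (s : Bool) (t : ℝ) : tke_c s (tke_c s t) = t := by
  unfold tke_c; cases s <;> simp

theorem tke_c_mem (s : Bool) {t : ℝ} (ht : t ∈ Icc (0:ℝ) 1) : tke_c s t ∈ Icc (0:ℝ) 1 := by
  unfold tke_c
  cases s
  · simp only [Bool.false_eq_true, if_false, mem_Icc]; constructor <;> linarith [ht.1, ht.2]
  · simpa using ht

noncomputable def tke_int (s : Bool) : OpenPartialHomeomorph unitInterval {x : ℝ // 0 ≤ x} where
  toFun t := ⟨tke_c s t.1, (tke_c_mem s t.2).1⟩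
  invFun x := projIcc 0 1 zero_le_one (tke_c s x.1)
  source := {t | tke_c s t.1 < 1}
  target := {x | x.1 < 1}
  map_source' t ht := ht
  map_target' x hx := by
    simp only [mem_ofPred_eq] at hx ⊢
    have h1 : tke_c s x.1 ∈ Icc (0:ℝ) 1 := tke_c_mem s ⟨x.2, hx.le⟩
    rw [projIcc_of_mem zero_le_one h1]
    simp only
    rw [tke_c_c]; exact hx
  left_inv' t _ := by
    simp only
    rw [tke_c_c]
    exact projIcc_val zero_le_one t
  right_inv' x hx := by
    simp only [mem_ofPred_eq] at hx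
    have h1 : tke_c s x.1 ∈ Icc (0:ℝ) 1 := tke_c_mem s ⟨x.2, hx.le⟩
    apply Subtype.ext
    simp only
    rw [projIcc_of_mem zero_le_one h1]
    exact tke_c_c s x.1
  open_source := isOpen_lt ((tke_c_cont s).comp continuous_subtype_val) continuous_const
  open_target := isOpen_lt continuous_subtype_val continuous_const
  continuousOn_toFun :=
    (Continuous.subtype_mk ((tke_c_cont s).comp continuous_subtype_val) _).continuousOn
  continuousOn_invFun :=
    (continuous_projIcc.comp ((tke_c_cont s).comp continuous_subtype_val)).continuousOn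

/-! ### the model -/

/-- `(ℂ × ℝ) × [0, ∞) ≃ EuclideanHalfSpace 4` -/
noncomputable def tke_model : (ℂ × ℝ) × {x : ℝ // 0 ≤ x} ≃ₜ EuclideanHalfSpace 4 where
  toFun p := ⟨!₂[p.2.1, p.1.1.re, p.1.1.im, p.1.2], p.2.2⟩
  invFun x := ((⟨x.1 1, x.1 2⟩, x.1 3), ⟨x.1 0, x.2⟩)
  left_inv p := by
    rfl
  right_inv x := by
    apply Subtype.ext
    ext i
    fin_cases i <;> rfl
  continuous_toFun := by
    refine Continuous.subtype_mk ?_ _
    refine (PiLp.continuous_toLp 2 _).comp (continuous_pi fun i => ?_)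
    fin_cases i
    · exact continuous_subtype_val.comp continuous_snd
    · exact Complex.continuous_re.comp (continuous_fst.comp continuous_fst)
    · exact Complex.continuous_im.comp (continuous_fst.comp continuous_fst)
    · exact continuous_snd.comp continuous_fst
  continuous_invFun := by
    have h : ∀ i : Fin 4, Continuous fun x : EuclideanHalfSpace 4 => x.1 i := fun i =>
      (continuous_apply i).comp ((PiLp.continuous_ofLp 2 _).comp continuous_subtype_val)
    refine Continuous.prodMk (Continuous.prodMk ?_ (h 3)) (Continuous.subtype_mk (h 0) _)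
    exact Complex.equivRealProdCLM.symm.continuous.comp ((h 1).prodMk (h 2))

/-- TASK 5. `S³ × [0,1]` is a 4-manifold with boundary `S³ × {0, 1}` (hence so is its open subset `B`).
Sketch. Stereographic projections `S³ ∖ {(0, ±i)} → ℂ × ℝ`, `(z₁, z₂) ↦ (z₁, Re z₂) / (1 ∓ Im z₂)`;
`[0,1) → [0,∞)`, `t ↦ t` (an open embedding) or `(0,1] → [0,∞)`, `t ↦ 1 - t`, for interior points either.
Then `(ℂ × ℝ) × [0,∞) ≃ EuclideanHalfSpace 4`. -/
theorem chart_S3I (b : S3 × unitInterval) :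
    ∃ ψ : OpenPartialHomeomorph (S3 × unitInterval) (EuclideanHalfSpace 4),
    b ∈ ψ.source ∧ ∀ y ∈ ψ.source, ((y.2 = 0 ∨ y.2 = 1) ↔ (ψ y).1 0 = 0) := by
  obtain ⟨ε, hε, hεb⟩ : ∃ ε : ℝ, (ε = 1 ∨ ε = -1) ∧ ε * b.1.1.2.im ≠ 1 := by
    by_cases h : b.1.1.2.im = 1
    · exact ⟨-1, Or.inr rfl, by rw [h]; norm_num⟩
    · exact ⟨1, Or.inl rfl, by rwa [one_mul]⟩
  obtain ⟨s, hs⟩ : ∃ s : Bool, tke_c s b.2.1 < 1 := by
    by_cases h : b.2.1 < 1
    · exact ⟨true, by simpa [tke_c] using h⟩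
    · refine ⟨false, ?_⟩
      have : b.2.1 = 1 := le_antisymm b.2.2.2 (not_lt.1 h)
      simp [tke_c, this]
  refine ⟨((tke_st ε hε).prod (tke_int s)).trans tke_model.toOpenPartialHomeomorph, ?_, ?_⟩
  · simp only [OpenPartialHomeomorph.trans_source, Homeomorph.toOpenPartialHomeomorph_source,
      preimage_univ, inter_univ, OpenPartialHomeomorph.prod_source, mem_prod]
    exact ⟨hεb, hs⟩
  · intro y hy
    simp only [OpenPartialHomeomorph.trans_source, Homeomorph.toOpenPartialHomeomorph_source,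
      preimage_univ, inter_univ, OpenPartialHomeomorph.prod_source, mem_prod] at hy
    have hy2 : tke_c s y.2.1 < 1 := hy.2
    have hval : ((((tke_st ε hε).prod (tke_int s)).trans tke_model.toOpenPartialHomeomorph) y).1 0 =
        tke_c s y.2.1 := rfl
    rw [hval]
    cases s with
    | true =>
      simp only [tke_c, if_true] at hy2 ⊢
      constructor
      · rintro (h | h)
        · rw [h]; rfl
        · rw [h] at hy2; norm_num at hy2
      · intro h
        left
        exact Subtype.ext h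
    | false =>
      simp only [tke_c, Bool.false_eq_true, if_false] at hy2 ⊢
      constructor
      · rintro (h | h)
        · rw [h] at hy2; norm_num at hy2
        · rw [h]; norm_num
      · intro h
        right
        apply Subtype.ext
        simp only [Icc.coe_one]
        linarith

end Dat
end Pool.Agent.H753.Cob
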