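import Pool.Graph.R_seed8.Helper534.LS.P_sig_add
import Pool.Graph.R_seed8.Helper534.LS.P_sig_nat
import Pool.Graph.R_seed8.Helper534.LS.P_sig_inj
import Pool.Graph.R_seed8.Helper534.LS.P_par_spec
import Pool.Graph.R_seed8.Helper534.LS.P_tor_free
import Pool.Graph.R_seed8.Helper534.LS.P_tor_vanish
import Pool.Graph.R_seed8.Helper534.LS.P_tor_gen
set_option autoImplicit false
namespace Pool.Agent.H753.Cob
open Set Topology
open Pool.Agent.Helper534.LS

/-- TASK 7a. A circle valued map on the circle is homotopic to a power map. -/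
theorem exists_degree (g : C(Circle, Circle)) :
    ∃ k : ℤ, g.Homotopic ⟨fun u => u ^ k, by fun_prop⟩ := by
  have hpi := Real.pi_pos
  have hce : Continuous (Circle.exp : ℝ → Circle) := Circle.exp.continuous
  -- the lift
  obtain ⟨F, ⟨_, hF⟩, _⟩ := Circle.isCoveringMap_exp.existsUnique_continuousMap_lifts
    (A := ℝ) ⟨fun x => g (Circle.exp x), by fun_prop⟩ 0
    (Complex.arg (g (Circle.exp 0) : Circle)) (by simp)
  have hF' : ∀ x : ℝ, Circle.exp (F x) = g (Circle.exp x) := fun x => congrFun hF x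
  -- the degree
  obtain ⟨k, hk⟩ : ∃ k : ℤ, F (0 + 2 * Real.pi) = F 0 + k * (2 * Real.pi) := by
    rw [← Circle.exp_eq_exp, hF', hF', Circle.periodic_exp]
  have hper : ∀ x : ℝ, F (x + 2 * Real.pi) = F x + k * (2 * Real.pi) := by
    have h1 : (fun x : ℝ => F (x + 2 * Real.pi)) = fun x : ℝ => F x + k * (2 * Real.pi) := by
      refine Circle.isCoveringMap_exp.eq_of_comp_eq (by fun_prop) (by fun_prop) ?_ 0 hk
      funext x
      show Circle.exp (F (x + 2 * Real.pi)) = Circle.exp (F x + k * (2 * Real.pi))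
      rw [hF', Circle.periodic_exp, ← hF', Circle.exp_eq_exp]
      exact ⟨-k, by push_cast; ring⟩
    exact fun x => congrFun h1 x
  -- the periodic part
  set h : ℝ → ℝ := fun x => F x - k * x with hh
  have hhc : Continuous h := by rw [hh]; fun_prop
  have hhp : Function.Periodic h (2 * Real.pi) := by
    intro x
    show F (x + 2 * Real.pi) - k * (x + 2 * Real.pi) = F x - k * x
    rw [hper]
    ring
  set φ : Circle → ℝ := fun u => h (Complex.arg (u : ℂ)) with hφ
  have hφe : ∀ x : ℝ, φ (Circle.exp x) = h x := by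
    intro x
    obtain ⟨m, hm⟩ := Circle.exp_eq_exp.1 (Circle.exp_arg (Circle.exp x))
    show h (Complex.arg (Circle.exp x : ℂ)) = h x
    rw [hm]
    have := hhp.int_mul m x
    rw [← this]
  have hsurj : Function.Surjective (Circle.exp : ℝ → Circle) := fun u => ⟨_, Circle.exp_arg u⟩
  have hφc : Continuous φ := by
    rw [(Circle.isCoveringMap_exp.isQuotientMap hsurj).continuous_iff]
    have : φ ∘ (Circle.exp : ℝ → Circle) = h := funext hφe
    rw [this]
    exact hhc
  have hg : ∀ u : Circle, g u = Circle.exp (φ u) * u ^ k := by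
    intro u
    obtain ⟨x, rfl⟩ := hsurj u
    have e1 : Circle.exp x ^ k = Circle.exp (k * x) := by
      rw [← zsmul_eq_mul, Circle.exp_zsmul]
    rw [hφe, ← hF', e1, ← Circle.exp_add]
    congr 1
    show F x = F x - k * x + k * x
    ring
  refine ⟨k, ⟨⟨⟨fun p => Circle.exp ((1 - (p.1 : ℝ)) * φ p.2) * p.2 ^ k, ?_⟩, ?_, ?_⟩⟩⟩
  · have h1 : Continuous fun p : unitInterval × Circle => (1 - (p.1 : ℝ)) * φ p.2 := by fun_prop
    exact (hce.comp h1).mul ((continuous_zpow k).comp continuous_snd)
  · intro u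
    show Circle.exp ((1 - (0 : ℝ)) * φ u) * u ^ k = g u
    rw [sub_zero, one_mul, hg]
  · intro u
    show Circle.exp ((1 - (1 : ℝ)) * φ u) * u ^ k = u ^ k
    rw [sub_self, zero_mul, Circle.exp_zero, one_mul]

/-- TASK 7b. If `id × g : S¹ × S¹ → S¹ × S¹` is onto in `H_2` then `g` is homotopic to the identity or to
the inversion. -/
theorem circle_lemma (g : C(Circle, Circle)) (h : Function.Surjective (hmap (idx g) 2)) :
    g.Homotopic (ContinuousMap.id _) ∨ g.Homotopic ⟨fun u => u⁻¹, by fun_prop⟩ := by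
  set a : C(Circle, T1) := ⟨fun u => (u, ()), by fun_prop⟩ with ha
  set b : C(T1, Circle) := ⟨fun p => p.1, by fun_prop⟩ with hb
  have hba : b.comp a = ContinuousMap.id _ := by
    ext u
    rfl
  have hab : a.comp b = ContinuousMap.id _ := by
    ext p
    rfl
  have hba' : ∀ (n : ℕ) (x : HH Circle n), hmap b n (hmap a n x) = x := by
    intro n x
    rw [← hmap_comp, hba, hmap_id]
  have hab' : ∀ (n : ℕ) (x : HH T1 n), hmap a n (hmap b n x) = x := by
    intro n x
    rw [← hmap_comp, hab, hmap_id]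
  -- `H_2` of the circle vanishes
  have hv : ∀ x : HH Circle 2, x = 0 := by
    intro x
    rw [← hba' 2 x, (tor_vanish 0).2.1 (hmap a 2 x), map_zero]
  -- `g` is onto in `H_1`
  have hsurj : ∀ y : HH Circle 1, ∃ x : HH Circle 1, hmap g 1 x = y := by
    intro y
    obtain ⟨c, hc⟩ := h (sig Circle 1 y)
    have h1 := par_spec Circle 1 c
    rw [hv (hmap (prQ Circle) 2 c), map_zero, zero_add] at h1
    refine ⟨par Circle 1 c, ?_⟩
    have h2 : sig Circle 1 (hmap g 1 (par Circle 1 c)) = sig Circle 1 y := by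
      rw [← sig_nat, ← h1, hc]
    have h3 := sig_inj Circle 1 (hmap g 1 (par Circle 1 c) - y) (by rw [map_sub, h2, sub_self])
    exact sub_eq_zero.1 h3
  -- the generator
  set t : HH Circle 1 := hmap b 1 tor1 with ht
  have hgen : ∀ x : HH Circle 1, ∃ m : ℤ, x = m • t := by
    intro x
    obtain ⟨m, hm⟩ := tor_gen.1 (hmap a 1 x)
    refine ⟨m, ?_⟩
    rw [← hba' 1 x, hm, map_smul]
  have hfree : ∀ m : ℤ, m • t = 0 → m = 0 := by
    intro m hm
    have h1 : m • tor1 = 0 := by
      have h2 := congrArg (hmap a 1) hm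
      rw [map_smul, map_zero, ht, hab'] at h2
      exact h2
    apply (tor_free m).1
    have h2 : m • tor2 = sig T1 1 (m • tor1) := by
      rw [map_smul]
      rfl
    rw [h2, h1, map_zero]
  -- power maps
  obtain ⟨k, hk⟩ := exists_degree g
  have hpow : ∀ j : ℤ, hmap (⟨fun u => u ^ j, by fun_prop⟩ : C(Circle, Circle)) 1 t = j • t := by
    have hstep : ∀ j : ℤ, hmap (⟨fun u => u ^ (j + 1), by fun_prop⟩ : C(Circle, Circle)) 1 t =
        hmap (⟨fun u => u ^ j, by fun_prop⟩ : C(Circle, Circle)) 1 t + t := by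
      intro j
      have h1 := sig_add (Q := Unit) (Z := Circle)
        ⟨fun p : Circle × (Circle × Unit) => p.1 ^ j * p.2.1, by fun_prop⟩
        ((⟨fun u => u ^ (j + 1), by fun_prop⟩ : C(Circle, Circle)).comp b)
        ((⟨fun u => u ^ j, by fun_prop⟩ : C(Circle, Circle)).comp b) b
        (fun p => by
          show p.1 ^ (j + 1) = p.1 ^ j * p.1
          exact zpow_add_one _ _)
        (fun p => by
          show p.1 ^ j = p.1 ^ j * 1
          rw [mul_one])
        (fun p => by
          show p.1 = (1 : Circle) ^ j * p.1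
          rw [one_zpow, one_mul]) 0 ptU
      rw [hmap_comp, hmap_comp] at h1
      exact h1
    have h0 : hmap (⟨fun u => u ^ (0 : ℤ), by fun_prop⟩ : C(Circle, Circle)) 1 t = 0 := by
      have h1 := hstep 0
      have h2 : (⟨fun u => u ^ ((0 : ℤ) + 1), by fun_prop⟩ : C(Circle, Circle)) =
          ContinuousMap.id _ := by
        ext u
        show ((u ^ ((0 : ℤ) + 1) : Circle) : ℂ) = _
        rw [zero_add, zpow_one]
        rfl
      rw [h2, hmap_id] at h1
      exact right_eq_add.1 h1
    intro j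
    induction j using Int.induction_on with
    | zero => rw [h0, zero_smul]
    | succ i ih => rw [hstep, ih, add_smul, one_smul]
    | pred i ih =>
      have h1 := hstep (-(i : ℤ) - 1)
      rw [sub_add_cancel, ih] at h1
      rw [sub_smul, one_smul, h1, add_sub_cancel_right]
  -- conclusion
  obtain ⟨x, hx⟩ := hsurj t
  obtain ⟨m, hm⟩ := hgen x
  rw [hmap_homotopic _ _ hk, hm, map_smul, hpow] at hx
  have hmk : m * k = 1 := by
    have h1 : (m * k - 1) • t = 0 := by
      rw [sub_smul, one_smul, mul_smul, hx, sub_self]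
    have h2 := hfree _ h1
    linarith
  rcases Int.eq_one_or_neg_one_of_mul_eq_one (by rw [mul_comm] at hmk; exact hmk) with h1 | h1
  · left
    subst h1
    have h2 : (⟨fun u => u ^ (1 : ℤ), by fun_prop⟩ : C(Circle, Circle)) = ContinuousMap.id _ := by
      ext u
      show ((u ^ (1 : ℤ) : Circle) : ℂ) = _
      rw [zpow_one]
      rfl
    rwa [h2] at hk
  · right
    subst h1
    have h2 : (⟨fun u => u ^ (-1 : ℤ), by fun_prop⟩ : C(Circle, Circle)) =
        ⟨fun u => u⁻¹, by fun_prop⟩ := by
      ext u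
      show ((u ^ (-1 : ℤ) : Circle) : ℂ) = ((u⁻¹ : Circle) : ℂ)
      rw [zpow_neg_one]
    rwa [h2] at hk

end Pool.Agent.H753.Cob
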