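import Pool.Agent.H753.Cob.Data
set_option autoImplicit false
namespace Pool.Agent.H753.Cob
open Set Topology
open Pool.Agent.Helper60.Fin (S3 Disc d0 ZeroFramed)

/-- one step: a map to the circle which is close to `exp ∘ τ` is of the same form -/
theorem tkf_step {a b : ℝ → Circle} (ha : Continuous a) (hb : Continuous b)
    (hap : ∀ t, a (t + 1) = a t) (hbp : ∀ t, b (t + 1) = b t) (h : ∀ t, dist (b t) (a t) < 1)
    (hτ : ∃ τ : ℝ → ℝ, Continuous τ ∧ (∀ t, τ (t + 1) = τ t) ∧ ∀ t, a t = Circle.exp (τ t)) :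
    ∃ τ : ℝ → ℝ, Continuous τ ∧ (∀ t, τ (t + 1) = τ t) ∧ ∀ t, b t = Circle.exp (τ t) := by
  obtain ⟨τ, h1, h2, h3⟩ := hτ
  have hslit : ∀ t, ((b t / a t : Circle) : ℂ) ∈ Complex.slitPlane := by
    intro t
    rw [Complex.mem_slitPlane_iff]
    left
    have h4 : ‖((b t / a t : Circle) : ℂ) - 1‖ < 1 := by
      have h5 : dist (b t) (a t) = ‖((b t : Circle) : ℂ) - (a t : ℂ)‖ := by
        rw [← dist_eq_norm]
        rfl
      have h6 : ((b t / a t : Circle) : ℂ) - 1 = (((b t : Circle) : ℂ) - (a t : ℂ)) / (a t : ℂ) := by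
        rw [Circle.coe_div, sub_div, div_self (Circle.coe_ne_zero _)]
      rw [h6, norm_div, Circle.norm_coe, div_one, ← h5]
      exact h t
    have h7 := (abs_le.1 (Complex.abs_re_le_norm (((b t / a t : Circle) : ℂ) - 1))).1
    rw [Complex.sub_re, Complex.one_re] at h7
    linarith
  refine ⟨fun t => τ t + Complex.arg ((b t / a t : Circle) : ℂ), ?_, ?_, ?_⟩
  · refine h1.add ?_
    rw [continuous_iff_continuousAt]
    intro t
    have h8 : Continuous fun t => ((b t / a t : Circle) : ℂ) :=
      (by fun_prop : Continuous fun z : Circle => (z : ℂ)).comp (hb.div' ha)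
    exact ContinuousAt.comp (f := fun t => ((b t / a t : Circle) : ℂ))
      (Complex.continuousAt_arg (hslit t)) h8.continuousAt
  · intro t
    simp only [h2, hap, hbp]
  · intro t
    rw [Circle.exp_add, ← h3, Circle.exp_arg, mul_div_cancel]

/-- TASK 8. A thinner 0-framed tube is 0-framed. -/
theorem zeroFramed_thin {e : Circle × Disc → S3} {K : Set S3} (h : ZeroFramed e K) {ρ : ℝ} (h0 : 0 < ρ)
    (h1 : ρ ≤ 1) : ZeroFramed (fun p => e (p.1, dsc (ρ * p.2.1))) K := by
  obtain ⟨hc, hi, hr, hf⟩ := h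
  have hval : ∀ w : Disc, (dsc (ρ * w.1)).1 = ρ * w.1 := by
    intro w
    apply dsc_val
    rw [norm_mul, Complex.norm_real, Real.norm_eq_abs, abs_of_pos h0]
    calc ρ * ‖w.1‖ ≤ 1 * 1 := mul_le_mul h1 w.2 (norm_nonneg _) zero_le_one
      _ = 1 := one_mul 1
  have hρ : (ρ : ℂ) ≠ 0 := by exact_mod_cast h0.ne'
  refine ⟨?_, ?_, ?_, ?_⟩
  · refine hc.comp (continuous_fst.prodMk (continuous_dsc.comp ?_))
    exact continuous_const.mul (continuous_subtype_val.comp continuous_snd)
  · rintro ⟨u, w⟩ ⟨u', w'⟩ h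
    have h2 := hi h
    rw [Prod.mk.injEq] at h2
    obtain ⟨h3, h4⟩ := h2
    have h5 := congrArg Subtype.val h4
    simp only [hval] at h5
    have h6 : w = w' := Subtype.ext (mul_left_cancel₀ hρ h5)
    simp only at h3
    rw [h3, h6]
  · have h2 : ∀ u : Circle, e (u, dsc (ρ * d0.1)) = e (u, d0) := by
      intro u
      have : dsc (ρ * d0.1) = d0 := by
        apply Subtype.ext
        rw [hval]
        simp [d0]
      rw [this]
    simp only [h2]
    exact hr
  · intro f hfc hm
    have hne : ∀ (u : Circle) (s : Icc ρ 1), e (u, dsc ((s : ℝ) : ℂ)) ∉ K := by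
      rintro u ⟨s, hs1, hs2⟩ hK
      rw [← hr] at hK
      obtain ⟨u', hu'⟩ := hK
      have h2 := hi hu'
      rw [Prod.mk.injEq] at h2
      have h5 := congrArg Subtype.val h2.2
      have hs0 : 0 < s := lt_of_lt_of_le h0 hs1
      rw [dsc_val (by
        rw [Complex.norm_real, Real.norm_eq_abs, abs_of_pos hs0]; exact hs2)] at h5
      simp only [d0] at h5
      exact hs0.ne (by exact_mod_cast h5)
    set F : Circle × Icc ρ 1 → Circle := fun p => f ⟨e (p.1, dsc ((p.2 : ℝ) : ℂ)), hne p.1 p.2⟩
      with hF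
    have hFc : Continuous F := by
      refine hfc.comp (Continuous.subtype_mk ?_ _)
      refine hc.comp (continuous_fst.prodMk (continuous_dsc.comp ?_))
      exact Complex.continuous_ofReal.comp (continuous_subtype_val.comp continuous_snd)
    have hFu : UniformContinuous F := CompactSpace.uniformContinuous_of_continuous hFc
    obtain ⟨δ, hδ, hd⟩ := Metric.uniformContinuous_iff.1 hFu 1 one_pos
    have hpc : Continuous fun t : ℝ => Circle.exp (2 * Real.pi * t) :=
      Circle.exp.continuous.comp (continuous_const.mul continuous_id)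
    have hper : ∀ t : ℝ, Circle.exp (2 * Real.pi * (t + 1)) = Circle.exp (2 * Real.pi * t) := by
      intro t
      rw [mul_add, mul_one, Circle.exp_add, Circle.exp_two_pi, mul_one]
    set P : Icc ρ 1 → Prop := fun r => ∃ τ : ℝ → ℝ, Continuous τ ∧ (∀ t, τ (t + 1) = τ t) ∧
      ∀ t, F (Circle.exp (2 * Real.pi * t), r) = Circle.exp (τ t) with hP
    have hstep : ∀ r r' : Icc ρ 1, dist r' r < δ → P r → P r' := by
      intro r r' hrr hPr
      refine tkf_step (a := fun t => F (Circle.exp (2 * Real.pi * t), r))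
        (b := fun t => F (Circle.exp (2 * Real.pi * t), r')) (hFc.comp (hpc.prodMk continuous_const))
        (hFc.comp (hpc.prodMk continuous_const)) (fun t => by simp only [hper])
        (fun t => by simp only [hper]) (fun t => ?_) hPr
      apply hd
      rw [Prod.dist_eq, dist_self]
      exact max_lt hδ hrr
    have hP1 : P ⟨1, h1, le_rfl⟩ := by
      have hm1 : ∀ u : Circle, e (u, ⟨1, by simp⟩) ∉ K := by
        intro u
        have h2 := hne u ⟨1, h1, le_rfl⟩
        have h3 : dsc (((1 : ℝ)) : ℂ) = (⟨1, by simp⟩ : Disc) := by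
          apply Subtype.ext
          rw [dsc_val (by simp)]
          simp
        simp only [h3] at h2
        exact h2
      obtain ⟨τ, a1, a2, a3⟩ := hf f hfc hm1
      refine ⟨τ, a1, a2, fun t => ?_⟩
      rw [← a3 t, hF]
      simp only
      congr 2
      congr 2
      apply Subtype.ext
      rw [dsc_val (by simp)]
      simp
    have hclopen : IsClopen {r | P r} := by
      constructor
      · rw [← isOpen_compl_iff, Metric.isOpen_iff]
        intro r hr'
        refine ⟨δ, hδ, fun r' hr'' hPr' => hr' ?_⟩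
        rw [Metric.mem_ball, dist_comm] at hr''
        exact hstep r' r hr'' hPr'
      · rw [Metric.isOpen_iff]
        intro r hr'
        exact ⟨δ, hδ, fun r' hr'' => hstep r r' hr'' hr'⟩
    have : PreconnectedSpace (Icc ρ 1) := Subtype.preconnectedSpace isPreconnected_Icc
    have huniv := hclopen.eq_univ ⟨_, hP1⟩
    have hPρ : P ⟨ρ, le_rfl, h1⟩ := by
      have : (⟨ρ, le_rfl, h1⟩ : Icc ρ 1) ∈ {r | P r} := by rw [huniv]; trivial
      exact this
    obtain ⟨τ, a1, a2, a3⟩ := hPρ
    refine ⟨τ, a1, a2, fun t => ?_⟩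
    rw [← a3 t, hF]
    simp only
    congr 2
    congr 2
    rw [mul_one]

end Pool.Agent.H753.Cob
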