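import Pool.Agent.H753.Cob.Data
set_option autoImplicit false
namespace Pool.Agent.H753.Cob
open Set Topology
open Pool.Agent.Helper60.Fin (S3 Disc d0 ZeroFramed)

/-! ### lifting -/

theorem tkh_lift {A : Type} [TopologicalSpace A] [SimplyConnectedSpace A] [LocallyPathConnectedSpace A]
    (f : A → Circle) (hf : Continuous f) (a₀ : A) :
    ∃ L : A → ℝ, Continuous L ∧ ∀ a, f a = Circle.exp (L a) := by
  obtain ⟨F, ⟨-, hF⟩, -⟩ := Circle.isCoveringMap_exp.existsUnique_continuousMap_lifts ⟨f, hf⟩ a₀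
    (Complex.arg (f a₀)) (Circle.exp_arg _)
  exact ⟨F, F.continuous, fun a => (congrFun hF a).symm⟩

theorem tkh_int {X : Type} [TopologicalSpace X] [PreconnectedSpace X] (D : X → ℝ)
    (hD : Continuous D) (h : ∀ x, ∃ n : ℤ, D x = n) (x y : X) : D x = D y := by
  choose n hn using h
  have hc : Continuous n := by
    rw [Int.isClosedEmbedding_coe_real.isInducing.continuous_iff]
    have : (fun m : ℤ => (m : ℝ)) ∘ n = D := by
      funext x; exact (hn x).symm
    rw [this]; exact hD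
  rw [hn, hn, PreconnectedSpace.constant inferInstance hc (x := x) (y := y)]

/-- the covering of the circle with period 1 -/
noncomputable def tkE (t : ℝ) : Circle := Circle.exp (2 * Real.pi * t)

theorem tkE_cont : Continuous tkE := by
  unfold tkE
  fun_prop

theorem tkE_quot : IsOpenQuotientMap tkE := by
  refine ⟨?_, tkE_cont, ?_⟩
  · intro z
    refine ⟨Complex.arg z / (2 * Real.pi), ?_⟩
    unfold tkE
    rw [mul_div_cancel₀ _ (by positivity)]
    exact Circle.exp_arg _
  · have : tkE = Circle.exp ∘ (Homeomorph.mulLeft₀ (2 * Real.pi) (by positivity)) := rfl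
    rw [this]
    exact isLocalHomeomorph_circleExp.isOpenMap.comp (Homeomorph.isOpenMap _)

theorem tkE_eq {s t : ℝ} (h : tkE s = tkE t) : ∃ m : ℤ, s = t + m := by
  unfold tkE at h
  obtain ⟨m, hm⟩ := Circle.exp_eq_exp.1 h
  refine ⟨m, ?_⟩
  have h0 : (0:ℝ) < 2 * Real.pi := by positivity
  have : 2 * Real.pi * s = 2 * Real.pi * (t + m) := by rw [hm]; ring
  exact mul_left_cancel₀ h0.ne' this

theorem tkE_add (s : ℝ) (m : ℤ) : tkE (s + m) = tkE s := by
  unfold tkE
  rw [Circle.exp_eq_exp]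
  exact ⟨m, by ring⟩

theorem tkE_one (s : ℝ) : tkE (s + 1) = tkE s := by
  simpa using tkE_add s 1


theorem tkE_zpow (s : ℝ) (m : ℤ) : (tkE s) ^ m = Circle.exp (2 * Real.pi * (m * s)) := by
  unfold tkE
  apply Circle.ext
  rw [Circle.coe_zpow, Circle.coe_exp, Circle.coe_exp, ← Complex.exp_int_mul]
  congr 1
  push_cast
  ring

theorem tkh_torus (g : Circle × Circle → Circle) (hg : Continuous g) (τ : ℝ → ℝ) (hτ : Continuous τ)
    (hper : ∀ t, τ (t + 1) = τ t) (hgτ : ∀ t, g (tkE t, 1) = Circle.exp (τ t)) :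
    ∃ (h : Circle × Circle → ℝ) (b : ℤ), Continuous h ∧ ∀ p, g p = Circle.exp (h p) * p.2 ^ b := by
  obtain ⟨H, hH, hgH⟩ := tkh_lift (fun p : ℝ × ℝ => g (tkE p.1, tkE p.2))
    (hg.comp ((tkE_cont.comp continuous_fst).prodMk (tkE_cont.comp continuous_snd))) (0, 0)
  have h2 : (0:ℝ) < 2 * Real.pi := by positivity
  -- the degree in the first variable
  have hD1 : ∀ p q : ℝ × ℝ, (H (p.1 + 1, p.2) - H p) / (2 * Real.pi) =
      (H (q.1 + 1, q.2) - H q) / (2 * Real.pi) := by
    refine tkh_int (fun p : ℝ × ℝ => (H (p.1 + 1, p.2) - H p) / (2 * Real.pi)) (by fun_prop) ?_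
    intro p
    have e1 := hgH (p.1 + 1, p.2)
    have e2 := hgH p
    simp only [tkE_one] at e1
    rw [e1] at e2
    obtain ⟨m, hm⟩ := Circle.exp_eq_exp.1 e2
    refine ⟨m, ?_⟩
    rw [hm]
    field_simp
    ring
  have hD0 : ∀ s t : ℝ, (H (s, 0) - τ s) / (2 * Real.pi) = (H (t, 0) - τ t) / (2 * Real.pi) := by
    refine tkh_int (fun s : ℝ => (H (s, 0) - τ s) / (2 * Real.pi)) (by fun_prop) ?_
    intro s
    have e1 := hgH (s, 0)
    have e2 := hgτ s
    have e3 : tkE 0 = 1 := by unfold tkE; simp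
    simp only [e3] at e1
    rw [e1] at e2
    obtain ⟨m, hm⟩ := Circle.exp_eq_exp.1 e2
    refine ⟨m, ?_⟩
    rw [hm]
    field_simp
    ring
  have hP1 : ∀ p : ℝ × ℝ, H (p.1 + 1, p.2) = H p := by
    intro p
    have e1 := hD1 p (0, 0)
    have e2 := hD0 1 0
    have e3 := hper 0
    rw [zero_add] at e3
    rw [div_left_inj' h2.ne'] at e1 e2
    simp only [zero_add] at e1
    linarith
  have hD2 : ∀ p q : ℝ × ℝ, (H (p.1, p.2 + 1) - H p) / (2 * Real.pi) =
      (H (q.1, q.2 + 1) - H q) / (2 * Real.pi) := by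
    refine tkh_int (fun p : ℝ × ℝ => (H (p.1, p.2 + 1) - H p) / (2 * Real.pi)) (by fun_prop) ?_
    intro p
    have e1 := hgH (p.1, p.2 + 1)
    have e2 := hgH p
    simp only [tkE_one] at e1
    rw [e1] at e2
    obtain ⟨m, hm⟩ := Circle.exp_eq_exp.1 e2
    refine ⟨m, ?_⟩
    rw [hm]
    field_simp
    ring
  obtain ⟨b, hb⟩ : ∃ b : ℤ, (H (0, 0 + 1) - H (0, 0)) / (2 * Real.pi) = b := by
    have e1 := hgH (0, 0 + 1)
    have e2 := hgH (0, 0)
    simp only [tkE_one] at e1
    rw [e1] at e2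
    obtain ⟨m, hm⟩ := Circle.exp_eq_exp.1 e2
    refine ⟨m, ?_⟩
    rw [hm]
    field_simp
    ring
  have hP2 : ∀ p : ℝ × ℝ, H (p.1, p.2 + 1) = H p + 2 * Real.pi * b := by
    intro p
    have e1 := hD2 p (0, 0)
    rw [hb, div_eq_iff h2.ne'] at e1
    linarith
  -- the periodic function
  set K : ℝ × ℝ → ℝ := fun p => H p - 2 * Real.pi * b * p.2 with hK
  have hKc : Continuous K := by fun_prop
  have hK1 : ∀ (r : ℝ) , Function.Periodic (fun t => K (t, r)) 1 := by
    intro r t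
    simp only [hK]
    rw [hP1 (t, r)]
  have hK2 : ∀ (t : ℝ) , Function.Periodic (fun r => K (t, r)) 1 := by
    intro t r
    simp only [hK]
    rw [hP2 (t, r)]
    ring
  have hKm : ∀ (t r : ℝ) (m n : ℤ), K (t + m, r + n) = K (t, r) := by
    intro t r m n
    have e1 := (hK1 (r + n)).int_mul m t
    have e2 := (hK2 t).int_mul n r
    simp only [mul_one] at e1 e2
    rw [e1, e2]
  have hq : IsOpenQuotientMap (Prod.map tkE tkE) := tkE_quot.prodMap tkE_quot
  choose s hs using tkE_quot.surjective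
  have hs' : ∀ t, ∃ m : ℤ, s (tkE t) = t + m := fun t => tkE_eq (hs _)
  refine ⟨fun p => K (s p.1, s p.2), b, ?_, ?_⟩
  · rw [hq.isQuotientMap.continuous_iff]
    have : (fun p : Circle × Circle => K (s p.1, s p.2)) ∘ Prod.map tkE tkE = K := by
      funext p
      obtain ⟨m, hm⟩ := hs' p.1
      obtain ⟨n, hn⟩ := hs' p.2
      show K (s (tkE p.1), s (tkE p.2)) = K p
      rw [hm, hn, hKm]
    rw [this]
    exact hKc
  · intro p
    have e1 := hgH (s p.1, s p.2)
    simp only [hs] at e1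
    have e2 : p.2 ^ b = Circle.exp (2 * Real.pi * (b * s p.2)) := by
      rw [← tkE_zpow, hs]
    rw [e2, ← Circle.exp_add]
    show g (p.1, p.2) = _
    rw [e1]
    congr 1
    simp only [hK]
    ring


/-! ### the disc, and the retraction -/

instance tkh_compactDisc : CompactSpace Disc := by
  have h : IsCompact {w : ℂ | ‖w‖ ≤ 1} := by
    have := isCompact_closedBall (0 : ℂ) 1
    convert this using 1
    ext w
    simp
  exact isCompact_iff_compactSpace.1 h

/-- a point of the circle as a point of the disc -/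
def tkD (v : Circle) : Disc := ⟨v, (Circle.norm_coe v).le⟩

theorem tkD_cont : Continuous tkD := by
  unfold tkD
  fun_prop

variable (D : Dat)

theorem tkh_emb : IsClosedEmbedding D.e := D.e_cont.isClosedEmbedding D.e_inj

theorem tkh_sqrt2 : Real.sqrt 2 * Real.sqrt 2 = 2 := Real.mul_self_sqrt (by norm_num)

theorem tkh_half (p : Circle × Disc) : (dsc (((1 / Real.sqrt 2 : ℝ) : ℂ) * p.2.1)).1 = ((1 / Real.sqrt 2 : ℝ) : ℂ) * p.2.1 := by
  apply dsc_val
  rw [norm_mul, Complex.norm_real, Real.norm_eq_abs, abs_of_pos (by positivity)]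
  have h1 := p.2.2
  have h2 : 1 / Real.sqrt 2 ≤ 1 := by
    rw [div_le_one (by positivity)]
    exact Real.one_le_sqrt.2 (by norm_num)
  have h3 : 0 ≤ 1 / Real.sqrt 2 := by positivity
  have h4 := norm_nonneg p.2.1
  nlinarith

/-- the standard solid torus parametrizes: `eH ∘ gam (1/√2) = e` -/
theorem tkh_eH_gam (p : Circle × Disc) : D.eH (gam (1 / Real.sqrt 2) p) = D.e p := by
  have h := tkh_half p
  have h1 := p.2.2
  have h4 := norm_nonneg p.2.1
  have hn : ‖(dsc (((1 / Real.sqrt 2 : ℝ) : ℂ) * p.2.1)).1‖ ^ 2 = ‖p.2.1‖ ^ 2 / 2 := by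
    rw [h, norm_mul, Complex.norm_real, Real.norm_eq_abs, abs_of_pos (by positivity), mul_pow, div_pow,
      Real.sq_sqrt (by norm_num)]
    ring
  have hpos : 0 < Real.sqrt (1 - ‖(dsc (((1 / Real.sqrt 2 : ℝ) : ℂ) * p.2.1)).1‖ ^ 2) := by
    apply Real.sqrt_pos.2
    rw [hn]
    nlinarith
  unfold Dat.eH
  congr 1
  apply Prod.ext
  · exact unitC_mul_pos _ hpos
  · show dsc ((Real.sqrt 2 : ℝ) * (dsc (((1 / Real.sqrt 2 : ℝ) : ℂ) * p.2.1)).1) = p.2
    rw [h]
    have : ((Real.sqrt 2 : ℝ) : ℂ) * (((1 / Real.sqrt 2 : ℝ) : ℂ) * p.2.1) = p.2.1 := by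
      rw [← mul_assoc, ← Complex.ofReal_mul, mul_one_div_cancel (by positivity)]
      simp
    rw [this]
    exact dsc_val' _

theorem tkh_norm_gam (p : Circle × Disc) : ‖(gam (1 / Real.sqrt 2) p).1.2‖ = ‖p.2.1‖ / Real.sqrt 2 := by
  show ‖(dsc (((1 / Real.sqrt 2 : ℝ) : ℂ) * p.2.1)).1‖ = _
  rw [tkh_half, norm_mul, Complex.norm_real, Real.norm_eq_abs, abs_of_pos (by positivity)]
  ring

theorem tkh_lat_lt {z : S3} : lat z < Real.pi / 4 ↔ ‖z.1.2‖ < 1 / Real.sqrt 2 := by
  rw [← Dat.sin_pi_div_four, ← sin_lat]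
  constructor
  · intro h
    exact Real.sin_lt_sin_of_lt_of_le_pi_div_two (by linarith [lat_nonneg z, Real.pi_pos])
      (by linarith [Real.pi_pos]) h
  · intro h
    by_contra hc
    push Not at hc
    have := Real.sin_le_sin_of_le_of_le_pi_div_two (by linarith [lat_nonneg z, Real.pi_pos])
      (lat_le z) hc
    linarith

theorem tkh_gam_lat (p : Circle × Disc) (h : ‖p.2.1‖ < 1) : lat (gam (1 / Real.sqrt 2) p) < Real.pi / 4 := by
  rw [tkh_lat_lt, tkh_norm_gam]
  exact div_lt_div_of_pos_right h (by positivity)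

theorem tkh_gam_V (p : Circle × Disc) : gam (1 / Real.sqrt 2) p ∈ Dat.V := by
  show lat _ ≤ _
  unfold lat
  rw [tkh_norm_gam]
  have h1 : Real.pi / 4 = Real.arcsin (1 / Real.sqrt 2) := by
    rw [← Dat.sin_pi_div_four, Real.arcsin_sin] <;> linarith [Real.pi_pos]
  rw [h1]
  apply Real.monotone_arcsin
  exact div_le_div_of_nonneg_right p.2.2 (by positivity)

theorem tkh_gam_lat' (u v : Circle) : lat (gam (1 / Real.sqrt 2) (u, tkD v)) = Real.pi / 4 := by
  unfold lat
  rw [tkh_norm_gam]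
  have : ‖(tkD v).1‖ = 1 := Circle.norm_coe v
  rw [this, ← Dat.sin_pi_div_four, Real.arcsin_sin] <;> linarith [Real.pi_pos]

/-- the boundary torus is not in the satellite -/
theorem tkh_bdry (u v : Circle) : D.e (u, tkD v) ∉ D.eH '' D.P := by
  rintro ⟨z, ⟨w, rfl⟩, h2⟩
  have h3 := D.c_in w
  have h4 := D.r₀_pos
  rw [← tkh_eH_gam] at h2
  have h5 := D.eH_injOn (show lat (D.c w) ≤ Real.pi / 4 by linarith) (tkh_gam_V _) h2
  have h6 := tkh_gam_lat' u v
  rw [← h5] at h6
  linarith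

theorem tkh_P_U {z : S3} (hz : z ∈ D.P) : lat z < Real.pi / 4 := by
  obtain ⟨w, rfl⟩ := hz
  have h3 := D.c_in w
  have h4 := D.r₀_pos
  linarith

/-- the retraction of the complement of the core to the exterior -/
theorem tkh_retr (hO : ∀ O : Set S3, IsOpen O → (∀ z ∈ O, lat z < Real.pi / 4) → IsOpen (D.eH '' O)) :
    ∃ ρ : {z : S3 // z ∉ range fun u => D.e (u, d0)} → S3, Continuous ρ ∧
      (∀ x, ρ x ∉ D.eH '' D.P) ∧ ∀ (v u : Circle) (h), ρ ⟨D.e (u, tkD v), h⟩ = D.e (u, tkD v) := by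
  classical
  set K : Set S3 := range fun u => D.e (u, d0) with hK
  have hE := tkh_emb D
  set U : Set S3 := D.eH '' {z | lat z < Real.pi / 4} with hU
  have hUo : IsOpen U := hO _ (isOpen_lt continuous_lat continuous_const) (fun z hz => hz)
  -- the inverse of `e`
  have hinv : ∃ i : S3 → Circle × Disc, ContinuousOn i (range D.e) ∧ ∀ p, i (D.e p) = p := by
    have : Nonempty (Circle × Disc) := ⟨(1, d0)⟩
    refine ⟨Function.invFun D.e, ?_, fun p => Function.leftInverse_invFun D.e_inj p⟩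
    rw [hE.isInducing.continuousOn_iff]
    refine continuousOn_id.congr ?_
    rintro _ ⟨p, rfl⟩
    simp only [Function.comp, Function.leftInverse_invFun D.e_inj p, id]
  obtain ⟨i, hi, hii⟩ := hinv
  have hform : ∀ x : {z : S3 // z ∉ K}, x.1 ∈ range D.e → (i x.1).2.1 ≠ 0 := by
    rintro ⟨_, hx⟩ ⟨⟨u, w⟩, rfl⟩ h0
    simp only [hii] at h0
    apply hx
    refine ⟨u, ?_⟩
    have : w = d0 := Subtype.ext h0
    simp only [this]
  refine ⟨fun x => if x.1 ∈ range D.e then D.e ((i x.1).1, tkD (unitC (i x.1).2.1)) else x.1, ?_, ?_, ?_⟩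
  · rw [← continuousOn_univ]
    have hcov : (univ : Set {z : S3 // z ∉ K}) = {x | x.1 ∈ range D.e} ∪ {x | x.1 ∉ U} := by
      symm
      rw [eq_univ_iff_forall]
      intro x
      by_cases h : x.1 ∈ U
      · left
        obtain ⟨z, -, hz⟩ := h
        exact ⟨_, hz⟩
      · exact Or.inr h
    rw [hcov]
    apply ContinuousOn.union_of_isClosed
    · have h1 : ContinuousOn (fun x : {z : S3 // z ∉ K} => D.e ((i x.1).1, tkD (unitC (i x.1).2.1)))
          {x | x.1 ∈ range D.e} := by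
        have hi' : ContinuousOn (fun x : {z : S3 // z ∉ K} => i x.1) {x | x.1 ∈ range D.e} :=
          hi.comp continuous_subtype_val.continuousOn (fun x hx => hx)
        intro x hx
        have hix := hi' x hx
        have hu : ContinuousAt (fun p : Circle × Disc => D.e (p.1, tkD (unitC p.2.1))) (i x.1) := by
          apply D.e_cont.continuousAt.comp
          apply ContinuousAt.prodMk continuousAt_fst
          apply tkD_cont.continuousAt.comp
          have hc : Continuous fun p : Circle × Disc => p.2.1 := by fun_prop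
          exact ContinuousAt.comp (f := fun p : Circle × Disc => p.2.1)
            (continuousAt_unitC (hform x hx)) hc.continuousAt
        exact ContinuousAt.comp_continuousWithinAt (f := fun x : {z : S3 // z ∉ K} => i x.1) hu hix
      refine h1.congr ?_
      intro x hx
      simp only [mem_ofPred_eq] at hx
      simp only [if_pos hx]
    · have h1 : ContinuousOn (fun x : {z : S3 // z ∉ K} => x.1) {x | x.1 ∉ U} :=
        continuous_subtype_val.continuousOn
      refine h1.congr ?_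
      intro x hx
      simp only [mem_ofPred_eq] at hx
      by_cases h : x.1 ∈ range D.e
      · simp only [if_pos h]
        obtain ⟨⟨u, w⟩, h2⟩ := h
        rw [← h2, hii]
        congr 2
        apply Subtype.ext
        have hw : ‖w.1‖ = 1 := by
          by_contra hne
          apply hx
          rw [← h2, ← tkh_eH_gam]
          exact ⟨_, tkh_gam_lat (u, w) (lt_of_le_of_ne w.2 hne), rfl⟩
        show (unitC w.1 : ℂ) = w.1
        have := norm_mul_unitC w.1
        rw [hw] at this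
        simpa using this
      · simp only [if_neg h]
    · exact hE.isClosed_range.preimage continuous_subtype_val
    · exact (hUo.isClosed_compl).preimage continuous_subtype_val
  · intro x
    by_cases h : x.1 ∈ range D.e
    · simp only [if_pos h]
      exact tkh_bdry D _ _
    · simp only [if_neg h]
      rintro ⟨z, -, h2⟩
      exact h ⟨_, h2⟩
  · intro v u h
    have h2 : D.e (u, tkD v) ∈ range D.e := ⟨_, rfl⟩
    simp only [if_pos h2, hii]
    congr 2
    apply Subtype.ext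
    show (unitC (v : ℂ) : ℂ) = v
    rw [unitC_circle]

theorem tkh_eH_contAt {z : S3} (hz : z.1.1 ≠ 0) : ContinuousAt D.eH z := by
  unfold Dat.eH
  apply D.e_cont.continuousAt.comp
  apply ContinuousAt.prodMk
  · have hc : Continuous fun z : S3 => z.1.1 := by fun_prop
    exact ContinuousAt.comp (f := fun z : S3 => z.1.1) (continuousAt_unitC hz) hc.continuousAt
  · have hc : Continuous fun z : S3 => dsc ((Real.sqrt 2 : ℝ) * z.1.2) :=
      continuous_dsc.comp (by fun_prop)
    exact hc.continuousAt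

theorem tkh_eH_contOn : ContinuousOn D.eH Dat.V := fun _ hz =>
  (tkh_eH_contAt D (Dat.ne_of_V hz)).continuousWithinAt

theorem tkh_eps (p : Circle × Disc) : (dsc (D.ε * p.2.1)).1 = D.ε * p.2.1 := by
  apply dsc_val
  rw [norm_mul, Complex.norm_real, Real.norm_eq_abs, abs_of_pos D.ε_pos]
  have h1 := p.2.2
  have h4 := norm_nonneg p.2.1
  have := D.ε_pos
  have := D.ε_lt
  nlinarith

theorem tkh_eps_pos (p : Circle × Disc) : 0 < Real.sqrt (1 - ‖(dsc (D.ε * p.2.1)).1‖ ^ 2) := by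
  apply Real.sqrt_pos.2
  rw [tkh_eps, norm_mul, Complex.norm_real, Real.norm_eq_abs, abs_of_pos D.ε_pos]
  have h1 := p.2.2
  have h4 := norm_nonneg p.2.1
  have := D.ε_pos
  have := D.ε_lt
  have h5 : D.ε * ‖p.2.1‖ < 1 := by nlinarith
  have h6 : 0 ≤ D.ε * ‖p.2.1‖ := by positivity
  nlinarith

theorem tkh_gam_cont (ε : ℝ) : Continuous (gam ε) := by
  unfold gam
  have h : Continuous fun p : Circle × Disc => (dsc (ε * p.2.1)).1 :=
    continuous_subtype_val.comp (continuous_dsc.comp (by fun_prop))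
  apply Continuous.subtype_mk
  apply Continuous.prodMk ?_ h
  have hs : Continuous fun p : Circle × Disc => Real.sqrt (1 - ‖(dsc (ε * p.2.1)).1‖ ^ 2) :=
    Real.continuous_sqrt.comp (continuous_const.sub (h.norm.pow 2))
  exact (continuous_subtype_val.comp continuous_fst).mul (Complex.continuous_ofReal.comp hs)

theorem tkh_gam_inj : Function.Injective (gam D.ε) := by
  intro p p' h
  have h2 : (gam D.ε p).1.2 = (gam D.ε p').1.2 := by rw [h]
  have h2' : (dsc (D.ε * p.2.1)).1 = (dsc (D.ε * p'.2.1)).1 := h2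
  have h3 : p.2 = p'.2 := by
    rw [tkh_eps, tkh_eps] at h2'
    apply Subtype.ext
    have : (D.ε : ℂ) ≠ 0 := by exact_mod_cast D.ε_pos.ne'
    exact mul_left_cancel₀ this h2'
  have h1 : (gam D.ε p).1.1 = (gam D.ε p').1.1 := by rw [h]
  have h4 : unitC (gam D.ε p).1.1 = p.1 := unitC_mul_pos _ (tkh_eps_pos D p)
  have h5 : unitC (gam D.ε p').1.1 = p'.1 := unitC_mul_pos _ (tkh_eps_pos D p')
  exact Prod.ext (by rw [← h4, ← h5, h1]) h3

theorem tkh_eJ_V (p : Circle × Disc) : D.φ.symm (gam D.ε p) ∈ Dat.V := by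
  have h := D.ε_in p
  have := D.r₀_pos
  show lat _ ≤ _
  linarith

theorem tkh_eJ_cont : Continuous D.eJ := by
  unfold Dat.eJ
  exact (tkh_eH_contOn D).comp_continuous (D.φ.symm.continuous.comp (tkh_gam_cont _)) (tkh_eJ_V D)

theorem tkh_eJ_inj : Function.Injective D.eJ := by
  intro p p' h
  have := D.eH_injOn (tkh_eJ_V D p) (tkh_eJ_V D p') h
  exact tkh_gam_inj D (D.φ.symm.injective this)

theorem tkh_eJ_core : (range fun u => D.eJ (u, d0)) = D.eH '' D.P := by
  have hd : ∀ u : Circle, gam D.ε (u, d0) = ⟨((u : ℂ), 0), by simp [Circle.norm_coe]⟩ := by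
    intro u
    apply Subtype.ext
    have h0 : (dsc (D.ε * d0.1)).1 = 0 := by
      rw [tkh_eps D (u, d0)]
      simp [d0]
    apply Prod.ext
    · show (u : ℂ) * Real.sqrt (1 - ‖(dsc (D.ε * d0.1)).1‖ ^ 2) = u
      rw [h0]; simp
    · exact h0
  ext x
  constructor
  · rintro ⟨u, rfl⟩
    refine ⟨D.φ.symm (gam D.ε (u, d0)), ?_, rfl⟩
    apply (D.φ_c _).1
    rw [D.φ.apply_symm_apply, hd]
  · rintro ⟨z, hz, rfl⟩
    have h2 := (D.φ_c z).2 hz
    have h1 := (D.φ z).2
    rw [h2, norm_zero] at h1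
    have h3 : ‖(D.φ z).1.1‖ = 1 := by nlinarith [norm_nonneg (D.φ z).1.1]
    refine ⟨unitC (D.φ z).1.1, ?_⟩
    show D.eH (D.φ.symm (gam D.ε (unitC (D.φ z).1.1, d0))) = D.eH z
    rw [hd]
    congr 1
    rw [Homeomorph.symm_apply_eq]
    apply Subtype.ext
    apply Prod.ext
    · show (unitC (D.φ z).1.1 : ℂ) = (D.φ z).1.1
      have := norm_mul_unitC (D.φ z).1.1
      rw [h3] at this
      simpa using this
    · exact h2.symm

/-- the cut off -/
noncomputable def tkχ (s : ℝ) : ℝ := (Real.pi / 2 - s) * (4 / Real.pi)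

theorem tkχ_0 : tkχ (Real.pi / 4) = 1 := by
  unfold tkχ
  field_simp
  ring

theorem tkχ_1 : tkχ (Real.pi / 2) = 0 := by
  unfold tkχ
  ring

theorem tkχ_cont : Continuous tkχ := by
  unfold tkχ
  fun_prop

theorem tkh_prod_contAt (h : Circle × Circle → ℝ) (hc : Continuous h) {z : S3} (hz : z.1.2 ≠ 0) :
    ContinuousAt (fun z : S3 => tkχ (lat z) * h (unitC z.1.1, unitC z.1.2)) z := by
  have hu2 : ContinuousAt (fun z : S3 => unitC z.1.2) z := by
    have hc : Continuous fun z : S3 => z.1.2 := by fun_prop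
    exact ContinuousAt.comp (f := fun z : S3 => z.1.2) (continuousAt_unitC hz) hc.continuousAt
  by_cases h1 : z.1.1 = 0
  · have hl : lat z = Real.pi / 2 := by
      have h2 := z.2
      rw [h1, norm_zero] at h2
      have h3 : ‖z.1.2‖ = 1 := by nlinarith [norm_nonneg z.1.2]
      rw [lat, h3, Real.arcsin_one]
    obtain ⟨M, hM⟩ := isCompact_univ.exists_bound_of_continuousOn hc.continuousOn
    have e0 : tkχ (lat z) * h (unitC z.1.1, unitC z.1.2) = 0 := by
      rw [hl, tkχ_1, zero_mul]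
    rw [ContinuousAt, e0]
    have hb : Filter.Tendsto (fun z : S3 => |tkχ (lat z)| * M) (𝓝 z) (𝓝 0) := by
      have : Continuous fun z : S3 => |tkχ (lat z)| * M := by
        have := tkχ_cont.comp continuous_lat
        exact (this.abs).mul continuous_const
      have h4 := this.tendsto z
      rwa [hl, tkχ_1, abs_zero, zero_mul] at h4
    refine squeeze_zero_norm ?_ hb
    intro y
    rw [norm_mul, Real.norm_eq_abs]
    exact mul_le_mul_of_nonneg_left (hM _ (mem_univ _)) (abs_nonneg _)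
  · have hu1 : ContinuousAt (fun z : S3 => unitC z.1.1) z := by
      have hc : Continuous fun z : S3 => z.1.1 := by fun_prop
      exact ContinuousAt.comp (f := fun z : S3 => z.1.1) (continuousAt_unitC h1) hc.continuousAt
    have h5 : ContinuousAt (fun z : S3 => tkχ (lat z)) z :=
      (tkχ_cont.comp continuous_lat).continuousAt
    apply h5.mul
    exact ContinuousAt.comp (f := fun z : S3 => (unitC z.1.1, unitC z.1.2)) hc.continuousAt
      (hu1.prodMk hu2)

/-- the extension of the map on `V ∖ P` to the complement of `P` -/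
theorem tkh_ext (f' : S3 → Circle) (hf' : ContinuousOn f' (D.eH '' D.P)ᶜ)
    (h : Circle × Circle → ℝ) (b : ℤ) (hc : Continuous h)
    (hg : ∀ u v : Circle, f' (D.e (u, tkD v)) = Circle.exp (h (u, v)) * v ^ b) :
    ∃ F : S3 → Circle, ContinuousOn F D.Pᶜ ∧ ∀ z ∈ Dat.V, F z = f' (D.eH z) := by
  classical
  refine ⟨fun z => if lat z ≤ Real.pi / 4 then f' (D.eH z) else
    Circle.exp (tkχ (lat z) * h (unitC z.1.1, unitC z.1.2)) * (unitC z.1.2) ^ b, ?_, ?_⟩
  · apply ContinuousOn.if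
    · rintro z ⟨hz, hz'⟩
      have hl : lat z = Real.pi / 4 := frontier_le_subset_eq continuous_lat continuous_const hz'
      have hs : 0 < Real.sqrt 2 := by positivity
      have e1 : D.eH z = D.e (unitC z.1.1, tkD (unitC z.1.2)) := by
        unfold Dat.eH
        congr 2
        apply Subtype.ext
        have hzV : z ∈ Dat.V := hl.le
        rw [Dat.dsc_of_V hzV]
        show _ = (unitC z.1.2 : ℂ)
        have h3 := norm_mul_unitC z.1.2
        have h4 : ‖z.1.2‖ = 1 / Real.sqrt 2 := by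
          rw [← sin_lat, hl, Dat.sin_pi_div_four]
        rw [← h3, h4, ← mul_assoc, ← Complex.ofReal_mul, mul_one_div_cancel hs.ne']
        have h5 := unitC_mul_pos (unitC z.1.2) (r := 1 / Real.sqrt 2) (by positivity)
        rw [mul_comm] at h5
        rw [h5]; simp
      rw [e1, hg, hl, tkχ_0, one_mul]
    · have hcl : closure {z : S3 | lat z ≤ Real.pi / 4} = Dat.V :=
        (isClosed_le continuous_lat continuous_const).closure_eq
      rw [hcl]
      refine hf'.comp ((tkh_eH_contOn D).mono inter_subset_right) ?_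
      rintro z ⟨hz, hzV⟩ ⟨y, hy, hyz⟩
      have hyV : y ∈ Dat.V := (tkh_P_U D hy).le
      exact hz (D.eH_injOn hyV hzV hyz ▸ hy)
    · have hcl : closure {z : S3 | ¬ lat z ≤ Real.pi / 4} ⊆ {z : S3 | Real.pi / 4 ≤ lat z} := by
        apply closure_minimal _ (isClosed_le continuous_const continuous_lat)
        intro z hz
        simp only [mem_ofPred_eq, not_le] at hz ⊢
        exact hz.le
      intro z hz
      have hz2 : Real.pi / 4 ≤ lat z := hcl hz.2
      have hz3 : z.1.2 ≠ 0 := by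
        intro h0
        unfold lat at hz2
        rw [h0, norm_zero, Real.arcsin_zero] at hz2
        linarith [Real.pi_pos]
      apply ContinuousAt.continuousWithinAt
      apply ContinuousAt.mul
      · exact Circle.exp.continuous.continuousAt.comp (tkh_prod_contAt h hc hz3)
      · apply ContinuousAt.zpow
        have hc : Continuous fun z : S3 => z.1.2 := by fun_prop
        exact ContinuousAt.comp (f := fun z : S3 => z.1.2) (continuousAt_unitC hz3) hc.continuousAt
  · intro z hz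
    have hz' : lat z ≤ Real.pi / 4 := hz
    simp only [if_pos hz']

/-- the disc bounded by the longitude, in the complement of the circle `z₂ = 0` -/
noncomputable def tkPt (r : ℝ) (h : r ^ 2 < 1) (w : ℂ) : S3 :=
  ⟨((r : ℂ) * (dsc w).1, (Real.sqrt (1 - r ^ 2 * ‖(dsc w).1‖ ^ 2) : ℝ)), by
    have h1 := (dsc w).2
    have h0 := norm_nonneg (dsc w).1
    have h2 : ‖(dsc w).1‖ ^ 2 ≤ 1 := by nlinarith
    have h3 : 0 ≤ 1 - r ^ 2 * ‖(dsc w).1‖ ^ 2 := by nlinarith [sq_nonneg r]
    rw [norm_mul, Complex.norm_real, Complex.norm_real, Real.norm_eq_abs, Real.norm_eq_abs, sq_abs,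
      mul_pow, sq_abs, Real.sq_sqrt h3]
    ring⟩

theorem tkPt_ne (r : ℝ) (h : r ^ 2 < 1) (w : ℂ) : (tkPt r h w).1.2 ≠ 0 := by
  have h1 := (dsc w).2
  have h0 := norm_nonneg (dsc w).1
  have h2 : ‖(dsc w).1‖ ^ 2 ≤ 1 := by nlinarith
  have h3 : 0 < 1 - r ^ 2 * ‖(dsc w).1‖ ^ 2 := by nlinarith [sq_nonneg r]
  show ((Real.sqrt (1 - r ^ 2 * ‖(dsc w).1‖ ^ 2) : ℝ) : ℂ) ≠ 0
  exact_mod_cast (Real.sqrt_pos.2 h3).ne'

theorem tkPt_cont (r : ℝ) (h : r ^ 2 < 1) : Continuous (tkPt r h) := by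
  unfold tkPt
  have h1 : Continuous fun w : ℂ => (dsc w).1 := continuous_subtype_val.comp continuous_dsc
  apply Continuous.subtype_mk
  apply (continuous_const.mul h1).prodMk
  apply Complex.continuous_ofReal.comp
  exact Real.continuous_sqrt.comp (continuous_const.sub (continuous_const.mul (h1.norm.pow 2)))

theorem tkPt_bdry (u : Circle) (h : (Real.sqrt (1 - D.ε ^ 2)) ^ 2 < 1) :
    tkPt (Real.sqrt (1 - D.ε ^ 2)) h u = gam D.ε (u, ⟨1, by simp⟩) := by
  have h0 := D.ε_pos
  have h1 := D.ε_lt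
  have hd : (dsc (u : ℂ)).1 = u := dsc_val (Circle.norm_coe u).le
  have he := tkh_eps D (u, ⟨1, by simp⟩)
  simp only [mul_one] at he
  have h2 : (0:ℝ) ≤ 1 - D.ε ^ 2 := by nlinarith
  apply Subtype.ext
  apply Prod.ext
  · show ((Real.sqrt (1 - D.ε ^ 2) : ℝ) : ℂ) * (dsc (u : ℂ)).1 =
      (u : ℂ) * Real.sqrt (1 - ‖(dsc (D.ε * (1 : ℂ))).1‖ ^ 2)
    rw [hd, mul_one, he, Complex.norm_real, Real.norm_eq_abs, sq_abs, mul_comm]
  · show ((Real.sqrt (1 - (Real.sqrt (1 - D.ε ^ 2)) ^ 2 * ‖(dsc (u : ℂ)).1‖ ^ 2) : ℝ) : ℂ) =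
      (dsc (D.ε * (1 : ℂ))).1
    rw [hd, mul_one, he, Circle.norm_coe, Real.sq_sqrt h2]
    have : 1 - (1 - D.ε ^ 2) * 1 ^ 2 = D.ε ^ 2 := by ring
    rw [this, Real.sqrt_sq h0.le]

theorem zeroFramed_eJ (D : Dat) (h : ZeroFramed D.e (range fun u => D.e (u, d0)))
    (hO : ∀ O : Set S3, IsOpen O → (∀ z ∈ O, lat z < Real.pi / 4) → IsOpen (D.eH '' O)) :
    ZeroFramed D.eJ (D.eH '' D.P) := by
  classical
  refine ⟨tkh_eJ_cont D, tkh_eJ_inj D, tkh_eJ_core D, ?_⟩
  intro f hf hm
  -- a total function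
  obtain ⟨f', hf', hff⟩ : ∃ f' : S3 → Circle, ContinuousOn f' (D.eH '' D.P)ᶜ ∧
      ∀ z (hz : z ∉ D.eH '' D.P), f ⟨z, hz⟩ = f' z := by
    refine ⟨fun z => if hz : z ∉ D.eH '' D.P then f ⟨z, hz⟩ else 1, ?_, ?_⟩
    · rw [continuousOn_iff_continuous_domRestrict]
      refine Continuous.congr (f := fun x : ((D.eH '' D.P)ᶜ : Set S3) => f ⟨x.1, x.2⟩) ?_ ?_
      · exact hf.comp (continuous_subtype_val.subtype_mk _)
      · rintro ⟨z, hz⟩
        have hz' : z ∉ D.eH '' D.P := hz
        show f ⟨z, hz'⟩ = if hz : z ∉ D.eH '' D.P then f ⟨z, hz⟩ else 1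
        rw [dif_pos hz']
    · intro z hz
      simp only [dif_pos hz]
  -- step 1
  obtain ⟨ρ, hρ, hρ1, hρ2⟩ := tkh_retr D hO
  obtain ⟨τ, hτ, hτ1, hτ2⟩ := h.2.2.2 (fun x => f ⟨ρ x, hρ1 x⟩) (hf.comp (hρ.subtype_mk _)) (by
    rintro u ⟨v, hv⟩
    have := D.e_inj hv
    have h2 : (d0 : Disc).1 = 1 := congrArg (fun p : Circle × Disc => p.2.1) this
    simp [d0] at h2)
  have hd1 : (⟨1, by simp⟩ : Disc) = tkD 1 := Subtype.ext (by simp [tkD])
  -- step 2
  have hgc : Continuous fun p : Circle × Circle => f' (D.e (p.1, tkD p.2)) := by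
    apply hf'.comp_continuous
    · exact D.e_cont.comp (continuous_fst.prodMk (tkD_cont.comp continuous_snd))
    · intro p
      exact tkh_bdry D p.1 p.2
  obtain ⟨hh, b, hc, hg⟩ := tkh_torus (fun p : Circle × Circle => f' (D.e (p.1, tkD p.2))) hgc τ hτ hτ1
    (by
      intro t
      rw [← hτ2 t, ← hff _ (tkh_bdry D _ _)]
      congr 1
      apply Subtype.ext
      show D.e (tkE t, tkD 1) = ρ ⟨D.e (Circle.exp (2 * Real.pi * t), ⟨1, _⟩), _⟩
      have h3 : (⟨1, by simp⟩ : Disc) = tkD 1 := hd1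
      simp only [h3, hρ2]
      rfl)
  obtain ⟨F, hF, hFV⟩ := tkh_ext D f' hf' hh b hc (fun u v => hg (u, v))
  -- step 3
  have h0 := D.ε_pos
  have h1 := D.ε_lt
  have hr : (Real.sqrt (1 - D.ε ^ 2)) ^ 2 < 1 := by
    rw [Real.sq_sqrt (by nlinarith)]
    nlinarith
  have hKc : Continuous fun w : ℂ => F (D.φ.symm (tkPt _ hr w)) := by
    apply hF.comp_continuous
    · exact D.φ.symm.continuous.comp (tkPt_cont _ _)
    · intro w hw
      have := (D.φ_c _).2 hw
      rw [D.φ.apply_symm_apply] at this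
      exact tkPt_ne _ _ _ this
  obtain ⟨L, hL, hL2⟩ := tkh_lift (fun w : ℂ => F (D.φ.symm (tkPt _ hr w))) hKc 0
  refine ⟨fun t => L (tkE t : ℂ), ?_, ?_, ?_⟩
  · exact hL.comp (continuous_subtype_val.comp tkE_cont)
  · intro t
    simp only [tkE_one]
  · intro t
    rw [hff, ← hL2 (tkE t), tkPt_bdry, hFV _ (tkh_eJ_V D _)]
    rfl

end Pool.Agent.H753.Cob
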