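import Pool.Agent.H753.Cob.Data
set_option autoImplicit false
namespace Pool.Agent.H753.Cob
open Set Topology
open Pool.Agent.Helper60.Fin (S3 Disc d0 ZeroFramed)

theorem tkg_compact_S3 : CompactSpace S3 := by
  have h : IsCompact {z : ℂ × ℂ | ‖z.1‖ ^ 2 + ‖z.2‖ ^ 2 = 1} := by
    apply Metric.isCompact_of_isClosed_isBounded
    · exact isClosed_eq (by fun_prop) continuous_const
    · apply (Metric.isBounded_closedBall (x := (0 : ℂ × ℂ)) (r := 1)).subset
      intro z hz
      have hz' : ‖z.1‖ ^ 2 + ‖z.2‖ ^ 2 = 1 := hz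
      rw [mem_closedBall_zero_iff, Prod.norm_def]
      have h1 := norm_nonneg z.1
      have h2 := norm_nonneg z.2
      exact max_le (by nlinarith) (by nlinarith)
  exact isCompact_iff_compactSpace.mp h

theorem tkg_compact_B3 : CompactSpace B3 := by
  have h : IsCompact {x : ℂ × ℝ | ‖x.1‖ ^ 2 + x.2 ^ 2 ≤ 1} := by
    apply Metric.isCompact_of_isClosed_isBounded
    · exact isClosed_le (by fun_prop) continuous_const
    · apply (Metric.isBounded_closedBall (x := (0 : ℂ × ℝ)) (r := 1)).subset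
      intro z hz
      have hz' : ‖z.1‖ ^ 2 + z.2 ^ 2 ≤ 1 := hz
      rw [mem_closedBall_zero_iff, Prod.norm_def]
      have h1 := norm_nonneg z.1
      refine max_le (by nlinarith [sq_nonneg z.2]) ?_
      rw [Real.norm_eq_abs, abs_le]
      constructor <;> nlinarith [sq_nonneg ‖z.1‖]
  exact isCompact_iff_compactSpace.mp h

/-- polar coordinates in the upper half-plane -/
theorem tkg_polar {τ s r : ℝ} (hτ : 0 ≤ τ) (hr : 0 < r) (h : τ ^ 2 + s ^ 2 = r ^ 2) :
    ∃ t ∈ unitInterval, τ = r * Real.sin (Real.pi * t) ∧ s = r * Real.cos (Real.pi * t) := by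
  have h1 : (s / r) ^ 2 ≤ 1 := by
    rw [div_pow, div_le_one (by positivity)]
    nlinarith [sq_nonneg τ]
  have h2 : -1 ≤ s / r ∧ s / r ≤ 1 := abs_le.1 (abs_le_one_iff_mul_self_le_one.2 (by nlinarith))
  refine ⟨Real.arccos (s / r) / Real.pi, ⟨by
    have := Real.arccos_nonneg (s / r)
    have := Real.pi_pos
    positivity, (div_le_one Real.pi_pos).2 (Real.arccos_le_pi _)⟩, ?_, ?_⟩
  · rw [mul_div_cancel₀ _ Real.pi_pos.ne', Real.sin_arccos]
    have h3 : 1 - (s / r) ^ 2 = (τ / r) ^ 2 := by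
      field_simp
      linarith
    rw [h3, Real.sqrt_sq (by positivity)]
    field_simp
  · rw [mul_div_cancel₀ _ Real.pi_pos.ne', Real.cos_arccos h2.1 h2.2]
    field_simp

/-- the inverse of the surgery map and the collar, on a part of `B³ × S¹` -/
def tkO : Set (B3 × Circle) := {p | p.1.1.2 < nrm p.1.1 ∧ 0 < nrm p.1.1}

theorem tkg_isOpen_O : IsOpen tkO := by
  have h : Continuous fun p : B3 × Circle => nrm p.1.1 := continuous_nrm.comp (by fun_prop)
  exact (isOpen_lt (by fun_prop) h).inter (isOpen_lt continuous_const h)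

theorem tkg_nrm_le (x : B3) : nrm x.1 ≤ 1 := by
  unfold nrm
  rw [Real.sqrt_le_left (by norm_num)]
  rw [one_pow]
  exact x.2

theorem tkg_nrm_sq (x : ℂ × ℝ) : nrm x ^ 2 = ‖x.1‖ ^ 2 + x.2 ^ 2 := by
  unfold nrm
  exact Real.sq_sqrt (by positivity)

/-- the radial projection to the sphere -/
noncomputable def tkY (p : tkO) : S2 × Circle :=
  (⟨(nrm p.1.1.1)⁻¹ • p.1.1.1, by
    have h := p.2.2
    have h2 := tkg_nrm_sq p.1.1.1
    rw [Prod.smul_fst, Prod.smul_snd, norm_smul, Real.norm_eq_abs, abs_of_pos (inv_pos.2 h),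
      smul_eq_mul, mul_pow, mul_pow, ← mul_add, ← h2]
    field_simp⟩, p.1.2)

theorem tkY_lt (p : tkO) : (tkY p).1.1.2 < 1 := by
  show (nrm p.1.1.1)⁻¹ * p.1.1.1.2 < 1
  rw [inv_mul_lt_iff₀ p.2.2, mul_one]
  exact p.2.1

noncomputable def tkg (p : tkO) : S3 := ⟨iOi (tkY p), iOi_mem (tkY_lt p)⟩

theorem tkg_continuous_Y : Continuous tkY := by
  unfold tkY
  apply Continuous.prodMk _ (by fun_prop)
  apply Continuous.subtype_mk
  have h : Continuous fun p : tkO => nrm p.1.1.1 := continuous_nrm.comp (by fun_prop)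
  exact (h.inv₀ fun p => p.2.2.ne').smul (by fun_prop)

theorem tkg_continuous_g : Continuous tkg := by
  unfold tkg
  apply Continuous.subtype_mk
  unfold iOi
  have h := tkg_continuous_Y
  have ha : Continuous fun p : tkO => (tkY p).1.1.1 :=
    (by fun_prop : Continuous fun q : S2 × Circle => q.1.1.1).comp h
  have hb : Continuous fun p : tkO => (tkY p).1.1.2 :=
    (by fun_prop : Continuous fun q : S2 × Circle => q.1.1.2).comp h
  have hc : Continuous fun p : tkO => ((tkY p).2 : ℂ) :=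
    (by fun_prop : Continuous fun q : S2 × Circle => (q.2 : ℂ)).comp h
  have h1 : Continuous fun p : tkO => ((1 - (tkY p).1.1.2) / 2 : ℝ) :=
    (continuous_const.sub hb).div_const 2
  have h2 : Continuous fun p : tkO => (Real.sqrt ((1 - (tkY p).1.1.2) / 2) : ℂ) :=
    Complex.continuous_ofReal.comp (Real.continuous_sqrt.comp h1)
  apply Continuous.prodMk
  · apply Continuous.div ha (continuous_const.mul h2)
    intro p
    have h3 := tkY_lt p
    have h4 : 0 < Real.sqrt ((1 - (tkY p).1.1.2) / 2) := Real.sqrt_pos.2 (by linarith)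
    have h5 : (Real.sqrt ((1 - (tkY p).1.1.2) / 2) : ℂ) ≠ 0 := by exact_mod_cast h4.ne'
    simpa using h5
  · exact Continuous.mul hc h2

namespace Dat
variable (D : Dat)

theorem tkg_continuousAt_eH {z : S3} (hz : z.1.1 ≠ 0) : ContinuousAt D.eH z := by
  unfold eH
  apply ContinuousAt.comp (f := fun z : S3 => (unitC z.1.1, dsc ((Real.sqrt 2 : ℝ) * z.1.2)))
    D.e_cont.continuousAt
  apply ContinuousAt.prodMk
  · have h : Continuous fun z : S3 => z.1.1 := by fun_prop
    exact ContinuousAt.comp (f := fun z : S3 => z.1.1) (continuousAt_unitC hz) h.continuousAt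
  · apply Continuous.continuousAt
    exact continuous_dsc.comp (by fun_prop)

/-- TASK 3. The graph of the gluing is closed in `A × B`. -/
theorem graph_closed : IsClosed (range fun n : D.N => (D.α n, D.β n)) := by
  let Φ : Circle × Circle × (Icc 0 D.r₀) × unitInterval →
      (B3 × Circle) × (S3 × unitInterval) := fun m =>
    (colZ (m.2.2.1 * Real.sin (Real.pi * m.2.2.2))
      (D.G (cl m.1 m.2.1 (Real.pi / 4 + m.2.2.1 * Real.cos (Real.pi * m.2.2.2)))),
     (D.eH (cl m.1 m.2.1 (Real.pi / 4 - m.2.2.1)), m.2.2.2))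
  have hΦ : Continuous Φ := by
    apply Continuous.prodMk
    · rw [continuous_iff_continuousAt]
      intro m
      have hr := m.2.2.1.2
      have hc1 := Real.cos_le_one (Real.pi * m.2.2.2)
      have hc2 := Real.neg_one_le_cos (Real.pi * m.2.2.2)
      have hrl := D.r₀_lt
      have h1 : ContinuousAt D.G
          (cl m.1 m.2.1 (Real.pi / 4 + m.2.2.1 * Real.cos (Real.pi * m.2.2.2))) :=
        D.continuousAt_G (D.cl_notMem_P (by nlinarith [hr.1, hr.2]) (by nlinarith [hr.1, hr.2]))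
      have h2 : Continuous fun m : Circle × Circle × (Icc 0 D.r₀) × unitInterval =>
          cl m.1 m.2.1 (Real.pi / 4 + m.2.2.1 * Real.cos (Real.pi * m.2.2.2)) :=
        continuous_cl.comp (by fun_prop : Continuous fun m : Circle × Circle × (Icc 0 D.r₀) ×
          unitInterval => (m.1, m.2.1,
            (Real.pi / 4 + m.2.2.1 * Real.cos (Real.pi * m.2.2.2) : ℝ)))
      have h3 : ContinuousAt (fun m : Circle × Circle × (Icc 0 D.r₀) × unitInterval =>
          D.G (cl m.1 m.2.1 (Real.pi / 4 + m.2.2.1 * Real.cos (Real.pi * m.2.2.2)))) m :=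
        ContinuousAt.comp (f := fun m : Circle × Circle × (Icc 0 D.r₀) × unitInterval =>
          cl m.1 m.2.1 (Real.pi / 4 + m.2.2.1 * Real.cos (Real.pi * m.2.2.2))) h1 h2.continuousAt
      have h4 : ContinuousAt (fun m : Circle × Circle × (Icc 0 D.r₀) × unitInterval =>
          ((m.2.2.1 * Real.sin (Real.pi * m.2.2.2) : ℝ),
            D.G (cl m.1 m.2.1 (Real.pi / 4 + m.2.2.1 * Real.cos (Real.pi * m.2.2.2))))) m :=
        ContinuousAt.prodMk (Continuous.continuousAt (by fun_prop)) h3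
      exact ContinuousAt.comp (f := fun m : Circle × Circle × (Icc 0 D.r₀) × unitInterval =>
          ((m.2.2.1 * Real.sin (Real.pi * m.2.2.2) : ℝ),
            D.G (cl m.1 m.2.1 (Real.pi / 4 + m.2.2.1 * Real.cos (Real.pi * m.2.2.2)))))
        continuous_colZ.continuousAt h4
    · apply Continuous.prodMk _ (by fun_prop)
      rw [continuous_iff_continuousAt]
      intro m
      have hr := m.2.2.1.2
      have hrl := D.r₀_lt
      have hp := Real.pi_pos
      have h1 : ContinuousAt D.eH (cl m.1 m.2.1 (Real.pi / 4 - m.2.2.1)) := by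
        apply D.tkg_continuousAt_eH
        rw [cl_1]
        have : 0 < Real.cos (Real.pi / 4 - m.2.2.1) :=
          Real.cos_pos_of_mem_Ioo ⟨by linarith [hr.1, hr.2], by linarith [hr.1, hr.2]⟩
        have h5 : (Real.cos (Real.pi / 4 - m.2.2.1) : ℂ) ≠ 0 := by exact_mod_cast this.ne'
        exact mul_ne_zero (by simp) h5
      have h2 : Continuous fun m : Circle × Circle × (Icc 0 D.r₀) × unitInterval =>
          cl m.1 m.2.1 (Real.pi / 4 - m.2.2.1) :=
        continuous_cl.comp (by fun_prop : Continuous fun m : Circle × Circle × (Icc 0 D.r₀) ×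
          unitInterval => (m.1, m.2.1, (Real.pi / 4 - m.2.2.1 : ℝ)))
      exact ContinuousAt.comp (f := fun m : Circle × Circle × (Icc 0 D.r₀) × unitInterval =>
          cl m.1 m.2.1 (Real.pi / 4 - m.2.2.1)) h1 h2.continuousAt
  have hc : IsClosed (range Φ) := (isCompact_range hΦ).isClosed
  let j : D.A × D.B → (B3 × Circle) × (S3 × unitInterval) := fun p => (p.1.1, (p.2.1.1, p.2.2))
  have hj : Continuous j := by
    show Continuous fun p : D.A × D.B => ((p.1.1, (p.2.1.1, p.2.2)) :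
      (B3 × Circle) × (S3 × unitInterval))
    fun_prop
  have he : (range fun n : D.N => (D.α n, D.β n)) = j ⁻¹' range Φ := by
    ext ⟨a, b⟩
    constructor
    · rintro ⟨n, hn⟩
      have h1 : D.α n = a := congrArg Prod.fst hn
      have h2 : D.β n = b := congrArg Prod.snd hn
      refine ⟨(n.1, n.2.1, ⟨n.2.2.1, n.2.2.1.2.1.le, n.2.2.1.2.2.le⟩, n.2.2.2), ?_⟩
      show _ = (a.1, (b.1.1, b.2))
      rw [← h1, ← h2]
      rfl
    · rintro ⟨m, hm⟩
      have h1 : colZ (m.2.2.1 * Real.sin (Real.pi * m.2.2.2))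
        (D.G (cl m.1 m.2.1 (Real.pi / 4 + m.2.2.1 * Real.cos (Real.pi * m.2.2.2)))) = a.1 :=
        congrArg Prod.fst hm
      have h2 : D.eH (cl m.1 m.2.1 (Real.pi / 4 - m.2.2.1)) = b.1.1 :=
        congrArg (fun q => q.2.1) hm
      have h3 : m.2.2.2 = b.2 := congrArg (fun q => q.2.2) hm
      have hr := m.2.2.1.2
      have hrl := D.r₀_lt
      have hp := Real.pi_pos
      have r0 : (0 : ℝ) < m.2.2.1 := by
        rcases eq_or_lt_of_le hr.1 with h | h
        · exfalso
          apply a.2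
          refine ⟨m.1, m.2.1, ?_⟩
          rw [← h1, ← h, zero_mul, zero_mul, add_zero]
        · exact h
      have r1 : (m.2.2.1 : ℝ) < D.r₀ := by
        rcases eq_or_lt_of_le hr.2 with h | h
        · exfalso
          apply b.1.2
          refine ⟨cl m.1 m.2.1 (Real.pi / 4 - m.2.2.1), ?_, h2⟩
          rw [lat_cl _ _ (by linarith) (by linarith), h]
        · exact h
      refine ⟨(m.1, m.2.1, ⟨m.2.2.1, r0, r1⟩, m.2.2.2), ?_⟩
      refine Prod.ext (Subtype.ext h1) (Prod.ext (Subtype.ext h2) h3)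
  rw [he]
  exact hc.preimage hj

/-- the open neighbourhood of `T₀` of radius `r₀ / 2` -/
def tkU : Set (B3 × Circle) := {p | ∃ z : S3, z ∉ D.P ∧ ∃ τ : ℝ, 0 ≤ τ ∧ τ < 1 ∧
  colZ τ (D.G z) = p ∧ τ ^ 2 + (lat z - Real.pi / 4) ^ 2 < (D.r₀ / 2) ^ 2}

theorem tkg_isOpen_U : IsOpen D.tkU := by
  have h1 : IsOpen {p : tkO | (1 - nrm p.1.1.1) ^ 2 +
      (lat (D.φ.symm (tkg p)) - Real.pi / 4) ^ 2 < (D.r₀ / 2) ^ 2} := by
    have a1 : Continuous fun p : tkO => nrm p.1.1.1 := continuous_nrm.comp (by fun_prop)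
    have a2 : Continuous fun p : tkO => lat (D.φ.symm (tkg p)) :=
      continuous_lat.comp (D.φ.symm.continuous.comp tkg_continuous_g)
    exact isOpen_lt (by fun_prop) continuous_const
  have h2 : D.tkU = Subtype.val '' {p : tkO | (1 - nrm p.1.1.1) ^ 2 +
      (lat (D.φ.symm (tkg p)) - Real.pi / 4) ^ 2 < (D.r₀ / 2) ^ 2} := by
    ext p
    constructor
    · rintro ⟨z, hz, τ, h0, hτ, rfl, hlt⟩
      have n1 := nrm_colZ h0 hτ.le (D.G z)
      have hG : (D.G z).1.1.2 < 1 := iO_lt_one (D.φ_ne hz)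
      have hO : colZ τ (D.G z) ∈ tkO := by
        refine ⟨?_, ?_⟩
        · rw [n1, colZ_val h0 hτ.le]
          show (1 - τ) * (D.G z).1.1.2 < 1 - τ
          nlinarith
        · rw [n1]; linarith
      refine ⟨⟨colZ τ (D.G z), hO⟩, ?_, rfl⟩
      have hY : tkY ⟨colZ τ (D.G z), hO⟩ = D.G z := by
        refine Prod.ext (Subtype.ext ?_) rfl
        show (nrm (colZ τ (D.G z)).1.1)⁻¹ • (colZ τ (D.G z)).1.1 = (D.G z).1.1
        rw [n1, colZ_val h0 hτ.le, smul_smul, inv_mul_cancel₀ (by linarith : (1 - τ : ℝ) ≠ 0),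
          one_smul]
      have hg : tkg ⟨colZ τ (D.G z), hO⟩ = D.φ z := by
        apply Subtype.ext
        show iOi (tkY _) = _
        rw [hY]
        exact iOi_iO (D.φ_ne hz)
      show (1 - nrm (colZ τ (D.G z)).1.1) ^ 2 + (lat (D.φ.symm (tkg _)) - Real.pi / 4) ^ 2 < _
      rw [hg, Homeomorph.symm_apply_apply, n1]
      have : (1 - (1 - τ)) ^ 2 = τ ^ 2 := by ring
      rw [this]
      exact hlt
    · rintro ⟨p, hp, rfl⟩
      have hp' : (1 - nrm p.1.1.1) ^ 2 + (lat (D.φ.symm (tkg p)) - Real.pi / 4) ^ 2 <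
        (D.r₀ / 2) ^ 2 := hp
      have hlt := tkY_lt p
      have hs : 0 < Real.sqrt ((1 - (tkY p).1.1.2) / 2) := Real.sqrt_pos.2 (by linarith)
      have hz : D.φ.symm (tkg p) ∉ D.P := by
        intro h
        have h3 := (D.φ_c _).2 h
        rw [Homeomorph.apply_symm_apply] at h3
        have h4 : ((tkY p).2 : ℂ) * Real.sqrt ((1 - (tkY p).1.1.2) / 2) = 0 := h3
        rcases mul_eq_zero.1 h4 with h5 | h5
        · simp at h5
        · have h6 : Real.sqrt ((1 - (tkY p).1.1.2) / 2) = 0 := by exact_mod_cast h5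
          exact hs.ne' h6
      have h0 : 0 ≤ 1 - nrm p.1.1.1 := by linarith [tkg_nrm_le p.1.1]
      have h1 : 1 - nrm p.1.1.1 < 1 := by linarith [p.2.2]
      refine ⟨_, hz, _, h0, h1, ?_, hp'⟩
      have hG : D.G (D.φ.symm (tkg p)) = tkY p := by
        show iO (D.φ (D.φ.symm (tkg p))) = _
        rw [Homeomorph.apply_symm_apply]
        exact iO_iOi hlt
      rw [hG]
      refine Prod.ext (Subtype.ext ?_) rfl
      rw [colZ_val h0 h1.le, sub_sub_cancel]
      show nrm p.1.1.1 • (nrm p.1.1.1)⁻¹ • p.1.1.1 = p.1.1.1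
      rw [smul_smul, mul_inv_cancel₀ p.2.2.ne', one_smul]
  rw [h2]
  exact tkg_isOpen_O.isOpenMap_subtype_val _ h1

theorem tkg_T₀_sub : D.T₀ ⊆ D.tkU := by
  rintro _ ⟨u, v, rfl⟩
  have hp := Real.pi_pos
  have hr := D.r₀_pos
  refine ⟨cl u v (Real.pi / 4), D.cl_notMem_P (by linarith) (by linarith), 0, le_rfl, one_pos,
    rfl, ?_⟩
  rw [lat_cl _ _ (by linarith) (by linarith), sub_self]
  nlinarith

/-- TASK 3b. `W` is compact. -/
theorem W_compact (hα : IsOpenEmbedding D.α) (hβ : IsOpenEmbedding D.β)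
    (hO : ∀ O : Set S3, IsOpen O → (∀ z ∈ O, lat z < Real.pi / 4) → IsOpen (D.eH '' O)) :
    CompactSpace D.W := by
  have c1 := tkg_compact_S3
  have c2 := tkg_compact_B3
  have hr := D.r₀_pos
  have hrl := D.r₀_lt
  have hp := Real.pi_pos
  set E : Set S3 := D.eH '' {z | lat z < Real.pi / 4 - D.r₀ / 2} with hE
  have hEo : IsOpen E := hO _ (isOpen_lt continuous_lat continuous_const) (fun z hz => by
    have : lat z < Real.pi / 4 - D.r₀ / 2 := hz
    linarith)
  have hcE : D.core ⊆ E := by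
    rintro _ ⟨z, hz, rfl⟩
    exact ⟨z, show lat z < _ by linarith, rfl⟩
  apply gl_compact D.α D.β D.α_inj D.β_inj {a : D.A | a.1 ∉ D.tkU} {b : D.B | b.1.1 ∉ E}
  · rw [Subtype.isCompact_iff]
    have : Subtype.val '' {a : D.A | a.1 ∉ D.tkU} = D.tkUᶜ := by
      ext p
      constructor
      · rintro ⟨a, ha, rfl⟩
        exact ha
      · intro h
        exact ⟨⟨p, fun h' => h (D.tkg_T₀_sub h')⟩, h, rfl⟩
    rw [this]
    exact D.tkg_isOpen_U.isClosed_compl.isCompact
  · have : {b : D.B | b.1.1 ∉ E} = {x : {x : S3 // x ∉ D.core} | x.1 ∉ E} ×ˢ (univ : Set unitInterval) := by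
      ext b
      simp
    rw [this]
    apply IsCompact.prod _ isCompact_univ
    rw [Subtype.isCompact_iff]
    have : Subtype.val '' {x : {x : S3 // x ∉ D.core} | x.1 ∉ E} = Eᶜ := by
      ext p
      constructor
      · rintro ⟨a, ha, rfl⟩
        exact ha
      · intro h
        exact ⟨⟨p, fun h' => h (hcE h')⟩, h, rfl⟩
    rw [this]
    exact hEo.isClosed_compl.isCompact
  · intro a
    by_cases ha : a.1 ∈ D.tkU
    · right
      obtain ⟨z, hz, τ, h0, hτ, h1, hlt⟩ := ha
      have hl0 := lat_nonneg z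
      have hpos : 0 < τ ^ 2 + (lat z - Real.pi / 4) ^ 2 := by
        rcases (by positivity : 0 ≤ τ ^ 2 + (lat z - Real.pi / 4) ^ 2).lt_or_eq with h | h
        · exact h
        · exfalso
          have e1 : τ = 0 := by nlinarith [sq_nonneg τ, sq_nonneg (lat z - Real.pi / 4)]
          have e2 : lat z - Real.pi / 4 = 0 := by
            nlinarith [sq_nonneg τ, sq_nonneg (lat z - Real.pi / 4)]
          apply a.2
          refine ⟨unitC z.1.1, unitC z.1.2, ?_⟩
          rw [← h1, e1]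
          have e3 : Real.pi / 4 = lat z := by linarith
          rw [e3, cl_lat]
      set r := Real.sqrt (τ ^ 2 + (lat z - Real.pi / 4) ^ 2) with hrdef
      have hr0 : 0 < r := Real.sqrt_pos.2 hpos
      have hrsq : τ ^ 2 + (lat z - Real.pi / 4) ^ 2 = r ^ 2 := (Real.sq_sqrt hpos.le).symm
      have hr2 : r < D.r₀ / 2 := by
        rw [hrsq] at hlt
        exact lt_of_pow_lt_pow_left₀ 2 (by positivity) hlt
      obtain ⟨t, ht, e1, e2⟩ := tkg_polar h0 hr0 hrsq
      refine ⟨(unitC z.1.1, unitC z.1.2, ⟨r, hr0, by linarith⟩, ⟨t, ht⟩), ?_, ?_⟩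
      · apply Subtype.ext
        show colZ (r * Real.sin (Real.pi * t)) (D.G (cl (unitC z.1.1) (unitC z.1.2)
          (Real.pi / 4 + r * Real.cos (Real.pi * t)))) = a.1
        rw [← e1, ← e2, add_sub_cancel, cl_lat]
        exact h1
      · show D.eH (cl (unitC z.1.1) (unitC z.1.2) (Real.pi / 4 - r)) ∉ E
        rintro ⟨w, hw, hw2⟩
        have hw' : lat w < Real.pi / 4 - D.r₀ / 2 := hw
        have hl : lat (cl (unitC z.1.1) (unitC z.1.2) (Real.pi / 4 - r)) = Real.pi / 4 - r :=
          lat_cl _ _ (by linarith) (by linarith)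
        have h4 := D.eH_injOn (z := w) (show lat w ≤ Real.pi / 4 by linarith)
          (show lat (cl (unitC z.1.1) (unitC z.1.2) (Real.pi / 4 - r)) ≤ Real.pi / 4 by
            rw [hl]; linarith) hw2
        rw [h4, hl] at hw'
        linarith
    · exact Or.inl ha
  · intro b
    by_cases hb : b.1.1 ∈ E
    · right
      obtain ⟨z, hz, h1⟩ := hb
      have hz' : lat z < Real.pi / 4 - D.r₀ / 2 := hz
      have hz2 : Real.pi / 4 - D.r₀ < lat z := by
        by_contra h
        push Not at h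
        exact b.1.2 ⟨z, h, h1⟩
      refine ⟨(unitC z.1.1, unitC z.1.2, ⟨Real.pi / 4 - lat z, by linarith, by linarith⟩, b.2),
        ?_, ?_⟩
      · refine Prod.ext (Subtype.ext ?_) rfl
        show D.eH (cl (unitC z.1.1) (unitC z.1.2) (Real.pi / 4 - (Real.pi / 4 - lat z))) = b.1.1
        rw [sub_sub_cancel, cl_lat]
        exact h1
      · rintro ⟨w, hw, τ, h0, hτ, h2, hlt⟩
        have h2' : colZ τ (D.G w) = colZ ((Real.pi / 4 - lat z) * Real.sin (Real.pi * b.2))
          (D.G (cl (unitC z.1.1) (unitC z.1.2)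
            (Real.pi / 4 + (Real.pi / 4 - lat z) * Real.cos (Real.pi * b.2)))) := h2
        set n : D.N := (unitC z.1.1, unitC z.1.2, ⟨Real.pi / 4 - lat z, by linarith, by linarith⟩,
          b.2) with hn
        have a1 := tau_nonneg n
        have a2 := tau_lt n
        have a3 := ang_mem n
        simp only [hn] at a1 a2 a3
        obtain ⟨e1, e2⟩ := colZ_inj h0 hτ a1 a2 h2'
        have e3 := D.G_inj hw (D.cl_notMem_P a3.1.le (by linarith)) e2
        have e4 : lat w = Real.pi / 4 + (Real.pi / 4 - lat z) * Real.cos (Real.pi * b.2) := by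
          rw [e3, lat_cl _ _ (by linarith) (by linarith)]
        rw [e4, e1, add_sub_cancel_left] at hlt
        have e5 : ((Real.pi / 4 - lat z) * Real.sin (Real.pi * b.2)) ^ 2 +
            ((Real.pi / 4 - lat z) * Real.cos (Real.pi * b.2)) ^ 2 = (Real.pi / 4 - lat z) ^ 2 := by
          rw [mul_pow, mul_pow, ← mul_add, Real.sin_sq_add_cos_sq, mul_one]
        rw [e5] at hlt
        nlinarith
    · exact Or.inl hb

end Dat
end Pool.Agent.H753.Cob
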