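import Pool.Agent.H753.Cob.VP
import Pool.Agent.H753.Cob.T_mv
import Pool.Agent.H753.Cob.T_circle
set_option autoImplicit false
namespace Pool.Agent.H753.Cob
open Set Topology
open Pool.Agent.Helper60.Fin (S3 Disc d0 ZeroFramed)
open Pool.Agent.Helper534.LS (HH hmap sub)

/-! ### The open solid torus `{z₂ ≠ 0}` -/

/-- shrink the first coordinate by the factor `s` and renormalise the second one -/
noncomputable def tkl_push (y : S3) (s : unitInterval) : S3 :=
  ⟨(((s : ℝ) : ℂ) * y.1.1, (unitC y.1.2 : ℂ) * Real.sqrt (1 - ((s : ℝ) * ‖y.1.1‖) ^ 2)), by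
    have h0 := s.2.1
    have h1 := s.2.2
    have h2 := norm_le_one' y
    have h3 := norm_nonneg y.1.1
    have h4 : (s : ℝ) * ‖y.1.1‖ ≤ 1 := by nlinarith
    have h5 : 0 ≤ (s : ℝ) * ‖y.1.1‖ := mul_nonneg h0 h3
    have h6 : 0 ≤ 1 - ((s : ℝ) * ‖y.1.1‖) ^ 2 := by nlinarith
    rw [norm_mul, norm_mul, Circle.norm_coe, one_mul, Complex.norm_real, Complex.norm_real,
      Real.norm_eq_abs, Real.norm_eq_abs, abs_of_nonneg h0, sq_abs, Real.sq_sqrt h6]
    ring⟩

theorem tkl_push_nonneg (y : S3) (s : unitInterval) : 0 ≤ 1 - ((s : ℝ) * ‖y.1.1‖) ^ 2 := by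
  have h0 := s.2.1
  have h1 := s.2.2
  have h2 := norm_le_one' y
  have h3 := norm_nonneg y.1.1
  have h4 : (s : ℝ) * ‖y.1.1‖ ≤ 1 := by nlinarith
  have h5 : 0 ≤ (s : ℝ) * ‖y.1.1‖ := mul_nonneg h0 h3
  nlinarith

theorem tkl_push_one (y : S3) : tkl_push y 1 = y := by
  apply Subtype.ext
  apply Prod.ext
  · show (((1 : unitInterval) : ℝ) : ℂ) * y.1.1 = y.1.1
    simp
  · show (unitC y.1.2 : ℂ) * Real.sqrt (1 - (((1 : unitInterval) : ℝ) * ‖y.1.1‖) ^ 2) = y.1.2
    have h : 1 - (((1 : unitInterval) : ℝ) * ‖y.1.1‖) ^ 2 = ‖y.1.2‖ ^ 2 := by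
      have := y.2
      simp only [Icc.coe_one, one_mul]
      linarith
    rw [h, Real.sqrt_sq (norm_nonneg _), mul_comm]
    exact norm_mul_unitC _

theorem tkl_push_zero (y : S3) : tkl_push y 0 = cl 1 (unitC y.1.2) (Real.pi / 2) := by
  apply Subtype.ext
  apply Prod.ext
  · show (((0 : unitInterval) : ℝ) : ℂ) * y.1.1 = ((1 : Circle) : ℂ) * Real.cos (Real.pi / 2)
    simp
  · show (unitC y.1.2 : ℂ) * Real.sqrt (1 - (((0 : unitInterval) : ℝ) * ‖y.1.1‖) ^ 2) =
      (unitC y.1.2 : ℂ) * Real.sin (Real.pi / 2)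
    simp

theorem tkl_norm_push (y : S3) (s : unitInterval) :
    ‖(tkl_push y s).1.2‖ = Real.sqrt (1 - ((s : ℝ) * ‖y.1.1‖) ^ 2) := by
  show ‖(unitC y.1.2 : ℂ) * Real.sqrt (1 - ((s : ℝ) * ‖y.1.1‖) ^ 2)‖ = _
  rw [norm_mul, Circle.norm_coe, one_mul, Complex.norm_real, Real.norm_eq_abs,
    abs_of_nonneg (Real.sqrt_nonneg _)]

theorem tkl_le_norm_push (y : S3) (s : unitInterval) : ‖y.1.2‖ ≤ ‖(tkl_push y s).1.2‖ := by
  rw [tkl_norm_push]
  apply Real.le_sqrt_of_sq_le
  have h0 := s.2.1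
  have h1 := s.2.2
  have h3 := norm_nonneg y.1.1
  have h4 : (s : ℝ) * ‖y.1.1‖ ≤ ‖y.1.1‖ := by nlinarith
  have h5 : 0 ≤ (s : ℝ) * ‖y.1.1‖ := mul_nonneg h0 h3
  have := y.2
  nlinarith

theorem tkl_lat_push (y : S3) (s : unitInterval) : lat y ≤ lat (tkl_push y s) :=
  Real.monotone_arcsin (tkl_le_norm_push y s)

theorem tkl_push_cont {A : Type} [TopologicalSpace A] (f : A → S3) (hf : Continuous f)
    (h : ∀ a, (f a).1.2 ≠ 0) : Continuous fun p : A × unitInterval => tkl_push (f p.1) p.2 := by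
  have h1 : Continuous fun p : A × unitInterval => (unitC (f p.1).1.2 : ℂ) := by
    rw [continuous_iff_continuousAt]
    intro p
    have h2 : Continuous fun p : A × unitInterval => (f p.1).1.2 := by fun_prop
    have h3 : ContinuousAt (fun p : A × unitInterval => unitC (f p.1).1.2) p :=
      ContinuousAt.comp (f := fun p : A × unitInterval => (f p.1).1.2)
        (continuousAt_unitC (h p.1)) h2.continuousAt
    exact ContinuousAt.comp (g := fun u : Circle => (u : ℂ))
      (f := fun p : A × unitInterval => unitC (f p.1).1.2)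
      continuous_subtype_val.continuousAt h3
  unfold tkl_push
  apply Continuous.subtype_mk
  apply Continuous.prodMk
  · fun_prop
  · exact h1.mul (by fun_prop)

theorem tkl_circle_van (n : ℕ) (x : HH Circle (n + 2)) : x = 0 := by
  have h := hiso_of_bij (⟨fun u => (u, ()), by fun_prop⟩ :
      C(Circle, Pool.Agent.Helper534.LS.T1)) ⟨fun p => p.1, by fun_prop⟩ (fun _ => rfl)
    (fun _ => rfl)
  exact tkm_inj h (n + 2) x ((Pool.Agent.Helper534.LS.tor_vanish n).2.1 _)

/-- a subset of the open solid torus `z₂ ≠ 0` which is stable by `tkl_push` has no homology in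
degree at least 2 -/
theorem tkl_solid_van (A : Set S3) (h0 : ∀ z ∈ A, z.1.2 ≠ 0)
    (h1 : ∀ z ∈ A, ∀ s, tkl_push z s ∈ A) (h2 : ∀ v, cl 1 v (Real.pi / 2) ∈ A)
    (n : ℕ) (x : HH A (n + 2)) : x = 0 := by
  have hfc : Continuous fun z : A => unitC z.1.1.2 := by
    rw [continuous_iff_continuousAt]
    intro z
    have h : Continuous fun z : A => z.1.1.2 := by fun_prop
    exact ContinuousAt.comp (f := fun z : A => z.1.1.2)
      (continuousAt_unitC (h0 z.1 z.2)) h.continuousAt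
  have hgc : Continuous fun v : Circle => (⟨cl 1 v (Real.pi / 2), h2 v⟩ : A) := by
    apply Continuous.subtype_mk
    exact continuous_cl.comp (by fun_prop : Continuous fun v : Circle =>
      ((1 : Circle), v, (Real.pi / 2 : ℝ)))
  have hsec := hiso_of_section (⟨_, hgc⟩ : C(Circle, A)) ⟨_, hfc⟩
    (by
      intro v
      show unitC ((v : ℂ) * Real.sin (Real.pi / 2)) = v
      exact unitC_mul_pos v (by rw [Real.sin_pi_div_two]; exact one_pos))
    (by
      refine homotopic_of _ _ (fun p => ⟨tkl_push p.1.1 p.2, h1 _ p.1.2 _⟩) ?_ ?_ ?_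
      · apply Continuous.subtype_mk
        exact tkl_push_cont (fun z : A => z.1) continuous_subtype_val (fun z => h0 z.1 z.2)
      · intro z
        exact Subtype.ext (tkl_push_zero z.1)
      · intro z
        exact Subtype.ext (tkl_push_one z.1))
  exact tkm_inj hsec.2 (n + 2) x (tkl_circle_van n _)

namespace Dat
variable (D : Dat)

/-- the complement of the pattern -/
abbrev tkl_X : Type := {z : S3 // z ∉ D.P}
/-- the open solid torus, minus the pattern -/
def tkl_U : Set D.tkl_X := {z | lat z.1 < Real.pi / 4}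
/-- the complementary solid torus -/
def tkl_V : Set D.tkl_X := {z | Real.pi / 4 - D.r₀ < lat z.1}

theorem tkl_X_van (n : ℕ) (x : HH D.tkl_X (n + 2)) : x = 0 := by
  set A : Set S3 := {z | z.1.2 ≠ 0} with hA
  have hmem : ∀ z : A, D.φ.symm z.1 ∉ D.P := by
    intro z hz
    have h := (D.φ_c (D.φ.symm z.1)).2 hz
    rw [D.φ.apply_symm_apply] at h
    exact z.2 h
  have h := hiso_of_bij (⟨fun z => ⟨D.φ z.1, D.φ_ne z.2⟩, by fun_prop⟩ : C(D.tkl_X, A))
    ⟨fun z => ⟨D.φ.symm z.1, hmem z⟩, by fun_prop⟩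
    (fun z => Subtype.ext (D.φ.symm_apply_apply z.1))
    (fun z => Subtype.ext (D.φ.apply_symm_apply z.1))
  refine tkm_inj h (n + 2) x (tkl_solid_van A (fun z hz => hz) ?_ ?_ n _)
  · intro z hz s hs
    have h1 := tkl_le_norm_push z s
    rw [hs, norm_zero] at h1
    exact hz (norm_le_zero_iff.1 h1)
  · intro v hv
    have h1 : (v : ℂ) * Real.sin (Real.pi / 2) = 0 := hv
    rw [Real.sin_pi_div_two] at h1
    simp at h1

theorem tkl_V_van (n : ℕ) (x : HH D.tkl_V (n + 2)) : x = 0 := by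
  have hr := D.r₀_lt
  set A : Set S3 := {z | Real.pi / 4 - D.r₀ < lat z} with hA
  have hmem : ∀ z : A, z.1 ∉ D.P := fun z => D.notMem_P_of_lat (le_of_lt z.2)
  have h := hiso_of_bij (⟨fun z => ⟨z.1.1, z.2⟩, by fun_prop⟩ : C(D.tkl_V, A))
    ⟨fun z => ⟨⟨z.1, hmem z⟩, z.2⟩, by fun_prop⟩
    (fun z => rfl) (fun z => rfl)
  refine tkm_inj h (n + 2) x (tkl_solid_van A ?_ ?_ ?_ n _)
  · intro z hz h0
    have h1 : lat z = 0 := by
      rw [lat, h0, norm_zero, Real.arcsin_zero]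
    have h2 : Real.pi / 4 - D.r₀ < lat z := hz
    linarith
  · intro z hz s
    exact lt_of_lt_of_le hz (tkl_lat_push z s)
  · intro v
    show Real.pi / 4 - D.r₀ < lat (cl 1 v (Real.pi / 2))
    rw [lat_cl _ _ (by linarith [Real.pi_pos]) le_rfl]
    linarith [Real.pi_pos, D.r₀_pos]

theorem tkl_U_open : IsOpen D.tkl_U :=
  isOpen_lt (continuous_lat.comp continuous_subtype_val) continuous_const

theorem tkl_V_open : IsOpen D.tkl_V :=
  isOpen_lt continuous_const (continuous_lat.comp continuous_subtype_val)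

theorem tkl_UV (x : D.tkl_X) : x ∈ D.tkl_U ∨ x ∈ D.tkl_V := by
  rcases lt_or_ge (lat x.1) (Real.pi / 4) with h | h
  · exact Or.inl h
  · right
    show Real.pi / 4 - D.r₀ < lat x.1
    linarith [D.r₀_pos]

theorem tkl_mid (u v : Circle) :
    lat (cl u v (Real.pi / 4 - D.r₀ / 2)) = Real.pi / 4 - D.r₀ / 2 :=
  lat_cl _ _ (by linarith [D.r₀_lt, D.r₀_pos]) (by linarith [D.r₀_pos, Real.pi_pos])

/-- the torus in `U ∩ V` -/
noncomputable def tkl_om : C(Circle × Circle, ↥(D.tkl_U ∩ D.tkl_V)) where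
  toFun p := ⟨⟨cl p.1 p.2 (Real.pi / 4 - D.r₀ / 2), D.notMem_P_of_lat (by
      rw [tkl_mid]; linarith [D.r₀_pos])⟩, by
      constructor
      · show lat (cl p.1 p.2 (Real.pi / 4 - D.r₀ / 2)) < Real.pi / 4
        rw [tkl_mid]; linarith [D.r₀_pos]
      · show Real.pi / 4 - D.r₀ < lat (cl p.1 p.2 (Real.pi / 4 - D.r₀ / 2))
        rw [tkl_mid]; linarith [D.r₀_pos]⟩
  continuous_toFun := by
    apply Continuous.subtype_mk
    apply Continuous.subtype_mk
    exact continuous_cl.comp (by fun_prop : Continuous fun p : Circle × Circle =>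
      (p.1, p.2, (Real.pi / 4 - D.r₀ / 2 : ℝ)))

theorem tkl_ne1 (z : ↥(D.tkl_U ∩ D.tkl_V)) : z.1.1.1.1 ≠ 0 := ne_of_lat z.2.1

theorem tkl_ne2 (z : ↥(D.tkl_U ∩ D.tkl_V)) : z.1.1.1.2 ≠ 0 := by
  intro h
  have h1 : lat z.1.1 = 0 := by
    rw [lat, h, norm_zero, Real.arcsin_zero]
  have h2 : Real.pi / 4 - D.r₀ < lat z.1.1 := z.2.2
  linarith [D.r₀_lt]

theorem tkl_unit_cont : Continuous fun z : ↥(D.tkl_U ∩ D.tkl_V) =>
    (unitC z.1.1.1.1, unitC z.1.1.1.2) := by
  rw [continuous_iff_continuousAt]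
  intro z
  apply ContinuousAt.prodMk
  · have h : Continuous fun z : ↥(D.tkl_U ∩ D.tkl_V) => z.1.1.1.1 := by fun_prop
    exact ContinuousAt.comp (f := fun z : ↥(D.tkl_U ∩ D.tkl_V) => z.1.1.1.1)
      (continuousAt_unitC (D.tkl_ne1 z)) h.continuousAt
  · have h : Continuous fun z : ↥(D.tkl_U ∩ D.tkl_V) => z.1.1.1.2 := by fun_prop
    exact ContinuousAt.comp (f := fun z : ↥(D.tkl_U ∩ D.tkl_V) => z.1.1.1.2)
      (continuousAt_unitC (D.tkl_ne2 z)) h.continuousAt

theorem tkl_om_hiso : HIso D.tkl_om := by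
  have hr := D.r₀_lt
  have hr0 := D.r₀_pos
  refine (hiso_of_section D.tkl_om ⟨_, D.tkl_unit_cont⟩ ?_ ?_).1
  · rintro ⟨u, v⟩
    have hc : (0:ℝ) < Real.cos (Real.pi / 4 - D.r₀ / 2) :=
      Real.cos_pos_of_mem_Ioo ⟨by linarith, by linarith⟩
    have hs : (0:ℝ) < Real.sin (Real.pi / 4 - D.r₀ / 2) :=
      Real.sin_pos_of_pos_of_lt_pi (by linarith) (by linarith)
    exact Prod.ext (unitC_mul_pos u hc) (unitC_mul_pos v hs)
  · have key : ∀ (z : ↥(D.tkl_U ∩ D.tkl_V)) (s : unitInterval),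
        Real.pi / 4 - D.r₀ < (1 - (s : ℝ)) * (Real.pi / 4 - D.r₀ / 2) + s * lat z.1.1 ∧
        (1 - (s : ℝ)) * (Real.pi / 4 - D.r₀ / 2) + s * lat z.1.1 < Real.pi / 4 := by
      intro z s
      have h1 : lat z.1.1 < Real.pi / 4 := z.2.1
      have h2 : Real.pi / 4 - D.r₀ < lat z.1.1 := z.2.2
      have h0 := s.2.1
      have h3 := s.2.2
      constructor
      · rcases eq_or_lt_of_le h0 with h | h
        · rw [← h]; linarith
        · nlinarith
      · rcases eq_or_lt_of_le h0 with h | h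
        · rw [← h]; linarith
        · nlinarith
    have hlat : ∀ (z : ↥(D.tkl_U ∩ D.tkl_V)) (s : unitInterval) (u v : Circle),
        lat (cl u v ((1 - (s : ℝ)) * (Real.pi / 4 - D.r₀ / 2) + s * lat z.1.1)) =
          (1 - (s : ℝ)) * (Real.pi / 4 - D.r₀ / 2) + s * lat z.1.1 := by
      intro z s u v
      have h := key z s
      exact lat_cl _ _ (by linarith) (by linarith)
    refine homotopic_of _ _ (fun p => ⟨⟨cl (unitC p.1.1.1.1.1) (unitC p.1.1.1.1.2)
        ((1 - (p.2 : ℝ)) * (Real.pi / 4 - D.r₀ / 2) + p.2 * lat p.1.1.1),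
        D.notMem_P_of_lat (by rw [hlat]; exact (key p.1 p.2).1.le)⟩, by
        constructor
        · show lat (cl _ _ _) < _
          rw [hlat]; exact (key p.1 p.2).2
        · show _ < lat (cl _ _ _)
          rw [hlat]; exact (key p.1 p.2).1⟩) ?_ ?_ ?_
    · apply Continuous.subtype_mk
      apply Continuous.subtype_mk
      have hu := D.tkl_unit_cont.comp (continuous_fst (X := ↥(D.tkl_U ∩ D.tkl_V)) (Y := unitInterval))
      have hl : Continuous fun p : ↥(D.tkl_U ∩ D.tkl_V) × unitInterval =>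
          (1 - (p.2 : ℝ)) * (Real.pi / 4 - D.r₀ / 2) + p.2 * lat p.1.1.1 := by
        have := continuous_lat
        fun_prop
      exact continuous_cl.comp
        (Continuous.prodMk (continuous_fst.comp hu) (Continuous.prodMk (continuous_snd.comp hu) hl))
    · intro z
      apply Subtype.ext
      apply Subtype.ext
      show cl _ _ _ = cl _ _ _
      simp
    · intro z
      apply Subtype.ext
      apply Subtype.ext
      show cl _ _ _ = z.1.1
      have h : (1 - ((1 : unitInterval) : ℝ)) * (Real.pi / 4 - D.r₀ / 2) +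
          ((1 : unitInterval) : ℝ) * lat z.1.1 = lat z.1.1 := by
        simp
      rw [h]
      exact cl_lat z.1.1

/-- the identification of `U` -/
def tkl_j : C(D.tkl_U, D.VP) := ⟨fun z => ⟨z.1.1, z.2, z.1.2⟩, by fun_prop⟩

theorem tkl_j_hiso : HIso D.tkl_j :=
  hiso_of_bij D.tkl_j ⟨fun z => ⟨⟨z.1, z.2.2⟩, z.2.1⟩, by fun_prop⟩ (fun _ => rfl) (fun _ => rfl)

/-- TASK 16. The linking number of the pattern with the core of the complementary solid torus is `±1`.
`X = {z : S3 // z ∉ P}`, `U = {z : X | lat z < π/4}`, `V = {z : X | lat z > π/4 - r₀}` (open cover; `D.notMem_P_of_lat`).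
`X ≃ S¹` by `z ↦ unitC (φ z)₂` (homotopy inverse `v ↦ φ⁻¹ (cl 1 v (π/2))`; in terms of `y = φ z`, `y₂ ≠ 0`, the homotopy is
`(unitC y₁ .. )`: `y ↦ (s y₁, unitC y₂ √(1 - |s y₁|²))`, `s` from 1 to 0), and `V ≃ S¹` by `z ↦ unitC z₂` similarly, so that
`H_2(X) = H_3(X) = H_2(V) = 0` (`tor_vanish` in `Helper534/LS/P_tor_vanish.lean`, `Circle ≃ₜ Circle × Unit`), and
`H_2(U ∩ V) → H_2(U)` is bijective by `mv_two`. `U ∩ V = {π/4 - r₀ < lat < π/4} ≃ S¹ × S¹` by
`ω (u, v) = cl u v (π/4 - r₀/2)` (homotopy inverse `z ↦ (unitC z₁, unitC z₂)`, homotopy by moving `lat z`, see `cl_lat`).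
`F ∘ inclusion ∘ ω : (u, v) ↦ (unitC (φ (cl u v (π/4 - r₀/2)))₂, u)` is homotopic to `(u, v) ↦ (g v, u)`, moving
`π/4 - r₀/2` to `π/2` (`cl u v (π/2) = cl 1 v (π/2)` as `cos (π/2) = 0`). By `hF` it is bijective in `H_2`; compose with the
swap of `S¹ × S¹` to get `idx g`, and apply `circle_lemma`. -/
theorem gcore_or (hF : HIso D.F) (g : C(Circle, Circle))
    (hg : ∀ v, g v = unitC (D.φ (cl 1 v (Real.pi / 2))).1.2) :
    g.Homotopic (ContinuousMap.id _) ∨ g.Homotopic ⟨fun u => u⁻¹, by fun_prop⟩ := by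
  have hr := D.r₀_lt
  have hr0 := D.r₀_pos
  have hpi := Real.pi_pos
  have hmv : Function.Bijective (hmap (Pool.Agent.Helper534.LS.inl D.tkl_U D.tkl_V) 2) :=
    mv_two D.tkl_U D.tkl_V D.tkl_U_open D.tkl_V_open D.tkl_UV (fun x => D.tkl_X_van 1 x)
      (fun x => D.tkl_X_van 0 x) (fun x => D.tkl_V_van 0 x)
  set swap : C(Circle × Circle, Circle × Circle) := ⟨Prod.swap, continuous_swap⟩ with hswap
  have hsw : HIso swap := hiso_of_bij swap swap (fun _ => rfl) (fun _ => rfl)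
  set T : C(Circle × Circle, Circle × Circle) :=
    swap.comp ((D.F.comp D.tkl_j).comp ((Pool.Agent.Helper534.LS.inl D.tkl_U D.tkl_V).comp D.tkl_om))
    with hT
  have hTb : Function.Bijective (hmap T 2) := by
    rw [hT, hmap_comp_fun, hmap_comp_fun, hmap_comp_fun, hmap_comp_fun]
    exact (hsw 2).comp (((hF 2).comp (D.tkl_j_hiso 2)).comp (hmv.comp (D.tkl_om_hiso 2)))
  have hhom : T.Homotopic (Pool.Agent.Helper534.LS.idx g) := by
    have key : ∀ s : unitInterval,
        Real.pi / 4 - D.r₀ ≤ (1 - (s : ℝ)) * (Real.pi / 4 - D.r₀ / 2) + s * (Real.pi / 2) ∧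
        (1 - (s : ℝ)) * (Real.pi / 4 - D.r₀ / 2) + s * (Real.pi / 2) ≤ Real.pi / 2 := by
      intro s
      have h0 := s.2.1
      have h1 := s.2.2
      constructor <;> nlinarith
    have hnot : ∀ (u v : Circle) (s : unitInterval),
        (D.φ (cl u v ((1 - (s : ℝ)) * (Real.pi / 4 - D.r₀ / 2) + s * (Real.pi / 2)))).1.2 ≠ 0 :=
      fun u v s => D.φ_ne (D.cl_notMem_P (key s).1 (key s).2)
    refine homotopic_of _ _ (fun p => (p.1.1, unitC (D.φ (cl p.1.1 p.1.2
      ((1 - (p.2 : ℝ)) * (Real.pi / 4 - D.r₀ / 2) + p.2 * (Real.pi / 2)))).1.2)) ?_ ?_ ?_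
    · apply Continuous.prodMk
      · fun_prop
      · rw [continuous_iff_continuousAt]
        intro p
        have h1 : Continuous fun p : (Circle × Circle) × unitInterval => cl p.1.1 p.1.2
            ((1 - (p.2 : ℝ)) * (Real.pi / 4 - D.r₀ / 2) + p.2 * (Real.pi / 2)) :=
          continuous_cl.comp (by fun_prop : Continuous fun p : (Circle × Circle) × unitInterval =>
            (p.1.1, p.1.2, ((1 - (p.2 : ℝ)) * (Real.pi / 4 - D.r₀ / 2) + p.2 * (Real.pi / 2) : ℝ)))
        have h2 : Continuous fun p : (Circle × Circle) × unitInterval => (D.φ (cl p.1.1 p.1.2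
            ((1 - (p.2 : ℝ)) * (Real.pi / 4 - D.r₀ / 2) + p.2 * (Real.pi / 2)))).1.2 := by
          have h3 := D.φ.continuous.comp h1
          exact continuous_snd.comp (continuous_subtype_val.comp h3)
        exact ContinuousAt.comp (g := unitC) (continuousAt_unitC (hnot p.1.1 p.1.2 p.2))
          h2.continuousAt
    · rintro ⟨u, v⟩
      have e : (1 - ((0 : unitInterval) : ℝ)) * (Real.pi / 4 - D.r₀ / 2) +
          ((0 : unitInterval) : ℝ) * (Real.pi / 2) = Real.pi / 4 - D.r₀ / 2 := by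
        simp
      dsimp only
      rw [e]
      apply Prod.ext
      · show u = unitC ((u : ℂ) * Real.cos (Real.pi / 4 - D.r₀ / 2))
        rw [unitC_mul_pos u (Real.cos_pos_of_mem_Ioo ⟨by linarith, by linarith⟩)]
      · rfl
    · rintro ⟨u, v⟩
      have e : (1 - ((1 : unitInterval) : ℝ)) * (Real.pi / 4 - D.r₀ / 2) +
          ((1 : unitInterval) : ℝ) * (Real.pi / 2) = Real.pi / 2 := by
        simp
      dsimp only
      rw [e]
      have e2 : cl u v (Real.pi / 2) = cl 1 v (Real.pi / 2) := by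
        apply Subtype.ext
        apply Prod.ext
        · rw [cl_1, cl_1, Real.cos_pi_div_two]; simp
        · rfl
      rw [e2, ← hg v]
      rfl
  have hfin : Function.Surjective (hmap (Pool.Agent.Helper534.LS.idx g) 2) := by
    intro y
    obtain ⟨x, hx⟩ := hTb.2 y
    refine ⟨x, ?_⟩
    rw [← hx]
    exact congrArg (fun f => f x) (Pool.Agent.Helper534.LS.hmap_homotopic _ _ hhom.symm 2)
  exact circle_lemma g hfin

end Dat
end Pool.Agent.H753.Cob
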