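import Pool.Agent.H753.Cob.Sets
set_option autoImplicit false
namespace Pool.Agent.H753.Cob
open Set Topology
open Pool.Agent.Helper60.Fin (S3 Disc d0 ZeroFramed)

theorem tkr_compactS3 : CompactSpace S3 := by
  suffices hK : IsCompact {z : ℂ × ℂ | ‖z.1‖ ^ 2 + ‖z.2‖ ^ 2 = 1} from
    isCompact_iff_compactSpace.1 hK
  refine Metric.isCompact_of_isClosed_isBounded ?_ ?_
  · exact isClosed_eq (by fun_prop) continuous_const
  · refine (Metric.isBounded_closedBall (x := (0 : ℂ × ℂ)) (r := 1)).subset ?_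
    intro z hz
    have hz' : ‖z.1‖ ^ 2 + ‖z.2‖ ^ 2 = 1 := hz
    rw [mem_closedBall_zero_iff, Prod.norm_def, max_le_iff]
    constructor <;> nlinarith [norm_nonneg z.1, norm_nonneg z.2, sq_nonneg ‖z.1‖, sq_nonneg ‖z.2‖]

namespace Dat
variable (D : Dat)

theorem tkr_eH_cont : ContinuousOn D.eH V := by
  unfold eH
  refine D.e_cont.comp_continuousOn ?_
  refine ContinuousOn.prodMk ?_ ?_
  · intro z hz
    have h : Continuous fun z : S3 => z.1.1 := by fun_prop
    exact (ContinuousAt.comp (f := fun z : S3 => z.1.1) (continuousAt_unitC (ne_of_V hz))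
      h.continuousAt).continuousWithinAt
  · exact (continuous_dsc.comp (by fun_prop : Continuous fun z : S3 =>
      ((Real.sqrt 2 : ℝ) : ℂ) * z.1.2)).continuousOn

theorem tkr_compact {s : ℝ} (hs : s ≤ Real.pi / 4) : IsCompact (D.eH '' {z | lat z ≤ s}) := by
  have := tkr_compactS3
  refine IsCompact.image_of_continuousOn ?_ (D.tkr_eH_cont.mono fun z hz => hz.trans hs)
  exact (isClosed_le continuous_lat continuous_const).isCompact

/-- TASK 13a. Take `U = S³ ∖ eH {lat ≤ π/4 - r₀/4}` (open, as `eH` is continuous on the compact `V`; it contains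
`eH (cl 1 1 (π/4))` by `D.eH_injOn`) and `Θ (x, t) = gB (x, t)`. `gB` is an open embedding (`gl2_openEmbedding`). -/
theorem orient (hα : IsOpenEmbedding D.α) (hβ : IsOpenEmbedding D.β) :
    OrientationsMatch (e := D.eK) (e' := D.eJ) D.i₀ D.i₁ := by
  have hr := D.r₀_pos
  have hr1 := D.r₀_lt
  have hpi := Real.pi_pos
  set K : Set S3 := D.eH '' {z | lat z ≤ Real.pi / 4 - D.r₀ / 4} with hK
  have hKc : IsClosed K := (D.tkr_compact (by linarith)).isClosed
  have hcore : ∀ x : S3, x ∉ K → x ∉ D.core := by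
    rintro x hx ⟨z, hz, h⟩
    exact hx ⟨z, by show lat z ≤ _; linarith, h⟩
  have hext0 : ∀ x : S3, x ∉ K → ∀ p : Circle × Disc, ‖p.2.1‖ < 1 → D.eK p ≠ x := by
    intro x hx p hp h
    apply hx
    have h3 := D.ρ₁_pos
    have h4 := D.ρ₁_lt
    have h5 : ‖(D.ρ₁ : ℂ) * p.2.1‖ ≤ D.ρ₁ := by
      rw [norm_mul, Complex.norm_real, Real.norm_eq_abs, abs_of_pos h3]
      nlinarith [norm_nonneg p.2.1]
    -- the point of the standard solid torus
    set y : ℂ := (D.ρ₁ : ℂ) * p.2.1 / (Real.sqrt 2 : ℝ) with hy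
    have hs2 : 0 < Real.sqrt 2 := by positivity
    have hyn : ‖y‖ ≤ Real.sin (Real.pi / 4 - D.r₀ / 2) := by
      rw [hy, norm_div, Complex.norm_real, Real.norm_eq_abs, abs_of_pos hs2, div_le_iff₀ hs2]
      refine h5.trans ?_
      unfold ρ₁
      rw [mul_comm]
    have hl0 : 0 ≤ Real.pi / 4 - D.r₀ / 2 := by linarith
    have hl1 : Real.pi / 4 - D.r₀ / 2 ≤ Real.pi / 2 := by linarith
    set s : ℝ := Real.arcsin ‖y‖ with hs
    have hs0 : 0 ≤ s := Real.arcsin_nonneg.2 (norm_nonneg _)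
    have hs1 : s ≤ Real.pi / 2 := Real.arcsin_le_pi_div_two _
    have hsin : Real.sin s = ‖y‖ :=
      Real.sin_arcsin (by linarith [norm_nonneg y]) (hyn.trans (Real.sin_le_one _))
    have hsl : s ≤ Real.pi / 4 - D.r₀ / 2 := by
      have := Real.arcsin_le_arcsin hyn
      rwa [Real.arcsin_sin (by linarith) hl1] at this
    refine ⟨cl p.1 (unitC y) s, ?_, ?_⟩
    · show lat _ ≤ _
      rw [lat_cl _ _ hs0 hs1]
      linarith
    · rw [← h]
      unfold eH eK
      have hc : 0 < Real.cos s := Real.cos_pos_of_mem_Ioo ⟨by linarith, by linarith⟩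
      have e1 : unitC (cl p.1 (unitC y) s).1.1 = p.1 := by
        rw [cl_1, unitC_mul_pos _ hc]
      have e2 : ((Real.sqrt 2 : ℝ) : ℂ) * (cl p.1 (unitC y) s).1.2 = D.ρ₁ * p.2.1 := by
        rw [cl_2, hsin, mul_comm ((unitC y : Circle) : ℂ), norm_mul_unitC, hy]
        have : ((Real.sqrt 2 : ℝ) : ℂ) ≠ 0 := by exact_mod_cast hs2.ne'
        field_simp
      rw [e1, e2]
  have hext1 : ∀ x : S3, x ∉ K → ∀ p : Circle × Disc, ‖p.2.1‖ < 1 → D.eJ p ≠ x := by
    intro x hx p _ h
    apply hx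
    exact ⟨D.φ.symm (gam D.ε p), by
      show lat _ ≤ _
      linarith [D.ε_in p], h⟩
  let inc : (Kᶜ : Set S3) → {x : S3 // x ∉ D.core} := fun x => ⟨x.1, hcore x.1 x.2⟩
  have hinc : IsOpenEmbedding inc := by
    have hcl : IsClosed D.core := by
      have : D.core = D.eH '' {z | lat z ≤ Real.pi / 4 - D.r₀} := rfl
      rw [this]
      exact (D.tkr_compact (by linarith)).isClosed
    have h1 : IsOpenEmbedding (Subtype.val : {x : S3 // x ∉ D.core} → S3) :=
      hcl.isOpen_compl.isOpenEmbedding_subtypeVal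
    refine IsOpenEmbedding.of_comp inc h1 ?_
    exact hKc.isOpen_compl.isOpenEmbedding_subtypeVal
  have hgB : IsOpenEmbedding D.gB := gl2_openEmbedding _ _ _ _ hα hβ
  refine ⟨Kᶜ, fun p => D.gB (inc p.1, p.2), hKc.isOpen_compl, ?_, ?_, ?_, ?_⟩
  · refine ⟨D.eH (cl 1 1 (Real.pi / 4)), ?_⟩
    rintro ⟨z, hz, h⟩
    have hz : lat z ≤ Real.pi / 4 - D.r₀ / 4 := hz
    have hl : lat (cl 1 1 (Real.pi / 4)) = Real.pi / 4 := lat_cl _ _ (by linarith) (by linarith)
    have h2 := D.eH_injOn (z := z) (show lat z ≤ _ by linarith)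
      (show lat (cl 1 1 (Real.pi / 4)) ≤ Real.pi / 4 by rw [hl]) h
    rw [h2, hl] at hz
    linarith
  · exact hgB.comp (hinc.prodMap IsOpenEmbedding.id)
  · intro x
    exact ⟨hext0 x.1 x.2, rfl⟩
  · intro x
    refine ⟨hext1 x.1 x.2, ?_⟩
    unfold i₁
    rw [dif_neg (hcore x.1 x.2)]

/-- TASK 13b. The circle valued map of the core of the complementary solid torus. Continuity: `cl 1 v (π/2)` is not in `P`
(`D.cl_notMem_P`), `D.φ_ne`, `continuousAt_unitC`. -/
theorem tkr_fam_cont : ContinuousOn (fun q : Circle × ℝ => unitC (D.φ (cl 1 q.1 q.2)).1.2)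
    {q | Real.pi / 4 - D.r₀ ≤ q.2 ∧ q.2 ≤ Real.pi / 2} := by
  intro q hq
  have h1 : Continuous fun q : Circle × ℝ => (D.φ (cl 1 q.1 q.2)).1.2 := by
    have h2 : Continuous fun q : Circle × ℝ => cl 1 q.1 q.2 :=
      continuous_cl.comp (by fun_prop : Continuous fun q : Circle × ℝ => ((1 : Circle), q.1, q.2))
    exact (continuous_snd.comp continuous_subtype_val).comp (D.φ.continuous.comp h2)
  exact (ContinuousAt.comp (f := fun q : Circle × ℝ => (D.φ (cl 1 q.1 q.2)).1.2)
    (continuousAt_unitC (D.φ_ne (D.cl_notMem_P hq.1 hq.2))) h1.continuousAt).continuousWithinAt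

theorem gcore_cont : Continuous fun v : Circle => unitC (D.φ (cl 1 v (Real.pi / 2))).1.2 := by
  have h := D.tkr_fam_cont
  have hr := D.r₀_pos
  have hpi := Real.pi_pos
  exact h.comp_continuous (f := fun v : Circle => (v, (Real.pi / 2 : ℝ))) (by fun_prop)
    fun v => ⟨by show _ ≤ Real.pi / 2; linarith, le_refl _⟩

/-- `v ↦ unitC (φ (0, v))₂`: its degree is the linking number of the pattern with the core of the complementary solid torus -/
noncomputable def gcore : C(Circle, Circle) :=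
  ⟨fun v => unitC (D.φ (cl 1 v (Real.pi / 2))).1.2, D.gcore_cont⟩

/-- the centre of the ball -/
def tkr_b0 : B3 := ⟨0, by simp⟩

theorem tkr_colZ_one (p : S2 × Circle) : colZ 1 p = (tkr_b0, p.2) := by
  apply Prod.ext
  · apply Subtype.ext
    rw [colZ_val zero_le_one le_rfl]
    simp [tkr_b0]
  · rfl

theorem tkr_notMem {τ : ℝ} (h0 : 0 < τ) (h1 : τ ≤ 1) (p : S2 × Circle) : colZ τ p ∉ D.T₀ := by
  rintro ⟨u, v, h⟩
  have h2 : nrm (colZ 0 (D.G (cl u v (Real.pi / 4)))).1.1 = nrm (colZ τ p).1.1 := by rw [h]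
  rw [nrm_colZ le_rfl zero_le_one, nrm_colZ h0.le h1] at h2
  linarith

/-- the core of the first piece -/
noncomputable def tkr_ctr : C(Circle, D.W) :=
  ⟨fun v => D.gA ⟨(tkr_b0, v), by
    have h := D.tkr_notMem one_pos le_rfl
      ((⟨(1, 0), by simp⟩ : S2), v)
    rwa [tkr_colZ_one] at h⟩, (gl1_cont _ _ _ _).comp (by fun_prop)⟩

/-- curves in the boundary of the first piece can be pushed to the core -/
theorem tkr_push (p : Circle → S2 × Circle) (hp : Continuous p) (hT : ∀ v, colZ 0 (p v) ∉ D.T₀) :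
    ∃ f : C(Circle, D.W), (∀ v, f v = D.gA ⟨colZ 0 (p v), hT v⟩) ∧
      f.Homotopic (D.tkr_ctr.comp ⟨fun v => (p v).2, continuous_snd.comp hp⟩) := by
  have hc : Continuous fun v => (⟨colZ 0 (p v), hT v⟩ : D.A) := by
    apply Continuous.subtype_mk
    exact continuous_colZ.comp (by fun_prop : Continuous fun v => ((0 : ℝ), p v))
  refine ⟨⟨fun v => D.gA ⟨colZ 0 (p v), hT v⟩, (gl1_cont _ _ _ _).comp hc⟩, fun v => rfl, ?_⟩
  have hm : ∀ q : unitInterval × Circle, colZ (q.1 : ℝ) (p q.2) ∉ D.T₀ := by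
    intro q
    rcases eq_or_lt_of_le q.1.2.1 with h | h
    · have := hT q.2
      rwa [← h]
    · exact D.tkr_notMem h q.1.2.2 _
  refine ⟨{ toFun := fun q => D.gA ⟨colZ (q.1 : ℝ) (p q.2), hm q⟩
            continuous_toFun := ?_
            map_zero_left := ?_
            map_one_left := ?_ }⟩
  · refine (gl1_cont _ _ _ _).comp ?_
    apply Continuous.subtype_mk
    exact continuous_colZ.comp (by fun_prop : Continuous fun q : unitInterval × Circle =>
      ((q.1 : ℝ), p q.2))
  · intro v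
    rfl
  · intro v
    show D.gA _ = D.gA _
    congr 1
    apply Subtype.ext
    exact tkr_colZ_one _

/-- TASK 13c. The meridians are homotopic in the first piece. `i₀ (eK (1, v)) = gA (colZ 0 (G (cl 1 v (π/4 + r₀/2))))` by
`glue_zero` (`eK (1, v) = eH (cl 1 v (π/4 - r₀/2))`), `i₁ (eJ (1, v)) = gA (colZ 0 (iO (gam ε (1, v))))`,
where `(iO (gam ε (1, v))).2 = v`. In `A` the curve `v ↦ colZ 0 p(v)` is homotopic to `v ↦ (0, (p v).2)` via `colZ τ p(v)`,
`0 ≤ τ ≤ 1` (not in `T₀` for `τ > 0` by `colZ_inj`, or as `nrm_colZ`), and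
`v ↦ (G (cl 1 v s)).2 = unitC (φ (cl 1 v s))₂` for `s = π/4 + r₀/2` is homotopic to the one for `s = π/2`, which is
`gcore`, which by hypothesis is homotopic to the identity. Concatenate (e.g. with
`ContinuousMap.Homotopic.trans`, in the space of maps `Circle → W`). -/
theorem meridians (hg : D.gcore.Homotopic (ContinuousMap.id Circle)) :
    MeridiansHomotopic D.eK_inj D.eJ_inj D.i₀ D.i₁ := by
  have hr := D.r₀_pos
  have hr1 := D.r₀_lt
  have hpi := Real.pi_pos
  have hs2 : 0 < Real.sqrt 2 := by positivity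
  set s : ℝ := Real.pi / 4 + D.r₀ / 2 with hs
  set s' : ℝ := Real.pi / 4 - D.r₀ / 2 with hs'
  -- the first curve
  have hP : ∀ v : Circle, cl 1 v s ∉ D.P := fun v => D.cl_notMem_P (by linarith) (by linarith)
  have hpc : Continuous fun v : Circle => D.G (cl 1 v s) := by
    rw [continuous_iff_continuousAt]
    intro v
    have h2 : Continuous fun v : Circle => cl 1 v s :=
      continuous_cl.comp (by fun_prop : Continuous fun v : Circle => ((1 : Circle), v, s))
    exact ContinuousAt.comp (f := fun v : Circle => cl 1 v s) (D.continuousAt_G (hP v))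
      h2.continuousAt
  have hpT : ∀ v : Circle, colZ 0 (D.G (cl 1 v s)) ∉ D.T₀ := fun v => D.notMem_T₀_of
    (by rw [lat_cl _ _ (by linarith) (by linarith)]; linarith) (hP v)
  obtain ⟨f, hf, hfh⟩ := D.tkr_push _ hpc hpT
  -- the second curve
  have hqc : Continuous fun v : Circle => iO (gam D.ε (1, toDisc v)) := by
    rw [continuous_iff_continuousAt]
    intro v
    have h2 : Continuous fun v : Circle => gam D.ε (1, toDisc v) := by
      have h3 : Continuous fun v : Circle => (dsc ((D.ε : ℂ) * (toDisc v).1)).1 :=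
        continuous_subtype_val.comp (continuous_dsc.comp (by unfold toDisc; fun_prop))
      unfold gam
      apply Continuous.subtype_mk
      refine Continuous.prodMk ?_ h3
      refine continuous_const.mul (Complex.continuous_ofReal.comp (Real.continuous_sqrt.comp
        (continuous_const.sub ((continuous_norm.comp h3).pow 2))))
    have h3 : (gam D.ε (1, toDisc v)).1.2 ≠ 0 := by
      show (dsc ((D.ε : ℂ) * (toDisc v).1)).1 ≠ 0
      rw [dsc_val (by
        rw [norm_mul, Complex.norm_real, Real.norm_eq_abs, abs_of_pos D.ε_pos]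
        show D.ε * ‖(v : ℂ)‖ ≤ 1
        rw [Circle.norm_coe]
        linarith [D.ε_lt])]
      have : (D.ε : ℂ) ≠ 0 := by exact_mod_cast D.ε_pos.ne'
      exact mul_ne_zero this (Circle.coe_ne_zero v)
    exact ContinuousAt.comp (f := fun v : Circle => gam D.ε (1, toDisc v)) (continuousAt_iO h3)
      h2.continuousAt
  have hqP : ∀ v : Circle, D.φ.symm (gam D.ε (1, toDisc v)) ∉ D.P := by
    intro v h
    have h1 := (D.φ_c _).2 h
    rw [Homeomorph.apply_symm_apply] at h1
    revert h1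
    show (dsc ((D.ε : ℂ) * (toDisc v).1)).1 ≠ 0
    rw [dsc_val (by
      rw [norm_mul, Complex.norm_real, Real.norm_eq_abs, abs_of_pos D.ε_pos]
      show D.ε * ‖(v : ℂ)‖ ≤ 1
      rw [Circle.norm_coe]
      linarith [D.ε_lt])]
    have : (D.ε : ℂ) ≠ 0 := by exact_mod_cast D.ε_pos.ne'
    exact mul_ne_zero this (Circle.coe_ne_zero v)
  have hGq : ∀ v : Circle, D.G (D.φ.symm (gam D.ε (1, toDisc v))) = iO (gam D.ε (1, toDisc v)) := by
    intro v
    unfold G
    rw [Homeomorph.apply_symm_apply]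
  have hqT : ∀ v : Circle, colZ 0 (iO (gam D.ε (1, toDisc v))) ∉ D.T₀ := by
    intro v
    rw [← hGq]
    exact D.notMem_T₀_of (by linarith [D.ε_in (1, toDisc v)]) (hqP v)
  obtain ⟨g, hgg, hgh⟩ := D.tkr_push _ hqc hqT
  -- the second coordinates
  have hq2 : (⟨fun v : Circle => (iO (gam D.ε (1, toDisc v))).2, continuous_snd.comp hqc⟩ : C(Circle, Circle)) =
      ContinuousMap.id Circle := by
    ext v
    show ((unitC (dsc ((D.ε : ℂ) * (toDisc v).1)).1 : Circle) : ℂ) = v
    rw [dsc_val (by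
      rw [norm_mul, Complex.norm_real, Real.norm_eq_abs, abs_of_pos D.ε_pos]
      show D.ε * ‖(v : ℂ)‖ ≤ 1
      rw [Circle.norm_coe]
      linarith [D.ε_lt])]
    show ((unitC ((D.ε : ℂ) * (v : ℂ)) : Circle) : ℂ) = v
    rw [mul_comm, unitC_mul_pos v D.ε_pos]
  rw [hq2] at hgh
  have hp2 : (⟨fun v : Circle => (D.G (cl 1 v s)).2, continuous_snd.comp hpc⟩ : C(Circle, Circle)).Homotopic
      D.gcore := by
    have hcf := D.tkr_fam_cont
    refine ⟨{ toFun := fun q => unitC (D.φ (cl 1 q.2 (s + (q.1 : ℝ) * (Real.pi / 2 - s)))).1.2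
              continuous_toFun := ?_
              map_zero_left := ?_
              map_one_left := ?_ }⟩
    · refine hcf.comp_continuous (f := fun q : unitInterval × Circle =>
        (q.2, s + (q.1 : ℝ) * (Real.pi / 2 - s))) (by fun_prop) ?_
      intro q
      have h0 := q.1.2.1
      have h1 := q.1.2.2
      constructor
      · show _ ≤ s + (q.1 : ℝ) * (Real.pi / 2 - s)
        nlinarith
      · show s + (q.1 : ℝ) * (Real.pi / 2 - s) ≤ _
        nlinarith
    · intro v
      show unitC (D.φ (cl 1 v (s + ((0 : unitInterval) : ℝ) * (Real.pi / 2 - s)))).1.2 = _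
      rw [Icc.coe_zero, zero_mul, add_zero]
      rfl
    · intro v
      show unitC (D.φ (cl 1 v (s + ((1 : unitInterval) : ℝ) * (Real.pi / 2 - s)))).1.2 = _
      rw [Icc.coe_one, one_mul, add_sub_cancel]
      rfl
  have hall : f.Homotopic g := by
    refine hfh.trans (ContinuousMap.Homotopic.trans ?_ hgh.symm)
    exact ContinuousMap.Homotopic.comp (ContinuousMap.Homotopic.refl _) (hp2.trans hg)
  obtain ⟨H⟩ := hall
  refine ⟨fun q => H (q.2, q.1), H.continuous.comp (by fun_prop), ?_, ?_⟩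
  · intro v
    show H (0, v) = _
    rw [H.apply_zero, hf]
    have e1 : D.eK (1, toDisc v) = D.eH (cl 1 v s') := by
      unfold eK eH
      have hc : 0 < Real.cos s' := Real.cos_pos_of_mem_Ioo ⟨by linarith, by linarith⟩
      have e2 : unitC (cl 1 v s').1.1 = 1 := by
        rw [cl_1, unitC_mul_pos _ hc]
      have e3 : (D.ρ₁ : ℂ) * (toDisc v).1 = ((Real.sqrt 2 : ℝ) : ℂ) * (cl 1 v s').1.2 := by
        rw [cl_2]
        have e5 : (toDisc v).1 = (v : ℂ) := rfl
        have e6 : (D.ρ₁ : ℂ) = ((Real.sqrt 2 : ℝ) : ℂ) * ((Real.sin s' : ℝ) : ℂ) := by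
          rw [← Complex.ofReal_mul]
          rfl
        rw [e5, e6]
        ring
      rw [e2, e3]
    have hB : D.eH (cl 1 v s') ∉ D.core := by
      rintro ⟨z, hz, h⟩
      have hl : lat (cl 1 v s') = s' := lat_cl _ _ (by linarith) (by linarith)
      have h2 := D.eH_injOn (z := z) (show lat z ≤ _ by linarith)
        (show lat (cl 1 v s') ≤ Real.pi / 4 by rw [hl]; linarith) h
      rw [h2, hl] at hz
      linarith
    rw [← D.glue_zero (u := 1) (v := v) (r := D.r₀ / 2) (by linarith) (by linarith) hB (hpT v)]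
    unfold i₀
    congr 1
    apply Prod.ext
    · apply Subtype.ext
      exact e1.symm
    · rfl
  · intro v
    show H (1, v) = _
    rw [H.apply_one, hgg]
    have hin : D.eJ (1, toDisc v) ∈ D.core := ⟨D.φ.symm (gam D.ε (1, toDisc v)),
      (D.ε_in (1, toDisc v)).le, rfl⟩
    unfold i₁
    rw [dif_pos hin]
    congr 1
    apply Subtype.ext
    show colZ 0 _ = colZ 0 (D.G hin.choose)
    have e4 : hin.choose = D.φ.symm (gam D.ε (1, toDisc v)) := by
      apply D.eH_injOn
      · show lat _ ≤ _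
        linarith [hin.choose_spec.1]
      · show lat _ ≤ _
        linarith [D.ε_in (1, toDisc v)]
      · exact hin.choose_spec.2
    rw [e4, hGq]

end Dat
end Pool.Agent.H753.Cob
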