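import Pool.Agent.H753.Cob.Sets
set_option autoImplicit false
namespace Pool.Agent.H753.Cob
open Set Topology
open Pool.Agent.Helper60.Fin (S3 Disc d0 ZeroFramed)
namespace Dat
variable (D : Dat)

theorem tkp_beta : 0 < Real.cos (Real.pi / 4 + D.r₀ / 2) ∧ Real.cos (Real.pi / 4 + D.r₀ / 2) < 1 := by
  have h1 := D.r₀_lt
  have h2 := D.r₀_pos
  have h3 := Real.pi_pos
  constructor
  · exact Real.cos_pos_of_mem_Ioo ⟨by linarith, by linarith⟩
  · have := Real.cos_lt_cos_of_nonneg_of_le_pi (x := 0) (y := Real.pi / 4 + D.r₀ / 2) le_rfl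
      (by linarith) (by linarith)
    rwa [Real.cos_zero] at this

theorem tkp_zed_cont : Continuous D.zed := by
  unfold zed
  apply Continuous.subtype_mk
  fun_prop

theorem tkp_zed_inj : Function.Injective D.zed := by
  intro q q' h
  obtain ⟨hb0, hb1⟩ := D.tkp_beta
  have e1 : (D.zed q).1.1 = (D.zed q').1.1 := by rw [h]
  have e2 : (D.zed q).1.2 = (D.zed q').1.2 := by rw [h]
  have hb : (Real.cos (Real.pi / 4 + D.r₀ / 2) : ℂ) ≠ 0 := by
    exact_mod_cast hb0.ne'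
  have e3 : q.1.1 = q'.1.1 := mul_left_cancel₀ hb e1
  have e2' : (q.2 : ℂ) * Real.sqrt (1 - ‖(Real.cos (Real.pi / 4 + D.r₀ / 2) : ℂ) * q.1.1‖ ^ 2) =
    (q'.2 : ℂ) * Real.sqrt (1 - ‖(Real.cos (Real.pi / 4 + D.r₀ / 2) : ℂ) * q'.1.1‖ ^ 2) := e2
  rw [← e3] at e2'
  have hs : 0 < Real.sqrt (1 - ‖(Real.cos (Real.pi / 4 + D.r₀ / 2) : ℂ) * q.1.1‖ ^ 2) := by
    apply Real.sqrt_pos.2
    rw [norm_mul, Complex.norm_real, Real.norm_eq_abs, abs_of_pos hb0]
    have h5 := q.1.2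
    have h6 := norm_nonneg q.1.1
    have h7 : Real.cos (Real.pi / 4 + D.r₀ / 2) * ‖q.1.1‖ < 1 := by nlinarith
    have h8 : 0 ≤ Real.cos (Real.pi / 4 + D.r₀ / 2) * ‖q.1.1‖ := by positivity
    nlinarith
  have hs' : ((Real.sqrt (1 - ‖(Real.cos (Real.pi / 4 + D.r₀ / 2) : ℂ) * q.1.1‖ ^ 2) : ℝ) : ℂ) ≠ 0 := by
    exact_mod_cast hs.ne'
  exact Prod.ext (Subtype.ext e3) (Subtype.ext (mul_right_cancel₀ hs' e2'))

theorem tkp_zed_surj {z : S3} (hz : Real.pi / 4 + D.r₀ / 2 ≤ lat z) : ∃ q, D.zed q = z := by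
  obtain ⟨hb0, hb1⟩ := D.tkp_beta
  have h1 := D.r₀_pos
  have h3 := Real.pi_pos
  have hb : (Real.cos (Real.pi / 4 + D.r₀ / 2) : ℂ) ≠ 0 := by
    exact_mod_cast hb0.ne'
  have hn : ‖z.1.1‖ ≤ Real.cos (Real.pi / 4 + D.r₀ / 2) := by
    rw [← cos_lat]
    exact Real.cos_le_cos_of_nonneg_of_le_pi (by linarith) (by linarith [lat_le z]) hz
  have hd : ‖z.1.1 / (Real.cos (Real.pi / 4 + D.r₀ / 2) : ℂ)‖ ≤ 1 := by
    rw [norm_div, Complex.norm_real, Real.norm_eq_abs, abs_of_pos hb0, div_le_one hb0]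
    exact hn
  refine ⟨(⟨z.1.1 / (Real.cos (Real.pi / 4 + D.r₀ / 2) : ℂ), hd⟩, unitC z.1.2), ?_⟩
  have e : (Real.cos (Real.pi / 4 + D.r₀ / 2) : ℂ) * (z.1.1 / (Real.cos (Real.pi / 4 + D.r₀ / 2) : ℂ))
      = z.1.1 := mul_div_cancel₀ _ hb
  apply Subtype.ext
  apply Prod.ext
  · exact e
  · show (unitC z.1.2 : ℂ) * Real.sqrt (1 - ‖(Real.cos (Real.pi / 4 + D.r₀ / 2) : ℂ) *
      (z.1.1 / (Real.cos (Real.pi / 4 + D.r₀ / 2) : ℂ))‖ ^ 2) = z.1.2
    rw [e]
    have h9 : 1 - ‖z.1.1‖ ^ 2 = ‖z.1.2‖ ^ 2 := by linarith [z.2]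
    rw [h9, Real.sqrt_sq (norm_nonneg _), mul_comm]
    exact norm_mul_unitC _

theorem tkp_zed_bdry (u v : Circle) :
    D.zed (toDisc u, v) = cl u v (Real.pi / 4 + D.r₀ / 2) := by
  obtain ⟨hb0, hb1⟩ := D.tkp_beta
  have h1 := D.r₀_pos
  have h2 := D.r₀_lt
  have h3 := Real.pi_pos
  apply Subtype.ext
  apply Prod.ext
  · show (Real.cos (Real.pi / 4 + D.r₀ / 2) : ℂ) * (u : ℂ) = (u : ℂ) * Real.cos (Real.pi / 4 + D.r₀ / 2)
    rw [mul_comm]
  · show (v : ℂ) * Real.sqrt (1 - ‖(Real.cos (Real.pi / 4 + D.r₀ / 2) : ℂ) * (u : ℂ)‖ ^ 2) =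
      (v : ℂ) * Real.sin (Real.pi / 4 + D.r₀ / 2)
    rw [norm_mul, Circle.norm_coe, mul_one, Complex.norm_real, Real.norm_eq_abs, sq_abs,
      ← Real.sin_eq_sqrt_one_sub_cos_sq (by linarith) (by linarith)]

/-- the points of the smaller solid torus are in the image of the open solid torus under `eK` -/
theorem tkp_eK_of_lat {z : S3} (hz : lat z < Real.pi / 4 - D.r₀ / 2) :
    ∃ p : Circle × Disc, ‖p.2.1‖ < 1 ∧ D.eK p = D.eH z := by
  have h1 := D.r₀_lt
  have h2 := D.r₀_pos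
  have h3 := D.ρ₁_pos
  have h4 : Real.sin (lat z) < Real.sin (Real.pi / 4 - D.r₀ / 2) :=
    Real.sin_lt_sin_of_lt_of_le_pi_div_two (by linarith [Real.pi_pos, lat_nonneg z])
      (by linarith [Real.pi_pos]) (by linarith)
  rw [sin_lat] at h4
  have h5 : ‖(Real.sqrt 2 : ℝ) * z.1.2 / (D.ρ₁ : ℂ)‖ < 1 := by
    rw [norm_div, norm_mul, Complex.norm_real, Complex.norm_real, Real.norm_eq_abs,
      Real.norm_eq_abs, abs_of_pos h3, abs_of_pos (by positivity : 0 < Real.sqrt 2),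
      div_lt_one h3]
    unfold ρ₁
    have : 0 < Real.sqrt 2 := by positivity
    nlinarith
  refine ⟨(unitC z.1.1, ⟨(Real.sqrt 2 : ℝ) * z.1.2 / (D.ρ₁ : ℂ), h5.le⟩), h5, ?_⟩
  unfold eK eH
  have h6 : (D.ρ₁ : ℂ) * ((Real.sqrt 2 : ℝ) * z.1.2 / (D.ρ₁ : ℂ)) = (Real.sqrt 2 : ℝ) * z.1.2 := by
    have : (D.ρ₁ : ℂ) ≠ 0 := by exact_mod_cast h3.ne'
    field_simp
  simp only [h6]

/-- `eK (u, a v) = eH (cl u v s)` with `sin s = sin (π/4 - r₀/2) a` -/
theorem tkp_eK_cl (p : Circle × Disc) (v : Circle) (s : ℝ) (hs0 : 0 ≤ s) (hs1 : s ≤ Real.pi / 4)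
    (h : (Real.sin (Real.pi / 4 - D.r₀ / 2) : ℂ) * p.2.1 = (v : ℂ) * Real.sin s) :
    D.eK p = D.eH (cl p.1 v s) := by
  have hc : 0 < Real.cos s := Real.cos_pos_of_mem_Ioo ⟨by linarith [Real.pi_pos], by linarith [Real.pi_pos]⟩
  unfold eK eH
  rw [cl_1, unitC_mul_pos _ hc, cl_2, ← h]
  congr 3
  unfold ρ₁
  push_cast
  ring

theorem tkp_eK_eH (p : Circle × Disc) (hp : ‖p.2.1‖ < 1) :
    ∃ z : S3, lat z < Real.pi / 4 - D.r₀ / 2 ∧ D.eH z = D.eK p := by
  have h1 := D.r₀_lt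
  have h2 := D.r₀_pos
  have hpi := Real.pi_pos
  have hs : 0 < Real.sin (Real.pi / 4 - D.r₀ / 2) :=
    Real.sin_pos_of_pos_of_lt_pi (by linarith) (by linarith)
  have hs1 : Real.sin (Real.pi / 4 - D.r₀ / 2) ≤ 1 := Real.sin_le_one _
  have hn := norm_nonneg p.2.1
  have ha0 : 0 ≤ Real.sin (Real.pi / 4 - D.r₀ / 2) * ‖p.2.1‖ := by positivity
  have ha1 : Real.sin (Real.pi / 4 - D.r₀ / 2) * ‖p.2.1‖ < Real.sin (Real.pi / 4 - D.r₀ / 2) := by
    nlinarith
  have hlt : Real.arcsin (Real.sin (Real.pi / 4 - D.r₀ / 2) * ‖p.2.1‖) < Real.pi / 4 - D.r₀ / 2 := by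
    have := Real.arcsin_lt_arcsin (by linarith) ha1 hs1
    rwa [Real.arcsin_sin (by linarith) (by linarith)] at this
  have h0 : 0 ≤ Real.arcsin (Real.sin (Real.pi / 4 - D.r₀ / 2) * ‖p.2.1‖) := Real.arcsin_nonneg.2 ha0
  refine ⟨cl p.1 (unitC p.2.1) (Real.arcsin (Real.sin (Real.pi / 4 - D.r₀ / 2) * ‖p.2.1‖)), ?_, ?_⟩
  · rw [lat_cl _ _ h0 (by linarith)]
    exact hlt
  · symm
    apply D.tkp_eK_cl p _ _ h0 (by linarith)
    rw [Real.sin_arcsin (by linarith) (by linarith)]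
    push_cast
    calc Complex.sin (Real.pi / 4 - D.r₀ / 2) * p.2.1
        = Complex.sin (Real.pi / 4 - D.r₀ / 2) * ((‖p.2.1‖ : ℂ) * (unitC p.2.1 : Circle)) := by
          rw [norm_mul_unitC]
      _ = _ := by ring

theorem tkp_eK_bdry (u v : Circle) :
    D.eK (u, toDisc v) = D.eH (cl u v (Real.pi / 4 - D.r₀ / 2)) := by
  have h1 := D.r₀_lt
  have h2 := D.r₀_pos
  apply D.tkp_eK_cl (u, toDisc v) v _ (by linarith) (by linarith)
  rw [mul_comm]
  rfl

/-- a point of the collar in the exterior -/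
theorem tkp_ext {u v : Circle} {r : ℝ} (h0 : 0 < r) (h1 : r ≤ D.r₀ / 2) :
    ∀ p : Circle × Disc, ‖p.2.1‖ < 1 → D.eK p ≠ D.eH (cl u v (Real.pi / 4 - r)) := by
  intro p hp h
  obtain ⟨z, hz, hz2⟩ := D.tkp_eK_eH p hp
  have h2 := D.r₀_lt
  have h3 := D.r₀_pos
  have hl : lat (cl u v (Real.pi / 4 - r)) = Real.pi / 4 - r :=
    lat_cl _ _ (by linarith) (by linarith [Real.pi_pos])
  have := D.eH_injOn (z := z) (z' := cl u v (Real.pi / 4 - r)) (show lat z ≤ _ by linarith)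
    (show lat _ ≤ _ by rw [hl]; linarith) (hz2.trans h)
  rw [this, hl] at hz
  linarith

theorem tkp_j₀_of {q : Disc × Circle} {z : S3} (h : D.zed q = z) (hz : colZ 0 (D.G z) ∉ D.T₀) :
    D.j₀ q = D.gA ⟨colZ 0 (D.G z), hz⟩ := by
  subst h
  rfl

theorem tkp_notMem_T₀ {z : S3} (h : Real.pi / 4 < lat z) : colZ 0 (D.G z) ∉ D.T₀ :=
  D.notMem_T₀_of h.ne' (D.notMem_P_of_lat (by linarith [D.r₀_pos]))

/-- TASK 11. The first end `Y₀` is the surgery on `eK`. -/
theorem surgery₀ : IsZeroSurgery D.eK D.Y₀ D.i₀ D.j₀ := by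
  have hr0 := D.r₀_pos
  have hr1 := D.r₀_lt
  have hpi := Real.pi_pos
  refine ⟨?_, ?_, ?_, ?_, ?_, ?_⟩
  · -- continuity of `i₀`
    unfold i₀
    refine (gl2_cont D.α D.β D.α_inj D.β_inj).comp ?_
    exact (Continuous.subtype_mk continuous_subtype_val _).prodMk continuous_const
  · intro x x' h
    have h1 := gl2_inj D.α D.β D.α_inj D.β_inj h
    have h2 : x.1 = x'.1 := congrArg (fun b : D.B => b.1.1) h1
    exact Subtype.ext h2
  · -- continuity of `j₀`
    unfold j₀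
    refine (gl1_cont D.α D.β D.α_inj D.β_inj).comp ?_
    refine Continuous.subtype_mk ?_ _
    rw [continuous_iff_continuousAt]
    intro q
    have h1 : ContinuousAt D.G (D.zed q) := D.continuousAt_G
      (D.notMem_P_of_lat (by linarith [D.lat_zed q]))
    have h3 : ContinuousAt (fun q => D.G (D.zed q)) q :=
      ContinuousAt.comp (f := fun q => D.zed q) h1 D.tkp_zed_cont.continuousAt
    exact ContinuousAt.comp (f := fun q => ((0 : ℝ), D.G (D.zed q)))
      continuous_colZ.continuousAt (continuousAt_const.prodMk h3)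
  · intro q q' h
    have h1 := gl1_inj D.α D.β D.α_inj D.β_inj h
    have h2 : colZ 0 (D.G (D.zed q)) = colZ 0 (D.G (D.zed q')) := congrArg Subtype.val h1
    obtain ⟨-, h3⟩ := colZ_inj le_rfl one_pos le_rfl one_pos h2
    have h4 := D.G_inj (D.notMem_P_of_lat (by linarith [D.lat_zed q]))
      (D.notMem_P_of_lat (by linarith [D.lat_zed q'])) h3
    exact D.tkp_zed_inj h4
  · -- the union
    apply Set.Subset.antisymm
    · rintro y (⟨x, rfl⟩ | ⟨q, rfl⟩)
      · unfold i₀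
        rw [D.gB_Y₀]
      · unfold j₀
        rw [D.gA_Y₀]
        exact ⟨D.zed q, by linarith [D.lat_zed q], rfl⟩
    · rintro y (⟨a, ⟨z, hz, ha⟩, rfl⟩ | ⟨b, hb, rfl⟩)
      · have ha' : a = ⟨colZ 0 (D.G z), D.tkp_notMem_T₀ hz⟩ := Subtype.ext ha
        rcases le_or_gt (Real.pi / 4 + D.r₀ / 2) (lat z) with h | h
        · right
          obtain ⟨q, hq⟩ := D.tkp_zed_surj h
          refine ⟨q, ?_⟩
          rw [D.tkp_j₀_of hq (D.tkp_notMem_T₀ hz), ha']
        · left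
          have hc : cl (unitC z.1.1) (unitC z.1.2) (Real.pi / 4 + (lat z - Real.pi / 4)) = z := by
            rw [add_sub_cancel, cl_lat]
          have hB := D.β₀_notMem (unitC z.1.1, unitC z.1.2, ⟨lat z - Real.pi / 4,
            by linarith, by linarith⟩)
          have hA : colZ 0 (D.G (cl (unitC z.1.1) (unitC z.1.2) (Real.pi / 4 + (lat z - Real.pi / 4))))
              ∉ D.T₀ := by
            rw [hc]; exact D.tkp_notMem_T₀ hz
          have hg := D.glue_zero (u := unitC z.1.1) (v := unitC z.1.2) (r := lat z - Real.pi / 4)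
            (by linarith) (by linarith) hB hA
          refine ⟨⟨D.eH (cl (unitC z.1.1) (unitC z.1.2) (Real.pi / 4 - (lat z - Real.pi / 4))),
            D.tkp_ext (by linarith) (by linarith)⟩, ?_⟩
          refine Eq.trans hg ?_
          congr 1
          rw [ha']
          exact Subtype.ext (by simp only [hc])
      · obtain ⟨⟨x, hx⟩, t⟩ := b
        have hb' : t = 0 := hb
        subst hb'
        by_cases he : ∀ p : Circle × Disc, ‖p.2.1‖ < 1 → D.eK p ≠ x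
        · left
          exact ⟨⟨x, he⟩, rfl⟩
        · right
          push Not at he
          obtain ⟨p, hp, rfl⟩ := he
          obtain ⟨z, hz, hz2⟩ := D.tkp_eK_eH p hp
          have hz3 : Real.pi / 4 - D.r₀ < lat z := by
            by_contra hcon
            push Not at hcon
            exact hx ⟨z, hcon, hz2⟩
          have hc : cl (unitC z.1.1) (unitC z.1.2) (Real.pi / 4 - (Real.pi / 4 - lat z)) = z := by
            rw [sub_sub_cancel, cl_lat]
          have hB := D.β₀_notMem (unitC z.1.1, unitC z.1.2, ⟨Real.pi / 4 - lat z,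
            by linarith, by linarith⟩)
          have hl : lat (cl (unitC z.1.1) (unitC z.1.2) (Real.pi / 4 + (Real.pi / 4 - lat z))) =
              Real.pi / 4 + (Real.pi / 4 - lat z) := lat_cl _ _ (by linarith) (by linarith)
          have hA : colZ 0 (D.G (cl (unitC z.1.1) (unitC z.1.2) (Real.pi / 4 + (Real.pi / 4 - lat z))))
              ∉ D.T₀ := D.tkp_notMem_T₀ (by rw [hl]; linarith)
          have hg := D.glue_zero (u := unitC z.1.1) (v := unitC z.1.2) (r := Real.pi / 4 - lat z)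
            (by linarith) (by linarith) hB hA
          obtain ⟨q, hq⟩ := D.tkp_zed_surj (z := cl (unitC z.1.1) (unitC z.1.2)
            (Real.pi / 4 + (Real.pi / 4 - lat z))) (by rw [hl]; linarith)
          refine ⟨q, ?_⟩
          rw [D.tkp_j₀_of hq hA, ← hg]
          congr 1
          refine Prod.ext (Subtype.ext ?_) rfl
          show D.eH (cl (unitC z.1.1) (unitC z.1.2) (Real.pi / 4 - (Real.pi / 4 - lat z))) = D.eK p
          rw [hc, hz2]
  · -- the intersection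
    intro x q
    constructor
    · intro h
      obtain ⟨n, hn1, hn2⟩ := (gl1_eq_gl2 D.α D.β D.α_inj D.β_inj _ _).1 h.symm
      have hn3 : n.2.2.2 = 0 := congrArg (fun b : D.B => b.2) hn2
      have hn4 : D.eH (cl n.1 n.2.1 (Real.pi / 4 - n.2.2.1)) = x.1 :=
        congrArg (fun b : D.B => b.1.1) hn2
      have hn5 : (D.α n).1 = colZ 0 (D.G (D.zed q)) := congrArg Subtype.val hn1
      rw [α_val] at hn5
      obtain ⟨-, hn6⟩ := colZ_inj (tau_nonneg n) (tau_lt n) le_rfl one_pos hn5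
      have hn7 := D.G_inj (D.collar_notMem_P n) (D.notMem_P_of_lat (by linarith [D.lat_zed q])) hn6
      rw [hn3] at hn7
      simp only [Icc.coe_zero, mul_zero, Real.cos_zero, mul_one] at hn7
      have hr2 := n.2.2.1.2.1
      have hr3 := n.2.2.1.2.2
      have hl : lat (cl n.1 n.2.1 (Real.pi / 4 + n.2.2.1)) = Real.pi / 4 + n.2.2.1 :=
        lat_cl _ _ (by linarith) (by linarith)
      have hl2 : lat (cl n.1 n.2.1 (Real.pi / 4 - n.2.2.1)) = Real.pi / 4 - n.2.2.1 :=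
        lat_cl _ _ (by linarith) (by linarith)
      have hge : D.r₀ / 2 ≤ n.2.2.1 := by
        have := D.lat_zed q
        rw [← hn7, hl] at this
        linarith
      have hle : (n.2.2.1 : ℝ) ≤ D.r₀ / 2 := by
        by_contra hcon
        push Not at hcon
        obtain ⟨p, hp, hp2⟩ := D.tkp_eK_of_lat (z := cl n.1 n.2.1 (Real.pi / 4 - n.2.2.1))
          (by rw [hl2]; linarith)
        exact x.2 p hp (hp2.trans hn4)
      have heq : (n.2.2.1 : ℝ) = D.r₀ / 2 := le_antisymm hle hge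
      rw [heq] at hn7 hn4
      rw [← D.tkp_zed_bdry] at hn7
      have hq := D.tkp_zed_inj hn7
      refine ⟨n.1, ?_, ?_⟩
      · rw [← hq]
      · rw [← hq, ← hn4, ← D.tkp_eK_bdry]
    · rintro ⟨u, hu, hx⟩
      have hq : q = (toDisc u, q.2) := Prod.ext hu rfl
      have hz : D.zed q = cl u q.2 (Real.pi / 4 + D.r₀ / 2) := by
        rw [hq]; exact D.tkp_zed_bdry u q.2
      have hl : lat (cl u q.2 (Real.pi / 4 + D.r₀ / 2)) = Real.pi / 4 + D.r₀ / 2 :=
        lat_cl _ _ (by linarith) (by linarith)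
      have hA : colZ 0 (D.G (cl u q.2 (Real.pi / 4 + D.r₀ / 2))) ∉ D.T₀ :=
        D.tkp_notMem_T₀ (by rw [hl]; linarith)
      have hB := D.β₀_notMem (u, q.2, ⟨D.r₀ / 2, by linarith, by linarith⟩)
      have hg := D.glue_zero (u := u) (v := q.2) (r := D.r₀ / 2)
            (by linarith) (by linarith) hB hA
      rw [D.tkp_j₀_of hz hA, ← hg]
      unfold i₀
      congr 1
      refine Prod.ext (Subtype.ext ?_) rfl
      show x.1 = D.eH (cl u q.2 (Real.pi / 4 - D.r₀ / 2))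
      rw [hx, D.tkp_eK_bdry]

end Dat
end Pool.Agent.H753.Cob
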