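import Pool.Agent.H753.Cob.Sets
set_option autoImplicit false
set_option linter.unusedSectionVars false
namespace Pool.Agent.H753.Cob
open Set Topology
open Pool.Agent.Helper60.Fin (S3 Disc d0 ZeroFramed)

theorem tkq_s1_compact_S3 : CompactSpace S3 := by
  have h1 : IsClosed {z : ℂ × ℂ | ‖z.1‖ ^ 2 + ‖z.2‖ ^ 2 = 1} :=
    isClosed_eq (by fun_prop) continuous_const
  refine isCompact_iff_compactSpace.mp (Metric.isCompact_of_isClosed_isBounded h1 ?_)
  refine (Metric.isBounded_closedBall (x := (0 : ℂ × ℂ)) (r := 1)).subset ?_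
  intro z hz
  have hz' : ‖z.1‖ ^ 2 + ‖z.2‖ ^ 2 = 1 := hz
  rw [Metric.mem_closedBall, dist_zero_right, Prod.norm_def]
  have a := norm_nonneg z.1
  have b := norm_nonneg z.2
  apply max_le <;> nlinarith [sq_nonneg ‖z.1‖, sq_nonneg ‖z.2‖]

namespace Dat
variable (D : Dat)

theorem tkq_s1_eH_cont {z : S3} (hz : z.1.1 ≠ 0) : ContinuousAt D.eH z := by
  unfold eH
  have h1 : ContinuousAt (fun z : S3 => unitC z.1.1) z :=
    ContinuousAt.comp (f := fun z : S3 => z.1.1) (continuousAt_unitC hz) (by fun_prop)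
  have h2 : Continuous (fun z : S3 => dsc ((Real.sqrt 2 : ℝ) * z.1.2)) :=
    continuous_dsc.comp (by fun_prop)
  exact ContinuousAt.comp (f := fun z : S3 => (unitC z.1.1, dsc ((Real.sqrt 2 : ℝ) * z.1.2)))
    D.e_cont.continuousAt (h1.prodMk h2.continuousAt)

theorem tkq_s1_core_closed : IsClosed D.core := by
  have := tkq_s1_compact_S3
  have h : D.core = D.eH '' {z : S3 | lat z ≤ Real.pi / 4 - D.r₀} := by
    ext x; rfl
  rw [h]
  apply IsCompact.isClosed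
  apply IsCompact.image_of_continuousOn
  · exact (isClosed_le continuous_lat continuous_const).isCompact
  · intro z hz
    refine (D.tkq_s1_eH_cont (ne_of_V ?_)).continuousWithinAt
    show lat z ≤ Real.pi / 4
    have hz' : lat z ≤ Real.pi / 4 - D.r₀ := hz
    linarith [D.r₀_pos]

theorem tkq_s1_notP {x : Exterior D.eJ} {z : S3} (hx : D.eH z = x.1) : z ∉ D.P := fun hP => by
  obtain ⟨u, hu⟩ := D.P_eJ hP
  exact x.2 (u, d0) (by simp [d0]) (hu.trans hx)

/-- `i₁` on the part of the exterior in the open solid torus -/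
theorem tkq_s1_in {x : Exterior D.eJ} {z : S3} (hz : lat z < Real.pi / 4) (hx : D.eH z = x.1) :
    D.i₁ x = D.gA ⟨colZ 0 (D.G z), D.notMem_T₀_of hz.ne (D.tkq_s1_notP hx)⟩ := by
  by_cases h : x.1 ∈ D.core
  · have h1 : D.i₁ x = D.gA ⟨colZ 0 (D.G h.choose), D.notMem_T₀_of
        (by linarith [h.choose_spec.1, D.r₀_pos])
        (D.tkq_s1_notP h.choose_spec.2)⟩ := by
      unfold i₁
      rw [dif_pos h]
    rw [h1]
    have h2 : h.choose = z := D.eH_injOn
      (show lat _ ≤ _ by linarith [h.choose_spec.1, D.r₀_pos]) (show lat _ ≤ _ from hz.le)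
      (h.choose_spec.2.trans hx.symm)
    congr 1
    apply Subtype.ext
    show colZ 0 (D.G h.choose) = colZ 0 (D.G z)
    rw [h2]
  · have h1 : D.i₁ x = D.gB (⟨x.1, h⟩, 1) := by
      unfold i₁
      rw [dif_neg h]
    have h3 : Real.pi / 4 - D.r₀ < lat z := by
      by_contra hc
      push Not at hc
      exact h ⟨z, hc, hx⟩
    have hcl : cl (unitC z.1.1) (unitC z.1.2) (Real.pi / 4 - (Real.pi / 4 - lat z)) = z := by
      rw [sub_sub_cancel, cl_lat]
    have h4 := D.glue_one (u := unitC z.1.1) (v := unitC z.1.2) (r := Real.pi / 4 - lat z)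
      (by linarith) (by linarith) (by rw [hcl, hx]; exact h)
      (by rw [hcl]; exact D.notMem_T₀_of hz.ne (D.tkq_s1_notP hx))
    rw [h1]
    have h5 : (⟨x.1, h⟩ : {x : S3 // x ∉ D.core}) =
        ⟨D.eH (cl (unitC z.1.1) (unitC z.1.2) (Real.pi / 4 - (Real.pi / 4 - lat z))),
          by rw [hcl, hx]; exact h⟩ := by
      apply Subtype.ext
      exact hx.symm.trans (congrArg D.eH hcl.symm)
    rw [h5, h4]
    congr 1
    apply Subtype.ext
    exact congrArg (fun y => colZ 0 (D.G y)) hcl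

theorem tkq_s1_out {x : Exterior D.eJ} (h : x.1 ∉ D.core) : D.i₁ x = D.gB (⟨x.1, h⟩, 1) := by
  unfold i₁
  rw [dif_neg h]

/-- the points of the exterior which go to the first piece -/
theorem tkq_s1_gA {x : Exterior D.eJ} {a : D.A} (h : D.i₁ x = D.gA a) :
    ∃ z : S3, lat z < Real.pi / 4 ∧ D.eH z = x.1 ∧ a.1 = colZ 0 (D.G z) := by
  by_cases hc : x.1 ∈ D.core
  · obtain ⟨z, hz, hx⟩ := id hc
    have hz' : lat z < Real.pi / 4 := by linarith [D.r₀_pos]
    rw [D.tkq_s1_in hz' hx] at h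
    have h2 := gl1_inj _ _ _ _ h
    exact ⟨z, hz', hx, (congrArg Subtype.val h2).symm⟩
  · have h' := h
    rw [D.tkq_s1_out hc] at h'
    obtain ⟨n, hn1, hn2⟩ := (gl1_eq_gl2 _ _ _ _ _ _).1 h'.symm
    have h3 : D.β₀ (n.1, n.2.1, n.2.2.1) = x.1 := congrArg (fun b : D.B => b.1.1) hn2
    have hl : lat (cl n.1 n.2.1 (Real.pi / 4 - n.2.2.1)) = Real.pi / 4 - n.2.2.1 := by
      have := n.2.2.1.2.1
      have := n.2.2.1.2.2
      have := D.r₀_lt
      exact lat_cl _ _ (by linarith) (by linarith [Real.pi_pos])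
    have hz' : lat (cl n.1 n.2.1 (Real.pi / 4 - n.2.2.1)) < Real.pi / 4 := by
      rw [hl]; linarith [n.2.2.1.2.1]
    rw [D.tkq_s1_in hz' h3] at h
    have h2 := gl1_inj _ _ _ _ h
    exact ⟨_, hz', h3, (congrArg Subtype.val h2).symm⟩

theorem tkq_s1_inj : Function.Injective D.i₁ := by
  intro x x' h
  by_cases hA : ∃ a, D.i₁ x = D.gA a
  · obtain ⟨a, ha⟩ := hA
    obtain ⟨z, hz, hx, e⟩ := D.tkq_s1_gA ha
    obtain ⟨z', hz', hx', e'⟩ := D.tkq_s1_gA (h.symm.trans ha)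
    rw [e] at e'
    have e2 := (colZ_inj le_rfl one_pos le_rfl one_pos e').2
    have e3 := D.G_inj (D.tkq_s1_notP hx) (D.tkq_s1_notP hx') e2
    apply Subtype.ext
    rw [← hx, ← hx', e3]
  · have hc : ∀ y : Exterior D.eJ, (¬ ∃ a, D.i₁ y = D.gA a) → y.1 ∉ D.core := by
      intro y hy hc
      obtain ⟨z, hz, hx⟩ := id hc
      exact hy ⟨_, D.tkq_s1_in (by linarith [D.r₀_pos]) hx⟩
    have h1 := hc x hA
    have h2 := hc x' (by rw [← h]; exact hA)
    rw [D.tkq_s1_out h1, D.tkq_s1_out h2] at h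
    have h3 := gl2_inj _ _ _ _ h
    exact Subtype.ext (congrArg (fun b : D.B => b.1.1) h3)

theorem tkq_s1_i_cont (hO : ∀ O : Set S3, IsOpen O → (∀ z ∈ O, lat z < Real.pi / 4) →
    IsOpen (D.eH '' O)) : Continuous D.i₁ := by
  rw [continuous_iff_continuousAt]
  intro x
  by_cases hc : ∃ z : S3, lat z < Real.pi / 4 ∧ D.eH z = x.1
  · obtain ⟨z, hz, hx⟩ := hc
    let Ω : Type := {z : S3 // lat z < Real.pi / 4 ∧ z ∉ D.P}
    let f : Ω → D.W := fun y => D.gA ⟨colZ 0 (D.G y.1), D.notMem_T₀_of y.2.1.ne y.2.2⟩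
    have hf : Continuous f := by
      refine (gl1_cont _ _ _ _).comp (Continuous.subtype_mk ?_ _)
      rw [continuous_iff_continuousAt]
      intro y
      have h1 : ContinuousAt (fun y : Ω => D.G y.1) y :=
        ContinuousAt.comp (f := fun y : Ω => y.1) (D.continuousAt_G y.2.2)
          continuous_subtype_val.continuousAt
      exact ContinuousAt.comp (f := fun y : Ω => ((0 : ℝ), D.G y.1))
        continuous_colZ.continuousAt (continuousAt_const.prodMk h1)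
    intro U hU
    rw [Filter.mem_map]
    have hzP := D.tkq_s1_notP hx
    have hi := D.tkq_s1_in hz hx
    obtain ⟨U', hU'U, hU'o, hxU'⟩ := mem_nhds_iff.1 hU
    have h2 : IsOpen (f ⁻¹' U') := hU'o.preimage hf
    obtain ⟨O, hOo, hOe⟩ := isOpen_induced_iff.1 h2
    have hzO : z ∈ O := by
      have : (⟨z, hz, hzP⟩ : Ω) ∈ Subtype.val ⁻¹' O := by
        rw [hOe]
        show f ⟨z, hz, hzP⟩ ∈ U'
        rw [hi] at hxU'
        exact hxU'
      exact this
    have h3 := hO (O ∩ {z | lat z < Real.pi / 4}) (hOo.inter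
      (isOpen_lt continuous_lat continuous_const)) (fun z h => h.2)
    have h4 : Subtype.val ⁻¹' (D.eH '' (O ∩ {z | lat z < Real.pi / 4})) ∈ 𝓝 x :=
      (h3.preimage continuous_subtype_val).mem_nhds ⟨z, ⟨hzO, hz⟩, hx⟩
    refine Filter.mem_of_superset h4 ?_
    rintro x' ⟨z', ⟨hz'O, hz'⟩, hx'⟩
    apply hU'U
    rw [D.tkq_s1_in hz' hx']
    have : (⟨z', hz', D.tkq_s1_notP hx'⟩ : Ω) ∈ f ⁻¹' U' := by
      rw [← hOe]; exact hz'O
    exact this
  · have hx : x.1 ∉ D.core := by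
      rintro ⟨z, hz, h⟩
      exact hc ⟨z, by linarith [D.r₀_pos], h⟩
    let U : Set (Exterior D.eJ) := {y | y.1 ∉ D.core}
    have hU : IsOpen U := D.tkq_s1_core_closed.isOpen_compl.preimage continuous_subtype_val
    have h1 : ContinuousOn D.i₁ U := by
      rw [continuousOn_iff_continuous_domRestrict]
      have : U.domRestrict D.i₁ = fun y => D.gB (⟨y.1.1, y.2⟩, 1) := by
        funext y
        exact D.tkq_s1_out y.2
      rw [this]
      refine (gl2_cont _ _ _ _).comp ?_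
      exact (Continuous.subtype_mk (continuous_subtype_val.comp continuous_subtype_val) _).prodMk
        continuous_const
    exact h1.continuousAt (hU.mem_nhds hx)

theorem tkq_s1_cap_cont : Continuous D.cap := by
  unfold cap
  refine Continuous.prodMk (Continuous.subtype_mk ?_ _) continuous_snd
  fun_prop

theorem tkq_s1_j_cont : Continuous D.j₁ := by
  refine (gl1_cont _ _ _ _).comp (Continuous.subtype_mk ?_ _)
  exact continuous_colZ.comp (continuous_const.prodMk D.tkq_s1_cap_cont)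

theorem tkq_s1_sq_le (d : Disc) : D.ε ^ 2 * ‖d.1‖ ^ 2 < 1 := by
  have h1 := D.ε_pos
  have h2 := D.ε_lt
  have h3 := d.2
  have h4 := norm_nonneg d.1
  have h5 : D.ε * ‖d.1‖ < 1 := by nlinarith
  have h6 : 0 ≤ D.ε * ‖d.1‖ := by positivity
  have : (D.ε * ‖d.1‖) ^ 2 < 1 := by nlinarith
  rwa [mul_pow] at this

theorem tkq_s1_cap_inj : Function.Injective D.cap := by
  intro q q' h
  have h0 : q.2 = q'.2 := congrArg (fun p : S2 × Circle => p.2) h
  have h1 : (D.cap q).1.1.2 = (D.cap q').1.1.2 := by rw [h]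
  have h2 : (D.cap q).1.1.1 = (D.cap q').1.1.1 := by rw [h]
  have hε := D.ε_pos
  have e1 : 1 - 2 * D.ε ^ 2 * ‖q.1.1‖ ^ 2 = 1 - 2 * D.ε ^ 2 * ‖q'.1.1‖ ^ 2 := h1
  have e2 : (2 : ℂ) * D.ε * Real.sqrt (1 - D.ε ^ 2 * ‖q.1.1‖ ^ 2) * q.1.1 =
    2 * D.ε * Real.sqrt (1 - D.ε ^ 2 * ‖q'.1.1‖ ^ 2) * q'.1.1 := h2
  have e3 : D.ε ^ 2 * ‖q.1.1‖ ^ 2 = D.ε ^ 2 * ‖q'.1.1‖ ^ 2 := by linarith
  rw [← e3] at e2
  have hs : 0 < Real.sqrt (1 - D.ε ^ 2 * ‖q.1.1‖ ^ 2) :=
    Real.sqrt_pos.2 (by linarith [D.tkq_s1_sq_le q.1])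
  have e4 : (2 : ℂ) * D.ε * Real.sqrt (1 - D.ε ^ 2 * ‖q.1.1‖ ^ 2) ≠ 0 := by
    have a : (D.ε : ℂ) ≠ 0 := by exact_mod_cast hε.ne'
    have b : ((Real.sqrt (1 - D.ε ^ 2 * ‖q.1.1‖ ^ 2) : ℝ) : ℂ) ≠ 0 := by exact_mod_cast hs.ne'
    exact mul_ne_zero (mul_ne_zero two_ne_zero a) b
  exact Prod.ext (Subtype.ext (mul_left_cancel₀ e4 e2)) h0

theorem tkq_s1_j_inj : Function.Injective D.j₁ := by
  intro q q' h
  have h1 := congrArg Subtype.val (gl1_inj _ _ _ _ h)
  exact D.tkq_s1_cap_inj (colZ_inj le_rfl one_pos le_rfl one_pos h1).2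

/-- the points of the sphere above the level `1 - 2ε²` are in the cap -/
theorem tkq_s1_cap_surj {p : S2 × Circle} (h : 1 - 2 * D.ε ^ 2 ≤ p.1.1.2) : ∃ q, D.cap q = p := by
  have hε := D.ε_pos
  have hε1 := D.ε_lt
  have hy := p.1.2
  have hpos : 0 < (1 + p.1.1.2) / 2 := by nlinarith
  have hs := Real.sqrt_pos.2 hpos
  have hs2 : Real.sqrt ((1 + p.1.1.2) / 2) ^ 2 = (1 + p.1.1.2) / 2 := Real.sq_sqrt hpos.le
  have hn : ‖p.1.1.1 / (2 * D.ε * Real.sqrt ((1 + p.1.1.2) / 2) : ℂ)‖ ^ 2 =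
      (1 - p.1.1.2) / (2 * D.ε ^ 2) := by
    rw [norm_div, norm_mul, norm_mul, Complex.norm_real, Complex.norm_real, Real.norm_eq_abs,
      Real.norm_eq_abs, abs_of_pos hs, abs_of_pos hε, Complex.norm_ofNat, div_pow, mul_pow, hs2]
    have h4 : ‖p.1.1.1‖ ^ 2 = (1 - p.1.1.2) * (1 + p.1.1.2) := by nlinarith
    rw [h4]
    have : 1 + p.1.1.2 ≠ 0 := by linarith
    field_simp
  have hle : ‖p.1.1.1 / (2 * D.ε * Real.sqrt ((1 + p.1.1.2) / 2) : ℂ)‖ ≤ 1 := by
    have : (1 - p.1.1.2) / (2 * D.ε ^ 2) ≤ 1 := by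
      rw [div_le_one (by positivity)]
      linarith
    have h0 := norm_nonneg (p.1.1.1 / (2 * D.ε * Real.sqrt ((1 + p.1.1.2) / 2) : ℂ))
    nlinarith
  refine ⟨(⟨_, hle⟩, p.2), ?_⟩
  have e1 : D.ε ^ 2 * ‖p.1.1.1 / (2 * D.ε * Real.sqrt ((1 + p.1.1.2) / 2) : ℂ)‖ ^ 2 =
      (1 - p.1.1.2) / 2 := by
    rw [hn]
    field_simp
  apply Prod.ext
  · apply Subtype.ext
    apply Prod.ext
    · show (2 : ℂ) * D.ε * Real.sqrt (1 - D.ε ^ 2 *
        ‖p.1.1.1 / (2 * D.ε * Real.sqrt ((1 + p.1.1.2) / 2) : ℂ)‖ ^ 2) *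
        (p.1.1.1 / (2 * D.ε * Real.sqrt ((1 + p.1.1.2) / 2) : ℂ)) = p.1.1.1
      rw [e1, show 1 - (1 - p.1.1.2) / 2 = (1 + p.1.1.2) / 2 by ring]
      have a : (D.ε : ℂ) ≠ 0 := by exact_mod_cast hε.ne'
      have b : ((Real.sqrt ((1 + p.1.1.2) / 2) : ℝ) : ℂ) ≠ 0 := by exact_mod_cast hs.ne'
      field_simp
    · show 1 - 2 * D.ε ^ 2 * ‖p.1.1.1 / (2 * D.ε * Real.sqrt ((1 + p.1.1.2) / 2) : ℂ)‖ ^ 2 = p.1.1.2
      linarith
  · rfl

theorem tkq_s1_gam_2 (p : Circle × Disc) : (gam D.ε p).1.2 = D.ε * p.2.1 := by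
  show (dsc ((D.ε : ℂ) * p.2.1)).1 = _
  apply dsc_val
  rw [norm_mul, Complex.norm_real, Real.norm_eq_abs, abs_of_pos D.ε_pos]
  have := D.ε_pos
  have := D.ε_lt
  have := p.2.2
  have := norm_nonneg p.2.1
  nlinarith

theorem tkq_s1_gam_1 (p : Circle × Disc) :
    (gam D.ε p).1.1 = (p.1 : ℂ) * Real.sqrt (1 - D.ε ^ 2 * ‖p.2.1‖ ^ 2) := by
  have h : (dsc ((D.ε : ℂ) * p.2.1)).1 = D.ε * p.2.1 := D.tkq_s1_gam_2 p
  show (p.1 : ℂ) * Real.sqrt (1 - ‖(dsc ((D.ε : ℂ) * p.2.1)).1‖ ^ 2) = _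
  rw [h, norm_mul, Complex.norm_real, Real.norm_eq_abs, abs_of_pos D.ε_pos, mul_pow]

/-- the points of the tube -/
theorem tkq_s1_tube (w : S3) (h : ‖w.1.2‖ ≤ D.ε) :
    ∃ p : Circle × Disc, gam D.ε p = w ∧ p.1 = unitC w.1.1 ∧ p.2.1 = w.1.2 / D.ε := by
  have hε := D.ε_pos
  have h3 : ‖w.1.2 / (D.ε : ℂ)‖ ≤ 1 := by
    rw [norm_div, Complex.norm_real, Real.norm_eq_abs, abs_of_pos hε, div_le_one hε]
    exact h
  have hne : (D.ε : ℂ) ≠ 0 := by exact_mod_cast hε.ne'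
  refine ⟨(unitC w.1.1, ⟨w.1.2 / D.ε, h3⟩), ?_, rfl, rfl⟩
  apply Subtype.ext
  apply Prod.ext
  · rw [D.tkq_s1_gam_1]
    show (unitC w.1.1 : ℂ) * Real.sqrt (1 - D.ε ^ 2 * ‖w.1.2 / (D.ε : ℂ)‖ ^ 2) = _
    have e : D.ε ^ 2 * ‖w.1.2 / (D.ε : ℂ)‖ ^ 2 = ‖w.1.2‖ ^ 2 := by
      rw [norm_div, Complex.norm_real, Real.norm_eq_abs, abs_of_pos hε]
      field_simp
    have h9 : 1 - ‖w.1.2‖ ^ 2 = ‖w.1.1‖ ^ 2 := by linarith [w.2]
    rw [e, h9, Real.sqrt_sq (norm_nonneg _), mul_comm]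
    exact norm_mul_unitC _
  · rw [D.tkq_s1_gam_2]
    show (D.ε : ℂ) * (w.1.2 / D.ε) = _
    field_simp

theorem tkq_s1_eJ_core (p : Circle × Disc) : D.eJ p ∈ D.core :=
  ⟨D.φ.symm (gam D.ε p), (D.ε_in p).le, rfl⟩

/-- the cap on the boundary torus -/
theorem tkq_s1_cap_bd (u v : Circle) : D.cap (toDisc u, v) = iO (gam D.ε (u, toDisc v)) := by
  have hε := D.ε_pos
  have hε1 := D.ε_lt
  have e2 := D.tkq_s1_gam_2 (u, toDisc v)
  have e1 := D.tkq_s1_gam_1 (u, toDisc v)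
  have hv : ‖(toDisc v).1‖ = 1 := Circle.norm_coe v
  have hu : ‖(toDisc u).1‖ = 1 := Circle.norm_coe u
  have hs : 0 ≤ 1 - D.ε ^ 2 := by nlinarith
  have n2 : ‖(gam D.ε (u, toDisc v)).1.2‖ = D.ε := by
    rw [e2, norm_mul, Complex.norm_real, Real.norm_eq_abs, abs_of_pos hε]
    show D.ε * ‖(toDisc v).1‖ = _
    rw [hv, mul_one]
  apply Prod.ext
  · apply Subtype.ext
    apply Prod.ext
    · show (2 : ℂ) * D.ε * Real.sqrt (1 - D.ε ^ 2 * ‖(toDisc u).1‖ ^ 2) * (toDisc u).1 =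
        2 * (‖(gam D.ε (u, toDisc v)).1.2‖ : ℂ) * (gam D.ε (u, toDisc v)).1.1
      rw [n2, e1]
      show _ = 2 * (D.ε : ℂ) * ((u : ℂ) * Real.sqrt (1 - D.ε ^ 2 * ‖(toDisc v).1‖ ^ 2))
      rw [hu, hv]
      show (2 : ℂ) * D.ε * Real.sqrt (1 - D.ε ^ 2 * 1 ^ 2) * (u : ℂ) = _
      ring
    · show 1 - 2 * D.ε ^ 2 * ‖(toDisc u).1‖ ^ 2 =
        ‖(gam D.ε (u, toDisc v)).1.1‖ ^ 2 - ‖(gam D.ε (u, toDisc v)).1.2‖ ^ 2
      have := (gam D.ε (u, toDisc v)).2
      rw [n2] at this ⊢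
      rw [hu]
      linarith
  · show v = unitC (gam D.ε (u, toDisc v)).1.2
    rw [e2]
    show v = unitC ((D.ε : ℂ) * (v : ℂ))
    rw [mul_comm, unitC_mul_pos v hε]

/-- TASK 12. The second end `Y₁` is the surgery on `eJ`. -/
theorem surgery₁ (hO : ∀ O : Set S3, IsOpen O → (∀ z ∈ O, lat z < Real.pi / 4) → IsOpen (D.eH '' O)) :
    IsZeroSurgery D.eJ D.Y₁ D.i₁ D.j₁ := by
  have hε := D.ε_pos
  have hε1 := D.ε_lt
  refine ⟨D.tkq_s1_i_cont hO, D.tkq_s1_inj, D.tkq_s1_j_cont, D.tkq_s1_j_inj, ?_, ?_⟩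
  · apply Subset.antisymm
    · rintro y (⟨x, rfl⟩ | ⟨q, rfl⟩)
      · by_cases hc : x.1 ∈ D.core
        · obtain ⟨z, hz, hx⟩ := id hc
          have hz' : lat z < Real.pi / 4 := by linarith [D.r₀_pos]
          rw [D.tkq_s1_in hz' hx, D.gA_Y₁]
          refine ⟨D.G z, fun z' hz'' e => ?_, rfl⟩
          have := D.G_inj (D.notMem_P_of_lat (by linarith [D.r₀_pos])) (D.tkq_s1_notP hx) e
          rw [this] at hz''
          linarith
        · rw [D.tkq_s1_out hc, D.gB_Y₁]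
      · show D.gA _ ∈ D.Y₁
        rw [D.gA_Y₁]
        exact ⟨D.cap q, fun z hz => D.cap_ne_G q hz, rfl⟩
    · rintro y (⟨a, ⟨p, hp, ha⟩, rfl⟩ | ⟨b, hb, rfl⟩)
      · by_cases hl : 1 - 2 * D.ε ^ 2 ≤ p.1.1.2
        · right
          obtain ⟨q, hq⟩ := D.tkq_s1_cap_surj hl
          refine ⟨q, ?_⟩
          show D.gA _ = D.gA a
          congr 1
          apply Subtype.ext
          rw [ha]
          show colZ 0 (D.cap q) = _
          rw [hq]
        · left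
          push Not at hl
          have hlt : p.1.1.2 < 1 := by nlinarith
          set z : S3 := D.φ.symm ⟨iOi p, iOi_mem hlt⟩ with hzdef
          have hφz : D.φ z = ⟨iOi p, iOi_mem hlt⟩ := by rw [hzdef, Homeomorph.apply_symm_apply]
          have hG : D.G z = p := by
            show iO (D.φ z) = p
            rw [hφz]; exact iO_iOi hlt
          have hz : lat z < Real.pi / 4 := by
            by_contra hc
            push Not at hc
            exact hp z hc hG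
          have hbig : D.ε < ‖(D.φ z).1.2‖ := by
            have h1 := D.G_lat z
            rw [hG] at h1
            have h2 : D.ε ^ 2 < ‖(D.φ z).1.2‖ ^ 2 := by linarith
            exact lt_of_pow_lt_pow_left₀ 2 (norm_nonneg _) h2
          have hext : ∀ p' : Circle × Disc, ‖p'.2.1‖ < 1 → D.eJ p' ≠ D.eH z := by
            intro p' hp' he
            have h1 : D.φ.symm (gam D.ε p') = z := D.eH_injOn
              (show lat _ ≤ _ by linarith [D.ε_in p', D.r₀_pos]) (show lat _ ≤ _ from hz.le) he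
            rw [Homeomorph.symm_apply_eq] at h1
            rw [← h1, D.tkq_s1_gam_2, norm_mul, Complex.norm_real, Real.norm_eq_abs,
              abs_of_pos hε] at hbig
            nlinarith
          refine ⟨⟨D.eH z, hext⟩, ?_⟩
          rw [D.tkq_s1_in hz rfl]
          show D.gA _ = D.gA a
          congr 1
          apply Subtype.ext
          rw [ha]
          show colZ 0 (D.G z) = _
          rw [hG]
      · left
        have hext : ∀ p' : Circle × Disc, ‖p'.2.1‖ < 1 → D.eJ p' ≠ b.1.1 := by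
          intro p' _ he
          exact b.1.2 (he ▸ D.tkq_s1_eJ_core p')
        refine ⟨⟨b.1.1, hext⟩, ?_⟩
        rw [D.tkq_s1_out b.1.2]
        show D.gB _ = D.gB b
        congr 1
        exact Prod.ext rfl (show (1 : unitInterval) = b.2 from Eq.symm hb)
  · intro x q
    constructor
    · intro h
      obtain ⟨z, hz, hx, e⟩ := D.tkq_s1_gA (h : D.i₁ x = D.gA _)
      have e2 : D.cap q = D.G z := (colZ_inj le_rfl one_pos le_rfl one_pos e).2
      have e3 : (D.cap q).1.1.2 = 1 - 2 * ‖(D.φ z).1.2‖ ^ 2 := by rw [e2, D.G_lat]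
      have e4 : 1 - 2 * D.ε ^ 2 * ‖q.1.1‖ ^ 2 = 1 - 2 * ‖(D.φ z).1.2‖ ^ 2 := e3
      have e5 : ‖(D.φ z).1.2‖ = D.ε * ‖q.1.1‖ := by
        have : ‖(D.φ z).1.2‖ ^ 2 = (D.ε * ‖q.1.1‖) ^ 2 := by rw [mul_pow]; linarith
        exact (sq_eq_sq₀ (norm_nonneg _) (by positivity)).1 this
      have hle : ‖(D.φ z).1.2‖ ≤ D.ε := by
        rw [e5]; nlinarith [q.1.2]
      obtain ⟨p, hp, hp1, hp2⟩ := D.tkq_s1_tube (D.φ z) hle
      have hep : D.eJ p = x.1 := by
        unfold eJ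
        rw [hp, Homeomorph.symm_apply_apply, hx]
      have hnp : ‖p.2.1‖ = ‖q.1.1‖ := by
        rw [hp2, norm_div, Complex.norm_real, Real.norm_eq_abs, abs_of_pos hε, e5]
        field_simp
      have hq1 : ‖q.1.1‖ = 1 := by
        refine le_antisymm q.1.2 ?_
        by_contra hc
        push Not at hc
        exact x.2 p (by rw [hnp]; exact hc) hep
      -- the circle points
      let u : Circle := ⟨q.1.1, mem_sphere_zero_iff_norm.mpr hq1⟩
      have hqu : q.1 = toDisc u := Subtype.ext rfl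
      let v' : Circle := ⟨p.2.1, mem_sphere_zero_iff_norm.mpr (hnp.trans hq1)⟩
      have hpv : p.2 = toDisc v' := Subtype.ext rfl
      have hpp : p = (p.1, toDisc v') := Prod.ext rfl hpv
      have e6 : D.cap q = D.cap (toDisc p.1, v') := by
        rw [D.tkq_s1_cap_bd, ← hpp, hp, e2]
        rfl
      have e7 := D.tkq_s1_cap_inj e6
      refine ⟨u, hqu, ?_⟩
      have e8 : q.1 = toDisc p.1 := congrArg Prod.fst e7
      have e9 : q.2 = v' := congrArg Prod.snd e7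
      have e10 : u = p.1 := by
        apply Subtype.ext
        have := congrArg Subtype.val e8
        exact this
      rw [← hep, e9, e10, ← hpp]
    · rintro ⟨u, hu, hx⟩
      have hz : lat (D.φ.symm (gam D.ε (u, toDisc q.2))) < Real.pi / 4 := by
        linarith [D.ε_in (u, toDisc q.2), D.r₀_pos]
      rw [D.tkq_s1_in hz hx.symm]
      show D.gA _ = D.gA _
      congr 1
      apply Subtype.ext
      show colZ 0 (D.G _) = colZ 0 (D.cap q)
      have hq : q = (toDisc u, q.2) := Prod.ext hu rfl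
      congr 1
      rw [hq, D.tkq_s1_cap_bd]
      show iO (D.φ (D.φ.symm _)) = _
      rw [Homeomorph.apply_symm_apply]

end Dat
end Pool.Agent.H753.Cob
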