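import Pool.Agent.H753.Cob.VP
import Pool.Agent.H753.Cob.T_mv
set_option autoImplicit false
namespace Pool.Agent.H753.Cob
open Set Topology
open Pool.Agent.Helper60.Fin (S3 Disc d0 ZeroFramed)
open Pool.Agent.Helper534.LS (HH hmap sub)

theorem tkv_unit {X : Type} [TopologicalSpace X] {f : X → ℂ} (hf : Continuous f)
    (h0 : ∀ x, f x ≠ 0) : Continuous fun x => unitC (f x) :=
  continuous_iff_continuousAt.2 fun x =>
    ContinuousAt.comp (f := f) (continuousAt_unitC (h0 x)) hf.continuousAt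

theorem tkv_cl {X : Type} [TopologicalSpace X] {u v : X → Circle} {s : X → ℝ} (hu : Continuous u)
    (hv : Continuous v) (hs : Continuous s) : Continuous fun x => cl (u x) (v x) (s x) :=
  continuous_cl.comp (hu.prodMk (hv.prodMk hs))

theorem tkv_norm_le (s : unitInterval) (z : S3) : ‖((s : ℝ) : ℂ) * z.1.2‖ ≤ ‖z.1.2‖ := by
  rw [norm_mul, Complex.norm_real, Real.norm_eq_abs, abs_of_nonneg s.2.1]
  have := s.2.2
  have := norm_nonneg z.1.2
  nlinarith

/-- shrinking the second coordinate -/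
noncomputable def tkv_shr (s : unitInterval) (z : S3) : S3 :=
  ⟨((unitC z.1.1 : ℂ) * Real.sqrt (1 - ‖((s : ℝ) : ℂ) * z.1.2‖ ^ 2), ((s : ℝ) : ℂ) * z.1.2), by
    have h1 : ‖((s : ℝ) : ℂ) * z.1.2‖ ≤ 1 := (tkv_norm_le s z).trans (norm_le_one z)
    have h0 := norm_nonneg (((s : ℝ) : ℂ) * z.1.2)
    rw [norm_mul (unitC z.1.1 : ℂ), Circle.norm_coe, one_mul, Complex.norm_real, Real.norm_eq_abs,
      sq_abs, Real.sq_sqrt (by nlinarith)]
    ring⟩

theorem tkv_shr_cont {X : Type} [TopologicalSpace X] {s : X → unitInterval} {z : X → S3}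
    (hs : Continuous s) (hz : Continuous z) (h0 : ∀ x, (z x).1.1 ≠ 0) :
    Continuous fun x => tkv_shr (s x) (z x) := by
  have h1 : Continuous fun x => unitC (z x).1.1 := tkv_unit (by fun_prop) h0
  unfold tkv_shr
  apply Continuous.subtype_mk
  apply Continuous.prodMk
  · apply Continuous.mul
    · exact continuous_subtype_val.comp h1
    · fun_prop
  · fun_prop

theorem tkv_shr_one (z : S3) : tkv_shr 1 z = z := by
  apply Subtype.ext
  apply Prod.ext
  · show (unitC z.1.1 : ℂ) * Real.sqrt (1 - ‖(((1 : unitInterval) : ℝ) : ℂ) * z.1.2‖ ^ 2) = z.1.1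
    rw [Icc.coe_one, Complex.ofReal_one, one_mul]
    have h : 1 - ‖z.1.2‖ ^ 2 = ‖z.1.1‖ ^ 2 := by linarith [z.2]
    rw [h, Real.sqrt_sq (norm_nonneg _), mul_comm]
    exact norm_mul_unitC _
  · show (((1 : unitInterval) : ℝ) : ℂ) * z.1.2 = z.1.2
    rw [Icc.coe_one, Complex.ofReal_one, one_mul]

theorem tkv_shr_zero (z : S3) : tkv_shr 0 z = cl (unitC z.1.1) 1 0 := by
  apply Subtype.ext
  apply Prod.ext
  · show (unitC z.1.1 : ℂ) * Real.sqrt (1 - ‖(((0 : unitInterval) : ℝ) : ℂ) * z.1.2‖ ^ 2) =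
      (unitC z.1.1 : ℂ) * Real.cos 0
    rw [Icc.coe_zero, Complex.ofReal_zero, zero_mul, norm_zero]
    simp
  · show (((0 : unitInterval) : ℝ) : ℂ) * z.1.2 = ((1 : Circle) : ℂ) * Real.sin 0
    simp

theorem tkv_cl0_1 (u v : Circle) : (cl u v 0).1.1 = u := by
  rw [cl_1]; simp

theorem tkv_cl0_2 (u v : Circle) : (cl u v 0).1.2 = 0 := by
  rw [cl_2]; simp

theorem tkv_ne_one {z : S3} (h : ‖z.1.2‖ < 1) : z.1.1 ≠ 0 := by
  intro h0
  have := z.2
  rw [h0, norm_zero] at this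
  nlinarith [norm_nonneg z.1.2]

namespace Dat
variable (D : Dat)

/-- the open tube around the pattern -/
def tkv_Nu : Set S3 := {z | ‖(D.φ z).1.2‖ < D.ε}
/-- the open solid torus -/
def tkv_Vo : Set S3 := {z | lat z < Real.pi / 4}

theorem tkv_Nu_sub : D.tkv_Nu ⊆ tkv_Vo := fun z hz => by
  have := D.lat_of_small (le_of_lt hz)
  show lat z < Real.pi / 4
  linarith [D.r₀_pos]

theorem tkv_Nu_open : IsOpen D.tkv_Nu := by
  have h : Continuous fun z : S3 => ‖(D.φ z).1.2‖ := by fun_prop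
  exact isOpen_lt h continuous_const

theorem tkv_P_closed : IsClosed D.P := (isCompact_range D.c_cont).isClosed

theorem tkv_φne {z : S3} (hz : z ∈ D.tkv_Nu) : (D.φ z).1.1 ≠ 0 :=
  tkv_ne_one (lt_trans hz D.ε_lt)

/-- the core circle of the tube -/
noncomputable def tkv_m (u : Circle) : S3 := D.φ.symm (cl u 1 0)

theorem tkv_m_cont : Continuous D.tkv_m :=
  D.φ.symm.continuous.comp (tkv_cl continuous_id continuous_const continuous_const)

theorem tkv_m_inj : Function.Injective D.tkv_m := by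
  intro u u' h
  have h1 : cl u 1 0 = cl u' 1 0 := D.φ.symm.injective h
  have h2 : ((u : Circle) : ℂ) = u' := by rw [← tkv_cl0_1 u 1, h1, tkv_cl0_1]
  exact Subtype.ext h2

theorem tkv_m_range : range D.tkv_m = range D.c := by
  ext z
  rw [← D.φ_c z]
  constructor
  · rintro ⟨u, rfl⟩
    rw [tkv_m, Homeomorph.apply_symm_apply, tkv_cl0_2]
  · intro h
    refine ⟨unitC (D.φ z).1.1, ?_⟩
    rw [tkv_m, Homeomorph.symm_apply_eq]
    have e := cl_lat (D.φ z)
    have hl : lat (D.φ z) = 0 := by rw [lat, h, norm_zero, Real.arcsin_zero]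
    rw [hl] at e
    rw [← e]
    apply Subtype.ext
    apply Prod.ext
    · rw [tkv_cl0_1, tkv_cl0_1, unitC_circle]
    · rw [tkv_cl0_2, tkv_cl0_2]

/-- the reparametrisation of the pattern -/
noncomputable def tkv_θ : Circle ≃ₜ Circle :=
  ((D.tkv_m_cont.isClosedEmbedding D.tkv_m_inj).isEmbedding.toHomeomorph.trans
    (Homeomorph.setCongr D.tkv_m_range)).trans
    (D.c_cont.isClosedEmbedding D.c_inj).isEmbedding.toHomeomorph.symm

theorem tkv_θ_spec (u : Circle) : D.c (D.tkv_θ u) = D.φ.symm (cl u 1 0) := by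
  set e := (D.c_cont.isClosedEmbedding D.c_inj).isEmbedding.toHomeomorph with he
  have h1 : ∀ w, (e w : S3) = D.c w := fun w => rfl
  rw [← h1]
  have h2 : e (D.tkv_θ u) = (Homeomorph.setCongr D.tkv_m_range)
      ((D.tkv_m_cont.isClosedEmbedding D.tkv_m_inj).isEmbedding.toHomeomorph u) := by
    show e (e.symm _) = _
    rw [Homeomorph.apply_symm_apply]
    rfl
  rw [h2]
  rfl

theorem tkv_m_mem (u : Circle) : D.tkv_m u ∈ D.tkv_Nu := by
  show ‖(D.φ (D.φ.symm (cl u 1 0))).1.2‖ < D.ε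
  rw [Homeomorph.apply_symm_apply, tkv_cl0_2, norm_zero]
  exact D.ε_pos

/-- the core of the tube -/
noncomputable def tkv_κ : C(Circle, D.tkv_Nu) :=
  ⟨fun u => ⟨D.tkv_m u, D.tkv_m_mem u⟩, D.tkv_m_cont.subtype_mk D.tkv_m_mem⟩

/-- the retraction of the tube -/
noncomputable def tkv_r : C(D.tkv_Nu, Circle) :=
  ⟨fun z => unitC (D.φ z.1).1.1, tkv_unit (by fun_prop) fun z => D.tkv_φne z.2⟩

theorem tkv_κr : HIso D.tkv_κ ∧ HIso D.tkv_r := by
  apply hiso_of_section
  · intro u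
    show unitC (D.φ (D.φ.symm (cl u 1 0))).1.1 = u
    rw [Homeomorph.apply_symm_apply, tkv_cl0_1, unitC_circle]
  · refine homotopic_of _ _ (fun p => ⟨D.φ.symm (tkv_shr p.2 (D.φ p.1.1)), ?_⟩) ?_ ?_ ?_
    · show ‖(D.φ (D.φ.symm (tkv_shr p.2 (D.φ p.1.1)))).1.2‖ < D.ε
      rw [Homeomorph.apply_symm_apply]
      exact lt_of_le_of_lt (tkv_norm_le _ _) p.1.2
    · apply Continuous.subtype_mk
      refine D.φ.symm.continuous.comp (tkv_shr_cont continuous_snd (by fun_prop) fun p => ?_)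
      exact D.tkv_φne p.1.2
    · intro z
      apply Subtype.ext
      show D.φ.symm (tkv_shr 0 (D.φ z.1)) = D.φ.symm (cl (unitC (D.φ z.1).1.1) 1 0)
      rw [tkv_shr_zero]
    · intro z
      apply Subtype.ext
      show D.φ.symm (tkv_shr 1 (D.φ z.1)) = z.1
      rw [tkv_shr_one, Homeomorph.symm_apply_apply]

theorem tkv_core_mem (u : Circle) : cl u 1 0 ∈ tkv_Vo := by
  show lat (cl u 1 0) < Real.pi / 4
  rw [lat_cl _ _ le_rfl (by positivity)]
  positivity

/-- the core of the solid torus -/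
noncomputable def tkv_κV : C(Circle, tkv_Vo) :=
  ⟨fun u => ⟨cl u 1 0, tkv_core_mem u⟩,
    (tkv_cl continuous_id continuous_const continuous_const).subtype_mk tkv_core_mem⟩

/-- the retraction of the solid torus -/
noncomputable def tkv_rV : C(tkv_Vo, Circle) :=
  ⟨fun z => unitC z.1.1.1, tkv_unit (by fun_prop) fun z => ne_of_lat z.2⟩

theorem tkv_lat_shr (s : unitInterval) (z : S3) : lat (tkv_shr s z) ≤ lat z := by
  unfold lat
  exact Real.monotone_arcsin (tkv_norm_le s z)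

theorem tkv_κrV : HIso tkv_κV ∧ HIso tkv_rV := by
  apply hiso_of_section
  · intro u
    show unitC (cl u 1 0).1.1 = u
    rw [tkv_cl0_1, unitC_circle]
  · refine homotopic_of _ _ (fun p => ⟨tkv_shr p.2 p.1.1, ?_⟩) ?_ ?_ ?_
    · show lat (tkv_shr p.2 p.1.1) < Real.pi / 4
      exact lt_of_le_of_lt (tkv_lat_shr _ _) p.1.2
    · apply Continuous.subtype_mk
      refine tkv_shr_cont continuous_snd (by fun_prop) fun p => ?_
      exact ne_of_lat p.1.2
    · intro z
      apply Subtype.ext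
      show tkv_shr 0 z.1 = cl (unitC z.1.1.1) 1 0
      rw [tkv_shr_zero]
    · intro z
      apply Subtype.ext
      show tkv_shr 1 z.1 = z.1
      rw [tkv_shr_one]

/-- the inclusion of the tube in the solid torus -/
def tkv_inc : C(D.tkv_Nu, tkv_Vo) := ⟨Set.inclusion D.tkv_Nu_sub, continuous_inclusion D.tkv_Nu_sub⟩

theorem tkv_hiso_h : ∃ h : C(Circle, Circle), (∀ u, h u = unitC (D.c u).1.1) ∧
    h.Homotopic (ContinuousMap.id Circle) ∧ HIso h := by
  obtain ⟨h, h1, h2⟩ := D.c_wind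
  exact ⟨h, h1, h2, hiso_id.congr h2.symm⟩

theorem tkv_hiso_inc : HIso D.tkv_inc := by
  obtain ⟨h, h1, -, h2⟩ := D.tkv_hiso_h
  have hθ : HIso (⟨D.tkv_θ, D.tkv_θ.continuous⟩ : C(Circle, Circle)) := hiso_homeo D.tkv_θ
  have e : tkv_rV.comp (D.tkv_inc.comp D.tkv_κ) = h.comp ⟨D.tkv_θ, D.tkv_θ.continuous⟩ := by
    apply ContinuousMap.ext
    intro u
    show unitC (D.φ.symm (cl u 1 0)).1.1 = h (D.tkv_θ u)
    rw [h1, tkv_θ_spec]
  have h3 : HIso (tkv_rV.comp (D.tkv_inc.comp D.tkv_κ)) := by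
    rw [e]
    exact h2.comp hθ
  exact (h3.of_comp_left tkv_κrV.2).of_comp_right D.tkv_κr.1

/-- TASK 15a. Let `Nu = {z : ‖(φ z)₂‖ < ε}` (an open tube around `P`, contained in `Vo = {lat < π/4}` by
`D.lat_of_small`). (1) `κ : S¹ → Nu`, `u ↦ φ⁻¹ (cl u 1 0)` and `r : Nu → S¹`, `z ↦ unitC (φ z)₁` are inverse up to
homotopy (`hiso_of_section`; homotopy `(z, s) ↦ φ⁻¹ (unitC (φ z)₁ √(1 - |s (φ z)₂|²), s (φ z)₂)`), and so are
`u ↦ cl u 1 0` and `z ↦ unitC z₁` for `Vo`. (2) `Nu → Vo` is an `HIso`: the composition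
`S¹ → Nu → Vo → S¹` is `u ↦ unitC (φ⁻¹ (cl u 1 0))₁ = h (θ u)` with `h` of `D.c_wind`, homotopic to the
identity, and `θ : S¹ → S¹` the homeomorphism with `c (θ u) = φ⁻¹ (cl u 1 0)` (`D.φ_c`; `c` is a homeomorphism of
`S¹` onto `P`, by compactness). (3) apply `five_part` to `f : Nu → Vo` (subtypes), `U = {z ∈ Nu : z ∉ P}`, `V = univ`,
`U' = {z ∈ Vo : z ∉ P}`, `V' = {z ∈ Vo : z ∈ Nu}`, where `fV` and `fI` are homeomorphisms; finally identify `U`, `U'` with
`D.NP`, `D.VP` (homeomorphisms, `hiso_of_bij`). -/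
theorem hiso_NP : HIso D.incNP := by
  -- the open sets
  let U : Set D.tkv_Nu := {z | z.1 ∉ D.P}
  let V : Set D.tkv_Nu := univ
  let U' : Set tkv_Vo := {z | z.1 ∉ D.P}
  let V' : Set tkv_Vo := {z | z.1 ∈ D.tkv_Nu}
  have hU : IsOpen U := D.tkv_P_closed.isOpen_compl.preimage continuous_subtype_val
  have hU' : IsOpen U' := D.tkv_P_closed.isOpen_compl.preimage continuous_subtype_val
  have hV' : IsOpen V' := D.tkv_Nu_open.preimage continuous_subtype_val
  have hPN : ∀ z, z ∈ D.P → z ∈ D.tkv_Nu := fun z hz => by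
    show ‖(D.φ z).1.2‖ < D.ε
    rw [(D.φ_c z).2 hz, norm_zero]
    exact D.ε_pos
  have hUV' : ∀ x, x ∈ U' ∨ x ∈ V' := fun x => by
    by_cases h : x.1 ∈ D.P
    · exact Or.inr (hPN _ h)
    · exact Or.inl h
  let fU : C(U, U') := ⟨fun x => ⟨D.tkv_inc x.1, x.2⟩,
    (D.tkv_inc.continuous.comp continuous_subtype_val).subtype_mk _⟩
  let fV : C(V, V') := ⟨fun x => ⟨D.tkv_inc x.1, x.1.2⟩,
    (D.tkv_inc.continuous.comp continuous_subtype_val).subtype_mk _⟩
  let fI : C(↥(U ∩ V), ↥(U' ∩ V')) := ⟨fun x => ⟨D.tkv_inc x.1, x.2.1, x.1.2⟩,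
    (D.tkv_inc.continuous.comp continuous_subtype_val).subtype_mk _⟩
  have hfV : HIso fV := by
    refine hiso_of_bij fV ⟨fun x => ⟨⟨x.1.1, x.2⟩, mem_univ _⟩, ?_⟩ (fun x => rfl) (fun y => rfl)
    exact ((continuous_subtype_val.comp continuous_subtype_val).subtype_mk _).subtype_mk _
  have hfI : HIso fI := by
    refine hiso_of_bij fI ⟨fun x => ⟨⟨x.1.1, x.2.2⟩, x.2.1, mem_univ _⟩, ?_⟩ (fun x => rfl)
      (fun y => rfl)
    exact ((continuous_subtype_val.comp continuous_subtype_val).subtype_mk _).subtype_mk _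
  have hfU : HIso fU := five_part U V hU isOpen_univ (fun x => Or.inr (mem_univ x)) U' V' hU' hV'
    hUV' D.tkv_inc fU fV fI (fun _ => rfl) (fun _ => rfl) (fun _ => rfl) D.tkv_hiso_inc hfV hfI
  -- identification
  let b : C(D.NP, U) := ⟨fun z => ⟨⟨z.1, z.2.2⟩, z.2.1⟩,
    (continuous_subtype_val.subtype_mk _).subtype_mk _⟩
  have hb : HIso b := by
    refine hiso_of_bij b ⟨fun x => ⟨x.1.1, x.2, x.1.2⟩, ?_⟩ (fun x => rfl) (fun y => rfl)
    exact (continuous_subtype_val.comp continuous_subtype_val).subtype_mk _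
  let a : C(U', D.VP) := ⟨fun z => ⟨z.1.1, z.1.2, z.2⟩,
    (continuous_subtype_val.comp continuous_subtype_val).subtype_mk _⟩
  have ha : HIso a := by
    refine hiso_of_bij a ⟨fun x => ⟨⟨x.1, x.2.1⟩, x.2.2⟩, ?_⟩ (fun x => rfl) (fun y => rfl)
    exact (continuous_subtype_val.subtype_mk _).subtype_mk _
  have e : D.incNP = a.comp (fU.comp b) := rfl
  rw [e]
  exact ha.comp (hfU.comp hb)

/-- the radius of the torus in the tube -/
noncomputable def tkv_a : ℝ := Real.arcsin (D.ε / 2)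

theorem tkv_sin_a : Real.sin D.tkv_a = D.ε / 2 :=
  Real.sin_arcsin (by linarith [D.ε_pos]) (by linarith [D.ε_lt])

theorem tkv_a_pos : 0 < D.tkv_a := Real.arcsin_pos.2 (by linarith [D.ε_pos])

theorem tkv_a_le : D.tkv_a ≤ Real.pi / 2 := Real.arcsin_le_pi_div_two _

theorem tkv_lt_arcsin {x : ℝ} (h0 : 0 ≤ x) (h1 : x < D.ε) : Real.arcsin x < Real.arcsin D.ε := by
  exact Real.arcsin_lt_arcsin (by linarith) h1 D.ε_lt.le

/-- points of the tube -/
theorem tkv_mem {u v : Circle} {s : ℝ} (h0 : 0 < s) (h1 : s < Real.arcsin D.ε) :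
    D.φ.symm (cl u v s) ∈ D.NP := by
  have h2 := Real.arcsin_le_pi_div_two D.ε
  have h3 : ‖(cl u v s).1.2‖ = Real.sin s := norm_cl_2 _ _ h0.le (by linarith)
  have h4 : 0 < Real.sin s := Real.sin_pos_of_pos_of_lt_pi h0 (by linarith [Real.pi_pos])
  have h5 : Real.sin s < D.ε := by
    have := Real.sin_lt_sin_of_lt_of_le_pi_div_two (by linarith [Real.pi_pos]) h2 h1
    rwa [Real.sin_arcsin (by linarith [D.ε_pos]) D.ε_lt.le] at this
  constructor
  · intro h
    have := (D.φ_c _).2 h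
    rw [Homeomorph.apply_symm_apply] at this
    rw [this, norm_zero] at h3
    linarith
  · rw [Homeomorph.apply_symm_apply, h3]
    exact h5

theorem tkv_a_lt : D.tkv_a < Real.arcsin D.ε :=
  D.tkv_lt_arcsin (by linarith [D.ε_pos]) (by linarith [D.ε_pos])

/-- the torus in the tube -/
noncomputable def tkv_τ : C(Circle × Circle, D.NP) :=
  ⟨fun p => ⟨D.φ.symm (cl p.2 p.1 D.tkv_a), D.tkv_mem D.tkv_a_pos D.tkv_a_lt⟩,
    (D.φ.symm.continuous.comp (tkv_cl continuous_snd continuous_fst continuous_const)).subtype_mk _⟩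

/-- the retraction of the punctured tube to the torus -/
noncomputable def tkv_ρ : C(D.NP, Circle × Circle) :=
  ⟨fun z => (unitC (D.φ z.1).1.2, unitC (D.φ z.1).1.1),
    (tkv_unit (by fun_prop) fun z => D.φ_ne z.2.1).prodMk
      (tkv_unit (by fun_prop) fun z => D.tkv_φne z.2.2)⟩

theorem tkv_τρ : HIso D.tkv_τ := by
  refine (hiso_of_section D.tkv_τ D.tkv_ρ ?_ ?_).1
  · intro p
    show (unitC (D.φ (D.φ.symm (cl p.2 p.1 D.tkv_a))).1.2,
      unitC (D.φ (D.φ.symm (cl p.2 p.1 D.tkv_a))).1.1) = p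
    rw [Homeomorph.apply_symm_apply, cl_1, cl_2, unitC_mul_pos, unitC_mul_pos]
    · refine Real.cos_pos_of_mem_Ioo ⟨by linarith [D.tkv_a_pos, Real.pi_pos], ?_⟩
      have := D.tkv_a_lt
      have := Real.arcsin_le_pi_div_two D.ε
      linarith
    · rw [tkv_sin_a]
      linarith [D.ε_pos]
  · refine homotopic_of _ _ (fun p => ⟨D.φ.symm (cl (unitC (D.φ p.1.1).1.1) (unitC (D.φ p.1.1).1.2)
      ((1 - (p.2 : ℝ)) * D.tkv_a + p.2 * lat (D.φ p.1.1))), ?_⟩) ?_ ?_ ?_
    · have h1 : 0 < lat (D.φ p.1.1) := by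
        unfold lat
        exact Real.arcsin_pos.2 (norm_pos_iff.2 (D.φ_ne p.1.2.1))
      have h2 : lat (D.φ p.1.1) < Real.arcsin D.ε := D.tkv_lt_arcsin (norm_nonneg _) p.1.2.2
      have h3 := D.tkv_a_pos
      have h4 := D.tkv_a_lt
      have h5 := p.2.2.1
      have h6 := p.2.2.2
      apply D.tkv_mem
      · rcases eq_or_lt_of_le h5 with h | h
        · rw [← h]; linarith
        · have := mul_pos h h1
          have := mul_nonneg (sub_nonneg.2 h6) h3.le
          linarith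
      · rcases eq_or_lt_of_le h5 with h | h
        · rw [← h]; linarith
        · have := mul_lt_mul_of_pos_left h2 h
          have := mul_le_mul_of_nonneg_left h4.le (sub_nonneg.2 h6)
          linarith
    · apply Continuous.subtype_mk
      refine D.φ.symm.continuous.comp (tkv_cl ?_ ?_ ?_)
      · exact tkv_unit (by fun_prop) fun p => D.tkv_φne p.1.2.2
      · exact tkv_unit (by fun_prop) fun p => D.φ_ne p.1.2.1
      · have h : Continuous fun p : D.NP × unitInterval => lat (D.φ p.1.1) :=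
          continuous_lat.comp (by fun_prop)
        fun_prop
    · intro z
      apply Subtype.ext
      show D.φ.symm (cl (unitC (D.φ z.1).1.1) (unitC (D.φ z.1).1.2)
        ((1 - ((0 : unitInterval) : ℝ)) * D.tkv_a + ((0 : unitInterval) : ℝ) * lat (D.φ z.1))) =
        D.φ.symm (cl (unitC (D.φ z.1).1.1) (unitC (D.φ z.1).1.2) D.tkv_a)
      rw [Icc.coe_zero, sub_zero, one_mul, zero_mul, add_zero]
    · intro z
      apply Subtype.ext
      show D.φ.symm (cl (unitC (D.φ z.1).1.1) (unitC (D.φ z.1).1.2)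
        ((1 - ((1 : unitInterval) : ℝ)) * D.tkv_a + ((1 : unitInterval) : ℝ) * lat (D.φ z.1))) = z.1
      rw [Icc.coe_one, sub_self, zero_mul, zero_add, one_mul, cl_lat, Homeomorph.symm_apply_apply]

/-- TASK 15b. `F ∘ incNP : NP → S¹ × S¹` is an `HIso`: `τ : S¹ × S¹ → NP`, `(v, u) ↦ φ⁻¹ (u √(1 - (ε/2)²), (ε/2) v)`
(i.e. `φ⁻¹ (cl u v (arcsin (ε/2)))`) and `z ↦ (unitC (φ z)₂, unitC (φ z)₁)` are inverse up to homotopy, and
`F (τ (v, u)) = (v, unitC (φ⁻¹ (cl u v (arcsin (ε/2))))₁)` is homotopic to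
`(v, u) ↦ (v, unitC (φ⁻¹ (cl u v 0))₁) = (v, h (θ u))`, a homeomorphism up to homotopy. Then use 15a. -/
theorem hiso_F : HIso D.F := by
  obtain ⟨h, h1, h2, -⟩ := D.tkv_hiso_h
  -- the limit map
  let T : C(Circle × Circle, Circle × Circle) := ⟨fun p => (p.1, h (D.tkv_θ p.2)), by fun_prop⟩
  have hT : HIso T := by
    let T1 : C(Circle × Circle, Circle × Circle) := ⟨fun p => (p.1, D.tkv_θ p.2), by fun_prop⟩
    let T2 : C(Circle × Circle, Circle × Circle) := ⟨fun p => (p.1, h p.2), by fun_prop⟩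
    have e : T = T2.comp T1 := rfl
    have hT1 : HIso T1 := by
      refine hiso_of_bij T1 ⟨fun p => (p.1, D.tkv_θ.symm p.2), by fun_prop⟩ ?_ ?_
      · intro p
        show (p.1, D.tkv_θ.symm (D.tkv_θ p.2)) = p
        rw [Homeomorph.symm_apply_apply]
      · intro p
        show (p.1, D.tkv_θ (D.tkv_θ.symm p.2)) = p
        rw [Homeomorph.apply_symm_apply]
    have hT2 : HIso T2 := by
      obtain ⟨H⟩ := h2.symm
      refine hiso_id.congr (homotopic_of _ _ (fun p => (p.1.1, H (p.2, p.1.2))) (by fun_prop) ?_ ?_)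
      · intro p
        show (p.1, H (0, p.2)) = p
        rw [H.apply_zero]
        rfl
      · intro p
        show (p.1, H (1, p.2)) = (p.1, h p.2)
        rw [H.apply_one]
    rw [e]
    exact hT2.comp hT1
  -- the homotopy
  have hsmall : ∀ (u v : Circle) (s : unitInterval),
      (D.φ.symm (cl u v ((s : ℝ) * D.tkv_a))).1.1 ≠ 0 := by
    intro u v s
    apply ne_of_lat
    have h3 := D.tkv_a_pos
    have h4 := D.tkv_a_le
    have h5 := s.2.1
    have h6 := s.2.2
    have h7 : (s : ℝ) * D.tkv_a ≤ D.tkv_a := by nlinarith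
    have h8 : ‖(D.φ (D.φ.symm (cl u v ((s : ℝ) * D.tkv_a)))).1.2‖ ≤ D.ε := by
      rw [Homeomorph.apply_symm_apply, norm_cl_2 _ _ (by positivity) (by linarith)]
      have := Real.sin_le_sin_of_le_of_le_pi_div_two
        (by nlinarith [Real.pi_pos] : -(Real.pi / 2) ≤ (s : ℝ) * D.tkv_a) h4 h7
      rw [tkv_sin_a] at this
      linarith [D.ε_pos]
    have := D.lat_of_small h8
    linarith [D.r₀_pos]
  have hhom : T.Homotopic (D.F.comp (D.incNP.comp D.tkv_τ)) := by
    refine homotopic_of _ _ (fun p => (p.1.1,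
      unitC (D.φ.symm (cl p.1.2 p.1.1 ((p.2 : ℝ) * D.tkv_a))).1.1)) ?_ ?_ ?_
    · apply Continuous.prodMk (by fun_prop)
      refine tkv_unit ?_ fun p => hsmall _ _ _
      have h3 : Continuous fun p : (Circle × Circle) × unitInterval =>
          cl p.1.2 p.1.1 ((p.2 : ℝ) * D.tkv_a) := tkv_cl (by fun_prop) (by fun_prop) (by fun_prop)
      have h4 := D.φ.symm.continuous.comp h3
      exact (continuous_fst.comp continuous_subtype_val).comp h4
    · intro p
      show (p.1, unitC (D.φ.symm (cl p.2 p.1 (((0 : unitInterval) : ℝ) * D.tkv_a))).1.1) =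
        (p.1, h (D.tkv_θ p.2))
      rw [h1, tkv_θ_spec, Icc.coe_zero, zero_mul]
      have : cl p.2 p.1 0 = cl p.2 1 0 := by
        apply Subtype.ext
        apply Prod.ext
        · rw [tkv_cl0_1, tkv_cl0_1]
        · rw [tkv_cl0_2, tkv_cl0_2]
      rw [this]
    · intro p
      show (p.1, unitC (D.φ.symm (cl p.2 p.1 (((1 : unitInterval) : ℝ) * D.tkv_a))).1.1) =
        (unitC (D.φ (D.φ.symm (cl p.2 p.1 D.tkv_a))).1.2,
          unitC (D.φ.symm (cl p.2 p.1 D.tkv_a)).1.1)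
      rw [Icc.coe_one, one_mul, Homeomorph.apply_symm_apply, cl_2, unitC_mul_pos]
      rw [tkv_sin_a]
      linarith [D.ε_pos]
  have h3 : HIso (D.F.comp (D.incNP.comp D.tkv_τ)) := hT.congr hhom
  exact h3.of_comp_right (D.hiso_NP.comp D.tkv_τρ)

end Dat
end Pool.Agent.H753.Cob
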