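import Pool.Agent.H753.Cob.Sets
set_option autoImplicit false
namespace Pool.Agent.H753.Cob
open Set Topology
open Pool.Agent.Helper60.Fin (S3 Disc d0 ZeroFramed)

/-- transport of a chart -/
theorem tkw_chart {X E F W : Type} [TopologicalSpace X] [TopologicalSpace E] [TopologicalSpace F]
    [TopologicalSpace W] (g : X → W) (hg : IsOpenEmbedding g) (j : X → E) (hj : IsOpenEmbedding j)
    (ψ₀ : OpenPartialHomeomorph E F) (x : X) (hx : j x ∈ ψ₀.source) :
    ∃ ψ : OpenPartialHomeomorph W F, g x ∈ ψ.source ∧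
      ∀ y ∈ ψ.source, ∃ x' : X, g x' = y ∧ j x' ∈ ψ₀.source ∧ ψ y = ψ₀ (j x') := by
  have : Nonempty X := ⟨x⟩
  refine ⟨(hg.toOpenPartialHomeomorph g).symm.trans ((hj.toOpenPartialHomeomorph j).trans ψ₀), ?_, ?_⟩
  · have h1 : (hg.toOpenPartialHomeomorph g).symm (g x) = x :=
      (hg.toOpenPartialHomeomorph g).left_inv (x := x) (by simp)
    simp [h1, hx]
  · intro y hy
    rw [OpenPartialHomeomorph.trans_source] at hy
    obtain ⟨hy1, hy2⟩ := hy
    have hy3 : y ∈ (hg.toOpenPartialHomeomorph g).target := hy1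
    refine ⟨(hg.toOpenPartialHomeomorph g).symm y, (hg.toOpenPartialHomeomorph g).right_inv hy3,
      ?_, rfl⟩
    have hy4 := hy2
    rw [mem_preimage, OpenPartialHomeomorph.trans_source] at hy4
    exact hy4.2

theorem tkw_S3_compact : CompactSpace S3 := by
  have h : IsCompact {z : ℂ × ℂ | ‖z.1‖ ^ 2 + ‖z.2‖ ^ 2 = 1} := by
    apply Metric.isCompact_of_isClosed_isBounded
    · exact isClosed_eq (by fun_prop) continuous_const
    · rw [Metric.isBounded_iff_subset_closedBall 0]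
      refine ⟨1, fun z hz => ?_⟩
      have hz' : ‖z.1‖ ^ 2 + ‖z.2‖ ^ 2 = 1 := hz
      rw [mem_closedBall_zero_iff, Prod.norm_def]
      have h1 := norm_nonneg z.1
      have h2 := norm_nonneg z.2
      exact max_le (by nlinarith) (by nlinarith)
  exact isCompact_iff_compactSpace.1 h

namespace Dat
variable (D : Dat)

theorem tkw_core_compact : IsCompact D.core := by
  have := tkw_S3_compact
  have h1 : IsClosed {z : S3 | lat z ≤ Real.pi / 4 - D.r₀} :=
    isClosed_le continuous_lat continuous_const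
  have h2 : D.core = D.eH '' {z : S3 | lat z ≤ Real.pi / 4 - D.r₀} := rfl
  rw [h2]
  apply h1.isCompact.image_of_continuousOn
  intro z hz
  have hV : z ∈ V := by
    show lat z ≤ Real.pi / 4
    have hz' : lat z ≤ Real.pi / 4 - D.r₀ := hz
    linarith [D.r₀_pos]
  have h3 : ContinuousAt (fun z : S3 => unitC z.1.1) z :=
    ContinuousAt.comp (f := fun z : S3 => z.1.1) (continuousAt_unitC (ne_of_V hV))
      (by fun_prop)
  have h4 : Continuous (fun z : S3 => dsc ((Real.sqrt 2 : ℝ) * z.1.2)) :=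
    continuous_dsc.comp (by fun_prop)
  have h5 : ContinuousAt D.eH z :=
    ContinuousAt.comp (f := fun z : S3 => (unitC z.1.1, dsc ((Real.sqrt 2 : ℝ) * z.1.2)))
      D.e_cont.continuousAt (h3.prodMk h4.continuousAt)
  exact h5.continuousWithinAt

theorem tkw_valA : IsOpenEmbedding (fun a : D.A => a.1) :=
  IsOpen.isOpenEmbedding_subtypeVal (D.isCompact_T₀.isClosed.isOpen_compl)

theorem tkw_valB : IsOpenEmbedding (fun b : D.B => (b.1.1, b.2)) :=
  IsOpenEmbedding.prodMap (IsOpen.isOpenEmbedding_subtypeVal (D.tkw_core_compact.isClosed.isOpen_compl))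
    IsOpenEmbedding.id

/-- TASK 10a. `W` has half space charts. -/
theorem W_charts (hα : IsOpenEmbedding D.α) (hβ : IsOpenEmbedding D.β)
    (hA : ∀ a : B3 × Circle, ∃ ψ : OpenPartialHomeomorph (B3 × Circle) (EuclideanHalfSpace 4),
      a ∈ ψ.source ∧ ∀ y ∈ ψ.source, (‖y.1.1.1‖ ^ 2 + y.1.1.2 ^ 2 = 1 ↔ (ψ y).1 0 = 0))
    (hB : ∀ b : S3 × unitInterval,
      ∃ ψ : OpenPartialHomeomorph (S3 × unitInterval) (EuclideanHalfSpace 4),
      b ∈ ψ.source ∧ ∀ y ∈ ψ.source, ((y.2 = 0 ∨ y.2 = 1) ↔ (ψ y).1 0 = 0)) (x : D.W) :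
    ∃ ψ : OpenPartialHomeomorph D.W (EuclideanHalfSpace 4),
      x ∈ ψ.source ∧ ∀ y ∈ ψ.source, (y ∈ D.Y₀ ∪ D.Y₁ ↔ (ψ y).1 0 = 0) := by
  rcases gl_cover _ _ _ _ x with ⟨a, rfl⟩ | ⟨b, rfl⟩
  · obtain ⟨ψ₀, h1, h2⟩ := hA a.1
    obtain ⟨ψ, h3, h4⟩ := tkw_chart D.gA (gl1_openEmbedding _ _ _ _ hα hβ) (fun a : D.A => a.1)
      D.tkw_valA ψ₀ a h1
    refine ⟨ψ, h3, fun y hy => ?_⟩
    obtain ⟨a', rfl, h5, h6⟩ := h4 y hy
    rw [D.gA_bdry, h6]
    exact h2 _ h5
  · obtain ⟨ψ₀, h1, h2⟩ := hB (b.1.1, b.2)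
    obtain ⟨ψ, h3, h4⟩ := tkw_chart D.gB (gl2_openEmbedding _ _ _ _ hα hβ)
      (fun b : D.B => (b.1.1, b.2)) D.tkw_valB ψ₀ b h1
    refine ⟨ψ, h3, fun y hy => ?_⟩
    obtain ⟨b', rfl, h5, h6⟩ := h4 y hy
    rw [D.gB_bdry, h6]
    exact h2 _ h5

/-- TASK 10b. `W` is second countable: `Sum.elim gA gB : A ⊕ B → W` is continuous, open and onto. -/
theorem W_second (hα : IsOpenEmbedding D.α) (hβ : IsOpenEmbedding D.β) :
    SecondCountableTopology D.W := by
  have o1 := gl1_openEmbedding D.α D.β D.α_inj D.β_inj hα hβ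
  have o2 := gl2_openEmbedding D.α D.β D.α_inj D.β_inj hα hβ
  have hq : IsOpenQuotientMap (Sum.elim D.gA D.gB) := by
    refine ⟨?_, ?_, ?_⟩
    · intro x
      rcases gl_cover _ _ _ _ x with ⟨a, rfl⟩ | ⟨b, rfl⟩
      · exact ⟨Sum.inl a, rfl⟩
      · exact ⟨Sum.inr b, rfl⟩
    · exact o1.continuous.sumElim o2.continuous
    · exact o1.isOpenMap.sumElim o2.isOpenMap
  exact hq.isQuotientMap.secondCountableTopology hq.isOpenMap

end Dat
end Pool.Agent.H753.Cob
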