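import Pool.Graph.R_pool_sql_team_seeded_620a6dc7.Helper60.Fin.Main
import Pool.Agent.H753.Cob.T_alpha
import Pool.Agent.H753.Cob.T_beta
import Pool.Agent.H753.Cob.T_graph
import Pool.Agent.H753.Cob.T_charts4
import Pool.Agent.H753.Cob.T_charts5
import Pool.Agent.H753.Cob.T_mv
import Pool.Agent.H753.Cob.T_circle
import Pool.Agent.H753.Cob.T_frame8
import Pool.Agent.H753.Cob.T_frame9
import Pool.Agent.H753.Cob.T_surg0
import Pool.Agent.H753.Cob.T_surg1
import Pool.Agent.H753.Cob.T_mer
import Pool.Agent.H753.Cob.T_dat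
import Pool.Agent.H753.Cob.T_wcharts
import Pool.Agent.H753.Cob.T_vp
import Pool.Agent.H753.Cob.T_link
import Pool.Agent.H753.Cob.T_A0
import Pool.Agent.H753.Cob.T_A1
import Pool.Agent.H753.Cob.T_WH

/-! # Assembly of the theorem -/

set_option autoImplicit false

namespace Pool.Agent.H753.Cob

open Set Topology
open Pool.Agent.Helper60.Fin (S3 Disc I01 d0 i0 i1 ZeroFramed Concordant Pattern stdEmb)
open Pool.Agent.Helper534.LS (HH hmap sub)

/-- the data can be chosen such that the core of the complementary torus links the pattern positively -/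
theorem exists_good (P : Pattern) (hw : P.WindOne) (hu : P.Unknotted) (e : Circle × Disc → S3)
    (he : Continuous e) (hi : Function.Injective e) :
    ∃ D : Dat, D.e = e ∧ (∀ u, D.c u = stdEmb (P.c u) (P.int u)) ∧
      D.gcore.Homotopic (ContinuousMap.id Circle) := by
  obtain ⟨D, h1, h2⟩ := exists_dat P hw hu e he hi
  rcases D.gcore_or D.hiso_F D.gcore (fun v => rfl) with h | h
  · exact ⟨D, h1, h2, h⟩
  · obtain ⟨D', e1, e2, e3⟩ := exists_conj D
    refine ⟨D', e1.trans h1, fun u => by rw [e2, h2], ?_⟩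
    let inv : C(Circle, Circle) := ⟨fun u => u⁻¹, by fun_prop⟩
    have h3 : D'.gcore = inv.comp D.gcore := by
      ext v : 1
      exact e3 _ (D.cl_notMem_P (by linarith [D.r₀_pos, D.r₀_lt, Real.pi_pos]) le_rfl)
    have h4 : inv.comp inv = ContinuousMap.id Circle := by
      ext v : 1
      exact inv_inv v
    rw [h3, ← h4]
    exact ContinuousMap.Homotopic.comp (ContinuousMap.Homotopic.refl inv) h

/-- concordance is symmetric -/
theorem concordant_symm {K J : Set S3} (h : Concordant K J) : Concordant J K := by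
  obtain ⟨h, hc, hi, h0, h1, hK, hJ⟩ := h
  let fl : I01 → I01 := fun t => ⟨1 - t.1, by linarith [t.2.2], by linarith [t.2.1]⟩
  have hfl : ∀ t, fl (fl t) = t := fun t => Subtype.ext (by simp [fl])
  have hflc : Continuous fl := by fun_prop
  have hfi : Function.Injective fl := fun a b hab => by rw [← hfl a, ← hfl b, hab]
  have fl0 : fl i0 = i1 := Subtype.ext (by simp [fl, i0, i1])
  have fl1 : fl i1 = i0 := Subtype.ext (by simp [fl, i0, i1])
  have f0 : ∀ t, fl t = i0 ↔ t = i1 := fun t =>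
    ⟨fun ht => by rw [← hfl t, ht, fl0], fun ht => by rw [ht, fl1]⟩
  have f1 : ∀ t, fl t = i1 ↔ t = i0 := fun t =>
    ⟨fun ht => by rw [← hfl t, ht, fl1], fun ht => by rw [ht, fl0]⟩
  refine ⟨fun p => ((h (p.1, fl p.2.1, p.2.2)).1, fl (h (p.1, fl p.2.1, p.2.2)).2), ?_, ?_, ?_, ?_,
    ?_, ?_⟩
  · have hg : Continuous fun p : Circle × I01 × Disc => h (p.1, fl p.2.1, p.2.2) :=
      hc.comp (by fun_prop)
    exact (continuous_fst.comp hg).prodMk (hflc.comp (continuous_snd.comp hg))
  · intro p p' hp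
    rw [Prod.mk.injEq] at hp
    have e1 := hi (Prod.ext hp.1 (hfi hp.2))
    simp only [Prod.mk.injEq] at e1
    exact Prod.ext e1.1 (Prod.ext (hfi e1.2.1) e1.2.2)
  · intro p
    show fl _ = i0 ↔ _
    rw [f0, h1]
    exact f1 p.2.1
  · intro p
    show fl _ = i1 ↔ _
    rw [f1, h0]
    exact f0 p.2.1
  · show (range fun u : Circle => (h (u, fl i0, d0)).1) = J
    rw [fl0]; exact hJ
  · show (range fun u : Circle => (h (u, fl i1, d0)).1) = K
    rw [fl1]; exact hK

/-- There are knots `K` and `J` which are not topologically concordant, whose zero-surgeries `Y₀` and `Y₁` are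
the ends of an integral homology cobordism in which the meridians are freely homotopic. -/
theorem main : ∃ (K J : Set S3) (eK eJ : Circle × Disc → S3) (hK : ZeroFramed eK K)
    (hJ : ZeroFramed eJ J), ¬ Concordant K J ∧ ¬ Concordant J K ∧ Cobordant hK.2.1 hJ.2.1 := by
  obtain ⟨P, hu, hw, K, e, hz, hn⟩ := Pool.Agent.Helper60.Fin.main
  obtain ⟨D, rfl, hc, hg⟩ := exists_good P hw hu e hz.1 hz.2.1
  have hKr : K = range fun u : Circle => D.e (u, d0) := hz.2.2.1.symm
  subst hKr
  have hα := D.α_open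
  have hβ := D.β_open
  have hO := D.eH_isOpen_image
  have hJ : ZeroFramed D.eJ (D.eH '' D.P) := zeroFramed_eJ D hz hO
  have hK : ZeroFramed D.eK (range fun u : Circle => D.e (u, d0)) :=
    zeroFramed_thin hz D.ρ₁_pos D.ρ₁_lt.le
  have hgi : HIso D.gcore := hiso_id.congr hg.symm
  rw [← eH_sat D P hc] at hn
  refine ⟨range fun u : Circle => D.e (u, d0), D.eH '' D.P, D.eK, D.eJ, hK, hJ,
    fun h => hn (concordant_symm h), hn, D.W, inferInstance, D.Y₀, D.Y₁, D.i₀, D.j₀, D.i₁, D.j₁,
    ⟨?_, ?_, ?_, ?_, ?_, ?_, ?_⟩, D.surgery₀, D.surgery₁ hO, D.orient hα hβ, D.meridians hg⟩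
  · exact D.W_compact hα hβ hO
  · exact gl_t2 _ _ _ _ hα hβ D.graph_closed
  · exact D.W_second hα hβ
  · exact D.Y_disjoint
  · exact D.W_charts hα hβ Dat.chart_B3C Dat.chart_S3I
  · exact D.hom_Y₀ hα hβ (D.hiso_A₀ D.gcore (fun v => rfl) hgi)
  · exact D.hom_Y₁ hα hβ (D.hiso_A₁ D.hiso_pr D.exists_G_homeo D.hiso_NP)

end Pool.Agent.H753.Cob
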