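import Pool.Agent.H753.Cob.Ends

/-! # The ends of `W` in the two pieces -/

set_option autoImplicit false
set_option linter.unusedSectionVars false

namespace Pool.Agent.H753.Cob

open Set Topology
open Pool.Agent.Helper60.Fin (S3 Disc d0 ZeroFramed)

namespace Dat

variable (D : Dat)

theorem α_val (n : D.N) : (D.α n).1 = colZ (n.2.2.1 * Real.sin (Real.pi * n.2.2.2))
    (D.G (cl n.1 n.2.1 (Real.pi / 4 + n.2.2.1 * Real.cos (Real.pi * n.2.2.2)))) := rfl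

theorem lat_collar (n : D.N) :
    lat (cl n.1 n.2.1 (Real.pi / 4 + n.2.2.1 * Real.cos (Real.pi * n.2.2.2))) =
      Real.pi / 4 + n.2.2.1 * Real.cos (Real.pi * n.2.2.2) := by
  have h1 := ang_mem n
  have h2 := D.r₀_lt
  exact lat_cl _ _ (by linarith) (by linarith)

theorem collar_notMem_P (n : D.N) :
    cl n.1 n.2.1 (Real.pi / 4 + n.2.2.1 * Real.cos (Real.pi * n.2.2.2)) ∉ D.P :=
  D.notMem_P_of_lat (by rw [lat_collar]; exact (ang_mem n).1.le)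

/-- a boundary point of the collar is at one of the two ends -/
theorem sin_eq_zero (n : D.N) (h : Real.sin (Real.pi * n.2.2.2) = 0) :
    n.2.2.2 = 0 ∨ n.2.2.2 = 1 := by
  by_contra hc
  push Not at hc
  have h0 : 0 < (n.2.2.2 : ℝ) := lt_of_le_of_ne n.2.2.2.2.1 fun h => hc.1 (Subtype.ext h.symm)
  have h1 : (n.2.2.2 : ℝ) < 1 := lt_of_le_of_ne n.2.2.2.2.2 fun h => hc.2 (Subtype.ext h)
  have := Real.sin_pos_of_pos_of_lt_pi (mul_pos Real.pi_pos h0) (by nlinarith [Real.pi_pos])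
  linarith

theorem α_A₀ (n : D.N) : D.α n ∈ D.A₀ ↔ n.2.2.2 = 0 := by
  have hr := n.2.2.1.2.1
  constructor
  · rintro ⟨z, hz, h⟩
    rw [α_val] at h
    obtain ⟨e1, e2⟩ := colZ_inj (tau_nonneg n) (tau_lt n) le_rfl one_pos h
    have e3 := D.G_inj (D.collar_notMem_P n) (D.notMem_P_of_lat (by linarith [D.r₀_pos])) e2
    rw [← e3, lat_collar] at hz
    have h5 : Real.sin (Real.pi * n.2.2.2) = 0 := by
      rcases mul_eq_zero.1 e1 with h | h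
      · exact absurd h hr.ne'
      · exact h
    rcases D.sin_eq_zero n h5 with h | h
    · exact h
    · rw [h] at hz
      simp only [Icc.coe_one, mul_one, Real.cos_pi] at hz
      linarith
  · intro h
    refine ⟨cl n.1 n.2.1 (Real.pi / 4 + n.2.2.1 * Real.cos (Real.pi * n.2.2.2)), ?_, ?_⟩
    · rw [lat_collar, h]
      simp only [Icc.coe_zero, mul_zero, Real.cos_zero, mul_one]
      linarith
    · rw [α_val, h]
      simp

theorem α_A₁ (n : D.N) : D.α n ∈ D.A₁ ↔ n.2.2.2 = 1 := by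
  have hr := n.2.2.1.2.1
  constructor
  · rintro ⟨p, hp, h⟩
    rw [α_val] at h
    obtain ⟨e1, e2⟩ := colZ_inj (tau_nonneg n) (tau_lt n) le_rfl one_pos h
    have h5 : Real.sin (Real.pi * n.2.2.2) = 0 := by
      rcases mul_eq_zero.1 e1 with h | h
      · exact absurd h hr.ne'
      · exact h
    rcases D.sin_eq_zero n h5 with h | h
    · exfalso
      refine hp _ ?_ e2
      rw [lat_collar, h]
      simp only [Icc.coe_zero, mul_zero, Real.cos_zero, mul_one]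
      linarith
    · exact h
  · intro h
    refine ⟨D.G (cl n.1 n.2.1 (Real.pi / 4 + n.2.2.1 * Real.cos (Real.pi * n.2.2.2))), ?_, ?_⟩
    · intro z hz e
      have e3 := D.G_inj (D.notMem_P_of_lat (by linarith [D.r₀_pos])) (D.collar_notMem_P n) e
      rw [e3, lat_collar, h] at hz
      simp only [Icc.coe_one, mul_one, Real.cos_pi] at hz
      linarith
    · rw [α_val, h]
      simp

theorem gA_Y₀ (a : D.A) : D.gA a ∈ D.Y₀ ↔ a ∈ D.A₀ := by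
  constructor
  · rintro (⟨a', ha', h⟩ | ⟨b, hb, h⟩)
    · rwa [← gl1_inj _ _ _ _ h]
    · obtain ⟨n, rfl, rfl⟩ := (gl1_eq_gl2 _ _ _ _ _ _).1 h.symm
      exact (D.α_A₀ n).2 hb
  · intro h; exact Or.inl ⟨a, h, rfl⟩

theorem gA_Y₁ (a : D.A) : D.gA a ∈ D.Y₁ ↔ a ∈ D.A₁ := by
  constructor
  · rintro (⟨a', ha', h⟩ | ⟨b, hb, h⟩)
    · rwa [← gl1_inj _ _ _ _ h]
    · obtain ⟨n, rfl, rfl⟩ := (gl1_eq_gl2 _ _ _ _ _ _).1 h.symm
      exact (D.α_A₁ n).2 hb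
  · intro h; exact Or.inl ⟨a, h, rfl⟩

theorem gB_Y₀ (b : D.B) : D.gB b ∈ D.Y₀ ↔ b.2 = 0 := by
  constructor
  · rintro (⟨a', ha', h⟩ | ⟨b', hb', h⟩)
    · obtain ⟨n, rfl, rfl⟩ := (gl1_eq_gl2 _ _ _ _ _ _).1 h
      exact (D.α_A₀ n).1 ha'
    · rw [← gl2_inj _ _ _ _ h]; exact hb'
  · intro h; exact Or.inr ⟨b, h, rfl⟩

theorem gB_Y₁ (b : D.B) : D.gB b ∈ D.Y₁ ↔ b.2 = 1 := by
  constructor
  · rintro (⟨a', ha', h⟩ | ⟨b', hb', h⟩)
    · obtain ⟨n, rfl, rfl⟩ := (gl1_eq_gl2 _ _ _ _ _ _).1 h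
      exact (D.α_A₁ n).1 ha'
    · rw [← gl2_inj _ _ _ _ h]; exact hb'
  · intro h; exact Or.inr ⟨b, h, rfl⟩

/-- boundary points of the ball come from the sphere -/
theorem exists_colZ {a : B3 × Circle} (h : ‖a.1.1.1‖ ^ 2 + a.1.1.2 ^ 2 = 1) :
    ∃ p : S2 × Circle, a = colZ 0 p := by
  refine ⟨(⟨a.1.1, h⟩, a.2), ?_⟩
  apply Prod.ext
  · apply Subtype.ext
    rw [colZ_val le_rfl zero_le_one]
    simp
  · rfl

theorem colZ_zero (p : S2 × Circle) : ‖(colZ 0 p).1.1.1‖ ^ 2 + (colZ 0 p).1.1.2 ^ 2 = 1 := by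
  rw [colZ_val le_rfl zero_le_one]
  simpa using p.1.2

theorem A_union (a : D.A) :
    (a ∈ D.A₀ ∨ a ∈ D.A₁) ↔ ‖a.1.1.1.1‖ ^ 2 + a.1.1.1.2 ^ 2 = 1 := by
  constructor
  · rintro (⟨z, -, h⟩ | ⟨p, -, h⟩)
    · rw [h]; exact colZ_zero _
    · rw [h]; exact colZ_zero _
  · intro h
    obtain ⟨p, hp⟩ := exists_colZ h
    by_cases hz : ∃ z, Real.pi / 4 ≤ lat z ∧ D.G z = p
    · obtain ⟨z, hz, rfl⟩ := hz
      left
      refine ⟨z, lt_of_le_of_ne hz fun h0 => a.2 ?_, hp⟩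
      rw [hp]
      refine ⟨unitC z.1.1, unitC z.1.2, ?_⟩
      rw [h0, cl_lat]
    · push Not at hz
      right
      exact ⟨p, hz, hp⟩

theorem A_disj (a : D.A) (h0 : a ∈ D.A₀) (h1 : a ∈ D.A₁) : False := by
  obtain ⟨z, hz, e⟩ := h0
  obtain ⟨p, hp, e'⟩ := h1
  rw [e] at e'
  exact hp z hz.le (colZ_inj le_rfl one_pos le_rfl one_pos e').2

theorem Y_disjoint : Disjoint D.Y₀ D.Y₁ := by
  rw [Set.disjoint_left]
  intro x h0 h1
  rcases gl_cover _ _ _ _ x with ⟨a, rfl⟩ | ⟨b, rfl⟩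
  · exact D.A_disj a ((D.gA_Y₀ a).1 h0) ((D.gA_Y₁ a).1 h1)
  · have e0 := (D.gB_Y₀ b).1 h0
    have e1 := (D.gB_Y₁ b).1 h1
    rw [e0] at e1
    exact zero_ne_one e1

theorem gA_bdry (a : D.A) : D.gA a ∈ D.Y₀ ∪ D.Y₁ ↔ ‖a.1.1.1.1‖ ^ 2 + a.1.1.1.2 ^ 2 = 1 := by
  rw [← D.A_union, mem_union, D.gA_Y₀, D.gA_Y₁]

theorem gB_bdry (b : D.B) : D.gB b ∈ D.Y₀ ∪ D.Y₁ ↔ (b.2 = 0 ∨ b.2 = 1) := by
  rw [mem_union, D.gB_Y₀, D.gB_Y₁]

/-- the collar points of the end at `t = 0` -/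
theorem glue_zero {u v : Circle} {r : ℝ} (h0 : 0 < r) (h1 : r < D.r₀)
    (hB : D.eH (cl u v (Real.pi / 4 - r)) ∉ D.core)
    (hA : colZ 0 (D.G (cl u v (Real.pi / 4 + r))) ∉ D.T₀) :
    D.gB (⟨D.eH (cl u v (Real.pi / 4 - r)), hB⟩, 0) =
      D.gA ⟨colZ 0 (D.G (cl u v (Real.pi / 4 + r))), hA⟩ := by
  symm
  rw [gl1_eq_gl2]
  refine ⟨(u, v, ⟨r, h0, h1⟩, 0), ?_, rfl⟩
  apply Subtype.ext
  rw [α_val]
  simp

/-- the collar points of the end at `t = 1` -/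
theorem glue_one {u v : Circle} {r : ℝ} (h0 : 0 < r) (h1 : r < D.r₀)
    (hB : D.eH (cl u v (Real.pi / 4 - r)) ∉ D.core)
    (hA : colZ 0 (D.G (cl u v (Real.pi / 4 - r))) ∉ D.T₀) :
    D.gB (⟨D.eH (cl u v (Real.pi / 4 - r)), hB⟩, 1) =
      D.gA ⟨colZ 0 (D.G (cl u v (Real.pi / 4 - r))), hA⟩ := by
  symm
  rw [gl1_eq_gl2]
  refine ⟨(u, v, ⟨r, h0, h1⟩, 1), ?_, rfl⟩
  apply Subtype.ext
  rw [α_val]
  simp [sub_eq_add_neg]

end Dat

end Pool.Agent.H753.Cob
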