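import Pool.Agent.H753.Cob.Sets
set_option autoImplicit false
namespace Pool.Agent.H753.Cob
open Set Topology
open Pool.Agent.Helper60.Fin (S3 Disc d0 ZeroFramed Pattern stdEmb)

/-- the disc is compact -/
theorem tks_disc : CompactSpace Disc := by
  have h : IsCompact (Metric.closedBall (0 : ℂ) 1) := isCompact_closedBall 0 1
  have e : Metric.closedBall (0 : ℂ) 1 = {w : ℂ | ‖w‖ ≤ 1} := by
    ext w
    simp
  rw [e] at h
  exact isCompact_iff_compactSpace.1 h

theorem tks_sqrt_pos {w : ℂ} (h : ‖w‖ < 1) : 0 < Real.sqrt (1 - ‖w‖ ^ 2 / 2) := by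
  apply Real.sqrt_pos.2
  have h0 := norm_nonneg w
  nlinarith

theorem tks_unitC_std (p : Circle × ℂ) (h : ‖p.2‖ < 1) : unitC (stdEmb p h).1.1 = p.1 :=
  unitC_mul_pos p.1 (tks_sqrt_pos h)

theorem tks_std_snd (p : Circle × ℂ) (h : ‖p.2‖ < 1) :
    ((Real.sqrt 2 : ℝ) : ℂ) * (stdEmb p h).1.2 = p.2 := by
  show ((Real.sqrt 2 : ℝ) : ℂ) * (p.2 / Real.sqrt 2) = p.2
  have h2 : ((Real.sqrt 2 : ℝ) : ℂ) ≠ 0 := by
    exact_mod_cast (by positivity : Real.sqrt 2 ≠ 0)
  field_simp

theorem tks_std_inj {p p' : Circle × ℂ} {h : ‖p.2‖ < 1} {h' : ‖p'.2‖ < 1}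
    (e : stdEmb p h = stdEmb p' h') : p = p' := by
  apply Prod.ext
  · rw [← tks_unitC_std p h, ← tks_unitC_std p' h', e]
  · rw [← tks_std_snd p h, ← tks_std_snd p' h', e]

theorem tks_lat_std (p : Circle × ℂ) (h : ‖p.2‖ < 1) : lat (stdEmb p h) < Real.pi / 4 := by
  have h1 : Real.sin (lat (stdEmb p h)) < Real.sin (Real.pi / 4) := by
    rw [sin_lat, Dat.sin_pi_div_four]
    show ‖p.2 / ((Real.sqrt 2 : ℝ) : ℂ)‖ < _
    have h2 : 0 < Real.sqrt 2 := by positivity
    rw [norm_div, Complex.norm_real, Real.norm_eq_abs, abs_of_pos h2]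
    exact div_lt_div_of_pos_right h h2
  by_contra hcon
  push Not at hcon
  have h3 := Real.sin_le_sin_of_le_of_le_pi_div_two (by linarith [Real.pi_pos]) (lat_le _) hcon
  linarith

theorem tks_cont_c (P : Pattern) : Continuous fun u => stdEmb (P.c u) (P.int u) := by
  have h := P.cont
  unfold stdEmb
  apply Continuous.subtype_mk
  apply Continuous.prodMk
  · have h1 : Continuous fun u => (P.c u).1 := continuous_fst.comp h
    have h2 : Continuous fun u => (P.c u).2 := continuous_snd.comp h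
    exact (continuous_subtype_val.comp h1).mul (Complex.continuous_ofReal.comp
      (Real.continuous_sqrt.comp (continuous_const.sub ((h2.norm.pow 2).div_const 2))))
  · exact (continuous_snd.comp h).div_const _

/-- a periodic function descends to the circle -/
theorem tks_descend (τ : ℝ → ℝ) (hτ : Continuous τ) (hp : ∀ t, τ (t + 1) = τ t) :
    ∃ f : Circle → ℝ, Continuous f ∧ ∀ t, f (Circle.exp (2 * Real.pi * t)) = τ t := by
  have hper : Function.Periodic τ 1 := hp
  obtain ⟨g, hg⟩ : ∃ g : AddCircle (1 : ℝ) → ℝ, g = hper.lift := ⟨_, rfl⟩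
  have hgc : Continuous g := by
    rw [hg]
    exact hτ.quotient_liftOn' _
  refine ⟨fun u => g ((AddCircle.homeomorphCircle (T := (1 : ℝ)) one_ne_zero).symm u),
    hgc.comp (Homeomorph.continuous _), fun t => ?_⟩
  have h1 : Circle.exp (2 * Real.pi * t) =
      AddCircle.homeomorphCircle (T := (1 : ℝ)) one_ne_zero (t : AddCircle (1 : ℝ)) := by
    rw [AddCircle.homeomorphCircle_apply, AddCircle.toCircle_apply_mk, div_one]
  show g ((AddCircle.homeomorphCircle (T := (1 : ℝ)) one_ne_zero).symm _) = τ t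
  rw [h1, Homeomorph.symm_apply_apply, hg]
  exact hper.lift_coe t

theorem tks_exp_surj (u : Circle) : ∃ t : ℝ, Circle.exp (2 * Real.pi * t) = u := by
  refine ⟨Complex.arg u / (2 * Real.pi), ?_⟩
  have h : 2 * Real.pi * (Complex.arg u / (2 * Real.pi)) = Complex.arg u := by
    have := Real.pi_pos
    field_simp
  rw [h]
  exact Circle.exp_arg u

theorem tks_wind (P : Pattern) (hw : P.WindOne) : ∃ h : C(Circle, Circle),
    (∀ u, h u = unitC (stdEmb (P.c u) (P.int u)).1.1) ∧
      h.Homotopic (ContinuousMap.id Circle) := by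
  obtain ⟨σ, hσ, hσ1, hσ2⟩ := hw
  obtain ⟨f, hf, hf1⟩ := tks_descend (fun t => σ t - t) (hσ.sub continuous_id) (fun t => by
    rw [hσ1]
    ring)
  have h1 : Continuous fun u => (P.c u).1 := continuous_fst.comp P.cont
  have key : ∀ u : Circle, (P.c u).1 = u * Circle.exp (2 * Real.pi * f u) := by
    intro u
    obtain ⟨t, rfl⟩ := tks_exp_surj u
    rw [hσ2, hf1, ← Circle.exp_add]
    congr 1
    ring
  refine ⟨⟨fun u => (P.c u).1, h1⟩, fun u => (tks_unitC_std _ _).symm, ⟨?_⟩⟩
  refine
    { toFun := fun x => x.2 * Circle.exp (2 * Real.pi * ((1 - (x.1 : ℝ)) * f x.2))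
      continuous_toFun := ?_
      map_zero_left := ?_
      map_one_left := ?_ }
  · have h2 : Continuous fun x : unitInterval × Circle => (x.1 : ℝ) :=
      continuous_subtype_val.comp continuous_fst
    have h3 : Continuous fun x : unitInterval × Circle => f x.2 := hf.comp continuous_snd
    exact continuous_snd.mul (Circle.exp.continuous.comp
      (continuous_const.mul ((continuous_const.sub h2).mul h3)))
  · intro u
    show u * Circle.exp (2 * Real.pi * ((1 - ((0 : unitInterval) : ℝ)) * f u)) = (P.c u).1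
    rw [key]
    simp
  · intro u
    show u * Circle.exp (2 * Real.pi * ((1 - ((1 : unitInterval) : ℝ)) * f u)) = u
    simp

theorem tks_gam_cont : Continuous fun x : ℝ × (Circle × Disc) => gam x.1 x.2 := by
  unfold gam
  apply Continuous.subtype_mk
  have h0 : Continuous fun x : ℝ × (Circle × Disc) => ((x.1 : ℝ) : ℂ) * (x.2.2.1 : ℂ) :=
    (Complex.continuous_ofReal.comp continuous_fst).mul
      (continuous_subtype_val.comp (continuous_snd.comp continuous_snd))
  have h1 : Continuous fun x : ℝ × (Circle × Disc) => (dsc (x.1 * x.2.2.1)).1 :=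
    continuous_subtype_val.comp (continuous_dsc.comp h0)
  apply Continuous.prodMk
  · exact (continuous_subtype_val.comp (continuous_fst.comp continuous_snd)).mul
      (Complex.continuous_ofReal.comp (Real.continuous_sqrt.comp
        (continuous_const.sub (h1.norm.pow 2))))
  · exact h1

/-- TASK 14a. The data of an unknotted pattern of winding number one (definitions of `Pattern`, `WindOne`, `Unknotted`, `stdEmb`, `sat`:
`Pool/Graph/R_pool_sql_team_seeded_620a6dc7/Helper60/Fin/Stmt.lean`). `c u = stdEmb (P.c u) (P.int u)`, so that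
`sin (lat (c u)) = ‖(P.c u).2‖ / √2 < 1/√2` and, by compactness of the circle, there is an `r₀`. `unitC (c u).1.1 = (P.c u).1`,
homotopic to the identity by `WindOne`: the straight line homotopy from `σ` to `t ↦ t` descends to the circle. `φ` from
`Unknotted`. `ε`: `φ⁻¹ (gam 0 p) ∈ range c` for all `p`, `gam` is continuous in `(ε, p)`, `Circle × Disc` is compact,
`{lat < π/4 - r₀}` is open; take `ε` small. -/
theorem exists_dat (P : Pattern) (hw : P.WindOne) (hu : P.Unknotted) (e : Circle × Disc → S3)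
    (he : Continuous e) (hi : Function.Injective e) :
    ∃ D : Dat, D.e = e ∧ ∀ u, D.c u = stdEmb (P.c u) (P.int u) := by
  obtain ⟨c, hc⟩ : ∃ c : Circle → S3, c = fun u => stdEmb (P.c u) (P.int u) := ⟨_, rfl⟩
  have hc1 : Continuous c := by rw [hc]; exact tks_cont_c P
  have hc2 : Function.Injective c := by
    intro u v h
    rw [hc] at h
    exact P.inj (tks_std_inj h)
  obtain ⟨φ, hφ⟩ := hu
  -- the collar
  obtain ⟨u0, -, hu0⟩ := IsCompact.exists_isMaxOn (isCompact_univ : IsCompact (univ : Set Circle))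
    ⟨1, trivial⟩ (continuous_lat.comp hc1).continuousOn
  have hm : lat (c u0) < Real.pi / 4 := by
    rw [hc]
    exact tks_lat_std _ _
  have hm0 := lat_nonneg (c u0)
  obtain ⟨r₀, hr₀⟩ : ∃ r₀ : ℝ, r₀ = (Real.pi / 4 - lat (c u0)) / 2 := ⟨_, rfl⟩
  have hr1 : 0 < r₀ := by rw [hr₀]; linarith
  have hr2 : r₀ < Real.pi / 4 := by rw [hr₀]; linarith [Real.pi_pos]
  have hin : ∀ u, lat (c u) < Real.pi / 4 - r₀ := by
    intro u
    have h1 : lat (c u) ≤ lat (c u0) := hu0 (mem_univ u)
    rw [hr₀]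
    linarith
  have hφc : ∀ z : S3, (φ z).1.2 = 0 ↔ z ∈ range c := by
    intro z
    have h1 : (φ z).1.2 = 0 ↔ φ z ∈ φ '' range c := by
      rw [hc, hφ]
      rfl
    rw [h1]
    exact φ.injective.mem_set_image
  -- the tubular neighbourhood
  have hev : ∀ᶠ ε in 𝓝 (0 : ℝ), ∀ p ∈ (univ : Set (Circle × Disc)),
      lat (φ.symm (gam ε p)) < Real.pi / 4 - r₀ := by
    have := tks_disc
    refine isCompact_univ.eventually_forall_of_forall_eventually fun p _ => ?_
    have h1 : Continuous fun x : ℝ × (Circle × Disc) => lat (φ.symm (gam x.1 x.2)) :=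
      continuous_lat.comp (φ.symm.continuous.comp tks_gam_cont)
    have h2 : lat (φ.symm (gam 0 p)) < Real.pi / 4 - r₀ := by
      have h3 : (φ (φ.symm (gam 0 p))).1.2 = 0 := by
        rw [Homeomorph.apply_symm_apply]
        show (dsc (((0 : ℝ) : ℂ) * p.2.1)).1 = 0
        rw [Complex.ofReal_zero, zero_mul, dsc_val (by simp)]
      obtain ⟨u, hu⟩ := (hφc _).1 h3
      rw [← hu]
      exact hin u
    exact h1.continuousAt.eventually_lt continuousAt_const h2
  obtain ⟨ε, hε1, hε2⟩ := ((hev.filter_mono (nhdsWithin_le_nhds (s := Ioi (0 : ℝ)))).and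
    (Ioo_mem_nhdsGT one_pos)).exists
  exact ⟨
    { c := c
      c_cont := hc1
      c_inj := hc2
      r₀ := r₀
      r₀_pos := hr1
      r₀_lt := hr2
      c_in := hin
      c_wind := by rw [hc]; exact tks_wind P hw
      φ := φ
      φ_c := hφc
      ε := ε
      ε_pos := hε2.1
      ε_lt := hε2.2
      ε_in := fun p => hε1 p (mem_univ p)
      e := e
      e_cont := he
      e_inj := hi }, rfl, fun u => by simp only [hc]⟩

/-- TASK 14b. `eH (stdEmb p) = e p` -/
theorem eH_sat (D : Dat) (P : Pattern) (h : ∀ u, D.c u = stdEmb (P.c u) (P.int u)) :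
    D.eH '' D.P = P.sat D.e := by
  have key : ∀ u, D.eH (D.c u) = D.e ((P.c u).1, ⟨(P.c u).2, (P.int u).le⟩) := by
    intro u
    rw [h, Dat.eH, tks_unitC_std, tks_std_snd]
    congr 2
    exact Subtype.ext (dsc_val (P.int u).le)
  unfold Dat.P Pattern.sat
  rw [← range_comp]
  exact congrArg range (funext key)

/-- conjugation of the second coordinate -/
noncomputable def tks_conj : S3 ≃ₜ S3 where
  toFun z := ⟨(z.1.1, starRingEnd ℂ z.1.2), by
    have := z.2
    simpa using this⟩
  invFun z := ⟨(z.1.1, starRingEnd ℂ z.1.2), by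
    have := z.2
    simpa using this⟩
  left_inv z := by
    apply Subtype.ext
    apply Prod.ext
    · rfl
    · simp
  right_inv z := by
    apply Subtype.ext
    apply Prod.ext
    · rfl
    · simp
  continuous_toFun := by
    apply Continuous.subtype_mk
    exact (continuous_fst.comp continuous_subtype_val).prodMk
      (Complex.continuous_conj.comp (continuous_snd.comp continuous_subtype_val))
  continuous_invFun := by
    apply Continuous.subtype_mk
    exact (continuous_fst.comp continuous_subtype_val).prodMk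
      (Complex.continuous_conj.comp (continuous_snd.comp continuous_subtype_val))

theorem tks_conj_1 (z : S3) : (tks_conj z).1.1 = z.1.1 := rfl
theorem tks_conj_2 (z : S3) : (tks_conj z).1.2 = starRingEnd ℂ z.1.2 := rfl

theorem tks_dsc_conj (w : ℂ) : (dsc (starRingEnd ℂ w)).1 = starRingEnd ℂ (dsc w).1 := by
  show starRingEnd ℂ w / ((max 1 ‖starRingEnd ℂ w‖ : ℝ) : ℂ) =
    starRingEnd ℂ (w / ((max 1 ‖w‖ : ℝ) : ℂ))
  rw [map_div₀, Complex.conj_ofReal, RCLike.norm_conj]

/-- conjugation of the disc -/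
def tks_dc (w : Disc) : Disc := ⟨starRingEnd ℂ w.1, by rw [RCLike.norm_conj]; exact w.2⟩

theorem tks_gam_conj (ε : ℝ) (p : Circle × Disc) :
    tks_conj (gam ε p) = gam ε (p.1, tks_dc p.2) := by
  have h : (dsc (ε * (tks_dc p.2).1)).1 = starRingEnd ℂ (dsc (ε * p.2.1)).1 := by
    rw [← tks_dsc_conj, map_mul, Complex.conj_ofReal]
    rfl
  apply Subtype.ext
  apply Prod.ext
  · show (p.1 : ℂ) * Real.sqrt (1 - ‖(dsc (ε * p.2.1)).1‖ ^ 2) =
      (p.1 : ℂ) * Real.sqrt (1 - ‖(dsc (ε * (tks_dc p.2).1)).1‖ ^ 2)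
    rw [h, RCLike.norm_conj]
  · show starRingEnd ℂ (dsc (ε * p.2.1)).1 = (dsc (ε * (tks_dc p.2).1)).1
    rw [h]

/-- TASK 14c. Conjugating the second coordinate of `φ`: `φ' z = ((φ z)₁, conj (φ z)₂)`.
(`unitC (conj w) = (unitC w)⁻¹` for `w ≠ 0`; `φ'⁻¹ (gam ε (u, w)) = φ⁻¹ (gam ε (u, conj w))`.) -/
theorem exists_conj (D : Dat) : ∃ D' : Dat, D'.e = D.e ∧ D'.c = D.c ∧
    ∀ z, z ∉ D.P → unitC (D'.φ z).1.2 = (unitC (D.φ z).1.2)⁻¹ := by
  refine ⟨
    { c := D.c
      c_cont := D.c_cont
      c_inj := D.c_inj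
      r₀ := D.r₀
      r₀_pos := D.r₀_pos
      r₀_lt := D.r₀_lt
      c_in := D.c_in
      c_wind := D.c_wind
      φ := D.φ.trans tks_conj
      φ_c := fun z => by
        rw [← D.φ_c z]
        show starRingEnd ℂ (D.φ z).1.2 = 0 ↔ _
        simp
      ε := D.ε
      ε_pos := D.ε_pos
      ε_lt := D.ε_lt
      ε_in := fun p => by
        have h : (D.φ.trans tks_conj).symm (gam D.ε p) = D.φ.symm (gam D.ε (p.1, tks_dc p.2)) := by
          rw [← tks_gam_conj]
          rfl
        rw [h]
        exact D.ε_in _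
      e := D.e
      e_cont := D.e_cont
      e_inj := D.e_inj }, rfl, rfl, ?_⟩
  intro z hz
  have h0 := D.φ_ne hz
  show unitC (starRingEnd ℂ (D.φ z).1.2) = (unitC (D.φ z).1.2)⁻¹
  have h1 : starRingEnd ℂ (D.φ z).1.2 ≠ 0 := by simpa using h0
  apply Circle.ext
  rw [Circle.coe_inv_eq_conj, unitC_coe h0, unitC_coe h1, map_div₀, Complex.conj_ofReal,
    RCLike.norm_conj]

end Pool.Agent.H753.Cob
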