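import Pool.Agent.H753.Cob.Sets
import Pool.Agent.H753.Cob.HIso

/-! # The complement of the pattern in the open solid torus -/

set_option autoImplicit false
set_option linter.unusedSectionVars false

namespace Pool.Agent.H753.Cob

open Set Topology
open Pool.Agent.Helper60.Fin (S3 Disc d0 ZeroFramed)
open Pool.Agent.Helper534.LS (HH hmap sub)

namespace Dat

variable (D : Dat)

/-- the complement of the pattern in the open solid torus -/
def VP : Set S3 := {z | lat z < Real.pi / 4 ∧ z ∉ D.P}
/-- the punctured open tube around the pattern -/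
def NP : Set S3 := {z | z ∉ D.P ∧ ‖(D.φ z).1.2‖ < D.ε}

theorem NP_sub : D.NP ⊆ D.VP := fun z hz => by
  refine ⟨?_, hz.1⟩
  have := D.lat_of_small hz.2.le
  linarith [D.r₀_pos]

/-- the inclusion `NP → VP` -/
def incNP : C(D.NP, D.VP) := ⟨Set.inclusion D.NP_sub, continuous_inclusion D.NP_sub⟩

theorem ne_of_lat {z : S3} (h : lat z < Real.pi / 4) : z.1.1 ≠ 0 := ne_of_V (z := z) h.le

theorem F_cont : Continuous fun z : D.VP => (unitC (D.φ z.1).1.2, unitC z.1.1.1) := by
  rw [continuous_iff_continuousAt]
  intro z
  apply ContinuousAt.prodMk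
  · have h : Continuous fun z : D.VP => (D.φ z.1).1.2 := by fun_prop
    exact ContinuousAt.comp (f := fun z : D.VP => (D.φ z.1).1.2)
      (continuousAt_unitC (D.φ_ne z.2.2)) h.continuousAt
  · have h : Continuous fun z : D.VP => z.1.1.1 := by fun_prop
    exact ContinuousAt.comp (f := fun z : D.VP => z.1.1.1)
      (continuousAt_unitC (ne_of_lat z.2.1)) h.continuousAt

/-- the two circle valued maps on the complement of the pattern in the solid torus -/
noncomputable def F : C(D.VP, Circle × Circle) := ⟨_, D.F_cont⟩

end Dat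

end Pool.Agent.H753.Cob
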